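import Pool.Agent.SYH.Bas

/-!
# SYH/WGu: uniqueness of the weak gradient

`∫ (g a - g' a) ψ = 0` for all test functions on the open set `Ω`: Mathlib
`IsOpen.ae_eq_zero_of_integral_contDiff_smul_eq_zero` (with `LocallyIntegrableOn` on `Ω`, from `LpL 1`).
-/

open MeasureTheory Set Filter Topology
open scoped ContDiff Matrix ENNReal

namespace Pool.Agent.SYH

variable {Ω : Set R4} {u : R4 → ℝ} {g g' : R4 → R4}

theorem WG.unique (hΩ : IsOpen Ω) (hg : ∀ a, LpL 1 Ω (fun x => g x a))
    (hg' : ∀ a, LpL 1 Ω (fun x => g' x a)) (h : WG Ω u g) (h' : WG Ω u g') :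
    ∀ᵐ x, x ∈ Ω → g' x = g x := by
  have key : ∀ a, ∀ᵐ x, x ∈ Ω → g' x a - g x a = 0 := by
    intro a
    refine hΩ.ae_eq_zero_of_integral_contDiff_smul_eq_zero ?_ ?_
    · rw [locallyIntegrableOn_iff hΩ.isLocallyClosed]
      intro K hK hKc
      have h1 : IntegrableOn (fun x => g x a) K := memLp_one_iff_integrable.1 (hg a K hK hKc)
      have h2 : IntegrableOn (fun x => g' x a) K := memLp_one_iff_integrable.1 (hg' a K hK hKc)
      exact h2.sub h1
    · intro ψ h1 h2 h3
      have e1 := h ψ ⟨h1, h2, h3⟩ a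
      have e2 := h' ψ ⟨h1, h2, h3⟩ a
      have i1 : Integrable (fun x => g x a * ψ x) := (hg a).int h1.continuous h2 h3
      have i2 : Integrable (fun x => g' x a * ψ x) := (hg' a).int h1.continuous h2 h3
      have e3 : ∀ x, ψ x • (g' x a - g x a) = g' x a * ψ x - g x a * ψ x := by
        intro x
        rw [smul_eq_mul]
        ring
      simp only [e3]
      rw [integral_sub i2 i1]
      linarith
  filter_upwards [ae_all_iff.2 key] with x hx hx'
  funext a
  linarith [hx a hx']

end Pool.Agent.SYH
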