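import Pool.Agent.SYH.DfA

/-!
# SYH/SgM (part II): homeomorphisms with `φ^* ω₀ = ± ω₀` almost everywhere, and volume

`det_of_symp_pm`: `Gᵀ J G = ± J` gives `det G ^ 2 = 1` (`det J = det (-J) = 1`).  `mpre_pm`: as in `SYH/MPr`:
(1) `volume A ≤ volume (e '' A)` for measurable `A ⊆ e.source`: let `A' ⊆ A` be (a measurable subset of full measure of) the
set of points where `e` is differentiable with derivative the matrix `G x`, and `Gᵀ J G = ± J` (`diff_ae` for the four
components).  Mathlib: `lintegral_abs_det_fderiv_eq_addHaar_image` on `A'` (`e` is injective there):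
`volume (e '' A') = ∫_{A'} |det| = volume A' = volume A`.
(2) apply (1) to `e.symm` and `e '' A`: `volume (e '' A) ≤ volume (e.symm '' (e '' A)) = volume A`.
-/

open MeasureTheory Set Filter Topology
open scoped ContDiff Matrix ENNReal

namespace Pool.Agent.SYH

/-- a homeomorphism between open subsets of `ℝ⁴`, of class `W^{1,p}_loc`, with `φ^* ω₀ = ω₀` or `φ^* ω₀ = - ω₀` at almost
every point -/
def SobSympPM (p : ℝ≥0∞) (e : OpenPartialHomeomorph R4 R4) : Prop :=
  ∃ G, IsWD p e.source e G ∧
    ∀ᵐ x, x ∈ e.source → (G x)ᵀ * J * G x = J ∨ (G x)ᵀ * J * G x = -J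

theorem det_J_pm : J.det = 1 := by
  simp [J, Matrix.det_succ_row_zero, Fin.sum_univ_succ, Fin.succAbove]

theorem det_of_symp_pm {G : Matrix (Fin 4) (Fin 4) ℝ} (h : Gᵀ * J * G = J ∨ Gᵀ * J * G = -J) :
    |G.det| = 1 := by
  have h1 : (Gᵀ * J * G).det = 1 := by
    rcases h with h | h
    · rw [h, det_J_pm]
    · rw [h, Matrix.det_neg, det_J_pm]; norm_num
  rw [Matrix.det_mul, Matrix.det_mul, Matrix.det_transpose, det_J_pm, mul_one] at h1
  have h2 : G.det ^ 2 = 1 := by rw [sq]; exact h1
  have h3 : |G.det| ^ 2 = 1 := by rw [sq_abs]; exact h2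
  have h4 : 0 ≤ |G.det| := abs_nonneg _
  nlinarith

/-- the derivative at almost every point -/
theorem hasFDeriv_pm {p : ℝ≥0∞} (hp : 4 < p) (hpt : p ≠ ⊤) {e : OpenPartialHomeomorph R4 R4}
    {G : R4 → Matrix (Fin 4) (Fin 4) ℝ} (hG : IsWD p e.source e G) :
    ∀ᵐ x, x ∈ e.source →
      HasFDerivAt e (LinearMap.toContinuousLinearMap (Matrix.toLin' (G x))) x := by
  have h1 : ∀ b : Fin 4, ∀ᵐ x, x ∈ e.source → ∃ L : R4 →L[ℝ] ℝ,
      HasFDerivAt (fun y => e y b) L x ∧ ∀ a, L (Pi.single a 1) = G x b a := by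
    intro b
    refine diff_ae (p := p) hp hpt e.open_source (u := fun y => e y b) (g := fun x => G x b) ?_ ?_ ?_
    · exact (continuous_apply b).comp_continuousOn e.continuousOn
    · exact fun a => hG.lp b a
    · exact hG.wg b
  have h2 := (ae_all_iff (ι := Fin 4)).2 h1
  filter_upwards [h2] with x hx hxs
  rw [hasFDerivAt_pi']
  intro b
  obtain ⟨L, hL, hLa⟩ := hx b hxs
  have hLe : (ContinuousLinearMap.proj b).comp
      (LinearMap.toContinuousLinearMap (Matrix.toLin' (G x))) = L := by
    ext v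
    have hv : v = ∑ a, v a • (Pi.single a (1 : ℝ) : R4) := by
      conv_lhs => rw [pi_eq_sum_univ v]
      refine Finset.sum_congr rfl fun a _ => ?_
      congr 1
      ext c
      simp [Pi.single_apply, eq_comm]
    have h3 : L v = ∑ a, v a * G x b a := by
      conv_lhs => rw [hv]
      rw [map_sum]
      refine Finset.sum_congr rfl fun a _ => ?_
      rw [map_smul, hLa, smul_eq_mul]
    rw [h3]
    simp [Matrix.toLin'_apply, Matrix.mulVec, dotProduct, mul_comm]
  rw [hLe]
  exact hL

theorem vol_le_pm {p : ℝ≥0∞} (hp : 4 < p) (hpt : p ≠ ⊤) {e : OpenPartialHomeomorph R4 R4}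
    (h : SobSympPM p e) {A : Set R4} (hA : A ⊆ e.source) (hAm : MeasurableSet A) :
    volume A ≤ volume (e '' A) := by
  obtain ⟨G, hG, hs⟩ := h
  have h1 : ∀ᵐ x, x ∈ e.source →
      HasFDerivAt e (LinearMap.toContinuousLinearMap (Matrix.toLin' (G x))) x ∧
        |(LinearMap.toContinuousLinearMap (Matrix.toLin' (G x))).det| = 1 := by
    filter_upwards [hasFDeriv_pm hp hpt hG, hs] with x hx hx' hxs
    refine ⟨hx hxs, ?_⟩
    have h2 := det_of_symp_pm (hx' hxs)
    rw [LinearMap.det_toContinuousLinearMap, LinearMap.det_toLin']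
    exact h2
  rw [ae_iff] at h1
  set N := toMeasurable volume {x | ¬ (x ∈ e.source →
      HasFDerivAt e (LinearMap.toContinuousLinearMap (Matrix.toLin' (G x))) x ∧
        |(LinearMap.toContinuousLinearMap (Matrix.toLin' (G x))).det| = 1)} with hN
  have hNm : MeasurableSet N := measurableSet_toMeasurable _ _
  have hN0 : volume N = 0 := by rw [hN, measure_toMeasurable]; exact h1
  have hgood : ∀ x ∈ A \ N, HasFDerivAt e (LinearMap.toContinuousLinearMap (Matrix.toLin' (G x))) x ∧
        |(LinearMap.toContinuousLinearMap (Matrix.toLin' (G x))).det| = 1 := by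
    intro x hx
    by_contra hc
    apply hx.2
    apply subset_toMeasurable
    intro h3
    exact hc (h3 (hA hx.1))
  have h4 := lintegral_abs_det_fderiv_eq_addHaar_image volume (hAm.diff hNm)
    (f := e) (f' := fun x => LinearMap.toContinuousLinearMap (Matrix.toLin' (G x)))
    (fun x hx => (hgood x hx).1.hasFDerivWithinAt)
    (e.injOn.mono (sdiff_subset.trans hA))
  have h5 : ∫⁻ x in A \ N, ENNReal.ofReal
      |(LinearMap.toContinuousLinearMap (Matrix.toLin' (G x))).det| = volume (A \ N) := by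
    rw [setLIntegral_congr_fun (hAm.diff hNm) (g := fun _ => 1)
      (fun x hx => by simp only [(hgood x hx).2, ENNReal.ofReal_one])]
    simp
  rw [h5] at h4
  rw [← measure_sdiff_null (s := A) hN0, h4]
  exact measure_mono (image_mono sdiff_subset)

theorem mpre_pm {p : ℝ≥0∞} (hp : 4 < p) (hpt : p ≠ ⊤) {e : OpenPartialHomeomorph R4 R4}
    (h : SobSympPM p e) (h' : SobSympPM p e.symm) : MPre e := by
  intro A hA hAm
  apply le_antisymm
  · have hm : MeasurableSet (e '' A) :=
      hAm.image_of_continuousOn_injOn (e.continuousOn.mono hA) (e.injOn.mono hA)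
    have hsub : e '' A ⊆ e.symm.source := by
      rintro _ ⟨x, hx, rfl⟩
      exact e.map_source (hA hx)
    have h1 := vol_le_pm hp hpt h' hsub hm
    have h2 : e.symm '' (e '' A) = A := by
      ext y
      constructor
      · rintro ⟨_, ⟨x, hx, rfl⟩, rfl⟩
        rw [e.left_inv (hA hx)]; exact hx
      · intro hy
        exact ⟨e y, ⟨y, hy, rfl⟩, e.left_inv (hA hy)⟩
    rwa [h2] at h1
  · exact vol_le_pm hp hpt h hA hAm

end Pool.Agent.SYH
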