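import Pool.Agent.SYH.Bas

/-!
# SYH/DivB: algebra of the weak equations `DivEq`, `WG`, `Curl`

`DivEq.loc`: `Test.split` with `U x` = the neighbourhood of `x`; each piece gives `0`; add (integrability by `LpL.int`).
`WG.iff_div`: `Σ_b (u • e_a)_b ∂_b ψ = u ∂_a ψ`; split the integral (`LpL.int`, `LpL.of_cont`).
`WG.*` follow from the statements for `DivEq`.  `WG.const`: `int_pd`.  `Curl.of_wg`: for a test function `ψ`,
`∫ (α_b ∂_a ψ - α_a ∂_b ψ) = - ∫ f ∂_b ∂_a ψ + ∫ f ∂_a ∂_b ψ = 0` (`Test.pd`, `pd_comm`).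
-/

open MeasureTheory Set Filter Topology
open scoped ContDiff Matrix ENNReal

namespace Pool.Agent.SYH

variable {Ω Ω' : Set R4} {w w' : R4 → R4} {c c' : R4 → ℝ} {u v : R4 → ℝ} {g h : R4 → R4}
  {α β : R4 → R4} {S T : R4 → Matrix (Fin 4) (Fin 4) ℝ}

theorem DivB_int (hw : ∀ a, LpL 1 Ω (fun x => w x a)) (hc : LpL 1 Ω c) {ψ : R4 → ℝ}
    (hψ : Test Ω ψ) : Integrable (fun x => (∑ a, w x a * pd a ψ x) + c x * ψ x) := by
  refine Integrable.add (integrable_finsetSum _ fun a _ => ?_) ?_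
  · exact (hw a).int (hψ.pd a).smooth.continuous (hψ.pd a).cpt (hψ.pd a).supp
  · exact hc.int hψ.smooth.continuous hψ.cpt hψ.supp

theorem DivB_out {ψ : R4 → ℝ} (hψ : Test Ω ψ) {x : R4} (hx : x ∉ Ω) :
    ψ x = 0 ∧ ∀ a, pd a ψ x = 0 := by
  have h : x ∉ tsupport ψ := fun h => hx (hψ.supp h)
  exact ⟨image_eq_zero_of_notMem_tsupport h, fun a => pd_eq_zero a h⟩

theorem DivB_diff {ψ : R4 → ℝ} (hψ : Test Ω ψ) (x : R4) : DifferentiableAt ℝ ψ x :=
  (hψ.smooth.differentiable (by simp)).differentiableAt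

theorem DivB_single (a : Fin 4) (r : ℝ) (F : Fin 4 → ℝ) :
    ∑ i, (r • (Pi.single a (1 : ℝ) : R4)) i * F i = r * F a := by
  simp [Pi.single_apply]

theorem DivB_single2 (a b : Fin 4) (r s : ℝ) (F : Fin 4 → ℝ) :
    ∑ i, (r • (Pi.single a (1 : ℝ) : R4) - s • (Pi.single b (1 : ℝ) : R4)) i * F i =
      r * F a - s * F b := by
  simp only [Pi.sub_apply, sub_mul, Finset.sum_sub_distrib, DivB_single]

theorem DivEq.mono (h : DivEq Ω w c) (hs : Ω' ⊆ Ω) : DivEq Ω' w c :=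
  fun ψ hψ => h ψ (hψ.mono hs)

theorem DivEq.congr (h : DivEq Ω w c) (hw : ∀ᵐ x, x ∈ Ω → w' x = w x)
    (hc : ∀ᵐ x, x ∈ Ω → c' x = c x) : DivEq Ω w' c' := by
  intro ψ hψ
  rw [← h ψ hψ]
  refine integral_congr_ae ?_
  filter_upwards [hw, hc] with x h1 h2
  by_cases hx : x ∈ Ω
  · rw [h1 hx, h2 hx]
  · obtain ⟨e1, e2⟩ := DivB_out hψ hx
    simp [e1, e2]

theorem DivEq.add (h : DivEq Ω w c) (h' : DivEq Ω w' c') (hw : ∀ a, LpL 1 Ω (fun x => w x a))
    (hw' : ∀ a, LpL 1 Ω (fun x => w' x a)) (hc : LpL 1 Ω c) (hc' : LpL 1 Ω c') :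
    DivEq Ω (fun x => w x + w' x) (fun x => c x + c' x) := by
  intro ψ hψ
  have e : (fun x => (∑ a, (w x + w' x) a * pd a ψ x) + (c x + c' x) * ψ x) =
      fun x => ((∑ a, w x a * pd a ψ x) + c x * ψ x) +
        ((∑ a, w' x a * pd a ψ x) + c' x * ψ x) := by
    funext x
    simp only [Pi.add_apply, add_mul, Finset.sum_add_distrib]
    ring
  simp only [e]
  rw [integral_add (DivB_int hw hc hψ) (DivB_int hw' hc' hψ), h ψ hψ, h' ψ hψ, add_zero]

theorem DivEq.smul (h : DivEq Ω w c) (t : ℝ) :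
    DivEq Ω (fun x => t • w x) (fun x => t * c x) := by
  intro ψ hψ
  have e : (fun x => (∑ a, (t • w x) a * pd a ψ x) + t * c x * ψ x) =
      fun x => t * ((∑ a, w x a * pd a ψ x) + c x * ψ x) := by
    funext x
    simp only [Pi.smul_apply, smul_eq_mul, mul_add, Finset.mul_sum]
    congr 1
    · refine Finset.sum_congr rfl fun a _ => by ring
    · ring
  simp only [e]
  rw [integral_const_mul, h ψ hψ, mul_zero]

theorem DivEq.loc (hw : ∀ a, LpL 1 Ω (fun x => w x a)) (hc : LpL 1 Ω c)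
    (h : ∀ x ∈ Ω, ∃ O, IsOpen O ∧ x ∈ O ∧ DivEq (O ∩ Ω) w c) : DivEq Ω w c := by
  classical
  intro ψ hψ
  choose! U hU1 hU2 hU3 using h
  obtain ⟨s, f, hf, hsum⟩ := hψ.split (U := U) (fun x hx => ⟨hU1 x hx, hU2 x hx⟩)
  have hfs : ∀ y ∈ s, Test Ω (f y) := fun y hy => (hf y hy).2.mono inter_subset_right
  have hψe : ψ = fun x => ∑ y ∈ s, f y x := funext hsum
  have hpd : ∀ a x, pd a ψ x = ∑ y ∈ s, pd a (f y) x := by
    intro a x
    rw [hψe]
    unfold pd
    rw [fderiv_fun_sum (fun y hy => DivB_diff (hfs y hy) x)]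
    simp
  have e : (fun x => (∑ a, w x a * pd a ψ x) + c x * ψ x) =
      fun x => ∑ y ∈ s, ((∑ a, w x a * pd a (f y) x) + c x * f y x) := by
    funext x
    rw [Finset.sum_add_distrib, Finset.sum_comm, hsum x, Finset.mul_sum]
    congr 1
    refine Finset.sum_congr rfl fun a _ => ?_
    rw [hpd, Finset.mul_sum]
  simp only [e]
  rw [integral_finsetSum _ (fun y hy => DivB_int hw hc (hfs y hy))]
  refine Finset.sum_eq_zero fun y hy => ?_
  exact hU3 y (hf y hy).1 (f y) (hf y hy).2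

theorem WG.iff_div (hΩ : IsOpen Ω) (hu : ContinuousOn u Ω) (hg : ∀ a, LpL 1 Ω (fun x => g x a)) :
    WG Ω u g ↔ ∀ a, DivEq Ω (fun x => u x • Pi.single a 1) (fun x => g x a) := by
  have key : ∀ ψ, Test Ω ψ → ∀ a,
      ∫ x, ((∑ b, (u x • (Pi.single a (1 : ℝ) : R4)) b * pd b ψ x) + g x a * ψ x) =
        (∫ x, u x * pd a ψ x) + ∫ x, g x a * ψ x := by
    intro ψ hψ a
    have e : (fun x => (∑ b, (u x • (Pi.single a (1 : ℝ) : R4)) b * pd b ψ x) + g x a * ψ x) =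
        fun x => u x * pd a ψ x + g x a * ψ x := by
      funext x
      rw [DivB_single]
    simp only [e]
    exact integral_add ((LpL.of_cont (p := 1) hΩ hu).int (hψ.pd a).smooth.continuous
      (hψ.pd a).cpt (hψ.pd a).supp) ((hg a).int hψ.smooth.continuous hψ.cpt hψ.supp)
  constructor
  · intro h a ψ hψ
    rw [key ψ hψ a, h ψ hψ a, neg_add_cancel]
  · intro h ψ hψ a
    have := h a ψ hψ
    rw [key ψ hψ a] at this
    linarith

theorem WG.mono (h : WG Ω u g) (hs : Ω' ⊆ Ω) : WG Ω' u g :=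
  fun ψ hψ => h ψ (hψ.mono hs)

theorem WG.congr {u' : R4 → ℝ} {g' : R4 → R4} (h : WG Ω u g) (hu : ∀ x ∈ Ω, u' x = u x)
    (hg : ∀ᵐ x, x ∈ Ω → g' x = g x) : WG Ω u' g' := by
  intro ψ hψ a
  have e1 : ∫ x, u' x * pd a ψ x = ∫ x, u x * pd a ψ x := by
    congr 1
    funext x
    by_cases hx : x ∈ Ω
    · rw [hu x hx]
    · rw [(DivB_out hψ hx).2 a, mul_zero, mul_zero]
  have e2 : ∫ x, g' x a * ψ x = ∫ x, g x a * ψ x := by
    refine integral_congr_ae ?_
    filter_upwards [hg] with x h1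
    by_cases hx : x ∈ Ω
    · rw [h1 hx]
    · rw [(DivB_out hψ hx).1, mul_zero, mul_zero]
  rw [e1, e2]
  exact h ψ hψ a

theorem DivB_lp (hΩ : IsOpen Ω) (hu : ContinuousOn u Ω) (a b : Fin 4) :
    LpL 1 Ω (fun x => (u x • (Pi.single a (1 : ℝ) : R4)) b) := by
  simp only [Pi.smul_apply, smul_eq_mul]
  exact LpL.of_cont hΩ (hu.mul continuousOn_const)

theorem WG.loc (hΩ : IsOpen Ω) (hu : ContinuousOn u Ω) (hg : ∀ a, LpL 1 Ω (fun x => g x a))
    (h : ∀ x ∈ Ω, ∃ O, IsOpen O ∧ x ∈ O ∧ WG (O ∩ Ω) u g) : WG Ω u g := by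
  rw [WG.iff_div hΩ hu hg]
  intro a
  refine DivEq.loc (fun b => DivB_lp hΩ hu a b) (hg a) fun x hx => ?_
  obtain ⟨O, h1, h2, h3⟩ := h x hx
  exact ⟨O, h1, h2, (WG.iff_div (h1.inter hΩ) (hu.mono inter_subset_right)
    (fun a => (hg a).mono inter_subset_right)).1 h3 a⟩

theorem WG.add (hΩ : IsOpen Ω) (hu : ContinuousOn u Ω) (hg : ∀ a, LpL 1 Ω (fun x => g x a))
    (hv : ContinuousOn v Ω) (hh : ∀ a, LpL 1 Ω (fun x => h x a)) (h1 : WG Ω u g) (h2 : WG Ω v h) :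
    WG Ω (fun x => u x + v x) (fun x => g x + h x) := by
  intro ψ hψ a
  simp only [Pi.add_apply, add_mul]
  have p1 := (LpL.of_cont (p := 1) hΩ hu).int (hψ.pd a).smooth.continuous
    (hψ.pd a).cpt (hψ.pd a).supp
  have p2 := (LpL.of_cont (p := 1) hΩ hv).int (hψ.pd a).smooth.continuous
    (hψ.pd a).cpt (hψ.pd a).supp
  have p3 := (hg a).int hψ.smooth.continuous hψ.cpt hψ.supp
  have p4 := (hh a).int hψ.smooth.continuous hψ.cpt hψ.supp
  rw [integral_add p1 p2, integral_add p3 p4, h1 ψ hψ a, h2 ψ hψ a]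
  ring

theorem WG.smul (h1 : WG Ω u g) (t : ℝ) : WG Ω (fun x => t * u x) (fun x => t • g x) := by
  intro ψ hψ a
  simp only [Pi.smul_apply, smul_eq_mul, mul_assoc]
  rw [integral_const_mul, integral_const_mul, h1 ψ hψ a]
  ring

theorem WG.const (t : ℝ) : WG Ω (fun _ => t) (fun _ => 0) := by
  intro ψ hψ a
  rw [integral_const_mul, int_pd (hψ.mono (subset_univ _)) a]
  simp

/-- smooth functions -/
theorem WG.of_smooth (hu : ContDiff ℝ ∞ u) : WG Ω u (fun x a => pd a u x) := by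
  intro ψ hψ a
  have hm := (hψ.mul hu).mono (subset_univ _)
  have h0 := int_pd hm a
  have hud : ∀ x, DifferentiableAt ℝ u x := fun x =>
    (hu.differentiable (by simp)).differentiableAt
  have e : (fun x => pd a (fun y => u y * ψ y) x) =
      fun x => u x * pd a ψ x + pd a u x * ψ x := by
    funext x
    exact pd_mul a (hud x) (DivB_diff hψ x)
  simp only [e] at h0
  have i1 : Integrable (fun x => u x * pd a ψ x) := by
    have := (hψ.pd a).mul hu
    exact this.smooth.continuous.integrable_of_hasCompactSupport this.cpt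
  have i2 : Integrable (fun x => pd a u x * ψ x) := by
    have := hψ.mul (pd_smooth a hu)
    exact this.smooth.continuous.integrable_of_hasCompactSupport this.cpt
  rw [integral_add i1 i2] at h0
  linarith

theorem Curl.mono (h : Curl Ω α S) (hs : Ω' ⊆ Ω) : Curl Ω' α S :=
  fun a b => (h a b).mono hs

theorem Curl.congr {α' : R4 → R4} {S' : R4 → Matrix (Fin 4) (Fin 4) ℝ} (h : Curl Ω α S)
    (hα : ∀ᵐ x, x ∈ Ω → α' x = α x) (hS : ∀ᵐ x, x ∈ Ω → S' x = S x) : Curl Ω α' S' := by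
  intro a b
  refine (h a b).congr ?_ ?_
  · filter_upwards [hα] with x h1 hx
    rw [h1 hx]
  · filter_upwards [hS] with x h1 hx
    rw [h1 hx]

theorem DivB_lp2 (hα : ∀ a, LpL 1 Ω (fun x => α x a)) (a b i : Fin 4) :
    LpL 1 Ω (fun x => (α x b • (Pi.single a (1 : ℝ) : R4) -
      α x a • (Pi.single b (1 : ℝ) : R4)) i) := by
  simp only [Pi.sub_apply, Pi.smul_apply, smul_eq_mul]
  have h1 := (hα b).const_mul ((Pi.single a (1 : ℝ) : R4) i)
  have h2 := (hα a).const_mul ((Pi.single b (1 : ℝ) : R4) i)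
  have h3 := h1.sub h2
  have e : (fun x => (Pi.single a (1 : ℝ) : R4) i * α x b -
      (Pi.single b (1 : ℝ) : R4) i * α x a) =
      fun x => α x b * (Pi.single a (1 : ℝ) : R4) i - α x a * (Pi.single b (1 : ℝ) : R4) i := by
    funext x
    ring
  rw [e] at h3
  exact h3

theorem Curl.sub (h : Curl Ω α S) (h' : Curl Ω β T) (hα : ∀ a, LpL 1 Ω (fun x => α x a))
    (hβ : ∀ a, LpL 1 Ω (fun x => β x a)) (hS : ∀ a b, LpL 1 Ω (fun x => S x a b))
    (hT : ∀ a b, LpL 1 Ω (fun x => T x a b)) :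
    Curl Ω (fun x => α x - β x) (fun x => S x - T x) := by
  intro a b
  have h1 := (h' a b).smul (-1)
  have h2 := (h a b).add h1 (fun i => DivB_lp2 hα a b i)
    (fun i => (DivB_lp2 hβ a b i).const_mul (-1)) (hS a b) ((hT a b).const_mul (-1))
  refine h2.congr ?_ ?_
  · refine Eventually.of_forall fun x _ => ?_
    simp only [Pi.sub_apply]
    module
  · refine Eventually.of_forall fun x _ => ?_
    simp only [Matrix.sub_apply]
    ring

theorem Curl.loc (hα : ∀ a, LpL 1 Ω (fun x => α x a)) (hS : ∀ a b, LpL 1 Ω (fun x => S x a b))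
    (h : ∀ x ∈ Ω, ∃ O, IsOpen O ∧ x ∈ O ∧ Curl (O ∩ Ω) α S) : Curl Ω α S := by
  intro a b
  refine DivEq.loc (fun i => DivB_lp2 hα a b i) (hS a b) fun x hx => ?_
  obtain ⟨O, h1, h2, h3⟩ := h x hx
  exact ⟨O, h1, h2, h3 a b⟩

/-- exact forms are closed -/
theorem Curl.of_wg (hα : ∀ a, LpL 1 Ω (fun x => α x a)) (h : WG Ω u α) :
    Curl Ω α 0 := by
  intro a b ψ hψ
  have e : (fun x => (∑ i, (α x b • (Pi.single a (1 : ℝ) : R4) -
      α x a • (Pi.single b (1 : ℝ) : R4)) i * pd i ψ x) +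
        (0 : R4 → Matrix (Fin 4) (Fin 4) ℝ) x a b * ψ x) =
      fun x => α x b * pd a ψ x - α x a * pd b ψ x := by
    funext x
    rw [DivB_single2]
    simp
  simp only [e]
  have ia := hψ.pd a
  have ib := hψ.pd b
  rw [integral_sub ((hα b).int ia.smooth.continuous ia.cpt ia.supp)
    ((hα a).int ib.smooth.continuous ib.cpt ib.supp)]
  have h1 := h _ ia b
  have h2 := h _ ib a
  have h3 : ∀ x, pd b (pd a ψ) x = pd a (pd b ψ) x := fun x => pd_comm b a hψ.smooth x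
  simp only [h3] at h1
  linarith

end Pool.Agent.SYH
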