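import Pool.Agent.SYH.ChW
import Pool.Agent.SYH.DivB

/-!
# SYH/SgR (part II): composition with the anti-symplectic reflection `ρ (x, y) = (x, -y)`

`rho`: the homeomorphism `v ↦ ![v 0, -v 1, v 2, -v 3]`, an involution; `Rm` its matrix.  `Rm_J`: `fin_cases`/`decide`-style
computation.
`SobSg.congr_sub`: restriction (`LpL.mono`, `WG.mono`, `WG.congr` as `e' = e` on `e'.source`).
`SobSg.comp_left`: weak derivative `G' = Rm * G` of `ρ ∘ e`: components `± e_b` (`WG.smul` with `t = ± 1`); `(Rm G)ᵀ J (Rm G) =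
Gᵀ (Rmᵀ J Rm) G = - s J`.
`SobSg.comp_right`: `e ∘ ρ`, `G' y = G (ρ y) * Rm`: `LpL.comp` and `chW` for the homeomorphism `ρ` (as an
`OpenPartialHomeomorph`, source `univ`), which preserves the volume (`mpre_rho`: linear with determinant `1`,
`Measure.addHaar_image_linearMap`, or `MeasurePreserving` of `pi`) and has the constant weak derivative `Rm`
(`WG.of_smooth`).  `chW` is stated with `L²`; the `L^p` bound on `G'` comes from `LpL.comp`.
-/

open MeasureTheory Set Filter Topology
open scoped ContDiff Matrix ENNReal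

namespace Pool.Agent.SYH

/-- the matrix of the reflection -/
def Rm : Matrix (Fin 4) (Fin 4) ℝ := Matrix.diagonal ![1, -1, 1, -1]

/-- the reflection `(x, y) ↦ (x, -y)` -/
noncomputable def rho : R4 ≃ₜ R4 where
  toFun v := fun a => (![1, -1, 1, -1] : Fin 4 → ℝ) a * v a
  invFun v := fun a => (![1, -1, 1, -1] : Fin 4 → ℝ) a * v a
  left_inv v := by
    funext a
    fin_cases a <;> simp
  right_inv v := by
    funext a
    fin_cases a <;> simp
  continuous_toFun := by fun_prop
  continuous_invFun := by fun_prop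

theorem Rm_J : Rmᵀ * J * Rm = -J := by
  ext i j
  simp only [Matrix.mul_apply, Fin.sum_univ_four, Rm, J, Matrix.neg_apply,
    Matrix.transpose_apply, Matrix.diagonal_apply]
  fin_cases i <;> fin_cases j <;> simp

theorem SgR_apply (v : R4) (a : Fin 4) :
    rho v a = (![1, -1, 1, -1] : Fin 4 → ℝ) a * v a := rfl

theorem SgR_lin (v : R4) : Matrix.toLin' Rm v = rho v := by
  funext a
  rw [Matrix.toLin'_apply, Rm, Matrix.mulVec_diagonal]
  rfl

theorem SgR_det : Rm.det = 1 := by
  rw [Rm, Matrix.det_diagonal, Fin.prod_univ_four]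
  simp

theorem mpre_rho : MPre rho.toOpenPartialHomeomorph := by
  intro A _ _
  have h1 : (rho.toOpenPartialHomeomorph : R4 → R4) '' A = Matrix.toLin' Rm '' A := by
    apply Set.image_congr
    intro v _
    exact (SgR_lin v).symm
  rw [h1, Measure.addHaar_image_linearMap, LinearMap.det_toLin', SgR_det]
  simp

theorem wd_rho (p : ℝ≥0∞) : IsWD p univ rho (fun _ => Rm) := by
  refine ⟨fun b a => LpL.of_cont isOpen_univ continuousOn_const, fun b => ?_⟩
  have hs : ContDiff ℝ ∞ (fun x : R4 => rho x b) := by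
    have : (fun x : R4 => rho x b) = fun x => (![1, -1, 1, -1] : Fin 4 → ℝ) b * x b := rfl
    rw [this]
    exact contDiff_const.mul (contDiff_apply ℝ ℝ b)
  have h1 := WG.of_smooth (Ω := univ) hs
  have h2 : (fun (x : R4) a => pd a (fun x : R4 => rho x b) x) = fun _ => Rm b := by
    funext x a
    have hd : HasFDerivAt (fun x : R4 => rho x b)
        ((![1, -1, 1, -1] : Fin 4 → ℝ) b • ContinuousLinearMap.proj (R := ℝ) b) x :=
      (hasFDerivAt_apply b x).const_mul _
    rw [pd, hd.fderiv, Rm, Matrix.diagonal_apply]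
    simp only [ContinuousLinearMap.smul_apply, ContinuousLinearMap.proj_apply, smul_eq_mul]
    by_cases hba : b = a
    · subst hba
      simp
    · simp [hba]
  rw [h2] at h1
  exact h1

/-- Sobolev homeomorphisms with `φ^* ω₀ = s ω₀` -/
def SobSg (p : ℝ≥0∞) (s : ℤˣ) (e : OpenPartialHomeomorph R4 R4) : Prop :=
  ∃ G, IsWD p e.source e G ∧ ∀ᵐ x, x ∈ e.source → (G x)ᵀ * J * G x = ((s : ℤ) : ℝ) • J

variable {p : ℝ≥0∞} {s : ℤˣ} {e e' : OpenPartialHomeomorph R4 R4}

theorem SobSg.congr_sub (h : SobSg p s e) (hs : e'.source ⊆ e.source)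
    (he : ∀ y ∈ e'.source, e' y = e y) : SobSg p s e' := by
  obtain ⟨G, hG, hJ⟩ := h
  refine ⟨G, ⟨fun b a => (hG.lp b a).mono hs, fun b => ?_⟩, ?_⟩
  · refine ((hG.wg b).mono hs).congr (fun x hx => ?_) (Eventually.of_forall fun x _ => rfl)
    rw [he x hx]
  · filter_upwards [hJ] with x hx hxs
    exact hx (hs hxs)

theorem SgR_conj (G : Matrix (Fin 4) (Fin 4) ℝ) (h : Gᵀ * J * G = ((s : ℤ) : ℝ) • J) :
    (Rm * G)ᵀ * J * (Rm * G) = (((-s : ℤˣ) : ℤ) : ℝ) • J := by
  have h1 : (Rm * G)ᵀ * J * (Rm * G) = Gᵀ * (Rmᵀ * J * Rm) * G := by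
    rw [Matrix.transpose_mul]
    simp only [Matrix.mul_assoc]
  rw [h1, Rm_J, Matrix.mul_neg, Matrix.neg_mul, h]
  simp

theorem SgR_conj' (G : Matrix (Fin 4) (Fin 4) ℝ) (h : Gᵀ * J * G = ((s : ℤ) : ℝ) • J) :
    (G * Rm)ᵀ * J * (G * Rm) = (((-s : ℤˣ) : ℤ) : ℝ) • J := by
  have h1 : (G * Rm)ᵀ * J * (G * Rm) = Rmᵀ * (Gᵀ * J * G) * Rm := by
    rw [Matrix.transpose_mul]
    simp only [Matrix.mul_assoc]
  rw [h1, h, Matrix.mul_smul, Matrix.smul_mul, Rm_J]
  simp

theorem SobSg.comp_left (h : SobSg p s e) :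
    SobSg p (-s) (e.trans rho.toOpenPartialHomeomorph) := by
  obtain ⟨G, hG, hJ⟩ := h
  have hsrc : (e.trans rho.toOpenPartialHomeomorph).source ⊆ e.source := by
    intro x hx
    rw [OpenPartialHomeomorph.trans_source] at hx
    exact hx.1
  have hrow : ∀ x b, (Rm * G x) b = (![1, -1, 1, -1] : Fin 4 → ℝ) b • G x b := by
    intro x b
    funext a
    rw [Rm, Matrix.diagonal_mul]
    rfl
  refine ⟨fun x => Rm * G x, ⟨fun b a => ?_, fun b => ?_⟩, ?_⟩
  · have e1 : (fun x => (Rm * G x) b a) = fun x => (![1, -1, 1, -1] : Fin 4 → ℝ) b * G x b a := by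
      funext x
      rw [hrow]
      rfl
    rw [e1]
    exact ((hG.lp b a).mono hsrc).const_mul _
  · have h1 := ((hG.wg b).mono hsrc).smul ((![1, -1, 1, -1] : Fin 4 → ℝ) b)
    refine h1.congr (fun x _ => rfl) (Eventually.of_forall fun x _ => ?_)
    exact hrow x b
  · filter_upwards [hJ] with x hx hxs
    exact SgR_conj _ (hx (hsrc hxs))

theorem SobSg.comp_right (h2 : 2 ≤ p) (h : SobSg p s e) :
    SobSg p (-s) (rho.toOpenPartialHomeomorph.trans e) := by
  obtain ⟨G, hG, hJ⟩ := h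
  have hsrc : (rho.toOpenPartialHomeomorph.trans e).source =
      rho.toOpenPartialHomeomorph.source ∩ rho.toOpenPartialHomeomorph ⁻¹' e.source :=
    OpenPartialHomeomorph.trans_source _ _
  have htar : e.source ⊆ rho.toOpenPartialHomeomorph.target := fun x _ => mem_univ x
  have hent : ∀ x b a, (G (rho x) * Rm) b a = (![1, -1, 1, -1] : Fin 4 → ℝ) a * G (rho x) b a := by
    intro x b a
    rw [Rm, Matrix.mul_diagonal, mul_comm]
  refine ⟨fun x => G (rho x) * Rm, ⟨fun b a => ?_, fun b => ?_⟩, ?_⟩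
  · rw [hsrc]
    have e1 : (fun x => (G (rho x) * Rm) b a) =
        fun x => (![1, -1, 1, -1] : Fin 4 → ℝ) a * G (rho x) b a := by
      funext x
      exact hent x b a
    rw [e1]
    exact (LpL.comp mpre_rho htar (hG.lp b a)).const_mul _
  · rw [hsrc]
    have hwd : IsWD 2 rho.toOpenPartialHomeomorph.source rho.toOpenPartialHomeomorph
        (fun _ => Rm) := wd_rho 2
    have hc : ContinuousOn (fun x => e x b) e.source :=
      (continuous_apply b).comp_continuousOn e.continuousOn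
    have h3 := chW mpre_rho hwd e.open_source htar hc (fun a => (hG.lp b a).exp h2) (hG.wg b)
    refine h3.congr (fun x _ => rfl) (Eventually.of_forall fun x _ => ?_)
    funext a
    rw [hent, Rm, Matrix.diagonal_transpose, Matrix.mulVec_diagonal]
    rfl
  · have h3 := ae_comp mpre_rho (P := fun x => x ∈ e.source →
      (G x)ᵀ * J * G x = ((s : ℤ) : ℝ) • J) (by
        filter_upwards [hJ] with x hx _
        exact hx)
    filter_upwards [h3] with x hx hxs
    rw [hsrc] at hxs
    exact SgR_conj' _ (hx hxs.1 hxs.2)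

end Pool.Agent.SYH
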