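import Mathlib

/-!
# SYH/Bis: bisection of a compact convex set

Let `P` be a property of compact convex subsets of `C₀ ⊆ ℝ^d` that holds for all small pieces and is stable under cutting by
coordinate hyperplanes; then `P C₀`.
Proof.  Lebesgue number lemma: there is `δ > 0` such that `P C` for every compact convex `C ⊆ C₀` of diameter `< δ`
(for `C = ∅` use any point, or `hloc` at any point; if `C₀ = ∅` see below).  Claim `(k)`, `k ≤ d`, by induction on `k`:
`P C` for every compact convex `C ⊆ C₀` such that for all coordinates `l ≥ k` the width of `C` in direction `l` is `≤ δ/2`.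
`(0)`: diameter (sup norm) `≤ δ/2 < δ`.  `(k) → (k+1)`: induction on `n`, where the width in direction `k` is `≤ n δ/2`:
cut at `m = (inf of x_k on C) + δ/2`; the part `x_k ≤ m` has width `≤ δ/2`, the part `x_k ≥ m` has width `≤ (n-1) δ/2`.
`(d)` is the assertion (`C₀` is bounded).  (The empty set: `hempty`.)
-/

open Set Filter Topology

namespace Pool.Agent.SYH

theorem bisect {d : ℕ} (P : Set (Fin d → ℝ) → Prop) {C₀ : Set (Fin d → ℝ)} (hC₀ : IsCompact C₀)
    (hconv : Convex ℝ C₀) (hempty : P ∅)
    (hloc : ∀ x ∈ C₀, ∃ ε > 0, ∀ C ⊆ C₀ ∩ Metric.ball x ε, IsCompact C → Convex ℝ C → P C)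
    (hsplit : ∀ C ⊆ C₀, IsCompact C → Convex ℝ C → ∀ (k : Fin d) (m : ℝ),
      P (C ∩ {x | x k ≤ m}) → P (C ∩ {x | m ≤ x k}) → P C) : P C₀ := by
  choose! ε hε hP using hloc
  obtain ⟨δ, hδ, hδ'⟩ := lebesgue_number_lemma_of_metric (s := C₀)
    (c := fun x : C₀ => Metric.ball (x : Fin d → ℝ) (ε x)) hC₀ (fun x => Metric.isOpen_ball)
    (fun x hx => Set.mem_iUnion.2 ⟨⟨x, hx⟩, Metric.mem_ball_self (hε x hx)⟩)
  obtain ⟨B, hB⟩ := Metric.isBounded_iff.1 hC₀.isBounded
  have hcoord : ∀ (x y : Fin d → ℝ) (l : Fin d), x ∈ C₀ → y ∈ C₀ → x l - y l ≤ B := by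
    intro x y l hx hy
    have h1 : dist (x l) (y l) ≤ dist x y := dist_le_pi_dist x y l
    have h2 := hB hx hy
    have h3 : x l - y l ≤ |x l - y l| := le_abs_self _
    rw [← Real.dist_eq] at h3
    linarith
  have key : ∀ k : ℕ, ∀ C ⊆ C₀, IsCompact C → Convex ℝ C →
      (∀ l : Fin d, k ≤ l.1 → ∀ x ∈ C, ∀ y ∈ C, x l - y l ≤ δ / 2) → P C := by
    intro k
    induction k with
    | zero =>
      intro C hC hCc hCv hw
      rcases C.eq_empty_or_nonempty with h | ⟨x, hx⟩
      · rw [h]; exact hempty
      · obtain ⟨y, hy⟩ := hδ' x (hC hx)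
        refine hP y.1 y.2 C ?_ hCc hCv
        intro z hz
        refine ⟨hC hz, hy ?_⟩
        rw [Metric.mem_ball, dist_pi_lt_iff hδ]
        intro l
        rw [Real.dist_eq, abs_lt]
        have h1 := hw l (Nat.zero_le _) z hz x hx
        have h2 := hw l (Nat.zero_le _) x hx z hz
        constructor <;> linarith
    | succ k ih =>
      by_cases hkd : k < d
      · have inner : ∀ n : ℕ, ∀ C ⊆ C₀, IsCompact C → Convex ℝ C →
            (∀ l : Fin d, k + 1 ≤ l.1 → ∀ x ∈ C, ∀ y ∈ C, x l - y l ≤ δ / 2) →
            (∀ x ∈ C, ∀ y ∈ C, x ⟨k, hkd⟩ - y ⟨k, hkd⟩ ≤ n * (δ / 2)) → P C := by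
          intro n
          induction n with
          | zero =>
            intro C hC hCc hCv hw hk
            refine ih C hC hCc hCv ?_
            intro l hl x hx y hy
            rcases Nat.lt_or_eq_of_le hl with h | h
            · exact hw l h x hx y hy
            · have : l = ⟨k, hkd⟩ := Fin.ext h.symm
              rw [this]
              have := hk x hx y hy
              simp only [Nat.cast_zero, zero_mul] at this
              linarith
          | succ n ihn =>
            intro C hC hCc hCv hw hk
            rcases C.eq_empty_or_nonempty with h | hne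
            · rw [h]; exact hempty
            · obtain ⟨x0, hx0, hmin⟩ := hCc.exists_isMinOn hne
                (f := fun x : Fin d → ℝ => x ⟨k, hkd⟩) (continuous_apply _).continuousOn
              have hmin' : ∀ y ∈ C, x0 ⟨k, hkd⟩ ≤ y ⟨k, hkd⟩ := fun y hy => hmin hy
              refine hsplit C hC hCc hCv ⟨k, hkd⟩ (x0 ⟨k, hkd⟩ + δ / 2) ?_ ?_
              · refine ih _ (Set.inter_subset_left.trans hC) ?_ ?_ ?_
                · exact hCc.inter_right (isClosed_Iic.preimage (continuous_apply (⟨k, hkd⟩ : Fin d)))
                · exact hCv.inter ((convex_Iic _).linear_preimage (LinearMap.proj (⟨k, hkd⟩ : Fin d)))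
                · intro l hl x hx y hy
                  rcases Nat.lt_or_eq_of_le hl with h | h
                  · exact hw l h x hx.1 y hy.1
                  · have : l = ⟨k, hkd⟩ := Fin.ext h.symm
                    rw [this]
                    have h1 : x ⟨k, hkd⟩ ≤ x0 ⟨k, hkd⟩ + δ / 2 := hx.2
                    have h2 := hmin' y hy.1
                    linarith
              · refine ihn _ (Set.inter_subset_left.trans hC) ?_ ?_ ?_ ?_
                · exact hCc.inter_right (isClosed_Ici.preimage (continuous_apply (⟨k, hkd⟩ : Fin d)))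
                · exact hCv.inter ((convex_Ici _).linear_preimage (LinearMap.proj (⟨k, hkd⟩ : Fin d)))
                · intro l hl x hx y hy
                  exact hw l hl x hx.1 y hy.1
                · intro x hx y hy
                  have h1 := hk x hx.1 x0 hx0
                  have h2 : x0 ⟨k, hkd⟩ + δ / 2 ≤ y ⟨k, hkd⟩ := hy.2
                  push_cast at h1 ⊢
                  linarith
        intro C hC hCc hCv hw
        obtain ⟨n, hn⟩ := exists_nat_ge (B / (δ / 2))
        refine inner n C hC hCc hCv hw ?_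
        intro x hx y hy
        have h1 := hcoord x y ⟨k, hkd⟩ (hC hx) (hC hy)
        have h2 : B ≤ n * (δ / 2) := by
          rwa [div_le_iff₀ (by positivity)] at hn
        linarith
      · intro C hC hCc hCv hw
        refine ih C hC hCc hCv ?_
        intro l hl
        exact absurd (lt_of_le_of_lt hl l.2) hkd
  exact key d C₀ Subset.rfl hC₀ hconv (fun l hl => absurd l.2 (not_lt.2 hl))

end Pool.Agent.SYH
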