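import Mathlib

/-!
# SYH/Sph: decomposition of the four-sphere
-/

open Set Filter Topology

namespace Pool.Agent.SYH

abbrev S4 := Metric.sphere (0 : EuclideanSpace ℝ (Fin 5)) 1

def Bd (d : ℕ) : Set (Fin d → ℝ) := {y | ∑ i, y i ^ 2 ≤ 1}

theorem Bd_compact (d : ℕ) : IsCompact (Bd d) := by
  refine (isCompact_Icc (a := fun _ : Fin d => (-1 : ℝ)) (b := fun _ => 1)).of_isClosed_subset ?_ ?_
  · exact isClosed_le (by fun_prop) continuous_const
  · intro y hy
    have h1 : ∀ i, y i ^ 2 ≤ 1 := fun i =>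
      (Finset.single_le_sum (fun j _ => sq_nonneg (y j)) (Finset.mem_univ i)).trans hy
    refine ⟨fun i => ?_, fun i => ?_⟩
    · exact (abs_le.1 ((sq_le_one_iff_abs_le_one _).1 (h1 i))).1
    · exact (abs_le.1 ((sq_le_one_iff_abs_le_one _).1 (h1 i))).2

theorem Bd_convex (d : ℕ) : Convex ℝ (Bd d) := by
  intro x hx y hy a b ha hb hab
  have hx' : ∑ i, x i ^ 2 ≤ 1 := hx
  have hy' : ∑ i, y i ^ 2 ≤ 1 := hy
  show ∑ i, (a • x + b • y) i ^ 2 ≤ 1
  have h : ∀ i, (a • x + b • y) i ^ 2 ≤ a * x i ^ 2 + b * y i ^ 2 := by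
    intro i
    simp only [Pi.add_apply, Pi.smul_apply, smul_eq_mul]
    have hb' : b = 1 - a := by linarith
    subst hb'
    nlinarith [mul_nonneg (mul_nonneg ha hb) (sq_nonneg (x i - y i))]
  calc ∑ i, (a • x + b • y) i ^ 2 ≤ ∑ i, (a * x i ^ 2 + b * y i ^ 2) :=
        Finset.sum_le_sum fun i _ => h i
    _ = a * ∑ i, x i ^ 2 + b * ∑ i, y i ^ 2 := by
        rw [Finset.sum_add_distrib, Finset.mul_sum, Finset.mul_sum]
    _ ≤ a * 1 + b * 1 := by
        gcongr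
    _ = 1 := by linarith

/-- the point of the sphere over `y` with the first coordinate of sign `s` -/
noncomputable def sphv (s : ℝ) (y : Fin 4 → ℝ) : EuclideanSpace ℝ (Fin 5) :=
  WithLp.toLp 2 (Fin.cons (s * √(1 - ∑ i, y i ^ 2)) y)

/-- the point of the equator over `z` with the second coordinate of sign `s` -/
noncomputable def equv (s : ℝ) (z : Fin 3 → ℝ) : EuclideanSpace ℝ (Fin 5) :=
  WithLp.toLp 2 (Fin.cons 0 (Fin.cons (s * √(1 - ∑ i, z i ^ 2)) z))

theorem sphv_cont (s : ℝ) : Continuous (sphv s) := by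
  unfold sphv
  refine (PiLp.continuous_toLp 2 _).comp ?_
  refine continuous_pi fun i => ?_
  refine Fin.cases ?_ (fun j => ?_) i
  · simp only [Fin.cons_zero]
    fun_prop
  · simp only [Fin.cons_succ]
    fun_prop

theorem equv_cont (s : ℝ) : Continuous (equv s) := by
  unfold equv
  refine (PiLp.continuous_toLp 2 _).comp ?_
  refine continuous_pi fun i => ?_
  refine Fin.cases ?_ (fun j => ?_) i
  · simp only [Fin.cons_zero]
    fun_prop
  · simp only [Fin.cons_succ]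
    refine Fin.cases ?_ (fun k => ?_) j
    · simp only [Fin.cons_zero]
      fun_prop
    · simp only [Fin.cons_succ]
      fun_prop

theorem mem_S4 {v : EuclideanSpace ℝ (Fin 5)} :
    v ∈ Metric.sphere (0 : EuclideanSpace ℝ (Fin 5)) 1 ↔ ∑ i, v i ^ 2 = 1 := by
  rw [mem_sphere_zero_iff_norm, EuclideanSpace.norm_eq]
  simp only [Real.norm_eq_abs, sq_abs]
  rw [Real.sqrt_eq_one]

theorem sphv_mem {s : ℝ} (hs : s ^ 2 = 1) {y : Fin 4 → ℝ} (hy : y ∈ Bd 4) :
    sphv s y ∈ Metric.sphere (0 : EuclideanSpace ℝ (Fin 5)) 1 := by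
  have hy' : ∑ i, y i ^ 2 ≤ 1 := hy
  rw [mem_S4, Fin.sum_univ_succ]
  simp only [sphv, Fin.cons_zero, Fin.cons_succ]
  rw [mul_pow, hs, one_mul, Real.sq_sqrt (by linarith)]
  ring

theorem equv_mem {s : ℝ} (hs : s ^ 2 = 1) {z : Fin 3 → ℝ} (hz : z ∈ Bd 3) :
    equv s z ∈ Metric.sphere (0 : EuclideanSpace ℝ (Fin 5)) 1 := by
  have hz' : ∑ i, z i ^ 2 ≤ 1 := hz
  rw [mem_S4, Fin.sum_univ_succ, Fin.sum_univ_succ]
  simp only [equv, Fin.cons_zero, Fin.cons_succ]
  rw [mul_pow, hs, one_mul, Real.sq_sqrt (by linarith)]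
  ring

open Classical in
/-- the parametrisation of a closed hemisphere -/
noncomputable def hem (s : ℝ) (hs : s ^ 2 = 1) (y : Fin 4 → ℝ) : S4 :=
  if h : y ∈ Bd 4 then ⟨sphv s y, sphv_mem hs h⟩ else
    ⟨sphv s 0, sphv_mem hs (by simp [Bd])⟩

open Classical in
/-- the parametrisation of a half of the equator -/
noncomputable def equ (s : ℝ) (hs : s ^ 2 = 1) (z : Fin 3 → ℝ) : S4 :=
  if h : z ∈ Bd 3 then ⟨equv s z, equv_mem hs h⟩ else
    ⟨equv s 0, equv_mem hs (by simp [Bd])⟩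

theorem hem_val {s : ℝ} {hs : s ^ 2 = 1} {y : Fin 4 → ℝ} (hy : y ∈ Bd 4) :
    (hem s hs y).1 = sphv s y := by
  unfold hem
  rw [dif_pos hy]

theorem equ_val {s : ℝ} {hs : s ^ 2 = 1} {z : Fin 3 → ℝ} (hz : z ∈ Bd 3) :
    (equ s hs z).1 = equv s z := by
  unfold equ
  rw [dif_pos hz]

theorem hem_cont (s : ℝ) (hs : s ^ 2 = 1) : ContinuousOn (hem s hs) (Bd 4) := by
  rw [Topology.IsInducing.subtypeVal.continuousOn_iff]
  exact ((sphv_cont s).continuousOn).congr fun y hy => hem_val hy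

theorem equ_cont (s : ℝ) (hs : s ^ 2 = 1) : ContinuousOn (equ s hs) (Bd 3) := by
  rw [Topology.IsInducing.subtypeVal.continuousOn_iff]
  exact ((equv_cont s).continuousOn).congr fun y hy => equ_val hy

theorem hem_inj (s : ℝ) (hs : s ^ 2 = 1) : InjOn (hem s hs) (Bd 4) := by
  intro y hy y' hy' h
  have h1 : sphv s y = sphv s y' := by
    rw [← hem_val (hs := hs) hy, ← hem_val (hs := hs) hy', h]
  funext i
  have h2 := congrArg (fun v : EuclideanSpace ℝ (Fin 5) => v i.succ) h1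
  simpa [sphv] using h2

theorem equ_inj (s : ℝ) (hs : s ^ 2 = 1) : InjOn (equ s hs) (Bd 3) := by
  intro y hy y' hy' h
  have h1 : equv s y = equv s y' := by
    rw [← equ_val (hs := hs) hy, ← equ_val (hs := hs) hy', h]
  funext i
  have h2 := congrArg (fun v : EuclideanSpace ℝ (Fin 5) => v i.succ.succ) h1
  simpa [equv] using h2

theorem S4_sum (m : S4) : m.1 0 ^ 2 + ∑ i : Fin 4, m.1 i.succ ^ 2 = 1 := by
  have h := mem_S4.1 m.2
  rwa [Fin.sum_univ_succ] at h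

theorem S4_sum' (m : S4) : m.1 0 ^ 2 + (m.1 1 ^ 2 + ∑ i : Fin 3, m.1 i.succ.succ ^ 2) = 1 := by
  have h := S4_sum m
  rwa [Fin.sum_univ_succ] at h

theorem hem_image (s : ℝ) (hs : s ^ 2 = 1) : hem s hs '' Bd 4 = {m : S4 | 0 ≤ s * m.1 0} := by
  ext m
  constructor
  · rintro ⟨y, hy, rfl⟩
    show 0 ≤ s * (hem s hs y).1 0
    rw [hem_val hy]
    simp only [sphv, Fin.cons_zero]
    rw [← mul_assoc, ← sq, hs, one_mul]
    exact Real.sqrt_nonneg _
  · intro hm
    have hm' : 0 ≤ s * m.1 0 := hm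
    have h := S4_sum m
    have hy : (fun i : Fin 4 => m.1 i.succ) ∈ Bd 4 := by
      show ∑ i : Fin 4, m.1 i.succ ^ 2 ≤ 1
      nlinarith [sq_nonneg (m.1 0)]
    refine ⟨fun i => m.1 i.succ, hy, ?_⟩
    apply Subtype.ext
    rw [hem_val hy]
    ext i
    refine Fin.cases ?_ (fun j => ?_) i
    · simp only [sphv, Fin.cons_zero]
      have h2 : 1 - ∑ i : Fin 4, m.1 i.succ ^ 2 = (s * m.1 0) ^ 2 := by
        rw [mul_pow, hs]
        linarith
      rw [h2, Real.sqrt_sq hm', ← mul_assoc, ← sq, hs, one_mul]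
    · simp only [sphv, Fin.cons_succ]

theorem equ_image (s : ℝ) (hs : s ^ 2 = 1) :
    equ s hs '' Bd 3 = {m : S4 | m.1 0 = 0 ∧ 0 ≤ s * m.1 1} := by
  ext m
  constructor
  · rintro ⟨y, hy, rfl⟩
    show (equ s hs y).1 0 = 0 ∧ 0 ≤ s * (equ s hs y).1 1
    rw [equ_val hy]
    refine ⟨rfl, ?_⟩
    have : equv s y 1 = s * √(1 - ∑ i, y i ^ 2) := rfl
    rw [this, ← mul_assoc, ← sq, hs, one_mul]
    exact Real.sqrt_nonneg _
  · rintro ⟨h0, h1⟩
    have h := S4_sum' m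
    rw [h0] at h
    have hy : (fun i : Fin 3 => m.1 i.succ.succ) ∈ Bd 3 := by
      show ∑ i : Fin 3, m.1 i.succ.succ ^ 2 ≤ 1
      nlinarith [sq_nonneg (m.1 1)]
    refine ⟨fun i => m.1 i.succ.succ, hy, ?_⟩
    apply Subtype.ext
    rw [equ_val hy]
    ext i
    refine Fin.cases ?_ (fun j => ?_) i
    · simp only [equv, Fin.cons_zero]
      exact h0.symm
    · simp only [equv, Fin.cons_succ]
      refine Fin.cases ?_ (fun k => ?_) j
      · simp only [Fin.cons_zero]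
        have h2 : 1 - ∑ i : Fin 3, m.1 i.succ.succ ^ 2 = (s * m.1 1) ^ 2 := by
          rw [mul_pow, hs]
          linarith
        rw [h2, Real.sqrt_sq h1, ← mul_assoc, ← sq, hs, one_mul]
        rfl
      · simp only [Fin.cons_succ]

theorem pole_preconn : IsPreconnected {m : S4 | m.1 0 = 0 ∧ m.1 1 = 0} := by
  have h1 : IsPreconnected (Metric.sphere (0 : EuclideanSpace ℝ (Fin 3)) 1) := by
    refine isPreconnected_sphere ?_ 0 1
    rw [rank_eq_card_basis (EuclideanSpace.basisFun (Fin 3) ℝ).toBasis]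
    simp
  let f : EuclideanSpace ℝ (Fin 3) → EuclideanSpace ℝ (Fin 5) := fun z =>
    WithLp.toLp 2 (Fin.cons 0 (Fin.cons 0 (fun i => z i)))
  have hf : Continuous f := by
    refine (PiLp.continuous_toLp 2 _).comp ?_
    refine continuous_pi fun i => ?_
    refine Fin.cases ?_ (fun j => ?_) i
    · simp only [Fin.cons_zero]
      fun_prop
    · simp only [Fin.cons_succ]
      refine Fin.cases ?_ (fun k => ?_) j
      · simp only [Fin.cons_zero]
        fun_prop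
      · simp only [Fin.cons_succ]
        fun_prop
  have h2 : IsPreconnected (f '' Metric.sphere (0 : EuclideanSpace ℝ (Fin 3)) 1) :=
    h1.image f hf.continuousOn
  have h3 : Subtype.val '' {m : S4 | m.1 0 = 0 ∧ m.1 1 = 0} =
      f '' Metric.sphere (0 : EuclideanSpace ℝ (Fin 3)) 1 := by
    ext v
    constructor
    · rintro ⟨m, ⟨h0, h1⟩, rfl⟩
      refine ⟨WithLp.toLp 2 (fun i : Fin 3 => m.1 i.succ.succ), ?_, ?_⟩
      · rw [mem_sphere_zero_iff_norm, EuclideanSpace.norm_eq]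
        simp only [Real.norm_eq_abs, sq_abs]
        rw [Real.sqrt_eq_one]
        have h := S4_sum' m
        rw [h0, h1] at h
        linarith
      · ext i
        refine Fin.cases ?_ (fun j => ?_) i
        · exact h0.symm
        · refine Fin.cases ?_ (fun k => ?_) j
          · exact h1.symm
          · rfl
    · rintro ⟨z, hz, rfl⟩
      have hz' : ∑ i, z i ^ 2 = 1 := by
        rw [mem_sphere_zero_iff_norm, EuclideanSpace.norm_eq] at hz
        simp only [Real.norm_eq_abs, sq_abs] at hz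
        rwa [Real.sqrt_eq_one] at hz
      refine ⟨⟨f z, ?_⟩, ⟨rfl, rfl⟩, rfl⟩
      rw [mem_S4, Fin.sum_univ_succ, Fin.sum_univ_succ]
      have e0 : f z 0 = 0 := rfl
      have e1 : f z (Fin.succ 0) = 0 := rfl
      have e2 : ∀ i : Fin 3, f z i.succ.succ = z i := fun i => rfl
      rw [e0, e1]
      simp only [e2]
      rw [hz']
      norm_num
  rw [← Topology.IsInducing.subtypeVal.isPreconnected_image, h3]
  exact h2

theorem sphere_decomp : ∃ (γ₁ γ₂ : (Fin 4 → ℝ) → S4) (δ₁ δ₂ : (Fin 3 → ℝ) → S4),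
    ContinuousOn γ₁ (Bd 4) ∧ InjOn γ₁ (Bd 4) ∧ ContinuousOn γ₂ (Bd 4) ∧ InjOn γ₂ (Bd 4) ∧
    ContinuousOn δ₁ (Bd 3) ∧ InjOn δ₁ (Bd 3) ∧ ContinuousOn δ₂ (Bd 3) ∧ InjOn δ₂ (Bd 3) ∧
    γ₁ '' Bd 4 ∪ γ₂ '' Bd 4 = univ ∧ γ₁ '' Bd 4 ∩ γ₂ '' Bd 4 = δ₁ '' Bd 3 ∪ δ₂ '' Bd 3 ∧
    IsPreconnected (δ₁ '' Bd 3 ∩ δ₂ '' Bd 3) := by
  have p1 : (1 : ℝ) ^ 2 = 1 := by norm_num
  have m1 : (-1 : ℝ) ^ 2 = 1 := by norm_num
  refine ⟨hem 1 p1, hem (-1) m1, equ 1 p1, equ (-1) m1, hem_cont _ _, hem_inj _ _, hem_cont _ _,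
    hem_inj _ _, equ_cont _ _, equ_inj _ _, equ_cont _ _, equ_inj _ _, ?_, ?_, ?_⟩
  · rw [hem_image, hem_image]
    ext m
    simp only [mem_union, mem_setOf_eq, mem_univ, iff_true]
    rcases le_total 0 (m.1 0) with h | h
    · left
      linarith
    · right
      linarith
  · rw [hem_image, hem_image, equ_image, equ_image]
    ext m
    simp only [mem_union, mem_inter_iff, mem_setOf_eq]
    constructor
    · rintro ⟨h1, h2⟩
      have h0 : m.1 0 = 0 := by linarith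
      rcases le_total 0 (m.1 1) with h | h
      · left
        exact ⟨h0, by linarith⟩
      · right
        exact ⟨h0, by linarith⟩
    · rintro (⟨h0, -⟩ | ⟨h0, -⟩) <;> rw [h0] <;> simp
  · rw [equ_image, equ_image]
    have : {m : S4 | m.1 0 = 0 ∧ 0 ≤ (1 : ℝ) * m.1 1} ∩ {m : S4 | m.1 0 = 0 ∧ 0 ≤ (-1 : ℝ) * m.1 1} =
        {m : S4 | m.1 0 = 0 ∧ m.1 1 = 0} := by
      ext m
      simp only [mem_inter_iff, mem_setOf_eq]
      constructor
      · rintro ⟨⟨h0, h1⟩, -, h2⟩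
        exact ⟨h0, by linarith⟩
      · rintro ⟨h0, h1⟩
        rw [h0, h1]
        simp
    rw [this]
    exact pole_preconn

end Pool.Agent.SYH
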