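import Pool.Agent.SYH.SgT
import Pool.Agent.SYH.Bis
import Pool.Agent.SYH.Sph

/-!
# SYH/SgU (part II): sign systems on the sphere are trivial

`triv_convex`: `bisect` with `P C = Triv U s (γ '' C)`: `hempty`: `triv_empty`; `hloc`: for `x ∈ C₀` choose `k` with `γ x ∈ U k`
(open), continuity of `γ` on `C₀` gives `ε`, `triv_loc`; `hsplit`: `Triv.union`; by injectivity
`γ '' (C ∩ {x_k ≤ m}) ∩ γ '' (C ∩ {m ≤ x_k}) = γ '' (C ∩ {x_k = m})`, the image of a convex set: preconnected; the union is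
`γ '' C`.
`triv_sphere`: `sphere_decomp`: the two closed hemispheres; their intersection is the union of two connected sets (images of
convex sets) with a common point (e.g. both contain `δ₁ '' Bd 3 ∩ δ₂ '' Bd 3`, which must be shown nonempty), or simpler:
it is `{m | m 0 = 0}`...; use `sphere_decomp'`, the version of `sphere_decomp` that also states
`(δ₁ '' Bd 3 ∩ δ₂ '' Bd 3).Nonempty`, or prove directly that the intersection is preconnected.
-/

open Set Filter Topology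

namespace Pool.Agent.SYH

variable {ι : Type*}

theorem triv_convex {M : Type*} [TopologicalSpace M] [T2Space M] {U : ι → Set M}
    {s : ι → ι → M → ℤˣ} (hs : SgSys U s) {d : ℕ} {C₀ : Set (Fin d → ℝ)} {γ : (Fin d → ℝ) → M}
    (hC : IsCompact C₀) (hc : Convex ℝ C₀) (hγ : ContinuousOn γ C₀) (hi : InjOn γ C₀) :
    Triv U s (γ '' C₀) := by
  apply bisect (fun C => Triv U s (γ '' C)) hC hc
  · rw [image_empty]
    exact triv_empty
  · intro x hx
    obtain ⟨k, hk⟩ := hs.cov (γ x)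
    have h1 := (hγ x hx).preimage_mem_nhdsWithin ((hs.op k).mem_nhds hk)
    obtain ⟨ε, hε, hε'⟩ := Metric.mem_nhdsWithin_iff.1 h1
    refine ⟨ε, hε, fun C hCs _ _ => triv_loc hs (k := k) ?_⟩
    rintro m ⟨y, hy, rfl⟩
    exact hε' ⟨(hCs hy).2, (hCs hy).1⟩
  · intro C hCs hCc hCv k m h1 h2
    have hk : Continuous fun x : Fin d → ℝ => x k := continuous_apply k
    have c1 : IsClosed {x : Fin d → ℝ | x k ≤ m} := isClosed_le hk continuous_const
    have c2 : IsClosed {x : Fin d → ℝ | m ≤ x k} := isClosed_le continuous_const hk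
    have k1 : IsCompact (γ '' (C ∩ {x | x k ≤ m})) :=
      (hCc.inter_right c1).image_of_continuousOn (hγ.mono (inter_subset_left.trans hCs))
    have k2 : IsCompact (γ '' (C ∩ {x | m ≤ x k})) :=
      (hCc.inter_right c2).image_of_continuousOn (hγ.mono (inter_subset_left.trans hCs))
    have e1 : γ '' (C ∩ {x | x k ≤ m}) ∩ γ '' (C ∩ {x | m ≤ x k}) =
        γ '' ((C ∩ {x | x k ≤ m}) ∩ (C ∩ {x | m ≤ x k})) :=
      (hi.image_inter (inter_subset_left.trans hCs) (inter_subset_left.trans hCs)).symm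
    have v1 : Convex ℝ {x : Fin d → ℝ | x k ≤ m} := by
      intro x hx y hy a b ha hb hab
      simp only [Set.mem_ofPred_eq, Pi.add_apply, Pi.smul_apply, smul_eq_mul] at *
      have hb' : b = 1 - a := by linarith
      subst hb'
      nlinarith
    have v2 : Convex ℝ {x : Fin d → ℝ | m ≤ x k} := by
      intro x hx y hy a b ha hb hab
      simp only [Set.mem_ofPred_eq, Pi.add_apply, Pi.smul_apply, smul_eq_mul] at *
      have hb' : b = 1 - a := by linarith
      subst hb'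
      nlinarith
    have e2 : IsPreconnected (γ '' (C ∩ {x | x k ≤ m}) ∩ γ '' (C ∩ {x | m ≤ x k})) := by
      rw [e1]
      exact (((hCv.inter v1).inter (hCv.inter v2)).isPreconnected).image _
        (hγ.mono ((inter_subset_left.trans inter_subset_left).trans hCs))
    have e3 : γ '' C = γ '' (C ∩ {x | x k ≤ m}) ∪ γ '' (C ∩ {x | m ≤ x k}) := by
      rw [← image_union, ← inter_union_distrib_left]
      congr 1
      ext x
      constructor
      · intro hx
        exact ⟨hx, le_total (x k) m⟩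
      · exact fun hx => hx.1
    rw [e3]
    exact Triv.union hs k1 k2 e2 h1 h2

/-- the closed hemisphere as a graph -/
noncomputable def SgU_g (sg : ℝ) (y : Fin 4 → ℝ) : EuclideanSpace ℝ (Fin 5) :=
  WithLp.toLp 2 (Fin.cons (sg * √(1 - ∑ i, y i ^ 2)) y)

theorem SgU_g_zero (sg : ℝ) (y : Fin 4 → ℝ) : SgU_g sg y 0 = sg * √(1 - ∑ i, y i ^ 2) := rfl

theorem SgU_g_succ (sg : ℝ) (y : Fin 4 → ℝ) (i : Fin 4) : SgU_g sg y i.succ = y i := rfl

theorem SgU_norm_sq (x : EuclideanSpace ℝ (Fin 5)) :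
    ‖x‖ ^ 2 = x 0 ^ 2 + ∑ i : Fin 4, x i.succ ^ 2 := by
  rw [EuclideanSpace.norm_sq_eq, Fin.sum_univ_succ]
  simp

theorem SgU_g_norm {sg : ℝ} (hs : sg ^ 2 = 1) {y : Fin 4 → ℝ} (hy : y ∈ Bd 4) :
    ‖SgU_g sg y‖ = 1 := by
  have h1 : ‖SgU_g sg y‖ ^ 2 = 1 := by
    have hy' : ∑ i, y i ^ 2 ≤ 1 := hy
    rw [SgU_norm_sq, SgU_g_zero, mul_pow, hs, one_mul, Real.sq_sqrt (by linarith)]
    simp only [SgU_g_succ]
    ring
  have h2 := norm_nonneg (SgU_g sg y)
  nlinarith

open Classical in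
/-- the closed hemisphere -/
noncomputable def SgU_h (sg : ℝ) (hs : sg ^ 2 = 1) (y : Fin 4 → ℝ) : S4 :=
  if hy : y ∈ Bd 4 then ⟨SgU_g sg y, by
    rw [mem_sphere_zero_iff_norm]; exact SgU_g_norm hs hy⟩ else
    ⟨EuclideanSpace.single 0 1, by simp⟩

theorem SgU_h_val {sg : ℝ} (hs : sg ^ 2 = 1) {y : Fin 4 → ℝ} (hy : y ∈ Bd 4) :
    (SgU_h sg hs y : EuclideanSpace ℝ (Fin 5)) = SgU_g sg y := by
  rw [SgU_h, dif_pos hy]

theorem SgU_g_cont (sg : ℝ) : Continuous (SgU_g sg) := by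
  unfold SgU_g
  apply (PiLp.continuous_toLp 2 _).comp
  apply continuous_pi
  intro i
  refine Fin.cases ?_ (fun j => ?_) i
  · simp only [Fin.cons_zero]
    fun_prop
  · simp only [Fin.cons_succ]
    fun_prop

theorem SgU_h_cont {sg : ℝ} (hs : sg ^ 2 = 1) : ContinuousOn (SgU_h sg hs) (Bd 4) := by
  rw [Topology.IsInducing.subtypeVal.continuousOn_iff]
  apply (SgU_g_cont sg).continuousOn.congr
  intro y hy
  exact SgU_h_val hs hy

theorem SgU_h_inj {sg : ℝ} (hs : sg ^ 2 = 1) : InjOn (SgU_h sg hs) (Bd 4) := by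
  intro y hy y' hy' h
  have h1 : SgU_g sg y = SgU_g sg y' := by
    rw [← SgU_h_val hs hy, ← SgU_h_val hs hy', h]
  funext i
  rw [← SgU_g_succ sg y i, ← SgU_g_succ sg y' i, h1]

theorem SgU_image {sg : ℝ} (hs : sg ^ 2 = 1) :
    SgU_h sg hs '' Bd 4 = {m : S4 | 0 ≤ sg * (m : EuclideanSpace ℝ (Fin 5)) 0} := by
  ext m
  constructor
  · rintro ⟨y, hy, rfl⟩
    show 0 ≤ sg * (SgU_h sg hs y : EuclideanSpace ℝ (Fin 5)) 0
    rw [SgU_h_val hs hy, SgU_g_zero, ← mul_assoc, ← sq, hs, one_mul]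
    exact Real.sqrt_nonneg _
  · intro hm
    have hm' : 0 ≤ sg * (m : EuclideanSpace ℝ (Fin 5)) 0 := hm
    have hn : ‖(m : EuclideanSpace ℝ (Fin 5))‖ = 1 := mem_sphere_zero_iff_norm.1 m.2
    have hn2 := SgU_norm_sq (m : EuclideanSpace ℝ (Fin 5))
    rw [hn] at hn2
    set y : Fin 4 → ℝ := fun i => (m : EuclideanSpace ℝ (Fin 5)) i.succ with hy
    have hs1 : ∑ i, y i ^ 2 = 1 - (m : EuclideanSpace ℝ (Fin 5)) 0 ^ 2 := by
      simp only [hy]
      linarith
    have hyB : y ∈ Bd 4 := by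
      show ∑ i, y i ^ 2 ≤ 1
      rw [hs1]
      nlinarith [sq_nonneg ((m : EuclideanSpace ℝ (Fin 5)) 0)]
    refine ⟨y, hyB, ?_⟩
    apply Subtype.ext
    rw [SgU_h_val hs hyB]
    ext i
    refine Fin.cases ?_ (fun j => ?_) i
    · rw [SgU_g_zero, hs1, sub_sub_cancel]
      have h1 : (m : EuclideanSpace ℝ (Fin 5)) 0 ^ 2 = (sg * (m : EuclideanSpace ℝ (Fin 5)) 0) ^ 2 := by
        rw [mul_pow, hs, one_mul]
      rw [h1, Real.sqrt_sq hm', ← mul_assoc, ← sq, hs, one_mul]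
    · rw [SgU_g_succ]

/-- the two closed hemispheres have preconnected intersection (the proof of `sphere_decomp` gives `γ₁`, `γ₂`) -/
theorem hemispheres : ∃ γ₁ γ₂ : (Fin 4 → ℝ) → S4,
    ContinuousOn γ₁ (Bd 4) ∧ InjOn γ₁ (Bd 4) ∧ ContinuousOn γ₂ (Bd 4) ∧ InjOn γ₂ (Bd 4) ∧
    γ₁ '' Bd 4 ∪ γ₂ '' Bd 4 = univ ∧ IsPreconnected (γ₁ '' Bd 4 ∩ γ₂ '' Bd 4) := by
  have h1 : (1 : ℝ) ^ 2 = 1 := one_pow 2
  have h2 : (-1 : ℝ) ^ 2 = 1 := by norm_num
  refine ⟨SgU_h 1 h1, SgU_h (-1) h2, SgU_h_cont h1, SgU_h_inj h1, SgU_h_cont h2, SgU_h_inj h2,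
    ?_, ?_⟩
  · rw [SgU_image, SgU_image]
    ext m
    simp only [Set.mem_union, Set.mem_ofPred_eq, Set.mem_univ, iff_true, one_mul, neg_mul]
    rcases le_total 0 ((m : EuclideanSpace ℝ (Fin 5)) 0) with h | h
    · exact Or.inl h
    · right; linarith
  · rw [SgU_image, SgU_image]
    have hrank : 1 < Module.rank ℝ (EuclideanSpace ℝ (Fin 4)) := by
      rw [← Module.finrank_eq_rank, finrank_euclideanSpace_fin]
      norm_num
    have hpre := isPreconnected_sphere hrank (0 : EuclideanSpace ℝ (Fin 4)) 1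
    set f : Metric.sphere (0 : EuclideanSpace ℝ (Fin 4)) 1 → S4 := fun z =>
      ⟨WithLp.toLp 2 (Fin.cons (0 : ℝ) (fun i => (z : EuclideanSpace ℝ (Fin 4)) i) : Fin 5 → ℝ), by
        rw [mem_sphere_zero_iff_norm]
        have hz : ‖(z : EuclideanSpace ℝ (Fin 4))‖ = 1 := mem_sphere_zero_iff_norm.1 z.2
        have hz2 : ‖(z : EuclideanSpace ℝ (Fin 4))‖ ^ 2 = 1 := by rw [hz, one_pow]
        rw [EuclideanSpace.norm_sq_eq] at hz2
        have h3 : ‖(WithLp.toLp 2 (Fin.cons (0 : ℝ) (fun i => (z : EuclideanSpace ℝ (Fin 4)) i) :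
            Fin 5 → ℝ) : EuclideanSpace ℝ (Fin 5))‖ ^ 2 = 1 := by
          rw [SgU_norm_sq]
          simp only [Fin.cons_zero, Fin.cons_succ]
          simp only [Real.norm_eq_abs, sq_abs] at hz2
          rw [hz2]
          ring
        nlinarith [norm_nonneg (WithLp.toLp 2 (Fin.cons (0 : ℝ)
          (fun i => (z : EuclideanSpace ℝ (Fin 4)) i) : Fin 5 → ℝ) : EuclideanSpace ℝ (Fin 5))]⟩
      with hf
    have hfc : Continuous f := by
      apply Continuous.subtype_mk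
      apply (PiLp.continuous_toLp 2 _).comp
      apply continuous_pi
      intro i
      refine Fin.cases ?_ (fun j => ?_) i
      · simp only [Fin.cons_zero]
        exact continuous_const
      · simp only [Fin.cons_succ]
        exact (EuclideanSpace.proj j : EuclideanSpace ℝ (Fin 4) →L[ℝ] ℝ).continuous.comp
          continuous_subtype_val
    haveI : PreconnectedSpace (Metric.sphere (0 : EuclideanSpace ℝ (Fin 4)) 1) :=
      isPreconnected_iff_preconnectedSpace.1 hpre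
    have hrange : range f = {m : S4 | 0 ≤ (1 : ℝ) * (m : EuclideanSpace ℝ (Fin 5)) 0} ∩
        {m : S4 | 0 ≤ (-1 : ℝ) * (m : EuclideanSpace ℝ (Fin 5)) 0} := by
      ext m
      constructor
      · rintro ⟨z, rfl⟩
        have h0 : ((f z : S4) : EuclideanSpace ℝ (Fin 5)) 0 = 0 := rfl
        constructor
        · show 0 ≤ (1 : ℝ) * ((f z : S4) : EuclideanSpace ℝ (Fin 5)) 0
          rw [h0, mul_zero]
        · show 0 ≤ (-1 : ℝ) * ((f z : S4) : EuclideanSpace ℝ (Fin 5)) 0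
          rw [h0, mul_zero]
      · rintro ⟨ha, hb⟩
        have ha' : 0 ≤ (1 : ℝ) * (m : EuclideanSpace ℝ (Fin 5)) 0 := ha
        have hb' : 0 ≤ (-1 : ℝ) * (m : EuclideanSpace ℝ (Fin 5)) 0 := hb
        have h0 : (m : EuclideanSpace ℝ (Fin 5)) 0 = 0 := by linarith
        have hn : ‖(m : EuclideanSpace ℝ (Fin 5))‖ = 1 := mem_sphere_zero_iff_norm.1 m.2
        have hn2 := SgU_norm_sq (m : EuclideanSpace ℝ (Fin 5))
        rw [hn, h0] at hn2
        refine ⟨⟨WithLp.toLp 2 (fun i => (m : EuclideanSpace ℝ (Fin 5)) i.succ), ?_⟩, ?_⟩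
        · rw [mem_sphere_zero_iff_norm]
          have h3 : ‖(WithLp.toLp 2 (fun i => (m : EuclideanSpace ℝ (Fin 5)) i.succ) :
              EuclideanSpace ℝ (Fin 4))‖ ^ 2 = 1 := by
            rw [EuclideanSpace.norm_sq_eq]
            simp only [Real.norm_eq_abs, sq_abs]
            linarith
          nlinarith [norm_nonneg (WithLp.toLp 2 (fun i => (m : EuclideanSpace ℝ (Fin 5)) i.succ) :
              EuclideanSpace ℝ (Fin 4))]
        · apply Subtype.ext
          ext i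
          refine Fin.cases ?_ (fun j => ?_) i
          · exact h0.symm
          · rfl
    rw [← hrange]
    exact isPreconnected_range hfc

theorem triv_sphere {U : ι → Set S4} {s : ι → ι → S4 → ℤˣ} (hs : SgSys U s) :
    ∃ ε, TrivOn U s univ ε := by
  obtain ⟨γ₁, γ₂, c1, i1, c2, i2, hu, hp⟩ := hemispheres
  have t1 := triv_convex hs (Bd_compact 4) (Bd_convex 4) c1 i1
  have t2 := triv_convex hs (Bd_compact 4) (Bd_convex 4) c2 i2
  have t3 := Triv.union hs ((Bd_compact 4).image_of_continuousOn c1)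
    ((Bd_compact 4).image_of_continuousOn c2) hp t1 t2
  rw [hu] at t3
  obtain ⟨V, _, hV, ε, hε⟩ := t3
  rw [Set.univ_subset_iff.1 hV] at hε
  exact ⟨ε, hε⟩

end Pool.Agent.SYH
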