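import Pool.Agent.SYH.Defs

/-!
# SYH/BasT: elementary facts on partial derivatives and test functions

`pd_comm`: symmetry of the second derivative.  `Test.split`: Mathlib `SmoothPartitionOfUnity.exists_isSubordinate` (model
`𝓘(ℝ, R4)`), or by hand: finitely many `U y` cover `K = tsupport ψ`, bump functions.  `int_pd`: Mathlib, e.g.
`integral_fderiv..eq_zero`/`integral_bilinear_hasLineDerivAt_right_eq_neg_left_of_integrable`, or Fubini.
-/

open MeasureTheory Set Filter Topology
open scoped ContDiff Matrix ENNReal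

namespace Pool.Agent.SYH

variable {Ω Ω' : Set R4} {p q : ℝ≥0∞} {g g' u : R4 → ℝ} {ψ χ : R4 → ℝ}

theorem pd_add (a : Fin 4) {x : R4} (h : DifferentiableAt ℝ ψ x) (h' : DifferentiableAt ℝ χ x) :
    pd a (fun x => ψ x + χ x) x = pd a ψ x + pd a χ x := by
  unfold pd
  rw [fderiv_fun_add h h']
  rfl

theorem pd_mul (a : Fin 4) {x : R4} (h : DifferentiableAt ℝ ψ x) (h' : DifferentiableAt ℝ χ x) :
    pd a (fun x => ψ x * χ x) x = ψ x * pd a χ x + pd a ψ x * χ x := by
  unfold pd
  rw [fderiv_fun_mul h h']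
  simp only [FunLike.coe_add, Pi.add_apply, FunLike.coe_smul, Pi.smul_apply, smul_eq_mul]
  ring

theorem pd_const_mul (a : Fin 4) (c : ℝ) {x : R4} (h : DifferentiableAt ℝ ψ x) :
    pd a (fun x => c * ψ x) x = c * pd a ψ x := by
  unfold pd
  rw [fderiv_const_mul h]
  rfl

theorem pd_smooth (a : Fin 4) (h : ContDiff ℝ ∞ ψ) : ContDiff ℝ ∞ (pd a ψ) := by
  have h1 : ContDiff ℝ ∞ (fderiv ℝ ψ) := h.fderiv_right (m := ∞) (by norm_cast)
  exact h1.clm_apply contDiff_const

theorem pd_comm (a b : Fin 4) (h : ContDiff ℝ ∞ ψ) (x : R4) :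
    pd a (pd b ψ) x = pd b (pd a ψ) x := by
  have h1 : ContDiff ℝ ∞ (fderiv ℝ ψ) := h.fderiv_right (m := ∞) (by norm_cast)
  have hd : DifferentiableAt ℝ (fderiv ℝ ψ) x := (h1.differentiable (by simp)).differentiableAt
  have key : ∀ v w : R4, fderiv ℝ (fun y => fderiv ℝ ψ y v) x w =
      fderiv ℝ (fderiv ℝ ψ) x w v := by
    intro v w
    have := fderiv_clm_apply hd (differentiableAt_const v)
    rw [this]
    simp
  have hs : IsSymmSndFDerivAt ℝ ψ x :=
    ContDiffAt.isSymmSndFDerivAt (n := ∞) h.contDiffAt (by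
      simp only [minSmoothness_of_isRCLikeNormedField]
      exact WithTop.coe_le_coe.2 le_top)
  show fderiv ℝ (fun y => fderiv ℝ ψ y (Pi.single b 1)) x (Pi.single a 1) =
    fderiv ℝ (fun y => fderiv ℝ ψ y (Pi.single a 1)) x (Pi.single b 1)
  rw [key, key]
  exact hs _ _

theorem fderiv_eq_sum {x : R4} (v : R4) : fderiv ℝ ψ x v = ∑ a, v a * pd a ψ x := by
  have hv : v = ∑ a, v a • (Pi.single a (1 : ℝ) : R4) := by
    ext i
    simp [Finset.sum_apply, Pi.single_apply]
  conv_lhs => rw [hv]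
  rw [map_sum]
  refine Finset.sum_congr rfl fun a _ => ?_
  rw [map_smul, smul_eq_mul]
  rfl

theorem pd_eq_zero {x : R4} (a : Fin 4) (h : x ∉ tsupport ψ) : pd a ψ x = 0 := by
  unfold pd
  rw [fderiv_of_notMem_tsupport ℝ h]
  rfl

theorem Test.mono (h : Test Ω ψ) (hs : Ω ⊆ Ω') : Test Ω' ψ :=
  ⟨h.smooth, h.cpt, h.supp.trans hs⟩

theorem BasT_supp_pd (a : Fin 4) : Function.support (SYH.pd a ψ) ⊆ tsupport ψ := by
  intro x hx
  by_contra hc
  exact hx (pd_eq_zero a hc)

theorem Test.pd (h : Test Ω ψ) (a : Fin 4) : Test Ω (pd a ψ) where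
  smooth := pd_smooth a h.smooth
  cpt := h.cpt.mono' (BasT_supp_pd a)
  supp := (closure_minimal (BasT_supp_pd a) (isClosed_tsupport ψ)).trans h.supp

theorem BasT_supp_mul : Function.support (fun x => χ x * ψ x) ⊆ Function.support ψ := by
  intro x hx
  simp only [Function.mem_support] at hx ⊢
  intro hc
  exact hx (by rw [hc, mul_zero])

theorem Test.mul (h : Test Ω ψ) (hχ : ContDiff ℝ ∞ χ) : Test Ω (fun x => χ x * ψ x) where
  smooth := hχ.mul h.smooth
  cpt := h.cpt.mono BasT_supp_mul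
  supp := (closure_mono BasT_supp_mul).trans h.supp

/-- smooth partition of a test function, subordinate to a cover by open sets -/
theorem Test.split (h : Test Ω ψ) {U : R4 → Set R4} (hU : ∀ x ∈ Ω, IsOpen (U x) ∧ x ∈ U x) :
    ∃ (s : Finset R4) (f : R4 → R4 → ℝ), (∀ y ∈ s, y ∈ Ω ∧ Test (U y ∩ Ω) (f y)) ∧
      ∀ x, ψ x = ∑ y ∈ s, f y x := by
  classical
  have hK : IsCompact (tsupport ψ) := h.cpt
  obtain ⟨t, htc⟩ := hK.elim_nhds_subcover' (fun x _ => U x)
    (fun x hx => (hU x (h.supp hx)).1.mem_nhds (hU x (h.supp hx)).2)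
  set s : Finset R4 := Finset.image Subtype.val t with hs
  have hsK : ∀ y ∈ s, y ∈ tsupport ψ := by
    intro y hy
    rw [hs, Finset.mem_image] at hy
    obtain ⟨z, _, rfl⟩ := hy
    exact z.2
  have hcov : tsupport ψ ⊆ ⋃ i : s, U i := by
    intro x hx
    obtain ⟨i, hi⟩ := mem_iUnion.1 (htc hx)
    obtain ⟨hit, hxi⟩ := mem_iUnion.1 hi
    refine mem_iUnion.2 ⟨⟨(i : R4), ?_⟩, hxi⟩
    rw [hs]
    exact Finset.mem_image_of_mem _ hit
  obtain ⟨ρ, hρ⟩ := SmoothPartitionOfUnity.exists_isSubordinate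
    (modelWithCornersSelf ℝ R4) (isClosed_tsupport ψ)
    (fun i : s => U i) (fun i => (hU i (h.supp (hsK i i.2))).1) hcov
  have hsm : ∀ i : s, ContDiff ℝ ∞ (ρ i) := fun i => (ρ i).contMDiff.contDiff
  refine ⟨s, fun y x => if hy : y ∈ s then ρ ⟨y, hy⟩ x * ψ x else 0, ?_, ?_⟩
  · intro y hy
    refine ⟨h.supp (hsK y hy), ?_⟩
    simp only [hy, dif_pos]
    have hm := h.mul (hsm ⟨y, hy⟩)
    refine ⟨hm.smooth, hm.cpt, ?_⟩
    refine subset_inter ?_ hm.supp
    refine (closure_mono ?_).trans (hρ ⟨y, hy⟩)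
    intro x hx
    simp only [Function.mem_support] at hx ⊢
    intro hc
    exact hx (by rw [hc, zero_mul])
  · intro x
    have e : ∑ y ∈ s, (if hy : y ∈ s then ρ ⟨y, hy⟩ x * ψ x else 0) =
        ∑ i : s, ρ i x * ψ x := by
      rw [← Finset.sum_coe_sort s]
      refine Finset.sum_congr rfl fun i _ => ?_
      rw [dif_pos i.2]
    rw [e, ← Finset.sum_mul]
    by_cases hx : x ∈ tsupport ψ
    · have h1 := ρ.sum_eq_one hx
      rw [finsum_eq_sum_of_fintype] at h1
      rw [h1, one_mul]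
    · rw [image_eq_zero_of_notMem_tsupport hx, mul_zero]

/-- integral of a partial derivative of a compactly supported smooth function -/
theorem int_pd (h : Test univ ψ) (a : Fin 4) : ∫ x, SYH.pd a ψ x = 0 := by
  have hpd := h.pd a
  have i1 : Integrable (SYH.pd a ψ) := hpd.smooth.continuous.integrable_of_hasCompactSupport hpd.cpt
  have i2 : Integrable ψ := h.smooth.continuous.integrable_of_hasCompactSupport h.cpt
  have key := integral_mul_fderiv_eq_neg_fderiv_mul_of_integrable (μ := (volume : Measure R4))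
    (f := fun _ => (1 : ℝ)) (g := ψ) (v := Pi.single a 1) (by simp) (by
      simp only [one_mul]
      exact i1) (by simpa using i2) (fun x _ => differentiableAt_const _)
    (fun x _ => (h.smooth.differentiable (by simp)).differentiableAt)
  simp only [one_mul, fderiv_const_apply, FunLike.coe_zero, Pi.zero_apply, zero_mul,
    integral_zero, neg_zero] at key
  exact key

end Pool.Agent.SYH
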