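import Pool.Agent.SYH.BasL
import Pool.Agent.SYH.BasT

/-! # SYH/Bas: `BasL` and `BasT` -/
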