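import Pool.Agent.SYH.MolL
import Pool.Agent.SYH.DivB

/-!
# SYH/Apx: smooth approximation of Sobolev functions and of closed forms

`K ⊆ Ω` compact, `Ω` open: there is `r > 0` with `S := Metric.cthickening r K ⊆ Ω`, compact.  Put
`v = mol δ (S.indicator u)` for small `δ < r`.  `mol_close` (uniform continuity of `u` on `S`) gives the uniform bound on `K`.
`mol_div` (with `w = u • e_a`, `c = g a`, `WG.iff_div`) gives `pd a v = mol δ (S.indicator (g a))` on `K`, and `mol_lim`
for `S.indicator (g a)`, of class `L^q`, gives the second bound.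
`apxCurl`: `β_a = mol δ (S.indicator (α a))`, and `mol_div` with `w = α_b e_a - α_a e_b`, `c = 0`.
-/

open MeasureTheory Set Filter Topology
open scoped ContDiff Matrix ENNReal

namespace Pool.Agent.SYH

theorem Apx_thick {Ω K : Set R4} (hΩ : IsOpen Ω) (hK : IsCompact K) (hs : K ⊆ Ω) :
    ∃ r > 0, ∃ S, IsCompact S ∧ MeasurableSet S ∧ K ⊆ S ∧ S ⊆ Ω ∧
      ∀ x ∈ K, Metric.closedBall x r ⊆ S := by
  obtain ⟨r, hr, h⟩ := hK.exists_cthickening_subset_open hΩ hs
  refine ⟨r, hr, Metric.cthickening r K, hK.cthickening, hK.cthickening.measurableSet,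
    Metric.self_subset_cthickening K, h, ?_⟩
  intro x hx
  exact Metric.closedBall_subset_cthickening hx r

theorem Apx_ind {q : ℝ≥0∞} {Ω S : Set R4} (hS : IsCompact S) (hSm : MeasurableSet S) (hSΩ : S ⊆ Ω)
    {f : R4 → ℝ} (hf : LpL q Ω f) : MemLp (S.indicator f) q := by
  rw [memLp_indicator_iff_restrict hSm]
  exact hf S hSΩ hS

theorem Apx_intOn {q : ℝ≥0∞} (h1 : 1 ≤ q) {Ω S : Set R4} (hS : IsCompact S) (hSΩ : S ⊆ Ω)
    {f : R4 → ℝ} (hf : LpL q Ω f) : IntegrableOn f S := by
  have := (hf.exp h1) S hSΩ hS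
  exact memLp_one_iff_integrable.1 this

theorem Apx_locInt {q : ℝ≥0∞} (h1 : 1 ≤ q) {Ω S : Set R4} (hS : IsCompact S) (hSm : MeasurableSet S)
    (hSΩ : S ⊆ Ω) {f : R4 → ℝ} (hf : LpL q Ω f) : LocallyIntegrable (S.indicator f) := by
  have : Integrable (S.indicator f) := by
    rw [integrable_indicator_iff hSm]
    exact Apx_intOn h1 hS hSΩ hf
  exact this.locallyIntegrable

theorem Apx_pd_zero (a : Fin 4) {f : R4 → ℝ} (hf : f = fun _ => 0) (x : R4) : pd a f x = 0 := by
  rw [hf]
  unfold pd
  simp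

theorem Apx_mol_zero (δ : ℝ) {f : R4 → ℝ} (hf : f = fun _ => 0) : mol δ f = fun _ => 0 := by
  funext x
  rw [hf]
  simp [mol]

theorem Apx_mol_neg (δ : ℝ) (f : R4 → ℝ) : mol δ (fun x => -f x) = fun x => -mol δ f x := by
  funext x
  simp only [mol, mul_neg, integral_neg]

theorem Apx_pd_neg (a : Fin 4) (f : R4 → ℝ) (x : R4) : pd a (fun x => -f x) x = -pd a f x := by
  unfold pd
  rw [show (fun x => -f x) = -f from rfl, fderiv_neg]
  rfl

/-- the choice of the parameter of the mollification -/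
theorem Apx_delta {q : ℝ≥0∞} (h1 : 1 ≤ q) (hq : q ≠ ⊤) {F : Fin 4 → R4 → ℝ}
    (hF : ∀ a, MemLp (F a) q) {ε : ℝ} (hε : 0 < ε) {r : ℝ} (hr : 0 < r) :
    ∃ δ > 0, δ ≤ r ∧ ∀ a, eLpNorm (fun x => mol δ (F a) x - F a x) q volume ≤ ENNReal.ofReal ε := by
  have h0 : ∀ᶠ δ in 𝓝[>] (0 : ℝ), ∀ a,
      eLpNorm (fun x => mol δ (F a) x - F a x) q volume ≤ ENNReal.ofReal ε := by
    rw [Filter.eventually_all]
    intro a
    have h2 := mol_lim h1 hq (hF a)
    exact h2.eventually (Iic_mem_nhds (ENNReal.ofReal_pos.2 hε))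
  have h2 : ∀ᶠ δ in 𝓝[>] (0 : ℝ), δ ≤ r :=
    nhdsWithin_le_nhds (Iic_mem_nhds hr)
  have h3 : ∀ᶠ δ in 𝓝[>] (0 : ℝ), 0 < δ := self_mem_nhdsWithin
  obtain ⟨δ, ha, hb, hc⟩ := (h3.and (h2.and h0)).exists
  exact ⟨δ, ha, hb, hc⟩

theorem apx {Ω K : Set R4} (hΩ : IsOpen Ω) (hK : IsCompact K) (hs : K ⊆ Ω) {q : ℝ≥0∞} (h1 : 1 ≤ q)
    (hq : q ≠ ⊤) {u : R4 → ℝ} {g : R4 → R4} (hu : ContinuousOn u Ω)
    (hg : ∀ a, LpL q Ω (fun x => g x a)) (h : WG Ω u g) {ε : ℝ} (hε : 0 < ε) :
    ∃ v : R4 → ℝ, ContDiff ℝ ∞ v ∧ (∀ x ∈ K, |v x - u x| ≤ ε) ∧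
      ∀ a, eLpNorm (fun x => pd a v x - g x a) q (volume.restrict K) ≤ ENNReal.ofReal ε := by
  obtain ⟨r, hr, S, hS, hSm, hKS, hSΩ, hball⟩ := Apx_thick hΩ hK hs
  have huC : UniformContinuousOn u S := hS.uniformContinuousOn_of_continuous (hu.mono hSΩ)
  obtain ⟨η, hη, hη'⟩ := Metric.uniformContinuousOn_iff.1 huC ε hε
  obtain ⟨δ, hδ, hδr, hδ'⟩ := Apx_delta h1 hq (F := fun a => S.indicator (fun x => g x a))
    (fun a => Apx_ind hS hSm hSΩ (hg a)) hε (lt_min hr hη)
  have hδ1 : δ ≤ r := hδr.trans (min_le_left _ _)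
  have hδ2 : δ ≤ η := hδr.trans (min_le_right _ _)
  have huL : LpL 1 Ω u := LpL.of_cont hΩ hu
  have hloc : LocallyIntegrable (S.indicator u) := Apx_locInt le_rfl hS hSm hSΩ huL
  refine ⟨mol δ (S.indicator u), mol_smooth δ hloc, ?_, ?_⟩
  · intro x hx
    have hxS : x ∈ S := hKS hx
    have e1 : S.indicator u x = u x := Set.indicator_of_mem hxS u
    rw [← e1]
    refine mol_close hδ hloc ?_
    intro t ht
    have h3 : x - t ∈ S := by
      refine hball x hx ?_
      rw [Metric.mem_closedBall, dist_eq_norm]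
      have : x - t - x = -t := by abel
      rw [this, norm_neg]
      exact ht.le.trans hδ1
    rw [Set.indicator_of_mem h3, Set.indicator_of_mem hxS]
    have h4 := hη' (x - t) h3 x hxS (by
      rw [dist_eq_norm]
      have : x - t - x = -t := by abel
      rw [this, norm_neg]
      exact ht.trans_le hδ2)
    rw [Real.dist_eq] at h4
    exact h4.le
  · intro a
    have hdiv := (WG.iff_div hΩ hu (fun a => (hg a).exp h1)).1 h a
    have e : ∀ x ∈ K, pd a (mol δ (S.indicator u)) x = mol δ (S.indicator (fun x => g x a)) x := by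
      intro x hx
      have h5 := mol_div (x := x) hδ hSm (w := fun y => u y • Pi.single a 1) (c := fun y => g y a)
        ?_ (Apx_intOn h1 hS hSΩ (hg a)) ((Metric.closedBall_subset_closedBall hδ1).trans (hball x hx))
        ((Metric.closedBall_subset_closedBall hδ1).trans ((hball x hx).trans hSΩ)) hdiv
      · rw [← h5]
        rw [Finset.sum_eq_single a]
        · simp
        · intro b _ hb
          refine Apx_pd_zero b (Apx_mol_zero δ ?_) x
          funext y
          simp [Pi.single_eq_of_ne hb]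
        · intro h'; exact absurd (Finset.mem_univ a) h'
      · intro b
        by_cases hb : b = a
        · subst hb
          simpa using Apx_intOn le_rfl hS hSΩ huL
        · simp [Pi.single_eq_of_ne hb]
    have e2 : eLpNorm (fun x => pd a (mol δ (S.indicator u)) x - g x a) q (volume.restrict K) =
        eLpNorm (fun x => mol δ (S.indicator (fun x => g x a)) x - S.indicator (fun x => g x a) x) q
          (volume.restrict K) := by
      refine eLpNorm_congr_ae ?_
      filter_upwards [ae_restrict_mem hK.measurableSet] with x hx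
      rw [e x hx, Set.indicator_of_mem (hKS hx)]
    rw [e2]
    exact (eLpNorm_mono_measure _ Measure.restrict_le_self).trans (hδ' a)

theorem apxCurl {Ω K : Set R4} (hΩ : IsOpen Ω) (hK : IsCompact K) (hs : K ⊆ Ω) {q : ℝ≥0∞}
    (h1 : 1 ≤ q) (hq : q ≠ ⊤) {α : R4 → R4} (hα : ∀ a, LpL q Ω (fun x => α x a))
    (h : Curl Ω α 0) {ε : ℝ} (hε : 0 < ε) :
    ∃ β : Fin 4 → R4 → ℝ, (∀ a, ContDiff ℝ ∞ (β a)) ∧
      (∀ x ∈ K, ∀ a b, pd a (β b) x = pd b (β a) x) ∧
      ∀ a, eLpNorm (fun x => β a x - α x a) q (volume.restrict K) ≤ ENNReal.ofReal ε := by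
  obtain ⟨r, hr, S, hS, hSm, hKS, hSΩ, hball⟩ := Apx_thick hΩ hK hs
  obtain ⟨δ, hδ, hδ1, hδ'⟩ := Apx_delta h1 hq (F := fun a => S.indicator (fun x => α x a))
    (fun a => Apx_ind hS hSm hSΩ (hα a)) hε hr
  refine ⟨fun a => mol δ (S.indicator (fun x => α x a)),
    fun a => mol_smooth δ (Apx_locInt h1 hS hSm hSΩ (hα a)), ?_, ?_⟩
  · intro x hx a b
    by_cases hab : a = b
    · rw [hab]
    · have h5 := mol_div (x := x) hδ hSm
        (w := fun y => α y b • Pi.single a 1 - α y a • Pi.single b 1)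
        (c := fun y => (0 : R4 → Matrix (Fin 4) (Fin 4) ℝ) y a b)
        ?_ ?_ ((Metric.closedBall_subset_closedBall hδ1).trans (hball x hx))
        ((Metric.closedBall_subset_closedBall hδ1).trans ((hball x hx).trans hSΩ)) (h a b)
      · have hz : mol δ (S.indicator fun y => (0 : R4 → Matrix (Fin 4) (Fin 4) ℝ) y a b) x = 0 := by
          have : (S.indicator fun y => (0 : R4 → Matrix (Fin 4) (Fin 4) ℝ) y a b) = fun _ => 0 := by
            funext y
            simp
          rw [Apx_mol_zero δ this]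
        rw [hz] at h5
        have h6 : ∀ c : Fin 4, c ≠ a → c ≠ b → pd c (mol δ (S.indicator (fun y =>
            (α y b • Pi.single a 1 - α y a • Pi.single b 1 : R4) c))) x = 0 := by
          intro c hca hcb
          refine Apx_pd_zero c (Apx_mol_zero δ ?_) x
          funext y
          simp [Pi.single_eq_of_ne hca, Pi.single_eq_of_ne hcb]
        have h7 : pd a (mol δ (S.indicator (fun y =>
            (α y b • Pi.single a 1 - α y a • Pi.single b 1 : R4) a))) x
            = pd a (mol δ (S.indicator (fun y => α y b))) x := by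
          congr 2
          funext y
          simp [Pi.single_eq_of_ne hab]
        have h8 : pd b (mol δ (S.indicator (fun y =>
            (α y b • Pi.single a 1 - α y a • Pi.single b 1 : R4) b))) x
            = -pd b (mol δ (S.indicator (fun y => α y a))) x := by
          rw [← Apx_pd_neg, ← Apx_mol_neg]
          congr 2
          funext y
          by_cases hy : y ∈ S
          · simp [hy, Pi.single_eq_of_ne (Ne.symm hab)]
          · simp [hy]
        have h9 : ∑ c, pd c (mol δ (S.indicator (fun y =>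
            (α y b • Pi.single a 1 - α y a • Pi.single b 1 : R4) c))) x
            = pd a (mol δ (S.indicator (fun y => α y b))) x
              - pd b (mol δ (S.indicator (fun y => α y a))) x := by
          rw [← Finset.sum_subset (Finset.subset_univ {a, b}), Finset.sum_pair hab, h7, h8]
          · ring
          · intro c _ hc
            simp only [Finset.mem_insert, Finset.mem_singleton, not_or] at hc
            exact h6 c hc.1 hc.2
        have h10 := h9.symm.trans h5
        linarith
      · intro c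
        have i1 := Apx_intOn h1 hS hSΩ (hα b)
        have i2 := Apx_intOn h1 hS hSΩ (hα a)
        have := (i1.mul_const ((Pi.single a 1 : R4) c)).sub (i2.mul_const ((Pi.single b 1 : R4) c))
        exact this
      · simp
  · intro a
    have e2 : eLpNorm (fun x => mol δ (S.indicator (fun x => α x a)) x - α x a) q
        (volume.restrict K) =
        eLpNorm (fun x => mol δ (S.indicator (fun x => α x a)) x - S.indicator (fun x => α x a) x) q
          (volume.restrict K) := by
      refine eLpNorm_congr_ae ?_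
      filter_upwards [ae_restrict_mem hK.measurableSet] with x hx
      rw [Set.indicator_of_mem (hKS hx)]
    rw [e2]
    exact (eLpNorm_mono_measure _ Measure.restrict_le_self).trans (hδ' a)

end Pool.Agent.SYH
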