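import Pool.Agent.SYH.Apx

/-!
# SYH/Prd: product rule and chain rule with a smooth outer function

Both by `apx` with `q = 1` on `K = tsupport ψ` (`ψ` the test function): for `v` smooth the formula
`∫ v₁ v₂ ∂_a ψ = - ∫ (v₁ ∂_a v₂ + v₂ ∂_a v₁) ψ` holds (`int_pd` for `v₁ v₂ ψ`), and both sides converge
(one factor uniformly on `K`, the other in `L^1 (K)`; all functions are only needed on `K`).
`chS`: same with `F ∘ (v_1, .., v_4)`, `v_b → φ_b` uniformly on `K`, `F`, `∂_b F` uniformly continuous on bounded sets.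
-/

open MeasureTheory Set Filter Topology
open scoped ContDiff Matrix ENNReal

namespace Pool.Agent.SYH

theorem Prd.lim {K : Set R4} (hK : IsCompact K) {f : R4 → ℝ} {fn : ℕ → R4 → ℝ} {g : R4 → ℝ}
    {gn : ℕ → R4 → ℝ} (hf : ContinuousOn f K) (hfn : ∀ n, ContinuousOn (fn n) K)
    (hu : TendstoUniformlyOn fn f atTop K) (hg : IntegrableOn g K)
    (hgn : ∀ n, IntegrableOn (gn n) K)
    (hl : Tendsto (fun n => ∫ x in K, |gn n x - g x|) atTop (𝓝 0)) :
    Tendsto (fun n => ∫ x in K, fn n x * gn n x) atTop (𝓝 (∫ x in K, f x * g x)) := by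
  obtain ⟨C, hC⟩ := hK.exists_bound_of_continuousOn hf
  set I := ∫ x in K, |g x| with hI
  have hI0 : 0 ≤ I := integral_nonneg (fun _ => abs_nonneg _)
  set C' := max C 0 with hC'
  have hC'0 : 0 ≤ C' := le_max_right _ _
  have hC'b : ∀ x ∈ K, |f x| ≤ C' := fun x hx => (hC x hx).trans (le_max_left _ _)
  rw [Metric.tendsto_atTop]
  intro ε hε
  rw [Metric.tendstoUniformlyOn_iff] at hu
  obtain ⟨η, hη, hη1, hηI⟩ : ∃ η : ℝ, 0 < η ∧ η ≤ 1 ∧ η * I < ε / 2 := by
    refine ⟨min 1 (ε / (2 * (I + 1)) / 2), ?_, min_le_left _ _, ?_⟩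
    · positivity
    · calc min 1 (ε / (2 * (I + 1)) / 2) * I ≤ (ε / (2 * (I + 1)) / 2) * I := by
            gcongr
            exact min_le_right _ _
        _ < ε / 2 := by
            rw [div_div, div_mul_eq_mul_div, div_lt_div_iff₀ (by positivity) (by norm_num)]
            nlinarith
  have e1 := hu η hη
  have e2 : ∀ᶠ n in atTop, (∫ x in K, |gn n x - g x|) < ε / (2 * (C' + 1)) := by
    have := (Metric.tendsto_nhds.1 hl) (ε / (2 * (C' + 1))) (by positivity)
    filter_upwards [this] with n hn
    rw [Real.dist_eq, sub_zero] at hn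
    exact (le_abs_self _).trans_lt hn
  obtain ⟨N, hN⟩ := eventually_atTop.1 (e1.and e2)
  refine ⟨N, fun n hn => ?_⟩
  obtain ⟨h1, h2⟩ := hN n hn
  have h1' : ∀ x ∈ K, |fn n x - f x| ≤ η := by
    intro x hx
    have := h1 x hx
    rw [dist_comm, Real.dist_eq] at this
    exact this.le
  rw [Real.dist_eq, ← integral_sub]
  rotate_left
  · exact (hgn n).continuousOn_mul (hfn n) hK
  · exact hg.continuousOn_mul hf hK
  have hi1 : IntegrableOn (fun x => |gn n x - g x|) K := ((hgn n).sub hg).abs
  have hi2 : IntegrableOn (fun x => |g x|) K := hg.abs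
  calc |∫ x in K, (fn n x * gn n x - f x * g x)|
      ≤ ∫ x in K, |fn n x * gn n x - f x * g x| := abs_integral_le_integral_abs
    _ ≤ ∫ x in K, ((C' + η) * |gn n x - g x| + η * |g x|) := by
        apply setIntegral_mono_on
        · exact (((hgn n).continuousOn_mul (hfn n) hK).sub (hg.continuousOn_mul hf hK)).abs
        · exact (hi1.const_mul _).add (hi2.const_mul _)
        · exact hK.measurableSet
        · intro x hx
          have ha : fn n x * gn n x - f x * g x =
              fn n x * (gn n x - g x) + (fn n x - f x) * g x := by ring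
          have hb : |fn n x| ≤ C' + η := by
            have := h1' x hx
            have h3 := hC'b x hx
            have : fn n x = f x + (fn n x - f x) := by ring
            rw [this]
            exact (abs_add_le _ _).trans (add_le_add h3 (h1' x hx))
          rw [ha]
          refine (abs_add_le _ _).trans (add_le_add ?_ ?_)
          · rw [abs_mul]
            exact mul_le_mul_of_nonneg_right hb (abs_nonneg _)
          · rw [abs_mul]
            exact mul_le_mul_of_nonneg_right (h1' x hx) (abs_nonneg _)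
    _ = (C' + η) * (∫ x in K, |gn n x - g x|) + η * I := by
        rw [integral_add (hi1.const_mul _) (hi2.const_mul _), integral_const_mul,
          integral_const_mul]
    _ < ε := by
        have h4 : (C' + η) * (∫ x in K, |gn n x - g x|) ≤
            (C' + 1) * (∫ x in K, |gn n x - g x|) := by
          gcongr
        have h5 : (C' + 1) * (∫ x in K, |gn n x - g x|) < ε / 2 := by
          calc (C' + 1) * (∫ x in K, |gn n x - g x|) < (C' + 1) * (ε / (2 * (C' + 1))) :=
                mul_lt_mul_of_pos_left h2 (by positivity)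
            _ = ε / 2 := by field_simp
        linarith

theorem Prd.seq {Ω K : Set R4} (hΩ : IsOpen Ω) (hK : IsCompact K) (hs : K ⊆ Ω)
    {u : R4 → ℝ} {g : R4 → R4} (hu : ContinuousOn u Ω)
    (hg : ∀ a, LpL 1 Ω (fun x => g x a)) (h : WG Ω u g) :
    ∃ v : ℕ → R4 → ℝ, (∀ n, ContDiff ℝ ∞ (v n)) ∧ TendstoUniformlyOn v u atTop K ∧
      ∀ a, Tendsto (fun n => ∫ x in K, |pd a (v n) x - g x a|) atTop (𝓝 0) := by
  have key : ∀ n : ℕ, ∃ v : R4 → ℝ, ContDiff ℝ ∞ v ∧ (∀ x ∈ K, |v x - u x| ≤ 1 / ((n : ℝ) + 1)) ∧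
      ∀ a, eLpNorm (fun x => pd a v x - g x a) 1 (volume.restrict K) ≤
        ENNReal.ofReal (1 / ((n : ℝ) + 1)) := fun n =>
    apx hΩ hK hs le_rfl ENNReal.one_ne_top hu hg h (by positivity)
  choose v hv1 hv2 hv3 using key
  refine ⟨v, hv1, ?_, ?_⟩
  · rw [Metric.tendstoUniformlyOn_iff]
    intro ε hε
    have h1 : Tendsto (fun n : ℕ => 1 / ((n : ℝ) + 1)) atTop (𝓝 0) :=
      tendsto_one_div_add_atTop_nhds_zero_nat
    filter_upwards [(tendsto_order.1 h1).2 ε hε] with n hn x hx
    rw [dist_comm, Real.dist_eq]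
    exact (hv2 n x hx).trans_lt hn
  · intro a
    refine squeeze_zero (fun n => integral_nonneg (fun _ => abs_nonneg _)) (fun n => ?_)
      tendsto_one_div_add_atTop_nhds_zero_nat
    have hm : AEStronglyMeasurable (fun x => pd a (v n) x - g x a) (volume.restrict K) :=
      ((pd_smooth a (hv1 n)).continuous.aestronglyMeasurable).sub (hg a K hs hK).1
    have h2 := hv3 n a
    rw [eLpNorm_one_eq_lintegral_enorm] at h2
    calc ∫ x in K, |pd a (v n) x - g x a| = ∫ x in K, ‖pd a (v n) x - g x a‖ := rfl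
      _ = (∫⁻ x in K, ‖pd a (v n) x - g x a‖ₑ).toReal := integral_norm_eq_lintegral_enorm hm
      _ ≤ (ENNReal.ofReal (1 / ((n : ℝ) + 1))).toReal :=
          ENNReal.toReal_mono ENNReal.ofReal_ne_top h2
      _ = 1 / ((n : ℝ) + 1) := ENNReal.toReal_ofReal (by positivity)

theorem Prd.setInt {ψ : R4 → ℝ} (F : R4 → ℝ) :
    ∫ x, F x * ψ x = ∫ x in tsupport ψ, F x * ψ x := by
  symm
  apply setIntegral_eq_integral_of_forall_compl_eq_zero
  intro x hx
  rw [image_eq_zero_of_notMem_tsupport hx, mul_zero]

theorem Prd.setInt' {ψ : R4 → ℝ} (a : Fin 4) (F : R4 → ℝ) :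
    ∫ x, F x * pd a ψ x = ∫ x in tsupport ψ, F x * pd a ψ x := by
  symm
  apply setIntegral_eq_integral_of_forall_compl_eq_zero
  intro x hx
  rw [pd_eq_zero a hx, mul_zero]

/-- integration by parts for a smooth function -/
theorem Prd.ibp {v ψ : R4 → ℝ} (hv : ContDiff ℝ ∞ v) {Ω : Set R4} (hψ : Test Ω ψ) (a : Fin 4) :
    ∫ x, v x * pd a ψ x = -∫ x, pd a v x * ψ x := by
  have h1 : Test univ (fun x => v x * ψ x) := (hψ.mono (subset_univ _)).mul hv
  have h2 := int_pd h1 a
  have hd : ∀ x, DifferentiableAt ℝ v x := fun x => (hv.differentiable (by simp)) x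
  have hd' : ∀ x, DifferentiableAt ℝ ψ x := fun x => (hψ.smooth.differentiable (by simp)) x
  have h3 : ∀ x, pd a (fun x => v x * ψ x) x = v x * pd a ψ x + pd a v x * ψ x :=
    fun x => pd_mul a (hd x) (hd' x)
  simp_rw [h3] at h2
  rw [integral_add] at h2
  · linarith
  · refine (hv.continuous.mul (pd_smooth a hψ.smooth).continuous).integrable_of_hasCompactSupport ?_
    exact (hψ.pd a).cpt.mul_left
  · refine ((pd_smooth a hv).continuous.mul hψ.smooth.continuous).integrable_of_hasCompactSupport ?_
    exact hψ.cpt.mul_left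

theorem Prd.intOn {Ω K : Set R4} (hK : IsCompact K) (hs : K ⊆ Ω) {g : R4 → ℝ} (h : LpL 1 Ω g) :
    IntegrableOn g K := memLp_one_iff_integrable.1 (h K hs hK)

theorem Prd.unifMul {K : Set R4} (hK : IsCompact K) {f ψ : R4 → ℝ} {fn : ℕ → R4 → ℝ}
    (hψ : ContinuousOn ψ K) (hu : TendstoUniformlyOn fn f atTop K) :
    TendstoUniformlyOn (fun n x => fn n x * ψ x) (fun x => f x * ψ x) atTop K := by
  obtain ⟨C, hC⟩ := hK.exists_bound_of_continuousOn hψ
  rw [Metric.tendstoUniformlyOn_iff] at hu ⊢
  intro ε hε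
  filter_upwards [hu (ε / (max C 0 + 1)) (by positivity)] with n hn x hx
  have h1 := hn x hx
  rw [Real.dist_eq] at h1 ⊢
  rw [← sub_mul, abs_mul]
  have h2 : |ψ x| ≤ max C 0 := (hC x hx).trans (le_max_left _ _)
  have h3 : 0 ≤ max C 0 := le_max_right _ _
  calc |f x - fn n x| * |ψ x| ≤ |f x - fn n x| * (max C 0 + 1) := by
        gcongr
        linarith
    _ < ε / (max C 0 + 1) * (max C 0 + 1) := by
        exact mul_lt_mul_of_pos_right h1 (by positivity)
    _ = ε := by field_simp

theorem WG.mul {Ω : Set R4} (hΩ : IsOpen Ω) {u v : R4 → ℝ} {g h : R4 → R4}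
    (hu : ContinuousOn u Ω) (hv : ContinuousOn v Ω) (hg : ∀ a, LpL 1 Ω (fun x => g x a))
    (hh : ∀ a, LpL 1 Ω (fun x => h x a)) (h1 : WG Ω u g) (h2 : WG Ω v h) :
    WG Ω (fun x => u x * v x) (fun x => u x • h x + v x • g x) := by
  intro ψ hψ a
  set K := tsupport ψ with hKd
  have hK : IsCompact K := hψ.cpt
  have hs : K ⊆ Ω := hψ.supp
  obtain ⟨un, hun1, hun2, hun3⟩ := Prd.seq hΩ hK hs hu hg h1
  obtain ⟨vn, hvn1, hvn2, hvn3⟩ := Prd.seq hΩ hK hs hv hh h2
  have cψ : Continuous ψ := hψ.smooth.continuous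
  have cdψ : Continuous (pd a ψ) := (pd_smooth a hψ.smooth).continuous
  have huK := hu.mono hs
  have hvK := hv.mono hs
  -- the smooth identity
  have hid : ∀ n, ∫ x in K, un n x * (vn n x * pd a ψ x) =
      -((∫ x in K, (un n x * ψ x) * pd a (vn n) x) + ∫ x in K, (vn n x * ψ x) * pd a (un n) x) := by
    intro n
    have h3 := Prd.ibp ((hun1 n).mul (hvn1 n)) hψ a
    have hd : ∀ x, DifferentiableAt ℝ (un n) x := fun x => ((hun1 n).differentiable (by simp)) x
    have hd' : ∀ x, DifferentiableAt ℝ (vn n) x := fun x => ((hvn1 n).differentiable (by simp)) x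
    have h4 : ∀ x, pd a (fun x => un n x * vn n x) x =
        un n x * pd a (vn n) x + pd a (un n) x * vn n x := fun x => pd_mul a (hd x) (hd' x)
    have h5 : ∫ x in K, un n x * (vn n x * pd a ψ x) = ∫ x, (un n x * vn n x) * pd a ψ x := by
      rw [Prd.setInt' a (fun x => un n x * vn n x)]
      refine integral_congr_ae (Eventually.of_forall fun x => ?_)
      simp only
      ring
    rw [h5, h3]
    congr 1
    simp_rw [h4]
    rw [Prd.setInt (fun x => un n x * pd a (vn n) x + pd a (un n) x * vn n x), ← integral_add]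
    · refine integral_congr_ae (Eventually.of_forall fun x => ?_)
      simp only
      ring
    · exact (((hun1 n).continuous.mul cψ).mul
        (pd_smooth a (hvn1 n)).continuous).continuousOn.integrableOn_compact hK
    · exact (((hvn1 n).continuous.mul cψ).mul
        (pd_smooth a (hun1 n)).continuous).continuousOn.integrableOn_compact hK
  -- the limits
  have l1 : Tendsto (fun n => ∫ x in K, un n x * (vn n x * pd a ψ x)) atTop
      (𝓝 (∫ x in K, u x * (v x * pd a ψ x))) := by
    have e1 := Prd.unifMul hK cdψ.continuousOn hvn2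
    apply Prd.lim hK huK (fun n => (hun1 n).continuous.continuousOn) hun2
    · exact (hvK.mul cdψ.continuousOn).integrableOn_compact hK
    · exact fun n => (((hvn1 n).continuous.mul cdψ)).continuousOn.integrableOn_compact hK
    · have hvol : volume K ≠ ⊤ := hK.measure_lt_top.ne
      rw [Metric.tendsto_atTop]
      intro ε hε
      rw [Metric.tendstoUniformlyOn_iff] at e1
      obtain ⟨N, hN⟩ := eventually_atTop.1 (e1 (ε / (2 * ((volume K).toReal + 1))) (by positivity))
      refine ⟨N, fun n hn => ?_⟩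
      rw [Real.dist_eq, sub_zero, abs_of_nonneg (integral_nonneg (fun _ => abs_nonneg _))]
      calc ∫ x in K, |vn n x * pd a ψ x - v x * pd a ψ x|
          ≤ ∫ x in K, ε / (2 * ((volume K).toReal + 1)) := by
            apply setIntegral_mono_on
            · exact (((((hvn1 n).continuous.mul cdψ)).continuousOn.integrableOn_compact hK).sub
                ((hvK.mul cdψ.continuousOn).integrableOn_compact hK)).abs
            · exact integrableOn_const hvol
            · exact hK.measurableSet
            · intro x hx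
              have := hN n hn x hx
              rw [dist_comm, Real.dist_eq] at this
              exact this.le
        _ = (volume K).toReal * (ε / (2 * ((volume K).toReal + 1))) := by
            rw [setIntegral_const, smul_eq_mul]
            rfl
        _ < ε := by
            rw [mul_div_assoc', div_lt_iff₀ (by positivity)]
            have : 0 ≤ (volume K).toReal := ENNReal.toReal_nonneg
            nlinarith
  have l2 : Tendsto (fun n => ∫ x in K, (un n x * ψ x) * pd a (vn n) x) atTop
      (𝓝 (∫ x in K, (u x * ψ x) * h x a)) := by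
    apply Prd.lim hK (huK.mul cψ.continuousOn)
      (fun n => ((hun1 n).continuous.mul cψ).continuousOn)
      (Prd.unifMul hK cψ.continuousOn hun2) (Prd.intOn hK hs (hh a))
      (fun n => (pd_smooth a (hvn1 n)).continuous.continuousOn.integrableOn_compact hK) (hvn3 a)
  have l3 : Tendsto (fun n => ∫ x in K, (vn n x * ψ x) * pd a (un n) x) atTop
      (𝓝 (∫ x in K, (v x * ψ x) * g x a)) := by
    apply Prd.lim hK (hvK.mul cψ.continuousOn)
      (fun n => ((hvn1 n).continuous.mul cψ).continuousOn)
      (Prd.unifMul hK cψ.continuousOn hvn2) (Prd.intOn hK hs (hg a))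
      (fun n => (pd_smooth a (hun1 n)).continuous.continuousOn.integrableOn_compact hK) (hun3 a)
  have l4 := (l2.add l3).neg
  simp_rw [← hid] at l4
  have h6 := tendsto_nhds_unique l1 l4
  have h7 : ∫ x, (u x * v x) * pd a ψ x = ∫ x in K, u x * (v x * pd a ψ x) := by
    rw [Prd.setInt' a (fun x => u x * v x)]
    refine integral_congr_ae (Eventually.of_forall fun x => ?_)
    simp only
    ring
  rw [h7, h6]
  congr 1
  rw [Prd.setInt (fun x => (u x • h x + v x • g x) a), ← integral_add]
  · refine integral_congr_ae (Eventually.of_forall fun x => ?_)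
    simp only [Pi.add_apply, Pi.smul_apply, smul_eq_mul]
    ring
  · exact (Prd.intOn hK hs (hh a)).continuousOn_mul (huK.mul cψ.continuousOn) hK
  · exact (Prd.intOn hK hs (hg a)).continuousOn_mul (hvK.mul cψ.continuousOn) hK

theorem Prd.pd_comp {F : R4 → ℝ} (hF : ContDiff ℝ ∞ F) {v : Fin 4 → R4 → ℝ}
    (hv : ∀ b, ContDiff ℝ ∞ (v b)) (a : Fin 4) (x : R4) :
    pd a (fun x => F (fun b => v b x)) x = ∑ b, pd b F (fun b => v b x) * pd a (v b) x := by
  have h1 : HasFDerivAt F (fderiv ℝ F (fun b => v b x)) (fun b => v b x) :=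
    ((hF.differentiable (by simp)) _).hasFDerivAt
  have h2 : HasFDerivAt (fun x => (fun b => v b x : R4))
      (ContinuousLinearMap.pi (fun b => fderiv ℝ (v b) x)) x :=
    hasFDerivAt_pi.2 (fun b => (((hv b).differentiable (by simp)) x).hasFDerivAt)
  have h3 := h1.comp x h2
  unfold pd
  have h4 : fderiv ℝ (fun x => F (fun b => v b x)) x =
      (fderiv ℝ F (fun b => v b x)).comp (ContinuousLinearMap.pi (fun b => fderiv ℝ (v b) x)) :=
    h3.fderiv
  rw [h4, ContinuousLinearMap.comp_apply, fderiv_eq_sum]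
  refine Finset.sum_congr rfl (fun b _ => ?_)
  rw [mul_comm]
  rfl

theorem chS {Ω : Set R4} (hΩ : IsOpen Ω) {φ : R4 → R4} {G : R4 → Matrix (Fin 4) (Fin 4) ℝ}
    (hφ : ContinuousOn φ Ω) (hG : IsWD 1 Ω φ G) {F : R4 → ℝ} (hF : ContDiff ℝ ∞ F) :
    WG Ω (fun x => F (φ x)) (fun x => (G x)ᵀ *ᵥ (fun b => pd b F (φ x))) := by
  intro ψ hψ a
  set K := tsupport ψ with hKd
  have hK : IsCompact K := hψ.cpt
  have hs : K ⊆ Ω := hψ.supp
  have hφb : ∀ b, ContinuousOn (fun x => φ x b) Ω := fun b =>
    (continuous_apply b).comp_continuousOn hφ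
  have key : ∀ b, ∃ v : ℕ → R4 → ℝ, (∀ n, ContDiff ℝ ∞ (v n)) ∧
      TendstoUniformlyOn v (fun x => φ x b) atTop K ∧
      ∀ a, Tendsto (fun n => ∫ x in K, |pd a (v n) x - G x b a|) atTop (𝓝 0) := fun b =>
    Prd.seq hΩ hK hs (hφb b) (hG.lp b) (hG.wg b)
  choose v hv1 hv2 hv3 using key
  have cψ : Continuous ψ := hψ.smooth.continuous
  have cdψ : Continuous (pd a ψ) := (pd_smooth a hψ.smooth).continuous
  set V : ℕ → R4 → R4 := fun n x b => v b n x with hV
  have hVc : ∀ n, ContDiff ℝ ∞ (V n) := fun n => contDiff_pi.2 (fun b => hv1 b n)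
  have hφK := hφ.mono hs
  -- uniform convergence of V
  have hVu : TendstoUniformlyOn V φ atTop K := by
    rw [Metric.tendstoUniformlyOn_iff]
    intro ε hε
    have : ∀ b, ∀ᶠ n in atTop, ∀ x ∈ K, dist (φ x b) (v b n x) < ε := fun b => by
      have := hv2 b
      rw [Metric.tendstoUniformlyOn_iff] at this
      exact this ε hε
    filter_upwards [eventually_all.2 this] with n hn x hx
    exact (dist_pi_lt_iff hε).2 (fun b => hn b x hx)
  obtain ⟨C, hC⟩ := hK.exists_bound_of_continuousOn hφK
  have hcomp : ∀ {H : R4 → ℝ}, Continuous H →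
      TendstoUniformlyOn (fun n x => H (V n x)) (fun x => H (φ x)) atTop K := by
    intro H hH
    have hT : IsCompact (Metric.closedBall (0 : R4) (C + 1)) := isCompact_closedBall _ _
    refine UniformContinuousOn.comp_tendstoUniformlyOn_eventually
      (s := Metric.closedBall (0 : R4) (C + 1)) ?_ ?_
      (hT.uniformContinuousOn_of_continuous hH.continuousOn) hVu
    · rw [Metric.tendstoUniformlyOn_iff] at hVu
      filter_upwards [hVu 1 one_pos] with n hn x hx
      rw [mem_closedBall_zero_iff]
      have h1 := hn x hx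
      rw [dist_comm, dist_eq_norm] at h1
      have h2 := hC x hx
      calc ‖V n x‖ = ‖φ x + (V n x - φ x)‖ := by congr 1; abel
        _ ≤ ‖φ x‖ + ‖V n x - φ x‖ := norm_add_le _ _
        _ ≤ C + 1 := by linarith
    · intro x hx
      rw [mem_closedBall_zero_iff]
      linarith [hC x hx]
  have hFc : Continuous F := hF.continuous
  -- the smooth identity
  have hid : ∀ n, ∫ x in K, F (V n x) * pd a ψ x =
      -(∑ b, ∫ x in K, (pd b F (V n x) * ψ x) * pd a (v b n) x) := by
    intro n
    have hc : ContDiff ℝ ∞ (fun x => F (V n x)) := hF.comp (hVc n)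
    have h3 := Prd.ibp hc hψ a
    rw [← Prd.setInt' a (fun x => F (V n x)), h3, Prd.setInt, ← integral_finset_sum]
    · congr 1
      refine integral_congr_ae (Eventually.of_forall fun x => ?_)
      simp only
      have h4 : pd a (fun x => F (V n x)) x = ∑ b, pd b F (V n x) * pd a (v b n) x :=
        Prd.pd_comp hF (fun b => hv1 b n) a x
      rw [h4, Finset.sum_mul]
      exact Finset.sum_congr rfl (fun b _ => by ring)
    · intro b _
      exact ((((pd_smooth b hF).continuous.comp (hVc n).continuous).mul cψ).mul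
        (pd_smooth a (hv1 b n)).continuous).continuousOn.integrableOn_compact hK
  have l1 : Tendsto (fun n => ∫ x in K, F (V n x) * pd a ψ x) atTop
      (𝓝 (∫ x in K, F (φ x) * pd a ψ x)) := by
    apply Prd.lim hK (hFc.comp_continuousOn hφK)
      (fun n => (hFc.comp (hVc n).continuous).continuousOn) (hcomp hFc)
      (cdψ.continuousOn.integrableOn_compact hK)
      (fun n => cdψ.continuousOn.integrableOn_compact hK)
    simp
  have l2 : ∀ b, Tendsto (fun n => ∫ x in K, (pd b F (V n x) * ψ x) * pd a (v b n) x) atTop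
      (𝓝 (∫ x in K, (pd b F (φ x) * ψ x) * G x b a)) := by
    intro b
    have hb := (pd_smooth b hF).continuous
    apply Prd.lim hK ((hb.comp_continuousOn hφK).mul cψ.continuousOn)
      (fun n => ((hb.comp (hVc n).continuous).mul cψ).continuousOn)
      (Prd.unifMul hK cψ.continuousOn (hcomp hb)) (Prd.intOn hK hs (hG.lp b a))
      (fun n => (pd_smooth a (hv1 b n)).continuous.continuousOn.integrableOn_compact hK) (hv3 b a)
  have l4 := (tendsto_finset_sum (Finset.univ : Finset (Fin 4)) (fun b _ => l2 b)).neg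
  simp_rw [← hid] at l4
  have h6 := tendsto_nhds_unique l1 l4
  rw [Prd.setInt' a (fun x => F (φ x)), h6, Prd.setInt, ← integral_finset_sum]
  · congr 1
    refine integral_congr_ae (Eventually.of_forall fun x => ?_)
    simp only [Matrix.mulVec, dotProduct, Matrix.transpose_apply]
    rw [Finset.sum_mul]
    exact Finset.sum_congr rfl (fun b _ => by ring)
  · intro b _
    exact (Prd.intOn hK hs (hG.lp b a)).continuousOn_mul
      (((pd_smooth b hF).continuous.comp_continuousOn hφK).mul cψ.continuousOn) hK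

end Pool.Agent.SYH
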