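import Pool.Agent.SYH.Bas

/-!
# SYH/ChV: change of variables

`map_restrict`: `volume.restrict B` is the image of `volume.restrict (e⁻¹ B)` under `e`: for Borel `C ⊆ B`,
`C = e '' (e.source ∩ e ⁻¹' C)` and `MPre e`; `e` is continuous on its open source, so a.e. measurable there.
`int_comp` for arbitrary `F`: `ContinuousOn.measurableEmbedding` for the restriction of `e` to `e.source ∩ e ⁻¹' B`
(continuous and injective on a Borel set), so `F` need not be measurable.
-/

open MeasureTheory Set Filter Topology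
open scoped ContDiff Matrix ENNReal

namespace Pool.Agent.SYH

variable {e : OpenPartialHomeomorph R4 R4}

theorem ChV.meas_pre (e : OpenPartialHomeomorph R4 R4) {C : Set R4} (hC : MeasurableSet C) :
    MeasurableSet (e.source ∩ e ⁻¹' C) := by
  have h1 : Measurable (e.source.domRestrict e) := e.continuousOn.domRestrict.measurable
  have h2 := MeasurableSet.subtype_image e.open_source.measurableSet (h1 hC)
  convert h2 using 1
  ext y
  constructor
  · rintro ⟨hy, hyC⟩
    exact ⟨⟨y, hy⟩, hyC, rfl⟩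
  · rintro ⟨⟨z, hz⟩, hzC, rfl⟩
    exact ⟨hz, hzC⟩

theorem ChV.aem (e : OpenPartialHomeomorph R4 R4) {A : Set R4} (hA : MeasurableSet A)
    (hs : A ⊆ e.source) : AEMeasurable e (volume.restrict A) :=
  (e.continuousOn.mono hs).aemeasurable hA

theorem ChV.image_pre (e : OpenPartialHomeomorph R4 R4) {B : Set R4} (hs : B ⊆ e.target) :
    e '' (e.source ∩ e ⁻¹' B) = B := by
  ext x
  constructor
  · rintro ⟨y, ⟨_, hyB⟩, rfl⟩
    exact hyB
  · intro hx
    refine ⟨e.symm x, ⟨e.map_target (hs hx), ?_⟩, e.right_inv (hs hx)⟩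
    show e (e.symm x) ∈ B
    rw [e.right_inv (hs hx)]
    exact hx

theorem map_restrict (hm : MPre e) {B : Set R4} (hB : MeasurableSet B) (hs : B ⊆ e.target) :
    Measure.map e (volume.restrict (e.source ∩ e ⁻¹' B)) = volume.restrict B := by
  have hA := ChV.meas_pre e hB
  ext C hC
  rw [Measure.map_apply_of_aemeasurable (ChV.aem e hA inter_subset_left) hC,
    Measure.restrict_apply hC, Measure.restrict_apply' hA]
  have h1 : e ⁻¹' C ∩ (e.source ∩ e ⁻¹' B) = e.source ∩ e ⁻¹' (C ∩ B) := by
    ext y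
    constructor
    · rintro ⟨h1, h2, h3⟩
      exact ⟨h2, h1, h3⟩
    · rintro ⟨h1, h2, h3⟩
      exact ⟨h2, h1, h3⟩
  rw [h1, ← hm _ inter_subset_left (ChV.meas_pre e (hC.inter hB)),
    ChV.image_pre e (inter_subset_right.trans hs)]

theorem ae_comp (hm : MPre e) {P : R4 → Prop} (h : ∀ᵐ x, x ∈ e.target → P x) :
    ∀ᵐ y, y ∈ e.source → P (e y) := by
  have ht : MeasurableSet e.target := e.open_target.measurableSet
  have hsr : MeasurableSet e.source := e.open_source.measurableSet
  have h1 : ∀ᵐ x ∂(volume.restrict e.target), P x := (ae_restrict_iff' ht).2 h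
  have h2 := map_restrict hm ht Subset.rfl
  have h3 : e.source ∩ e ⁻¹' e.target = e.source := by
    ext y
    exact ⟨fun h => h.1, fun h => ⟨h, e.map_source h⟩⟩
  rw [h3] at h2
  rw [← h2] at h1
  exact (ae_restrict_iff' hsr).1 (ae_of_ae_map (ChV.aem e hsr Subset.rfl) h1)

theorem int_comp (hm : MPre e) {B : Set R4} (hB : MeasurableSet B) (hs : B ⊆ e.target)
    (F : R4 → ℝ) : ∫ y in e.source ∩ e ⁻¹' B, F (e y) = ∫ x in B, F x := by
  have hA := ChV.meas_pre e hB
  have hc : ContinuousOn e (e.source ∩ e ⁻¹' B) := e.continuousOn.mono inter_subset_left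
  have hi : InjOn e (e.source ∩ e ⁻¹' B) := e.injOn.mono inter_subset_left
  have hE := ContinuousOn.measurableEmbedding hA hc hi
  have h1 : ∫ y in e.source ∩ e ⁻¹' B, F (e y) =
      ∫ y : (e.source ∩ e ⁻¹' B : Set R4), F (e y) ∂(Measure.comap Subtype.val volume) := by
    rw [integral_subtype_comap hA (fun y => F (e y))]
  have h2 : Measure.map ((e.source ∩ e ⁻¹' B).domRestrict e) (Measure.comap Subtype.val volume) =
      volume.restrict B := by
    rw [← map_restrict hm hB hs, ← map_comap_subtype_coe hA, 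
      AEMeasurable.map_map_of_aemeasurable _ measurable_subtype_coe.aemeasurable]
    · rfl
    · rw [map_comap_subtype_coe hA]
      exact ChV.aem e hA inter_subset_left
  rw [h1, ← h2, hE.integral_map]
  rfl

theorem LpL.comp (hm : MPre e) {q : ℝ≥0∞} {Ω' : Set R4} (hs : Ω' ⊆ e.target) {g : R4 → ℝ}
    (h : LpL q Ω' g) : LpL q (e.source ∩ e ⁻¹' Ω') (fun y => g (e y)) := by
  intro K hK hKc
  have hKs : K ⊆ e.source := hK.trans inter_subset_left
  have hL : IsCompact (e '' K) := hKc.image_of_continuousOn (e.continuousOn.mono hKs)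
  have hLs : e '' K ⊆ Ω' := by
    rintro _ ⟨y, hy, rfl⟩
    exact (hK hy).2
  have h1 := h _ hLs hL
  have h3 : e.source ∩ e ⁻¹' (e '' K) = K := by
    ext y
    constructor
    · rintro ⟨hy, z, hz, hzy⟩
      rwa [← e.injOn (hKs hz) hy hzy]
    · intro hy
      exact ⟨hKs hy, y, hy, rfl⟩
  rw [← map_restrict hm hL.measurableSet (hLs.trans hs), h3] at h1
  exact h1.comp_of_map (ChV.aem e hKc.measurableSet hKs)

end Pool.Agent.SYH
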