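import Pool.Agent.SYH.Prd
import Pool.Agent.SYH.ChV

/-!
# SYH/ChW: the chain rule for the composition with `e`

Let `ψ` be a test function on `e.source ∩ e ⁻¹' Ω'`, `K = tsupport ψ`, `L = e '' K ⊆ Ω'` compact.  `apx` with `q = 2`
on `L`: `v` smooth, `|v - f| ≤ ε` on `L`, `‖∂_b v - g_b‖_{L²(L)} ≤ ε`.  `chS` for `v ∘ e`:
`∫ v(e) ∂_a ψ = - ∫ Σ_b G_{ba} ∂_b v (e) ψ`.  Let `ε → 0`: `|∫_K Σ_b G_{ba} (∂_b v - g_b)(e) ψ| ≤
C Σ_b ‖G_{ba}‖_{L²(K)} ‖(∂_b v - g_b) ∘ e‖_{L²(K)}` and the last norm is `‖∂_b v - g_b‖_{L²(L)}` (`map_restrict` with `B = L`: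
`K = e.source ∩ e ⁻¹' L`).
-/

open MeasureTheory Set Filter Topology
open scoped ContDiff Matrix ENNReal

namespace Pool.Agent.SYH

variable {e : OpenPartialHomeomorph R4 R4}

theorem ChW.seq {Ω K : Set R4} (hΩ : IsOpen Ω) (hK : IsCompact K) (hs : K ⊆ Ω)
    {u : R4 → ℝ} {g : R4 → R4} (hu : ContinuousOn u Ω)
    (hg : ∀ a, LpL 2 Ω (fun x => g x a)) (h : WG Ω u g) :
    ∃ v : ℕ → R4 → ℝ, (∀ n, ContDiff ℝ ∞ (v n)) ∧ TendstoUniformlyOn v u atTop K ∧
      ∀ a n, eLpNorm (fun x => pd a (v n) x - g x a) 2 (volume.restrict K) ≤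
        ENNReal.ofReal (1 / ((n : ℝ) + 1)) := by
  have key : ∀ n : ℕ, ∃ v : R4 → ℝ, ContDiff ℝ ∞ v ∧ (∀ x ∈ K, |v x - u x| ≤ 1 / ((n : ℝ) + 1)) ∧
      ∀ a, eLpNorm (fun x => pd a v x - g x a) 2 (volume.restrict K) ≤
        ENNReal.ofReal (1 / ((n : ℝ) + 1)) := fun n =>
    apx hΩ hK hs (by norm_num) (by norm_num) hu hg h (by positivity)
  choose v hv1 hv2 hv3 using key
  refine ⟨v, hv1, ?_, fun a n => hv3 n a⟩
  rw [Metric.tendstoUniformlyOn_iff]
  intro ε hε
  have h1 : Tendsto (fun n : ℕ => 1 / ((n : ℝ) + 1)) atTop (𝓝 0) :=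
    tendsto_one_div_add_atTop_nhds_zero_nat
  filter_upwards [(tendsto_order.1 h1).2 ε hε] with n hn x hx
  rw [dist_comm, Real.dist_eq]
  exact (hv2 n x hx).trans_lt hn

theorem ChW.lim2 {μ : Measure R4} {u w : R4 → ℝ} {wn : ℕ → R4 → ℝ} (hu : MemLp u 2 μ)
    (hw : MemLp w 2 μ) (hwn : ∀ n, MemLp (wn n) 2 μ)
    (hl : ∀ n, eLpNorm (fun x => wn n x - w x) 2 μ ≤ ENNReal.ofReal (1 / ((n : ℝ) + 1))) :
    Tendsto (fun n => ∫ x, u x * wn n x ∂μ) atTop (𝓝 (∫ x, u x * w x ∂μ)) := by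
  rw [tendsto_iff_norm_sub_tendsto_zero]
  have hb : ∀ n, ‖(∫ x, u x * wn n x ∂μ) - ∫ x, u x * w x ∂μ‖ ≤
      (eLpNorm u 2 μ).toReal * (1 / ((n : ℝ) + 1)) := by
    intro n
    have h1 : Integrable (fun x => u x * wn n x) μ := MemLp.integrable_mul hu (hwn n)
    have h2 : Integrable (fun x => u x * w x) μ := MemLp.integrable_mul hu hw
    rw [← integral_sub h1 h2]
    have h3 : (fun x => u x * wn n x - u x * w x) = fun x => u x * (wn n x - w x) := by
      funext x
      ring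
    have hd : MemLp (fun x => wn n x - w x) 2 μ := (hwn n).sub hw
    have h4 : Integrable (fun x => u x * (wn n x - w x)) μ := MemLp.integrable_mul hu hd
    rw [h3]
    have h5 : eLpNorm (fun x => u x * (wn n x - w x)) 1 μ ≤
        eLpNorm u 2 μ * eLpNorm (fun x => wn n x - w x) 2 μ := by
      have := eLpNorm_smul_le_mul_eLpNorm (p := 2) (q := 2) (r := 1) hd.1 hu.1
      exact this
    calc ‖∫ x, u x * (wn n x - w x) ∂μ‖ ≤ ∫ x, ‖u x * (wn n x - w x)‖ ∂μ :=
          norm_integral_le_integral_norm _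
      _ = (∫⁻ x, ‖u x * (wn n x - w x)‖ₑ ∂μ).toReal := integral_norm_eq_lintegral_enorm h4.1
      _ = (eLpNorm (fun x => u x * (wn n x - w x)) 1 μ).toReal := by
          rw [eLpNorm_one_eq_lintegral_enorm]
      _ ≤ (eLpNorm u 2 μ * ENNReal.ofReal (1 / ((n : ℝ) + 1))).toReal := by
          apply ENNReal.toReal_mono
          · exact ENNReal.mul_ne_top hu.2.ne ENNReal.ofReal_ne_top
          · exact h5.trans (by gcongr; exact hl n)
      _ = (eLpNorm u 2 μ).toReal * (1 / ((n : ℝ) + 1)) := by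
          rw [ENNReal.toReal_mul, ENNReal.toReal_ofReal (by positivity)]
  refine squeeze_zero (fun n => norm_nonneg _) hb ?_
  have := (tendsto_one_div_add_atTop_nhds_zero_nat (𝕜 := ℝ)).const_mul (eLpNorm u 2 μ).toReal
  simpa using this

theorem chW (hm : MPre e) {G : R4 → Matrix (Fin 4) (Fin 4) ℝ} (hG : IsWD 2 e.source e G)
    {Ω' : Set R4} (hΩ' : IsOpen Ω') (hs : Ω' ⊆ e.target) {f : R4 → ℝ} {g : R4 → R4}
    (hf : ContinuousOn f Ω') (hg : ∀ a, LpL 2 Ω' (fun x => g x a)) (h : WG Ω' f g) :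
    WG (e.source ∩ e ⁻¹' Ω') (fun y => f (e y)) (fun y => (G y)ᵀ *ᵥ g (e y)) := by
  intro ψ hψ a
  set Ω := e.source ∩ e ⁻¹' Ω' with hΩd
  have hΩ : IsOpen Ω := e.isOpen_inter_preimage hΩ'
  set K := tsupport ψ with hKd
  have hK : IsCompact K := hψ.cpt
  have hKΩ : K ⊆ Ω := hψ.supp
  have hKs : K ⊆ e.source := hKΩ.trans inter_subset_left
  have hcK : ContinuousOn e K := e.continuousOn.mono hKs
  have hL : IsCompact (e '' K) := hK.image_of_continuousOn hcK
  have hLs : e '' K ⊆ Ω' := by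
    rintro _ ⟨y, hy, rfl⟩
    exact (hKΩ hy).2
  have hpre : e.source ∩ e ⁻¹' (e '' K) = K := by
    ext y
    constructor
    · rintro ⟨hy, z, hz, hzy⟩
      rwa [← e.injOn (hKs hz) hy hzy]
    · intro hy
      exact ⟨hKs hy, y, hy, rfl⟩
  have hmap : Measure.map e (volume.restrict K) = volume.restrict (e '' K) := by
    rw [← map_restrict hm hL.measurableSet (hLs.trans hs), hpre]
  have haem : AEMeasurable e (volume.restrict K) := ChV.aem e hK.measurableSet hKs
  obtain ⟨v, hv1, hv2, hv3⟩ := ChW.seq hΩ' hL hLs hf hg h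
  have cψ : Continuous ψ := hψ.smooth.continuous
  have cdψ : Continuous (pd a ψ) := (pd_smooth a hψ.smooth).continuous
  have hG1 : IsWD 1 Ω e G :=
    ⟨fun b a => ((hG.lp b a).exp (by norm_num)).mono inter_subset_left,
      fun b => (hG.wg b).mono inter_subset_left⟩
  have hGK : ∀ b, MemLp (fun x => G x b a) 2 (volume.restrict K) := fun b => hG.lp b a K hKs hK
  have huK : ∀ b, MemLp (fun x => G x b a * ψ x) 2 (volume.restrict K) := by
    intro b
    obtain ⟨C, hC⟩ := hK.exists_bound_of_continuousOn cψ.continuousOn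
    refine MemLp.of_le_mul (c := C) (hGK b)
      ((hGK b).1.mul cψ.aestronglyMeasurable) ?_
    filter_upwards [ae_restrict_mem hK.measurableSet] with x hx
    rw [norm_mul, mul_comm]
    exact mul_le_mul_of_nonneg_right (hC x hx) (norm_nonneg _)
  have hgL : ∀ b, MemLp (fun x => g x b) 2 (volume.restrict (e '' K)) := fun b => hg b _ hLs hL
  have hgK : ∀ b, MemLp (fun x => g (e x) b) 2 (volume.restrict K) := by
    intro b
    have := hgL b
    rw [← hmap] at this
    exact this.comp_of_map haem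
  have hvL : ∀ b n, MemLp (fun x => pd b (v n) x) 2 (volume.restrict (e '' K)) := by
    intro b n
    have : LpL 2 univ (fun x => pd b (v n) x) :=
      LpL.of_cont isOpen_univ (pd_smooth b (hv1 n)).continuous.continuousOn
    exact this _ (subset_univ _) hL
  have hvK : ∀ b n, MemLp (fun x => pd b (v n) (e x)) 2 (volume.restrict K) := by
    intro b n
    have := hvL b n
    rw [← hmap] at this
    exact this.comp_of_map haem
  have hnorm : ∀ b n, eLpNorm (fun x => pd b (v n) (e x) - g (e x) b) 2 (volume.restrict K) ≤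
      ENNReal.ofReal (1 / ((n : ℝ) + 1)) := by
    intro b n
    have h1 := hv3 b n
    rw [← hmap, eLpNorm_map_measure _ haem] at h1
    · exact h1
    · rw [hmap]
      exact (hvL b n).1.sub (hgL b).1
  have hid : ∀ n, ∫ x in K, v n (e x) * pd a ψ x =
      -(∑ b, ∫ x in K, (G x b a * ψ x) * pd b (v n) (e x)) := by
    intro n
    have hcs : ContinuousOn e Ω := e.continuousOn.mono inter_subset_left
    have h3 := chS hΩ hcs hG1 (hv1 n) ψ hψ a
    rw [← Prd.setInt' a (fun x => v n (e x)), h3, Prd.setInt, ← integral_finsetSum]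
    · congr 1
      refine integral_congr_ae (Eventually.of_forall fun x => ?_)
      simp only [Matrix.mulVec, dotProduct, Matrix.transpose_apply]
      rw [Finset.sum_mul]
      exact Finset.sum_congr rfl (fun b _ => by ring)
    · intro b _
      exact MemLp.integrable_mul (huK b) (hvK b n)
  have l1 : Tendsto (fun n => ∫ x in K, v n (e x) * pd a ψ x) atTop
      (𝓝 (∫ x in K, f (e x) * pd a ψ x)) := by
    apply Prd.lim hK ((hf.mono hLs).comp hcK (mapsTo_image _ _))
      (fun n => (hv1 n).continuous.comp_continuousOn hcK) _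
      (cdψ.continuousOn.integrableOn_compact hK)
      (fun n => cdψ.continuousOn.integrableOn_compact hK)
    · simp
    · rw [Metric.tendstoUniformlyOn_iff] at hv2 ⊢
      intro ε hε
      filter_upwards [hv2 ε hε] with n hn x hx
      exact hn (e x) ⟨x, hx, rfl⟩
  have l2 : ∀ b, Tendsto (fun n => ∫ x in K, (G x b a * ψ x) * pd b (v n) (e x)) atTop
      (𝓝 (∫ x in K, (G x b a * ψ x) * g (e x) b)) := fun b =>
    ChW.lim2 (huK b) (hgK b) (hvK b) (hnorm b)
  have l4 := (tendsto_finsetSum (Finset.univ : Finset (Fin 4)) (fun b _ => l2 b)).neg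
  simp_rw [← hid] at l4
  have h6 := tendsto_nhds_unique l1 l4
  rw [Prd.setInt' a (fun x => f (e x)), h6, Prd.setInt, ← integral_finsetSum]
  · congr 1
    refine integral_congr_ae (Eventually.of_forall fun x => ?_)
    simp only [Matrix.mulVec, dotProduct, Matrix.transpose_apply]
    rw [Finset.sum_mul]
    exact Finset.sum_congr rfl (fun b _ => by ring)
  · intro b _
    exact MemLp.integrable_mul (huK b) (hgK b)

end Pool.Agent.SYH
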