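import Pool.Agent.SYH.Mol

/-!
# SYH/MolL: mollification in `L^q`, `1 ≤ q < ∞`

(1) `‖mol δ f‖_q ≤ ‖f‖_q` (Jensen: `|mol δ f (x)|^q ≤ ∫ ker δ t |f (x-t)|^q dt`, then Tonelli and translation
invariance; or Minkowski's integral inequality).
(2) for `f` continuous with compact support: uniform continuity gives `mol δ f → f` uniformly, supports in a fixed
compact set, so convergence in `L^q`.
(3) density of continuous compactly supported functions (`MemLp.exists_hasCompactSupport_eLpNorm_sub_le`) and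
`‖mol δ f - f‖ ≤ ‖mol δ (f - g)‖ + ‖mol δ g - g‖ + ‖g - f‖`.
-/

open MeasureTheory Set Filter Topology
open scoped ContDiff Matrix ENNReal

namespace Pool.Agent.SYH

/-- `mol` only depends on the class of `f` -/
theorem mol_congr (δ : ℝ) {f g : R4 → ℝ} (h : f =ᵐ[volume] g) : mol δ f = mol δ g := by
  funext x
  unfold mol
  refine integral_congr_ae ?_
  have h1 : ∀ᵐ t, f (x - t) = g (x - t) :=
    (Measure.measurePreserving_sub_left volume x).quasiMeasurePreserving.ae h
  filter_upwards [h1] with t ht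
  rw [ht]

theorem mol_jensen {r : ℝ} (hr : 1 ≤ r) {δ : ℝ} (h : 0 < δ) {f : R4 → ℝ}
    (hf : StronglyMeasurable f) (x : R4) :
    ‖mol δ f x‖ₑ ^ r ≤ ∫⁻ t, ENNReal.ofReal (ker δ t) * ‖f (x - t)‖ₑ ^ r := by
  set ν : Measure R4 := volume.withDensity (fun t => ENNReal.ofReal (ker δ t)) with hν
  have hkm : Measurable (fun t => ENNReal.ofReal (ker δ t)) :=
    ((ker_smooth δ).continuous.measurable).ennreal_ofReal
  have hprob : IsProbabilityMeasure ν := by
    constructor
    rw [hν, withDensity_apply _ MeasurableSet.univ, Measure.restrict_univ,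
      ← ofReal_integral_eq_lintegral_ofReal (ker_integrable δ) (ae_of_all _ (ker_nonneg δ)),
      ker_int h, ENNReal.ofReal_one]
  have hr0 : 0 < r := by linarith
  have hfx : Measurable (fun t => f (x - t)) :=
    hf.measurable.comp (measurable_const.sub measurable_id)
  have h1 : ‖mol δ f x‖ₑ ≤ ∫⁻ t, ‖f (x - t)‖ₑ ∂ν := by
    rw [hν, lintegral_withDensity_eq_lintegral_mul _ hkm hfx.enorm]
    refine (enorm_integral_le_lintegral_enorm _).trans (le_of_eq ?_)
    refine lintegral_congr fun t => ?_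
    rw [enorm_mul, Pi.mul_apply, Real.enorm_of_nonneg (ker_nonneg δ t)]
  have h2 : ∫⁻ t, ‖f (x - t)‖ₑ ∂ν ≤ (∫⁻ t, ‖f (x - t)‖ₑ ^ r ∂ν) ^ (1 / r) := by
    have h3 := eLpNorm'_le_eLpNorm'_of_exponent_le (μ := ν) (f := fun t => f (x - t)) one_pos hr
      (hfx.aestronglyMeasurable)
    simpa [eLpNorm'] using h3
  calc ‖mol δ f x‖ₑ ^ r ≤ ((∫⁻ t, ‖f (x - t)‖ₑ ^ r ∂ν) ^ (1 / r)) ^ r :=
        ENNReal.rpow_le_rpow (h1.trans h2) hr0.le
    _ = ∫⁻ t, ‖f (x - t)‖ₑ ^ r ∂ν := by
        rw [← ENNReal.rpow_mul, one_div_mul_cancel hr0.ne', ENNReal.rpow_one]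
    _ = _ := by
        rw [hν, lintegral_withDensity_eq_lintegral_mul _ hkm (hfx.enorm.pow_const r)]
        rfl

theorem mol_norm_le_aux {q : ℝ≥0∞} (h1 : 1 ≤ q) (hq : q ≠ ⊤) {δ : ℝ} (h : 0 < δ) {f : R4 → ℝ}
    (hf : StronglyMeasurable f) : eLpNorm (mol δ f) q volume ≤ eLpNorm f q volume := by
  have hq0 : q ≠ 0 := by
    rintro rfl
    simp at h1
  have hr : 1 ≤ q.toReal := by
    have := (ENNReal.toReal_le_toReal ENNReal.one_ne_top hq).2 h1
    simpa using this
  have hr0 : 0 < q.toReal := by linarith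
  rw [eLpNorm_eq_lintegral_rpow_enorm_toReal hq0 hq, eLpNorm_eq_lintegral_rpow_enorm_toReal hq0 hq]
  refine ENNReal.rpow_le_rpow ?_ (by positivity)
  have hkm : Measurable (fun t => ENNReal.ofReal (ker δ t)) :=
    ((ker_smooth δ).continuous.measurable).ennreal_ofReal
  calc ∫⁻ x, ‖mol δ f x‖ₑ ^ q.toReal
      ≤ ∫⁻ x, ∫⁻ t, ENNReal.ofReal (ker δ t) * ‖f (x - t)‖ₑ ^ q.toReal :=
        lintegral_mono fun x => mol_jensen hr h hf x
    _ = ∫⁻ t, ∫⁻ x, ENNReal.ofReal (ker δ t) * ‖f (x - t)‖ₑ ^ q.toReal := by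
        rw [lintegral_lintegral_swap]
        apply Measurable.aemeasurable
        refine (hkm.comp measurable_snd).mul ?_
        exact ((hf.measurable.comp (measurable_fst.sub measurable_snd)).enorm).pow_const _
    _ = ∫⁻ t, ENNReal.ofReal (ker δ t) * ∫⁻ x, ‖f x‖ₑ ^ q.toReal := by
        refine lintegral_congr fun t => ?_
        rw [lintegral_const_mul]
        · rw [lintegral_sub_right_eq_self (fun x => ‖f x‖ₑ ^ q.toReal) t]
        · exact ((hf.measurable.comp (measurable_id.sub measurable_const)).enorm).pow_const _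
    _ = ∫⁻ x, ‖f x‖ₑ ^ q.toReal := by
        rw [lintegral_mul_const _ hkm,
          ← ofReal_integral_eq_lintegral_ofReal (ker_integrable δ) (ae_of_all _ (ker_nonneg δ)),
          ker_int h, ENNReal.ofReal_one, one_mul]

theorem mol_norm_le {q : ℝ≥0∞} (h1 : 1 ≤ q) (hq : q ≠ ⊤) {δ : ℝ} (h : 0 < δ) {f : R4 → ℝ}
    (hf : MemLp f q) : eLpNorm (mol δ f) q volume ≤ eLpNorm f q volume := by
  obtain ⟨g, hg, hae⟩ := hf.aestronglyMeasurable
  rw [mol_congr δ hae, eLpNorm_congr_ae hae]
  exact mol_norm_le_aux h1 hq h hg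

theorem mol_lim {q : ℝ≥0∞} (h1 : 1 ≤ q) (hq : q ≠ ⊤) {f : R4 → ℝ} (hf : MemLp f q) :
    Tendsto (fun δ => eLpNorm (fun x => mol δ f x - f x) q volume) (𝓝[>] 0) (𝓝 0) := by
  rw [ENNReal.tendsto_nhds_zero]
  intro ε hε
  have hε3 : ε / 3 ≠ 0 := (ENNReal.div_pos hε.ne' (by simp)).ne'
  obtain ⟨g, hgc, hfg, hgcont, hgm⟩ := hf.exists_hasCompactSupport_eLpNorm_sub_le hq hε3
  have hflo : LocallyIntegrable f := hf.locallyIntegrable h1
  have hglo : LocallyIntegrable g := hgm.locallyIntegrable h1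
  set K : Set R4 := Metric.cthickening 1 (tsupport g) with hK
  have hKc : IsCompact K := hgc.isCompact.cthickening
  have hKm : volume K ^ (1 / q.toReal) ≠ ⊤ :=
    ENNReal.rpow_ne_top_of_nonneg (by positivity) hKc.measure_lt_top.ne
  obtain ⟨η, hη, hηK⟩ := ENNReal.exists_nnreal_pos_mul_lt hKm hε3
  have huc : UniformContinuous g := hgc.uniformContinuous_of_continuous hgcont
  obtain ⟨δ₀, hδ₀, hδg⟩ := Metric.uniformContinuous_iff.1 huc η (by exact_mod_cast hη)
  have hmem : Ioo (0 : ℝ) (min δ₀ 1) ∈ 𝓝[>] (0 : ℝ) :=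
    Ioo_mem_nhdsGT (by positivity)
  filter_upwards [hmem] with δ hδ
  have hδ0 : 0 < δ := hδ.1
  have hδ1 : δ < δ₀ := lt_of_lt_of_le hδ.2 (min_le_left _ _)
  have hδ2 : δ < 1 := lt_of_lt_of_le hδ.2 (min_le_right _ _)
  have hnz : ∀ x, ∀ t, ‖t‖ < δ → x ∉ K → g (x - t) = 0 := by
    intro x t ht hx
    by_contra hne
    apply hx
    rw [hK]
    apply Metric.mem_cthickening_of_dist_le x (x - t) 1 _ (subset_tsupport g hne)
    rw [dist_eq_norm, sub_sub_cancel]
    linarith
  have hbd : eLpNorm (mol δ g - g) q volume ≤ ε / 3 := by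
    refine (eLpNorm_sub_le_of_dist_bdd volume hq hKc.measurableSet (c := (η : ℝ)) η.2
      ?_ ?_ ?_).trans ?_
    · intro x
      rw [Real.dist_eq]
      apply mol_close hδ0 hglo
      intro t ht
      have := hδg (a := x - t) (b := x) (by
        rw [dist_eq_norm]; simpa using ht.trans hδ1)
      rw [Real.dist_eq] at this
      exact this.le
    · intro x hx
      by_contra hcon
      apply hx
      unfold mol
      rw [integral_eq_zero_of_ae]
      refine ae_of_all _ fun t => ?_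
      rcases lt_or_ge ‖t‖ δ with ht | ht
      · simp [hnz x t ht hcon]
      · simp [ker_supp ht]
    · refine (subset_tsupport g).trans ?_
      exact Metric.self_subset_cthickening _
    · rw [ENNReal.ofReal_coe_nnreal]
      exact hηK.le
  have hsub : (fun x => mol δ f x - f x) = (mol δ (f - g)) + (mol δ g - g) - (f - g) := by
    funext x
    have h2 : mol δ (f - g) x = mol δ f x - mol δ g x := by
      unfold mol
      rw [← integral_sub (ker_mul_integrable δ hflo x) (ker_mul_integrable δ hglo x)]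
      refine integral_congr_ae (ae_of_all _ fun t => ?_)
      simp [mul_sub]
    simp only [Pi.sub_apply, Pi.add_apply, h2]
    ring
  have hm1 : AEStronglyMeasurable (mol δ (f - g)) volume :=
    (mol_smooth δ (hflo.sub hglo)).continuous.aestronglyMeasurable
  have hm2 : AEStronglyMeasurable (mol δ g - g) volume :=
    ((mol_smooth δ hglo).continuous.sub hgcont).aestronglyMeasurable
  have hm3 : AEStronglyMeasurable (f - g) volume := hf.1.sub hgm.1
  rw [hsub]
  calc eLpNorm (mol δ (f - g) + (mol δ g - g) - (f - g)) q volume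
      ≤ eLpNorm (mol δ (f - g) + (mol δ g - g)) q volume + eLpNorm (f - g) q volume :=
        eLpNorm_sub_le (hm1.add hm2) hm3 h1
    _ ≤ (eLpNorm (mol δ (f - g)) q volume + eLpNorm (mol δ g - g) q volume) +
          eLpNorm (f - g) q volume := by
        gcongr
        exact eLpNorm_add_le hm1 hm2 h1
    _ ≤ (ε / 3 + ε / 3) + ε / 3 := by
        gcongr
        exact (mol_norm_le h1 hq hδ0 (hf.sub hgm)).trans hfg
    _ = ε := ENNReal.add_thirds ε

end Pool.Agent.SYH
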