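import Pool.Agent.SYH.Dwd
import Pool.Agent.SYH.MolL

/-!
# SYH/SgL (part II, maps with `φ^* ω₀ = ± ω₀`): the sign is locally constant

Put `c x = (G x)ᵀ J (G x)` and `σ x = c x 0 1`.  The entries of `c` are in `L¹_loc` (`LpL.mul`, sums), a.e. on `Ω`
`c = σ J` and `σ = ± 1`.  `curl_pull`: `Curl Ω α c`.

`sgn_weak` (`dσ = 0` weakly: `WG Ω σ 0`).  For a test function `ψ'` and `a, b`: `∫ (α_b ∂_a ψ' - α_a ∂_b ψ') = - ∫ c_{ab} ψ'`.
Apply this to `ψ' = ∂_c ψ` (`Test.pd`) and add the three cyclic permutations of `(a, b, c)`; the left sides cancel by `pd_comm`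
(all terms are integrable, `LpL.int`), so `∫ (c_{ab} ∂_c ψ + c_{bc} ∂_a ψ + c_{ca} ∂_b ψ) = 0`.  With `(a, b) = (0, 1)`,
`c = 2, 3`: `c_{01} = σ`, `c_{12} = c_{20} = c_{13} = c_{30} = 0` a.e.: `∫ σ ∂_2 ψ = ∫ σ ∂_3 ψ = 0`; with `(a, b) = (2, 3)`,
`c = 0, 1`: `∫ σ ∂_0 ψ = ∫ σ ∂_1 ψ = 0` (`c_{23} = σ` a.e.).

`locConstAe`: `closedBall x (2 r) = S ⊆ Ω`, `F = S.indicator u ∈ L¹`; for `δ < r`, `z ∈ ball x r`: `closedBall z δ ⊆ S`, so
`mol_div` (with `w = u • e_a`, `c = 0`) gives `pd a (mol δ F) z = 0`: `mol δ F` is a constant `c_δ` on `ball x r`; `mol δ F → F`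
in `L¹` (`mol_lim`), so `c_δ` is Cauchy, `c_δ → c`, and `u = c` a.e. on `ball x r`.
-/

open MeasureTheory Set Filter Topology
open scoped ContDiff Matrix ENNReal

namespace Pool.Agent.SYH

theorem SgL_mol_zero (δ : ℝ) : mol δ (fun _ => 0) = fun _ => 0 := by
  funext x
  simp [mol]

theorem SgL_single (t : ℝ) (a b : Fin 4) :
    (t • (Pi.single a 1 : R4)) b = if b = a then t else 0 := by
  by_cases h : b = a
  · subst h
    simp
  · simp [h]

/-- the mollification is locally constant -/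
theorem SgL_const {Ω : Set R4} {u : R4 → ℝ} (h : WG Ω u (fun _ => 0)) {x : R4} {r : ℝ}
    (hr : 0 < r) (hS : Metric.closedBall x (2 * r) ⊆ Ω)
    (hi : IntegrableOn u (Metric.closedBall x (2 * r))) {δ : ℝ} (hδ : 0 < δ) (hδr : δ < r)
    {z : R4} (hz : z ∈ Metric.ball x r) :
    mol δ ((Metric.closedBall x (2 * r)).indicator u) z =
      mol δ ((Metric.closedBall x (2 * r)).indicator u) x := by
  set S := Metric.closedBall x (2 * r) with hSd
  have hm : MeasurableSet S := Metric.isClosed_closedBall.measurableSet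
  have hF : Integrable (S.indicator u) := hi.integrable_indicator hm
  have hpd : ∀ y ∈ Metric.ball x r, ∀ a, pd a (mol δ (S.indicator u)) y = 0 := by
    intro y hy a
    have hb : Metric.closedBall y δ ⊆ S := by
      apply Metric.closedBall_subset_closedBall'
      have := Metric.mem_ball.1 hy
      linarith
    have hdiv : DivEq Ω (fun y => u y • (Pi.single a 1 : R4)) (fun _ => 0) := by
      intro ψ hψ
      have h1 := h ψ hψ a
      have e : ∀ y, (∑ b, (u y • (Pi.single a 1 : R4)) b * pd b ψ y) + (0 : ℝ) * ψ y =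
          u y * pd a ψ y := by
        intro y
        simp only [SgL_single, ite_mul, zero_mul, Finset.sum_ite_eq', Finset.mem_univ, if_true,
          add_zero]
      simp only [e]
      rw [h1]
      simp
    have h2 := mol_div (w := fun y => u y • (Pi.single a 1 : R4)) (c := fun _ => 0) hδ hm
      (by
        intro b
        by_cases hba : b = a
        · subst hba
          simpa using hi
        · have : (fun y => (u y • (Pi.single a 1 : R4)) b) = fun _ => (0 : ℝ) := by
            funext y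
            rw [SgL_single, if_neg hba]
          rw [this]
          exact integrableOn_zero)
      integrableOn_zero hb (hb.trans hS) hdiv
    have h3 : mol δ (S.indicator fun _ => (0 : ℝ)) y = 0 := by
      have e : (S.indicator fun _ => (0 : ℝ)) = fun _ => 0 := by
        funext y
        simp [Set.indicator]
      rw [e, SgL_mol_zero]
    rw [h3] at h2
    rw [Finset.sum_eq_single a] at h2
    · have e : (fun y => (u y • (Pi.single a 1 : R4)) a) = u := by
        funext y
        simp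
      rw [e] at h2
      exact h2
    · intro b _ hba
      have e : (S.indicator fun y => (u y • (Pi.single a 1 : R4)) b) = fun _ => 0 := by
        funext y
        have : (u y • (Pi.single a 1 : R4)) b = 0 := by rw [SgL_single, if_neg hba]
        simp only [Set.indicator]
        rw [this]
        simp
      rw [e, SgL_mol_zero]
      simp [pd]
    · intro hna
      exact absurd (Finset.mem_univ a) hna
  have hsm : ContDiff ℝ ∞ (mol δ (S.indicator u)) := mol_smooth δ hF.locallyIntegrable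
  have hx : x ∈ Metric.ball x r := Metric.mem_ball_self hr
  have hfd : ∀ y ∈ Metric.ball x r, fderiv ℝ (mol δ (S.indicator u)) y = 0 := by
    intro y hy
    ext v
    rw [fderiv_eq_sum]
    simp [hpd y hy]
  exact Metric.isOpen_ball.is_const_of_fderiv_eq_zero (convex_ball x r).isPreconnected
    (hsm.differentiable (by simp)).differentiableOn (fun y hy => hfd y hy) hz hx

/-- a locally integrable function with vanishing weak gradient is locally constant (almost everywhere) -/
theorem locConstAe {Ω : Set R4} (hΩ : IsOpen Ω) {u : R4 → ℝ} (hu : LpL 1 Ω u)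
    (h : WG Ω u (fun _ => 0)) {x : R4} (hx : x ∈ Ω) :
    ∃ r > 0, Metric.ball x r ⊆ Ω ∧ ∃ c : ℝ, ∀ᵐ y, y ∈ Metric.ball x r → u y = c := by
  obtain ⟨r0, hr0, hb⟩ := Metric.nhds_basis_closedBall.mem_iff.1 (hΩ.mem_nhds hx)
  set r := r0 / 2 with hr
  have hrp : 0 < r := by positivity
  have hS : Metric.closedBall x (2 * r) ⊆ Ω := by
    have : 2 * r = r0 := by rw [hr]; ring
    rw [this]
    exact hb
  have hball : Metric.ball x r ⊆ Metric.closedBall x (2 * r) :=
    Metric.ball_subset_closedBall.trans (Metric.closedBall_subset_closedBall (by linarith))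
  have hi : IntegrableOn u (Metric.closedBall x (2 * r)) :=
    memLp_one_iff_integrable.1 (hu _ hS (isCompact_closedBall x (2 * r)))
  set S := Metric.closedBall x (2 * r) with hSd
  have hm : MeasurableSet S := Metric.isClosed_closedBall.measurableSet
  have hF : Integrable (S.indicator u) := hi.integrable_indicator hm
  refine ⟨r, hrp, hball.trans hS, ?_⟩
  -- the sequence of radii
  set δ : ℕ → ℝ := fun n => r / (n + 2) with hδ
  have hδ0 : ∀ n, 0 < δ n := fun n => by positivity
  have hδr : ∀ n, δ n < r := by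
    intro n
    have : (1 : ℝ) < n + 2 := by
      have : (0 : ℝ) ≤ n := Nat.cast_nonneg n
      linarith
    exact div_lt_self hrp this
  have hδt : Tendsto δ atTop (𝓝[>] 0) := by
    rw [tendsto_nhdsWithin_iff]
    refine ⟨?_, Eventually.of_forall hδ0⟩
    apply Tendsto.div_atTop tendsto_const_nhds
    exact tendsto_atTop_add_const_right _ _ tendsto_natCast_atTop_atTop
  have hlim := (mol_lim le_rfl ENNReal.one_ne_top (memLp_one_iff_integrable.2 hF)).comp hδt
  have htm : TendstoInMeasure volume (fun n => mol (δ n) (S.indicator u)) atTop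
      (S.indicator u) := by
    refine tendstoInMeasure_of_tendsto_eLpNorm (p := 1) one_ne_zero ?_ hF.aestronglyMeasurable ?_
    · intro n
      exact (mol_smooth _ hF.locallyIntegrable).continuous.aestronglyMeasurable
    · exact hlim
  obtain ⟨ns, -, hae⟩ := htm.exists_seq_tendsto_ae
  have hcon : ∀ n, ∀ z ∈ Metric.ball x r, mol (δ n) (S.indicator u) z =
      mol (δ n) (S.indicator u) x := by
    intro n z hz
    exact SgL_const h hrp hS hi (hδ0 n) (hδr n) hz
  have hae2 : ∀ᵐ y, y ∈ Metric.ball x r →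
      Tendsto (fun i => mol (δ (ns i)) (S.indicator u) x) atTop (𝓝 (u y)) := by
    filter_upwards [hae] with y hy hyb
    have h1 : S.indicator u y = u y := Set.indicator_of_mem (hball hyb) u
    rw [h1] at hy
    refine hy.congr fun i => ?_
    exact hcon _ y hyb
  -- a point of the ball
  have hne : ∃ y ∈ Metric.ball x r,
      Tendsto (fun i => mol (δ (ns i)) (S.indicator u) x) atTop (𝓝 (u y)) := by
    by_contra hcontra
    push Not at hcontra
    have h1 : volume (Metric.ball x r) = 0 := by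
      have h2 : ∀ᵐ y, y ∉ Metric.ball x r := by
        filter_upwards [hae2] with y hy hyb
        exact hcontra y hyb (hy hyb)
      exact measure_eq_zero_iff_ae_notMem.2 h2
    exact (Metric.measure_ball_pos volume x hrp).ne' h1
  obtain ⟨y0, -, hy0⟩ := hne
  refine ⟨u y0, ?_⟩
  filter_upwards [hae2] with y hy hyb
  exact tendsto_nhds_unique (hy hyb) hy0

/-- the entries of `Gᵀ J G` -/
theorem SgL_entry (G : Matrix (Fin 4) (Fin 4) ℝ) (a b : Fin 4) :
    (Gᵀ * J * G) a b = ∑ j, ∑ i, J i j * (G i a * G j b) := by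
  rw [Matrix.mul_apply]
  refine Finset.sum_congr rfl fun j _ => ?_
  rw [Matrix.mul_apply, Finset.sum_mul]
  refine Finset.sum_congr rfl fun i _ => ?_
  rw [Matrix.transpose_apply]
  ring

theorem SgL_entry_lp {Ω : Set R4} {φ : R4 → R4} {G : R4 → Matrix (Fin 4) (Fin 4) ℝ}
    (hG : IsWD 2 Ω φ G) (a b : Fin 4) : LpL 1 Ω (fun x => ((G x)ᵀ * J * G x) a b) := by
  have e : (fun x => ((G x)ᵀ * J * G x) a b) =
      fun x => ∑ j, ∑ i, J i j * (G x i a * G x j b) := by
    funext x
    exact SgL_entry (G x) a b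
  rw [e]
  refine LpL.sum _ fun j _ => LpL.sum _ fun i _ => LpL.const_mul ?_ _
  exact LpL.mul (hG.lp i a) (hG.lp j b)

theorem SgL_alpha_lp {Ω : Set R4} (hΩ : IsOpen Ω) {φ : R4 → R4}
    {G : R4 → Matrix (Fin 4) (Fin 4) ℝ} (hφ : ContinuousOn φ Ω) (hG : IsWD 2 Ω φ G) (a : Fin 4) :
    LpL 1 Ω (fun x => ((G x)ᵀ *ᵥ lam0 (φ x)) a) := by
  have e : (fun x => ((G x)ᵀ *ᵥ lam0 (φ x)) a) =
      fun x => ∑ j, lam0 (φ x) j * G x j a := by
    funext x
    simp only [Matrix.mulVec, dotProduct, Matrix.transpose_apply]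
    exact Finset.sum_congr rfl fun j _ => mul_comm _ _
  rw [e]
  refine LpL.sum _ fun j _ => ?_
  refine LpL.cont_mul hΩ ?_ ((hG.lp j a).exp (by norm_num))
  have hc : Continuous lam0 := by
    unfold lam0
    fun_prop
  exact (continuous_apply j).comp_continuousOn (hc.comp_continuousOn hφ)

theorem SgL_term (α : R4) (c : ℝ) (a b : Fin 4) (ψ : R4 → ℝ) (x : R4) :
    (∑ k, (α b • (Pi.single a 1 : R4) - α a • (Pi.single b 1 : R4)) k * pd k ψ x) + c * ψ x =
      α b * pd a ψ x - α a * pd b ψ x + c * ψ x := by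
  have e : ∀ k, (α b • (Pi.single a 1 : R4) - α a • (Pi.single b 1 : R4)) k * pd k ψ x =
      (if k = a then α b * pd k ψ x else 0) - (if k = b then α a * pd k ψ x else 0) := by
    intro k
    rw [Pi.sub_apply, SgL_single, SgL_single]
    split_ifs <;> ring
  simp only [e, Finset.sum_sub_distrib, Finset.sum_ite_eq', Finset.mem_univ, if_true]

theorem SgL_tri {Ω : Set R4} {α : R4 → R4} {c : R4 → Matrix (Fin 4) (Fin 4) ℝ}
    (hα : ∀ a, LpL 1 Ω (fun x => α x a)) (hc : ∀ a b, LpL 1 Ω (fun x => c x a b))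
    (h : Curl Ω α c) {ψ : R4 → ℝ} (hψ : Test Ω ψ) (a b k : Fin 4) :
    ∫ x, (c x a b * pd k ψ x + c x b k * pd a ψ x + c x k a * pd b ψ x) = 0 := by
  have hint : ∀ (a b : Fin 4) (χ : R4 → ℝ), Test Ω χ →
      Integrable (fun x => α x b * pd a χ x - α x a * pd b χ x + c x a b * χ x) := by
    intro a b χ hχ
    refine Integrable.add (Integrable.sub ?_ ?_) ?_
    · exact (hα b).int (hχ.pd a).smooth.continuous (hχ.pd a).cpt (hχ.pd a).supp
    · exact (hα a).int (hχ.pd b).smooth.continuous (hχ.pd b).cpt (hχ.pd b).supp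
    · exact (hc a b).int hχ.smooth.continuous hχ.cpt hχ.supp
  have hz : ∀ (a b : Fin 4) (χ : R4 → ℝ), Test Ω χ →
      ∫ x, (α x b * pd a χ x - α x a * pd b χ x + c x a b * χ x) = 0 := by
    intro a b χ hχ
    have := h a b χ hχ
    simp only [SgL_term] at this
    exact this
  have h1 := hz a b (pd k ψ) (hψ.pd k)
  have h2 := hz b k (pd a ψ) (hψ.pd a)
  have h3 := hz k a (pd b ψ) (hψ.pd b)
  have i1 := hint a b (pd k ψ) (hψ.pd k)
  have i2 := hint b k (pd a ψ) (hψ.pd a)
  have i3 := hint k a (pd b ψ) (hψ.pd b)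
  have e : ∀ x, c x a b * pd k ψ x + c x b k * pd a ψ x + c x k a * pd b ψ x =
      (α x b * pd a (pd k ψ) x - α x a * pd b (pd k ψ) x + c x a b * pd k ψ x) +
      (α x k * pd b (pd a ψ) x - α x b * pd k (pd a ψ) x + c x b k * pd a ψ x) +
      (α x a * pd k (pd b ψ) x - α x k * pd a (pd b ψ) x + c x k a * pd b ψ x) := by
    intro x
    rw [pd_comm a k hψ.smooth x, pd_comm b k hψ.smooth x, pd_comm b a hψ.smooth x]
    ring
  simp only [e]
  have h12 := integral_add i1 i2
  have h123 := integral_add (i1.add i2) i3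
  simp only [Pi.add_apply] at h123
  rw [h123, h12, h1, h2, h3]
  ring

theorem SgL_ae {Ω : Set R4} {G : R4 → Matrix (Fin 4) (Fin 4) ℝ}
    (h : ∀ᵐ x, x ∈ Ω → (G x)ᵀ * J * G x = J ∨ (G x)ᵀ * J * G x = -J) :
    ∀ᵐ x, x ∈ Ω → (G x)ᵀ * J * G x = ((G x)ᵀ * J * G x) 0 1 • J := by
  filter_upwards [h] with x hx hxΩ
  rcases hx hxΩ with h1 | h1
  · rw [h1]
    simp [J]
  · rw [h1]
    simp [J]

theorem sgn_weak {Ω : Set R4} (hΩ : IsOpen Ω) {φ : R4 → R4} {G : R4 → Matrix (Fin 4) (Fin 4) ℝ}
    (hφ : ContinuousOn φ Ω) (hG : IsWD 2 Ω φ G)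
    (h : ∀ᵐ x, x ∈ Ω → (G x)ᵀ * J * G x = J ∨ (G x)ᵀ * J * G x = -J) :
    WG Ω (fun x => ((G x)ᵀ * J * G x) 0 1) (fun _ => 0) := by
  intro ψ hψ k
  have hcurl := curl_pull hΩ hφ hG
  have htri := fun a b k => SgL_tri (SgL_alpha_lp hΩ hφ hG) (SgL_entry_lp hG) hcurl hψ a b k
  have hae := SgL_ae h
  have key : ∀ a b k : Fin 4, ∫ x, ((G x)ᵀ * J * G x) 0 1 *
      (J a b * pd k ψ x + J b k * pd a ψ x + J k a * pd b ψ x) = 0 := by
    intro a b k
    rw [← htri a b k]
    apply integral_congr_ae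
    filter_upwards [hae] with x hx
    by_cases hxΩ : x ∈ Ω
    · have h1 := hx hxΩ
      have h2 : ∀ a b, ((G x)ᵀ * J * G x) a b = ((G x)ᵀ * J * G x) 0 1 * J a b := by
        intro a b
        have := congrFun (congrFun h1 a) b
        simpa [Matrix.smul_apply] using this
      rw [h2 a b, h2 b k, h2 k a]
      ring
    · have h1 : x ∉ tsupport ψ := fun hc => hxΩ (hψ.supp hc)
      rw [pd_eq_zero k h1, pd_eq_zero a h1, pd_eq_zero b h1]
      ring
  have e1 : ∀ (a b k : Fin 4), J a b = 1 → J b k = 0 → J k a = 0 →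
      ∫ x, ((G x)ᵀ * J * G x) 0 1 * pd k ψ x = 0 := by
    intro a b k h1 h2 h3
    have := key a b k
    simp only [h1, h2, h3, one_mul, zero_mul, add_zero] at this
    exact this
  have hk : ∫ x, ((G x)ᵀ * J * G x) 0 1 * pd k ψ x = 0 := by
    fin_cases k
    · exact e1 2 3 0 (by simp [J]) (by simp [J]) (by simp [J])
    · exact e1 2 3 1 (by simp [J]) (by simp [J]) (by simp [J])
    · exact e1 0 1 2 (by simp [J]) (by simp [J]) (by simp [J])
    · exact e1 0 1 3 (by simp [J]) (by simp [J]) (by simp [J])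
  rw [hk]
  simp

/-- the sign is locally constant -/
theorem sgn_loc {Ω : Set R4} (hΩ : IsOpen Ω) {φ : R4 → R4} {G : R4 → Matrix (Fin 4) (Fin 4) ℝ}
    (hφ : ContinuousOn φ Ω) (hG : IsWD 2 Ω φ G)
    (h : ∀ᵐ x, x ∈ Ω → (G x)ᵀ * J * G x = J ∨ (G x)ᵀ * J * G x = -J) {x : R4} (hx : x ∈ Ω) :
    ∃ r > 0, Metric.ball x r ⊆ Ω ∧ ∃ s : ℤˣ,
      ∀ᵐ y, y ∈ Metric.ball x r → (G y)ᵀ * J * G y = ((s : ℤ) : ℝ) • J := by
  obtain ⟨r, hr, hb, c, hc⟩ := locConstAe hΩ (SgL_entry_lp hG 0 1) (sgn_weak hΩ hφ hG h) hx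
  refine ⟨r, hr, hb, ?_⟩
  have hae := SgL_ae h
  have hval : c = 1 ∨ c = -1 := by
    by_contra hcontra
    have h1 : volume (Metric.ball x r) = 0 := by
      have h2 : ∀ᵐ y, y ∉ Metric.ball x r := by
        filter_upwards [hc, h] with y hy1 hy2 hyb
        apply hcontra
        rw [← hy1 hyb]
        rcases hy2 (hb hyb) with h3 | h3
        · left
          rw [h3]
          simp [J]
        · right
          rw [h3]
          simp [J]
      exact measure_eq_zero_iff_ae_notMem.2 h2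
    exact (Metric.measure_ball_pos volume x hr).ne' h1
  have hs : ∃ s : ℤˣ, c = ((s : ℤ) : ℝ) := by
    rcases hval with h1 | h1
    · exact ⟨1, by simp [h1]⟩
    · exact ⟨-1, by simp [h1]⟩
  obtain ⟨s, hs⟩ := hs
  refine ⟨s, ?_⟩
  filter_upwards [hc, hae] with y hy1 hy2 hyb
  rw [hy2 (hb hyb), hy1 hyb, hs]

end Pool.Agent.SYH
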