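import Pool.Agent.SYH.Prd

/-!
# SYH/Dwd: `d (u dv) = du ∧ dv`, and the pullback of the standard primitive

`dwedge`: by `apx` (`q = 2`, `K = tsupport ψ`): for smooth `u, v`
`∫ (u ∂_b v ∂_a ψ - u ∂_a v ∂_b ψ) = - ∫ (∂_a u ∂_b v - ∂_b u ∂_a v) ψ`, and both sides converge.
`curl_pull`: `(φ^* lam0)_a = (1/2) Σ_{b,c} φ_c J_{cb} G_{ba}` is a sum of forms `(1/2) J_{cb} φ_c dφ_b`; by `dwedge` its
differential is `(1/2) Σ J_{cb} (G_{ca} G_{bd} - G_{cd} G_{ba}) = (Gᵀ J G)_{ad}` (antisymmetry of `J`).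
-/

open MeasureTheory Set Filter Topology
open scoped ContDiff Matrix ENNReal

namespace Pool.Agent.SYH

/-- pairing of two `L²(K)` functions -/
theorem dwd_cs {K : Set R4} {P Q : R4 → ℝ} (hP : MemLp P 2 (volume.restrict K))
    (hQ : MemLp Q 2 (volume.restrict K)) {ε : ℝ} (hε : 0 ≤ ε)
    (h : eLpNorm Q 2 (volume.restrict K) ≤ ENNReal.ofReal ε) :
    |∫ x in K, P x * Q x| ≤ (eLpNorm P 2 (volume.restrict K)).toReal * ε := by
  have h1 : ‖∫ x in K, P x * Q x‖ₑ ≤
      eLpNorm P 2 (volume.restrict K) * ENNReal.ofReal ε := by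
    refine (enorm_integral_le_lintegral_enorm _).trans ?_
    rw [← eLpNorm_one_eq_lintegral_enorm]
    have h2 : eLpNorm (fun x => P x * Q x) 1 (volume.restrict K) ≤
        eLpNorm P 2 (volume.restrict K) * eLpNorm Q 2 (volume.restrict K) := by
      have h3 := eLpNorm_smul_le_mul_eLpNorm (p := 2) (q := 2) (r := 1) hQ.1 hP.1
      exact h3
    exact h2.trans (mul_le_mul_right h _)
  have h4 := ENNReal.toReal_mono (ENNReal.mul_ne_top hP.2.ne ENNReal.ofReal_ne_top) h1
  rw [ENNReal.toReal_mul, ENNReal.toReal_ofReal hε, toReal_enorm, Real.norm_eq_abs] at h4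
  exact h4

theorem dwd_zero {I C : ℝ} (hC : 0 ≤ C) (h : ∀ ε, 0 < ε → |I| ≤ C * ε) : I = 0 := by
  by_contra hne
  have hpos : 0 < |I| := abs_pos.2 hne
  have h1 := h (|I| / (2 * (C + 1))) (by positivity)
  have h2 : C * (|I| / (2 * (C + 1))) < |I| := by
    rw [mul_div_assoc', div_lt_iff₀ (by positivity)]
    nlinarith
  linarith

theorem dwedge {Ω : Set R4} (hΩ : IsOpen Ω) {u v : R4 → ℝ} {g h : R4 → R4}
    (hu : ContinuousOn u Ω) (hv : ContinuousOn v Ω) (hg : ∀ a, LpL 2 Ω (fun x => g x a))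
    (hh : ∀ a, LpL 2 Ω (fun x => h x a)) (h1 : WG Ω u g) (h2 : WG Ω v h) :
    Curl Ω (fun x => u x • h x) (fun x => Matrix.of fun a b => g x a * h x b - g x b * h x a) := by
  intro a b ψ hψ
  set K := tsupport ψ with hK
  have hKc : IsCompact K := hψ.cpt
  have h12 : (1 : ℝ≥0∞) ≤ 2 := by norm_num
  have hpdt : ∀ c, Test Ω (pd c ψ) := fun c => hψ.pd c
  -- the coefficients
  set P : R4 → ℝ := fun x => pd a ψ x * u x + ψ x * g x a with hP
  set Q : R4 → ℝ := fun x => pd b ψ x * u x + ψ x * g x b with hQ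
  have hPQ : ∀ c, LpL 2 Ω (fun x => pd c ψ x * u x + ψ x * g x c) := fun c =>
    (LpL.cont_mul hΩ ((hpdt c).smooth.continuous.continuousOn) (LpL.of_cont hΩ hu)).add
      (LpL.cont_mul hΩ (hψ.smooth.continuous.continuousOn) (hg c))
  have hPm : MemLp P 2 (volume.restrict K) := hPQ a K hψ.supp hKc
  have hQm : MemLp Q 2 (volume.restrict K) := hPQ b K hψ.supp hKc
  have hzero : ∀ x, x ∉ K → ∀ c, pd c ψ x * u x + ψ x * g x c = 0 := by
    intro x hx c
    rw [pd_eq_zero c hx, image_eq_zero_of_notMem_tsupport hx]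
    simp
  have hgoal : (fun x => (∑ c, ((u x • h x) b • (Pi.single a (1 : ℝ) : R4) -
      (u x • h x) a • (Pi.single b (1 : ℝ) : R4)) c * pd c ψ x) +
      (Matrix.of fun a b => g x a * h x b - g x b * h x a) a b * ψ x) =
      fun x => P x * h x b - Q x * h x a := by
    funext x
    simp only [Pi.sub_apply, Pi.smul_apply, smul_eq_mul, Pi.single_apply, mul_ite, mul_one,
      mul_zero, sub_mul, ite_mul, zero_mul, Finset.sum_sub_distrib,
      Finset.sum_ite_eq', Finset.mem_univ, if_true, Matrix.of_apply, hP, hQ]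
    ring
  show ∫ x, _ = 0
  rw [hgoal]
  -- smooth functions
  have hsm : ∀ w : R4 → ℝ, ContDiff ℝ ∞ w → ∫ x, (P x * pd b w x - Q x * pd a w x) = 0 := by
    intro w hw
    have hT : ∀ c, Test Ω (fun x => pd c w x * ψ x) := fun c => hψ.mul (pd_smooth c hw)
    have e1 := h1 _ (hT b) a
    have e2 := h1 _ (hT a) b
    have i1 : ∀ c d, Integrable (fun x => u x * pd c (fun x => pd d w x * ψ x) x) := fun c d =>
      (LpL.of_cont (p := 1) hΩ hu).int ((hT d).pd c).smooth.continuous ((hT d).pd c).cpt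
        ((hT d).pd c).supp
    have i2 : ∀ c d, Integrable (fun x => g x c * (pd d w x * ψ x)) := fun c d =>
      ((hg c).exp h12).int (hT d).smooth.continuous (hT d).cpt (hT d).supp
    have e3 : (fun x => P x * pd b w x - Q x * pd a w x) = fun x =>
        (u x * pd a (fun x => pd b w x * ψ x) x + g x a * (pd b w x * ψ x)) -
        (u x * pd b (fun x => pd a w x * ψ x) x + g x b * (pd a w x * ψ x)) := by
      funext x
      have hd : ∀ c, DifferentiableAt ℝ (pd c w) x := fun c =>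
        ((pd_smooth c hw).differentiable (by simp)).differentiableAt
      have hdψ : DifferentiableAt ℝ ψ x := (hψ.smooth.differentiable (by simp)).differentiableAt
      rw [pd_mul a (hd b) hdψ, pd_mul b (hd a) hdψ, pd_comm a b hw x]
      simp only [hP, hQ]
      ring
    have s1 : Integrable (fun x => u x * pd a (fun x => pd b w x * ψ x) x +
        g x a * (pd b w x * ψ x)) := (i1 a b).add (i2 a b)
    have s2 : Integrable (fun x => u x * pd b (fun x => pd a w x * ψ x) x +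
        g x b * (pd a w x * ψ x)) := (i1 b a).add (i2 b a)
    rw [e3, integral_sub s1 s2,
      integral_add (i1 a b) (i2 a b), integral_add (i1 b a) (i2 b a), e1, e2]
    ring
  have hset : ∀ R S : R4 → ℝ, ∫ x, (P x * R x - Q x * S x) = ∫ x in K, (P x * R x - Q x * S x) := by
    intro R S
    rw [setIntegral_eq_integral_of_forall_compl_eq_zero]
    intro x hx
    have z1 := hzero x hx a
    have z2 := hzero x hx b
    simp only [hP, hQ]
    rw [z1, z2]; simp
  apply dwd_zero (C := (eLpNorm P 2 (volume.restrict K)).toReal +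
    (eLpNorm Q 2 (volume.restrict K)).toReal) (by positivity)
  intro ε hε
  obtain ⟨w, hw, -, hwe⟩ := apx hΩ hKc hψ.supp h12 (by norm_num) hv hh h2 hε
  have hwm : ∀ c, MemLp (fun x => pd c w x) 2 (volume.restrict K) := fun c =>
    (LpL.of_cont hΩ (pd_smooth c hw).continuous.continuousOn) K hψ.supp hKc
  have hhm : ∀ c, MemLp (fun x => h x c) 2 (volume.restrict K) := fun c => hh c K hψ.supp hKc
  have hdm : ∀ c, MemLp (fun x => pd c w x - h x c) 2 (volume.restrict K) := fun c =>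
    (hwm c).sub (hhm c)
  have hI : ∀ {R S : R4 → ℝ}, MemLp R 2 (volume.restrict K) → MemLp S 2 (volume.restrict K) →
      Integrable (fun x => R x * S x) (volume.restrict K) := fun hR hS => hR.integrable_mul hS
  have k1 : ∫ x in K, (P x * h x b - Q x * h x a) =
      (∫ x in K, (P x * pd b w x - Q x * pd a w x)) -
        (∫ x in K, P x * (pd b w x - h x b)) + ∫ x in K, Q x * (pd a w x - h x a) := by
    have s1 : Integrable (fun x => P x * pd b w x - Q x * pd a w x) (volume.restrict K) :=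
      (hI hPm (hwm b)).sub (hI hQm (hwm a))
    have s2 : Integrable (fun x => (P x * pd b w x - Q x * pd a w x) -
        P x * (pd b w x - h x b)) (volume.restrict K) := s1.sub (hI hPm (hdm b))
    rw [← integral_sub s1 (hI hPm (hdm b)), ← integral_add s2 (hI hQm (hdm a))]
    refine integral_congr_ae (ae_of_all _ fun x => ?_)
    simp only
    ring
  rw [hset, k1, ← hset, hsm w hw, zero_sub]
  have b1 := dwd_cs hPm (hdm b) hε.le (hwe b)
  have b2 := dwd_cs hQm (hdm a) hε.le (hwe a)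
  calc |-(∫ x in K, P x * (pd b w x - h x b)) + ∫ x in K, Q x * (pd a w x - h x a)|
      ≤ |-(∫ x in K, P x * (pd b w x - h x b))| + |∫ x in K, Q x * (pd a w x - h x a)| :=
        abs_add_le _ _
    _ ≤ _ := by
        rw [abs_neg, add_mul]
        exact add_le_add b1 b2

theorem DivEq.sum {κ : Type*} {Ω : Set R4} (s : Finset κ) {w : κ → R4 → R4} {c : κ → R4 → ℝ}
    (hw : ∀ k, ∀ a, LpL 1 Ω (fun x => w k x a)) (hc : ∀ k, LpL 1 Ω (c k))
    (h : ∀ k, DivEq Ω (w k) (c k)) :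
    DivEq Ω (fun x => ∑ k ∈ s, w k x) (fun x => ∑ k ∈ s, c k x) := by
  classical
  induction s using Finset.induction_on with
  | empty =>
    intro ψ _
    simp
  | insert k s hk ih =>
    have e1 : (fun x => ∑ j ∈ insert k s, w j x) = fun x => w k x + ∑ j ∈ s, w j x := by
      funext x; rw [Finset.sum_insert hk]
    have e2 : (fun x => ∑ j ∈ insert k s, c j x) = fun x => c k x + ∑ j ∈ s, c j x := by
      funext x; rw [Finset.sum_insert hk]
    rw [e1, e2]
    refine (h k).add ih (hw k) ?_ (hc k) (LpL.sum s fun j _ => hc j)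
    intro a
    have := LpL.sum (Ω := Ω) (p := 1) s (f := fun j x => w j x a) fun j _ => hw j a
    simpa [Finset.sum_apply] using this

theorem curl_pull {Ω : Set R4} (hΩ : IsOpen Ω) {φ : R4 → R4} {G : R4 → Matrix (Fin 4) (Fin 4) ℝ}
    (hφ : ContinuousOn φ Ω) (hG : IsWD 2 Ω φ G) :
    Curl Ω (fun x => (G x)ᵀ *ᵥ lam0 (φ x)) (fun x => (G x)ᵀ * J * G x) := by
  intro a d
  have h12 : (1 : ℝ≥0∞) ≤ 2 := by norm_num
  have hφc : ∀ c, ContinuousOn (fun x => φ x c) Ω := fun c =>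
    (continuous_apply c).comp_continuousOn hφ
  have hlp : ∀ b, ∀ a, LpL 2 Ω (fun x => G x b a) := hG.lp
  have key : ∀ p : Fin 4 × Fin 4, DivEq Ω
      (fun x => ((1 / 2 : ℝ) * J p.1 p.2) • ((φ x p.1 • G x p.2) d • (Pi.single a (1 : ℝ) : R4) -
        (φ x p.1 • G x p.2) a • (Pi.single d (1 : ℝ) : R4)))
      (fun x => ((1 / 2 : ℝ) * J p.1 p.2) *
        (G x p.1 a * G x p.2 d - G x p.1 d * G x p.2 a)) := fun p =>
    (dwedge hΩ (hφc p.1) (hφc p.2) (hlp p.1) (hlp p.2) (hG.wg p.1) (hG.wg p.2) a d).smul _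
  have hl1 : ∀ p : Fin 4 × Fin 4, ∀ e, LpL 1 Ω (fun x => φ x p.1 * G x p.2 e) := fun p e =>
    LpL.cont_mul hΩ (hφc p.1) ((hlp p.2 e).exp h12)
  have hw : ∀ p : Fin 4 × Fin 4, ∀ k, LpL 1 Ω (fun x =>
      (((1 / 2 : ℝ) * J p.1 p.2) • ((φ x p.1 • G x p.2) d • (Pi.single a (1 : ℝ) : R4) -
        (φ x p.1 • G x p.2) a • (Pi.single d (1 : ℝ) : R4))) k) := by
    intro p k
    have := ((((hl1 p d).const_mul ((Pi.single a (1 : ℝ) : R4) k)).sub
      ((hl1 p a).const_mul ((Pi.single d (1 : ℝ) : R4) k))).const_mul ((1 / 2 : ℝ) * J p.1 p.2))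
    refine this.congr (ae_of_all _ fun x _ => ?_)
    simp only [Pi.smul_apply, Pi.sub_apply, smul_eq_mul]
    ring
  have hc : ∀ p : Fin 4 × Fin 4, LpL 1 Ω (fun x => ((1 / 2 : ℝ) * J p.1 p.2) *
        (G x p.1 a * G x p.2 d - G x p.1 d * G x p.2 a)) := fun p =>
    (((hlp p.1 a).mul (hlp p.2 d)).sub ((hlp p.1 d).mul (hlp p.2 a))).const_mul _
  have hsum := DivEq.sum Finset.univ hw hc key
  have hα : ∀ x e, ((G x)ᵀ *ᵥ lam0 (φ x)) e =
      ∑ p : Fin 4 × Fin 4, ((1 / 2 : ℝ) * J p.1 p.2) * (φ x p.1 * G x p.2 e) := by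
    intro x e
    rw [Fintype.sum_prod_type]
    simp only [Matrix.mulVec, dotProduct, lam0, Matrix.vecMul, Pi.smul_apply, smul_eq_mul,
      Matrix.transpose_apply]
    simp only [Finset.mul_sum]
    rw [Finset.sum_comm]
    refine Finset.sum_congr rfl fun i _ => Finset.sum_congr rfl fun j _ => ?_
    ring
  have hS : ∀ x, ((G x)ᵀ * J * G x) a d = ∑ p : Fin 4 × Fin 4, ((1 / 2 : ℝ) * J p.1 p.2) *
        (G x p.1 a * G x p.2 d - G x p.1 d * G x p.2 a) := by
    intro x
    rw [Fintype.sum_prod_type]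
    simp only [Matrix.mul_apply, Matrix.transpose_apply, Fin.sum_univ_four, J]
    simp
    ring
  have e1 : (fun x => ((G x)ᵀ *ᵥ lam0 (φ x)) d • (Pi.single a (1 : ℝ) : R4) -
      ((G x)ᵀ *ᵥ lam0 (φ x)) a • (Pi.single d (1 : ℝ) : R4)) =
      fun x => ∑ p : Fin 4 × Fin 4, ((1 / 2 : ℝ) * J p.1 p.2) •
        ((φ x p.1 • G x p.2) d • (Pi.single a (1 : ℝ) : R4) -
        (φ x p.1 • G x p.2) a • (Pi.single d (1 : ℝ) : R4)) := by
    funext x
    rw [hα, hα, Finset.sum_smul, Finset.sum_smul, ← Finset.sum_sub_distrib]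
    refine Finset.sum_congr rfl fun p _ => ?_
    rw [smul_sub, smul_smul, smul_smul]
    rfl
  have e2 : (fun x => ((G x)ᵀ * J * G x) a d) = fun x => ∑ p : Fin 4 × Fin 4,
      ((1 / 2 : ℝ) * J p.1 p.2) * (G x p.1 a * G x p.2 d - G x p.1 d * G x p.2 a) := by
    funext x
    exact hS x
  show DivEq Ω (fun x => ((G x)ᵀ *ᵥ lam0 (φ x)) d • (Pi.single a (1 : ℝ) : R4) -
      ((G x)ᵀ *ᵥ lam0 (φ x)) a • (Pi.single d (1 : ℝ) : R4)) (fun x => ((G x)ᵀ * J * G x) a d)
  rw [e1, e2]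
  exact hsum

end Pool.Agent.SYH
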