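import Pool.Agent.SYH.Bas

/-!
# SYH/Mor: Morrey's inequality for `C^1` functions (`p > 4`, cubes = balls of the sup norm)

`B = closedBall z r`, `|B| = (2r)^4`.  For `x, w ∈ B`: `|f x - f w| ≤ ∫_0^1 Σ_a |∂_a f (x + s (w - x))| |w_a - x_a| ds ≤
2 r ∫_0^1 Σ_a |∂_a f (x + s (w - x))| ds`.  Average over `w ∈ B` (Tonelli), substitute `y = x + s (w - x)`, which maps `B`
into `B` (convex) with Jacobian `s^4`, and use Hoelder on the image (of measure `s^4 |B|`):
`|B|⁻¹ ∫_B |∂_a f (x + s (w-x))| dw ≤ |B|⁻¹ s^{-4} ‖∂_a f‖_{L^p(B)} (s^4 |B|)^{1 - 1/p} = |B|^{-1/p} s^{-4/p} ‖∂_a f‖_p`.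
`∫_0^1 s^{-4/p} ds = 1 / (1 - 4/p) < ∞`.  So `|B|⁻¹ ∫_B |f x - f w| dw ≤ C₁ r^{1-4/p} Σ_a ‖∂_a f‖_p`; the same for `y`; and
`|f x - f y| ≤ |f x - f w| + |f y - f w|`, averaged.
-/

open MeasureTheory Set Filter Topology
open scoped ContDiff Matrix ENNReal

namespace Pool.Agent.SYH

namespace Mor

lemma cont_pd {f : R4 → ℝ} (hf : ContDiff ℝ 1 f) (a : Fin 4) : Continuous (pd a f) := by
  unfold pd
  exact (hf.continuous_fderiv (by norm_num)).clm_apply continuous_const

lemma fderiv_eq {f : R4 → ℝ} (x v : R4) : fderiv ℝ f x v = ∑ a, v a * pd a f x := by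
  have h : v = ∑ a, v a • (Pi.single a 1 : R4) := by
    ext i
    simp [Finset.sum_apply, Pi.single_apply]
  conv_lhs => rw [h]
  rw [map_sum]
  simp [pd]

lemma ftc {f : R4 → ℝ} (hf : ContDiff ℝ 1 f) (x w : R4) :
    ENNReal.ofReal |f w - f x| ≤
      ∫⁻ s in Ioo (0 : ℝ) 1, ENNReal.ofReal |fderiv ℝ f (x + s • (w - x)) (w - x)| := by
  have hc : Continuous (fun s : ℝ => fderiv ℝ f (x + s • (w - x)) (w - x)) := by
    refine ((hf.continuous_fderiv (by norm_num)).comp ?_).clm_apply continuous_const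
    fun_prop
  have h1 : ∫ s in (0 : ℝ)..1, fderiv ℝ f (x + s • (w - x)) (w - x) = f w - f x := by
    have h2 : ∀ s ∈ uIcc (0 : ℝ) 1, HasDerivAt (fun s : ℝ => f (x + s • (w - x)))
        (fderiv ℝ f (x + s • (w - x)) (w - x)) s := by
      intro s _
      have h2 : HasDerivAt (fun s : ℝ => x + s • (w - x)) (w - x) s := by
        simpa using ((hasDerivAt_id s).smul_const (w - x)).const_add x
      exact ((hf.differentiable (by norm_num)) _).hasFDerivAt.comp_hasDerivAt s h2
    rw [intervalIntegral.integral_eq_sub_of_hasDerivAt h2 (hc.intervalIntegrable _ _)]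
    simp
  rw [← h1, intervalIntegral.integral_of_le zero_le_one, integral_Ioc_eq_integral_Ioo]
  rw [← Real.enorm_eq_ofReal_abs]
  refine (enorm_integral_le_lintegral_enorm _).trans (le_of_eq ?_)
  simp_rw [Real.enorm_eq_ofReal_abs]

lemma ftc2 {f : R4 → ℝ} (hf : ContDiff ℝ 1 f) {z : R4} {r : ℝ} (hr : 0 < r) {x w : R4}
    (hx : x ∈ Metric.closedBall z r) (hw : w ∈ Metric.closedBall z r) :
    ENNReal.ofReal |f w - f x| ≤
      ∫⁻ s in Ioo (0 : ℝ) 1, ENNReal.ofReal (2 * r) * ∑ a, ‖pd a f (x + s • (w - x))‖ₑ := by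
  refine (ftc hf x w).trans (lintegral_mono fun s => ?_)
  have h1 : ∀ a, |(w - x) a| ≤ 2 * r := by
    intro a
    have h2 : ‖w - x‖ ≤ 2 * r := by
      rw [← dist_eq_norm]
      have h3 := Metric.mem_closedBall.mp hx
      have h4 := Metric.mem_closedBall.mp hw
      have h5 := dist_triangle w z x
      rw [dist_comm z x] at h5
      linarith
    have h3 := norm_le_pi_norm (w - x) a
    rw [Real.norm_eq_abs] at h3
    linarith
  have h2 : |fderiv ℝ f (x + s • (w - x)) (w - x)| ≤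
      2 * r * ∑ a, |pd a f (x + s • (w - x))| := by
    rw [fderiv_eq, Finset.mul_sum]
    refine (Finset.abs_sum_le_sum_abs _ _).trans (Finset.sum_le_sum fun a _ => ?_)
    rw [abs_mul]
    exact mul_le_mul_of_nonneg_right (h1 a) (abs_nonneg _)
  refine (ENNReal.ofReal_le_ofReal h2).trans (le_of_eq ?_)
  rw [ENNReal.ofReal_mul (by positivity), ENNReal.ofReal_sum_of_nonneg (fun a _ => abs_nonneg _)]
  simp_rw [Real.enorm_eq_ofReal_abs]

/-- the homothety -/
lemma map_T (x : R4) {s : ℝ} (hs : 0 < s) :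
    Measure.map (fun w : R4 => x + s • (w - x)) volume =
      ENNReal.ofReal ((s ^ 4)⁻¹) • (volume : Measure R4) := by
  have h1 : (fun w : R4 => x + s • (w - x)) = (fun y => (x - s • x) + y) ∘ (fun w => s • w) := by
    ext w i
    simp [smul_sub]
    ring
  rw [h1, ← Measure.map_map (by fun_prop) (by fun_prop), Measure.map_addHaar_smul volume hs.ne',
    Measure.map_smul, map_add_left_eq_self]
  congr 2
  rw [abs_of_pos (by positivity)]
  simp

lemma hom_bound {p : ℝ≥0∞} (hp : 1 ≤ p) (hpt : p ≠ ⊤) {h : R4 → ℝ} (hh : Continuous h)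
    {z x : R4} {r s : ℝ} (hs : 0 < s) (hs1 : s < 1) (hx : x ∈ Metric.closedBall z r) :
    ∫⁻ w in Metric.closedBall z r, ‖h (x + s • (w - x))‖ₑ ≤
      ENNReal.ofReal ((s ^ 4)⁻¹) ^ (1 / p.toReal) *
        (eLpNorm h p (volume.restrict (Metric.closedBall z r)) *
          volume (Metric.closedBall z r) ^ (1 - 1 / p.toReal)) := by
  set B := Metric.closedBall z r with hB
  set T : R4 → R4 := fun w => x + s • (w - x) with hT
  have hTc : Continuous T := by rw [hT]; fun_prop
  have hTm : Measurable T := hTc.measurable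
  have hBm : MeasurableSet B := Metric.isClosed_closedBall.measurableSet
  have hsub : B ⊆ T ⁻¹' B := by
    intro w hw
    have := convex_closedBall z r hx hw (by linarith : (0 : ℝ) ≤ 1 - s) hs.le (by ring)
    have e : (1 - s) • x + s • w = T w := by
      rw [hT]; ext i; simp; ring
    rw [e] at this
    exact this
  have h1 : ∫⁻ w in B, ‖h (T w)‖ₑ = eLpNorm (h ∘ T) 1 (volume.restrict B) := by
    rw [eLpNorm_one_eq_lintegral_enorm]; rfl
  rw [h1]
  have h2 := eLpNorm_le_eLpNorm_mul_rpow_measure_univ hp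
    (μ := volume.restrict B) (f := h ∘ T) (hh.comp hTc).aestronglyMeasurable
  refine h2.trans ?_
  rw [Measure.restrict_apply_univ, ENNReal.toReal_one, div_one, ← mul_assoc]
  gcongr
  calc eLpNorm (h ∘ T) p (volume.restrict B)
      ≤ eLpNorm (h ∘ T) p (volume.restrict (T ⁻¹' B)) :=
        eLpNorm_mono_measure _ (Measure.restrict_mono hsub le_rfl)
    _ = eLpNorm h p (Measure.map T (volume.restrict (T ⁻¹' B))) := by
        rw [eLpNorm_map_measure hh.aestronglyMeasurable hTm.aemeasurable]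
    _ = eLpNorm h p ((ENNReal.ofReal ((s ^ 4)⁻¹) • (volume : Measure R4)).restrict B) := by
        rw [← Measure.restrict_map hTm hBm, map_T x hs]
    _ = _ := by
        rw [Measure.restrict_smul, eLpNorm_smul_measure_of_ne_top hpt, smul_eq_mul]
        simp

/-- the constant -/
noncomputable def Ip (p : ℝ≥0∞) : ℝ≥0∞ :=
  ∫⁻ s in Ioo (0 : ℝ) 1, ENNReal.ofReal ((s ^ 4)⁻¹) ^ (1 / p.toReal)

lemma Ip_lt {p : ℝ≥0∞} (hp : 4 < p) (hpt : p ≠ ⊤) : Ip p ≠ ⊤ := by
  have hp4 : 4 < p.toReal := by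
    have := (ENNReal.toReal_lt_toReal (by norm_num) hpt).mpr hp
    simpa using this
  have h1 : Ip p = ∫⁻ s in Ioo (0 : ℝ) 1, ENNReal.ofReal (s ^ (-(4 / p.toReal))) := by
    unfold Ip
    refine setLIntegral_congr_fun measurableSet_Ioo fun s hs => ?_
    have hs0 : 0 < s := hs.1
    rw [ENNReal.ofReal_rpow_of_nonneg (by positivity) (by positivity)]
    congr 1
    rw [Real.inv_rpow (by positivity), ← Real.rpow_natCast, ← Real.rpow_mul hs0.le,
      ← Real.rpow_neg hs0.le]
    congr 1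
    push_cast
    ring
  rw [h1]
  have h2 : IntervalIntegrable (fun s : ℝ => s ^ (-(4 / p.toReal))) volume 0 1 := by
    apply intervalIntegral.intervalIntegrable_rpow'
    have : 4 / p.toReal < 1 := by
      rw [div_lt_one (by linarith)]; exact hp4
    linarith
  have h3 : IntegrableOn (fun s : ℝ => s ^ (-(4 / p.toReal))) (Ioo 0 1) := by
    rw [intervalIntegrable_iff_integrableOn_Ioo_of_le zero_le_one] at h2
    exact h2
  exact (Integrable.lintegral_lt_top h3).ne

lemma avg {p : ℝ≥0∞} (hp : 1 ≤ p) (hpt : p ≠ ⊤) {f : R4 → ℝ} (hf : ContDiff ℝ 1 f) {z : R4}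
    {r : ℝ} (hr : 0 < r) {x : R4} (hx : x ∈ Metric.closedBall z r) :
    ∫⁻ w in Metric.closedBall z r, ENNReal.ofReal |f w - f x| ≤
      ENNReal.ofReal (2 * r) * (Ip p *
        ((∑ a, eLpNorm (pd a f) p (volume.restrict (Metric.closedBall z r))) *
          volume (Metric.closedBall z r) ^ (1 - 1 / p.toReal))) := by
  set B := Metric.closedBall z r with hB
  have hBm : MeasurableSet B := Metric.isClosed_closedBall.measurableSet
  have h1 : ∫⁻ w in B, ENNReal.ofReal |f w - f x| ≤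
      ∫⁻ w in B, ∫⁻ s in Ioo (0 : ℝ) 1,
        ENNReal.ofReal (2 * r) * ∑ a, ‖pd a f (x + s • (w - x))‖ₑ :=
    setLIntegral_mono' hBm fun w hw => ftc2 hf hr hx hw
  refine h1.trans ?_
  have hcont : ∀ a, Continuous (fun q : R4 × ℝ => ‖pd a f (x + q.2 • (q.1 - x))‖ₑ) := by
    intro a
    refine continuous_enorm.comp ((cont_pd hf a).comp ?_)
    fun_prop
  have hmeas : Measurable (fun q : R4 × ℝ =>
      ENNReal.ofReal (2 * r) * ∑ a, ‖pd a f (x + q.2 • (q.1 - x))‖ₑ) := by
    refine Measurable.const_mul ?_ _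
    exact Finset.measurable_sum _ fun a _ => (hcont a).measurable
  rw [lintegral_lintegral_swap (by exact hmeas.aemeasurable)]
  have h2 : ∀ s ∈ Ioo (0 : ℝ) 1, ∫⁻ w in B,
      ENNReal.ofReal (2 * r) * ∑ a, ‖pd a f (x + s • (w - x))‖ₑ ≤
      ENNReal.ofReal (2 * r) * (ENNReal.ofReal ((s ^ 4)⁻¹) ^ (1 / p.toReal) *
        ((∑ a, eLpNorm (pd a f) p (volume.restrict B)) * volume B ^ (1 - 1 / p.toReal))) := by
    intro s hs
    have hm : ∀ a, Measurable (fun w : R4 => ‖pd a f (x + s • (w - x))‖ₑ) := by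
      intro a
      refine (continuous_enorm.comp ((cont_pd hf a).comp ?_)).measurable
      fun_prop
    rw [lintegral_const_mul _ (Finset.measurable_sum _ fun a _ => hm a),
      lintegral_finsetSum _ (fun a _ => hm a), Finset.sum_mul]
    gcongr ENNReal.ofReal (2 * r) * ?_
    rw [Finset.mul_sum]
    gcongr with a _
    exact hom_bound hp hpt (cont_pd hf a) hs.1 hs.2 hx
  refine (setLIntegral_mono' measurableSet_Ioo h2).trans (le_of_eq ?_)
  have hm2 : Measurable (fun s : ℝ => ENNReal.ofReal ((s ^ 4)⁻¹) ^ (1 / p.toReal)) := by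
    fun_prop
  rw [lintegral_const_mul _ (hm2.mul_const _), lintegral_mul_const _ hm2]
  rfl

end Mor

theorem morrey {p : ℝ≥0∞} (hp : 4 < p) (hpt : p ≠ ⊤) : ∃ C : ℝ≥0∞, C ≠ ⊤ ∧
    ∀ (f : R4 → ℝ) (z : R4) (r : ℝ), ContDiff ℝ 1 f → 0 < r →
      ∀ x ∈ Metric.closedBall z r, ∀ y ∈ Metric.closedBall z r,
      ENNReal.ofReal |f x - f y| ≤ C * ENNReal.ofReal (r ^ (1 - 4 / p.toReal)) *
        ∑ a, eLpNorm (pd a f) p (volume.restrict (Metric.closedBall z r)) := by
  refine ⟨4 * Mor.Ip p, ENNReal.mul_ne_top (by norm_num) (Mor.Ip_lt hp hpt), ?_⟩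
  intro f z r hf hr x hx y hy
  have hp1 : 1 ≤ p := le_trans (by norm_num) hp.le
  have hp4 : 4 < p.toReal := by
    have := (ENNReal.toReal_lt_toReal (by norm_num) hpt).mpr hp
    simpa using this
  set B := Metric.closedBall z r with hB
  have hBm : MeasurableSet B := Metric.isClosed_closedBall.measurableSet
  set V := volume B with hV
  have hVe : V = ENNReal.ofReal ((2 * r) ^ 4) := by
    rw [hV, hB, Real.volume_pi_closedBall z hr.le]
    simp
  have hV0 : V ≠ 0 := by
    rw [hVe]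
    have : 0 < (2 * r) ^ 4 := by positivity
    simpa using this
  have hVt : V ≠ ⊤ := by rw [hVe]; exact ENNReal.ofReal_ne_top
  set S := ∑ a, eLpNorm (pd a f) p (volume.restrict B) with hS
  have h1 : V * ENNReal.ofReal |f x - f y| ≤
      ENNReal.ofReal (2 * r) * (Mor.Ip p * (S * V ^ (1 - 1 / p.toReal))) +
      ENNReal.ofReal (2 * r) * (Mor.Ip p * (S * V ^ (1 - 1 / p.toReal))) := by
    calc V * ENNReal.ofReal |f x - f y| = ∫⁻ _w in B, ENNReal.ofReal |f x - f y| := by
          rw [lintegral_const, Measure.restrict_apply_univ, mul_comm]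
      _ ≤ ∫⁻ w in B, (ENNReal.ofReal |f w - f x| + ENNReal.ofReal |f w - f y|) := by
          refine lintegral_mono fun w => ?_
          rw [← ENNReal.ofReal_add (abs_nonneg _) (abs_nonneg _)]
          apply ENNReal.ofReal_le_ofReal
          have e : f x - f y = (f w - f y) - (f w - f x) := by ring
          rw [e]
          have := abs_sub (f w - f y) (f w - f x)
          linarith
      _ = (∫⁻ w in B, ENNReal.ofReal |f w - f x|) + ∫⁻ w in B, ENNReal.ofReal |f w - f y| := by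
          rw [lintegral_add_left]
          have := hf.continuous
          fun_prop
      _ ≤ _ := add_le_add (Mor.avg hp1 hpt hf hr hx) (Mor.avg hp1 hpt hf hr hy)
  have hVp : V ^ (1 - 1 / p.toReal) = V * V ^ (-(1 / p.toReal)) := by
    rw [sub_eq_add_neg, ENNReal.rpow_add _ _ hV0 hVt, ENNReal.rpow_one]
  have hk : ENNReal.ofReal (2 * r) * V ^ (-(1 / p.toReal)) ≤
      2 * ENNReal.ofReal (r ^ (1 - 4 / p.toReal)) := by
    rw [hVe, ENNReal.ofReal_rpow_of_pos (by positivity), ← ENNReal.ofReal_mul (by positivity)]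
    have e2 : (2 : ℝ≥0∞) = ENNReal.ofReal 2 := by simp
    rw [e2, ← ENNReal.ofReal_mul (by norm_num)]
    apply ENNReal.ofReal_le_ofReal
    rw [← Real.rpow_natCast (2 * r) 4, ← Real.rpow_mul (by positivity)]
    have e3 : (((4 : ℕ) : ℝ) * -(1 / p.toReal)) = -(4 / p.toReal) := by push_cast; ring
    rw [e3, Real.mul_rpow (by norm_num) hr.le, sub_eq_add_neg, Real.rpow_add hr, Real.rpow_one]
    have e4 : (2 : ℝ) ^ (-(4 / p.toReal)) ≤ 1 := by
      apply Real.rpow_le_one_of_one_le_of_nonpos (by norm_num)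
      have : 0 ≤ 4 / p.toReal := by positivity
      linarith
    have e5 : 0 ≤ r ^ (-(4 / p.toReal)) := by positivity
    have e6 : (2 : ℝ) ^ (-(4 / p.toReal)) * r ^ (-(4 / p.toReal)) ≤ r ^ (-(4 / p.toReal)) :=
      mul_le_of_le_one_left e5 e4
    nlinarith
  have h2 : V * ENNReal.ofReal |f x - f y| ≤
      V * (4 * Mor.Ip p * ENNReal.ofReal (r ^ (1 - 4 / p.toReal)) * S) := by
    refine h1.trans ?_
    rw [hVp]
    calc _ = V * (2 * Mor.Ip p * S * (ENNReal.ofReal (2 * r) * V ^ (-(1 / p.toReal)))) := by ring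
      _ ≤ V * (2 * Mor.Ip p * S * (2 * ENNReal.ofReal (r ^ (1 - 4 / p.toReal)))) := by gcongr
      _ = _ := by ring
  exact (ENNReal.mul_le_mul_iff_right hV0 hVt).mp h2

end Pool.Agent.SYH
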