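import Pool.Agent.SYH.Bas

/-!
# SYH/PoS: Poincare lemma for smooth closed one-forms on a ball

`f x = ∫_0^1 Σ_a β_a (z + t (x - z)) (x_a - z_a) dt`.  Smooth (parametric integral; e.g. `contDiff` of an interval
integral with parameter, or `ContDiff ℝ ∞` by `hasFDerivAt_integral_of_dominated..`; alternatively Mathlib's
`contDiff_..parametric_integral`).  On the ball: `∂_b f (x) = ∫_0^1 (Σ_a t ∂_b β_a (x_a - z_a) + β_b) dt =
∫_0^1 d/dt (t β_b (z + t (x - z))) dt = β_b x` (as `∂_b β_a = ∂_a β_b` on the ball, which is convex).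
-/

open MeasureTheory Set Filter Topology
open scoped ContDiff Matrix ENNReal

namespace Pool.Agent.SYH

/-- a parametric integral of a `C^n` function is `C^n` -/
theorem PoS_param (n : ℕ) : ∀ (G : Type) [NormedAddCommGroup G] [NormedSpace ℝ G] [CompleteSpace G]
    (F : R4 → ℝ → G), ContDiff ℝ n (Function.uncurry F) →
      ContDiff ℝ n (fun x : R4 => ∫ t in (0 : ℝ)..1, F x t) := by
  induction n with
  | zero =>
    intro G _ _ _ F hF
    rw [Nat.cast_zero, contDiff_zero] at hF ⊢
    exact intervalIntegral.continuous_parametric_intervalIntegral_of_continuous' hF 0 1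
  | succ n ih =>
    intro G _ _ _ F hF
    have hn : ((n + 1 : ℕ) : WithTop ℕ∞) ≠ 0 := by
      norm_cast
    have h1 : Differentiable ℝ (Function.uncurry F) := hF.differentiable hn
    have hcF : Continuous (Function.uncurry F) := hF.continuous
    set F' : R4 → ℝ → R4 →L[ℝ] G :=
      fun x t => (fderiv ℝ (Function.uncurry F) (x, t)).comp (ContinuousLinearMap.inl ℝ R4 ℝ) with hF'd
    have hF' : ContDiff ℝ n (Function.uncurry F') := by
      have h2 : ContDiff ℝ n (fderiv ℝ (Function.uncurry F)) :=
        hF.fderiv_right (by rw [Nat.cast_succ])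
      have h3 := h2.clm_comp (contDiff_const (c := ContinuousLinearMap.inl ℝ R4 ℝ))
      exact h3
    rw [Nat.cast_succ, contDiff_succ_iff_hasFDerivAt]
    refine ⟨fun x => ∫ t in (0 : ℝ)..1, F' x t, ih _ F' hF', fun x => ?_⟩
    have hcF' : Continuous (Function.uncurry F') := hF'.continuous
    obtain ⟨C, hC⟩ := ((isCompact_closedBall x 1).prod (isCompact_Icc (a := (0 : ℝ)) (b := 1))).exists_bound_of_continuousOn
      hcF'.continuousOn
    refine intervalIntegral.hasFDerivAt_integral_of_dominated_of_fderiv_le (μ := volume) (bound := fun _ => C)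
      (Metric.closedBall_mem_nhds x one_pos) ?_ ?_ ?_ ?_ ?_ ?_
    · exact Eventually.of_forall fun y =>
        (hcF.comp (by fun_prop : Continuous fun t : ℝ => (y, t))).aestronglyMeasurable
    · exact (hcF.comp (by fun_prop : Continuous fun t : ℝ => (x, t))).intervalIntegrable 0 1
    · exact (hcF'.comp (by fun_prop : Continuous fun t : ℝ => (x, t))).aestronglyMeasurable
    · refine Eventually.of_forall fun t ht y hy => ?_
      rw [uIoc_of_le zero_le_one] at ht
      exact hC (y, t) ⟨hy, Ioc_subset_Icc_self ht⟩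
    · exact intervalIntegrable_const
    · refine Eventually.of_forall fun t _ y _ => ?_
      have h4 : HasFDerivAt (fun y : R4 => (y, t)) (ContinuousLinearMap.inl ℝ R4 ℝ) y := by
        exact hasFDerivAt_prodMk_left y t
      exact (h1 (y, t)).hasFDerivAt.comp y h4

theorem PoS_param_top {F : R4 → ℝ → ℝ} (hF : ContDiff ℝ ∞ (Function.uncurry F)) :
    ContDiff ℝ ∞ (fun x : R4 => ∫ t in (0 : ℝ)..1, F x t) := by
  rw [contDiff_infty] at hF ⊢
  exact fun n => PoS_param n ℝ F (hF n)

theorem poincare_smooth {z : R4} {R : ℝ} {β : Fin 4 → R4 → ℝ} (hβ : ∀ a, ContDiff ℝ ∞ (β a))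
    (hc : ∀ x ∈ Metric.closedBall z R, ∀ a b, pd a (β b) x = pd b (β a) x) :
    ∃ f : R4 → ℝ, ContDiff ℝ ∞ f ∧ f z = 0 ∧ ∀ x ∈ Metric.ball z R, ∀ a, pd a f x = β a x := by
  set w : R4 → R4 →L[ℝ] ℝ := fun x => ∑ a, β a x • ContinuousLinearMap.proj (R := ℝ) a with hwd
  have hw : ContDiff ℝ ∞ w := by
    refine ContDiff.sum fun a _ => ?_
    exact (hβ a).smul contDiff_const
  have hwa : ∀ x v, w x v = ∑ a, β a x * v a := by
    intro x v
    simp [hwd, sum_apply]
  have hsym : ∀ x ∈ Metric.ball z R, ∀ u v, fderiv ℝ w x u v = fderiv ℝ w x v u := by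
    intro x hx u v
    have hd : ∀ u v, fderiv ℝ w x u v = ∑ a, (∑ b, u b * pd b (β a) x) * v a := by
      intro u v
      have h1 : HasFDerivAt w (∑ a, (fderiv ℝ (β a) x).smulRight (ContinuousLinearMap.proj (R := ℝ) a : R4 →L[ℝ] ℝ)) x := by
        refine HasFDerivAt.fun_sum fun a _ => ?_
        have h2 : HasFDerivAt (β a) (fderiv ℝ (β a) x) x :=
          ((hβ a).differentiable (by simp) x).hasFDerivAt
        exact h2.smul_const (ContinuousLinearMap.proj (R := ℝ) a : R4 →L[ℝ] ℝ)
      rw [h1.fderiv]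
      simp only [sum_apply, ContinuousLinearMap.smulRight_apply, smul_eq_mul,
        smul_apply, ContinuousLinearMap.proj_apply, fderiv_eq_sum]
    rw [hd, hd]
    have h3 := hc x (Metric.ball_subset_closedBall hx)
    simp only [Finset.sum_mul]
    rw [Finset.sum_comm]
    refine Finset.sum_congr rfl fun a _ => Finset.sum_congr rfl fun b _ => ?_
    rw [h3 a b]
    ring
  set f : R4 → ℝ := fun x => ∫ t in (0 : ℝ)..1, w (AffineMap.lineMap z x t) (x - z) with hfd
  have hfc : ∀ x, f x = curveIntegral w (Path.segment z x) := by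
    intro x
    rw [curveIntegral_segment]
  refine ⟨f, ?_, ?_, ?_⟩
  · refine PoS_param_top (F := fun x t => w (AffineMap.lineMap z x t) (x - z)) ?_
    have h5 : ContDiff ℝ ∞ (fun p : R4 × ℝ => w (z + p.2 • (p.1 - z))) := by
      refine hw.comp ?_
      exact contDiff_const.add (contDiff_snd.smul (contDiff_fst.sub contDiff_const))
    have h6 : ContDiff ℝ ∞ (fun p : R4 × ℝ => p.1 - z) := contDiff_fst.sub contDiff_const
    have h7 := h5.clm_apply h6
    have h8 : (Function.uncurry fun (x : R4) (t : ℝ) => w (AffineMap.lineMap z x t) (x - z)) =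
        fun p : R4 × ℝ => w (z + p.2 • (p.1 - z)) (p.1 - z) := by
      funext p
      simp only [Function.uncurry]
      rw [AffineMap.lineMap_apply, vsub_eq_sub, vadd_eq_add, add_comm]
    rw [h8]
    exact h7
  · simp [hfd]
  · intro x hx a
    have hwd' : ∀ y ∈ Metric.ball z R, HasFDerivWithinAt w (fderiv ℝ w y) (Metric.ball z R) y :=
      fun y _ => ((hw.differentiable (by simp) y).hasFDerivAt).hasFDerivWithinAt
    have hz : z ∈ Metric.ball z R := by
      rw [Metric.mem_ball] at hx ⊢
      rw [dist_self]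
      exact dist_nonneg.trans_lt hx
    have h8 := (convex_ball z R).hasFDerivWithinAt_curveIntegral_segment_of_hasFDerivWithinAt_symmetric
      hwd' (fun y hy u _ v _ => hsym y hy u v) hz hx
    have h9 : HasFDerivAt f (w x) x := by
      have h10 := h8.hasFDerivAt (Metric.isOpen_ball.mem_nhds hx)
      refine h10.congr_of_eventuallyEq (Eventually.of_forall fun y => hfc y)
    rw [pd, h9.fderiv, hwa]
    simp [Pi.single_apply]

end Pool.Agent.SYH
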