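import Pool.Agent.SYH.Apx
import Pool.Agent.SYH.Mor
import Pool.Agent.SYH.PoS

/-!
# SYH/PoL: Poincare lemma for closed `L^p_loc` one-forms, `p > 4`, on a ball

`K = closedBall z R ⊆ Ω`.  `apxCurl` with `ε = 1/(n+1)` gives smooth `β^n → α` in `L^p (K)`, closed on `K`;
`poincare_smooth` gives `f_n` with `f_n z = 0`, `∂_a f_n = β^n_a` on `ball z R`.  Morrey for `f_n - f_m` on
`closedBall z R'`, `R' < R`, (or directly on `closedBall z R`: the boundary of the ball is a null set, so the `L^p` norm
over the closed ball only sees the open ball): `sup_K |f_n - f_m| ≤ C ‖β^n - β^m‖_{L^p(K)} → 0`.  The limit `f` is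
continuous on `K`; pass to the limit in `∫ f_n ∂_a ψ = - ∫ β^n_a ψ` (`ψ` a test function on `ball z R`).
-/

open MeasureTheory Set Filter Topology
open scoped ContDiff Matrix ENNReal

namespace Pool.Agent.SYH

/-- the difference of two approximate potentials -/
theorem PoL_diff {p C : ℝ≥0∞} (h1 : 1 ≤ p) {z : R4} {R e : ℝ} (hR : 0 < R)
    (hM : ∀ (f : R4 → ℝ) (z : R4) (r : ℝ), ContDiff ℝ 1 f → 0 < r →
      ∀ x ∈ Metric.closedBall z r, ∀ y ∈ Metric.closedBall z r,
      ENNReal.ofReal |f x - f y| ≤ C * ENNReal.ofReal (r ^ e) *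
        ∑ a, eLpNorm (pd a f) p (volume.restrict (Metric.closedBall z r)))
    {f g : R4 → ℝ} {β γ : Fin 4 → R4 → ℝ} {α : R4 → R4} {s t : ℝ} (hs : 0 ≤ s) (ht : 0 ≤ t)
    (hf : ContDiff ℝ ∞ f) (hg : ContDiff ℝ ∞ g) (hf0 : f z = 0) (hg0 : g z = 0)
    (hα : ∀ a, AEStronglyMeasurable (fun x => α x a) (volume.restrict (Metric.closedBall z R)))
    (hβ : ∀ a, ContDiff ℝ ∞ (β a)) (hγ : ∀ a, ContDiff ℝ ∞ (γ a))
    (hfβ : ∀ x ∈ Metric.ball z R, ∀ a, pd a f x = β a x)
    (hgγ : ∀ x ∈ Metric.ball z R, ∀ a, pd a g x = γ a x)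
    (hb : ∀ a, eLpNorm (fun x => β a x - α x a) p (volume.restrict (Metric.closedBall z R)) ≤
      ENNReal.ofReal s)
    (hc : ∀ a, eLpNorm (fun x => γ a x - α x a) p (volume.restrict (Metric.closedBall z R)) ≤
      ENNReal.ofReal t) {x : R4} (hx : x ∈ Metric.closedBall z R) :
    ENNReal.ofReal |f x - g x| ≤ C * ENNReal.ofReal (R ^ e) * (4 * ENNReal.ofReal (s + t)) := by
  have hz : z ∈ Metric.closedBall z R := Metric.mem_closedBall_self hR.le
  have h := hM (fun x => f x - g x) z R ((hf.sub hg).of_le (by exact_mod_cast le_top)) hR x hx z hz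
  simp only [hf0, hg0, sub_zero] at h
  refine h.trans ?_
  gcongr
  have hae : ∀ᵐ y ∂(volume.restrict (Metric.closedBall z R)), y ∈ Metric.ball z R := by
    rw [ae_restrict_iff' Metric.isClosed_closedBall.measurableSet]
    have h0 : volume (Metric.sphere z R) = 0 := Measure.addHaar_sphere_of_ne_zero volume z hR.ne'
    have h1 : ∀ᵐ y ∂(volume : Measure R4), y ∉ Metric.sphere z R :=
      measure_eq_zero_iff_ae_notMem.1 h0
    filter_upwards [h1] with y hy hyc
    rw [Metric.mem_ball]
    rcases lt_or_eq_of_le (Metric.mem_closedBall.1 hyc) with h2 | h2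
    · exact h2
    · exact absurd (Metric.mem_sphere.2 h2) hy
  have hone : ∀ a, eLpNorm (pd a (fun x => f x - g x)) p
      (volume.restrict (Metric.closedBall z R)) ≤ ENNReal.ofReal (s + t) := by
    intro a
    have e1 : eLpNorm (pd a (fun x => f x - g x)) p (volume.restrict (Metric.closedBall z R))
        = eLpNorm ((fun x => β a x - α x a) - (fun x => γ a x - α x a)) p
          (volume.restrict (Metric.closedBall z R)) := by
      refine eLpNorm_congr_ae ?_
      filter_upwards [hae] with y hy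
      have h2 : pd a (fun x => f x - g x) y = pd a f y - pd a g y := by
        have hdf : DifferentiableAt ℝ f y := (hf.differentiable (by simp)).differentiableAt
        have hdg : DifferentiableAt ℝ g y := (hg.differentiable (by simp)).differentiableAt
        have h3 := hdf.hasFDerivAt.sub hdg.hasFDerivAt
        have h4 : fderiv ℝ (fun x => f x - g x) y = fderiv ℝ f y - fderiv ℝ g y := h3.fderiv
        rw [pd, h4]
        rfl
      rw [h2, hfβ y hy, hgγ y hy]
      simp only [Pi.sub_apply]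
      ring
    rw [e1]
    refine (eLpNorm_sub_le ?_ ?_ h1).trans ?_
    · exact ((hβ a).continuous.aestronglyMeasurable).sub (hα a)
    · exact ((hγ a).continuous.aestronglyMeasurable).sub (hα a)
    · rw [ENNReal.ofReal_add hs ht]
      exact add_le_add (hb a) (hc a)
  calc ∑ a, eLpNorm (pd a (fun x => f x - g x)) p (volume.restrict (Metric.closedBall z R))
      ≤ ∑ _a : Fin 4, ENNReal.ofReal (s + t) := Finset.sum_le_sum fun a _ => hone a
    _ = 4 * ENNReal.ofReal (s + t) := by simp

theorem poincare_Lp {p : ℝ≥0∞} (hp : 4 < p) (hpt : p ≠ ⊤) {Ω : Set R4} (hΩ : IsOpen Ω) {z : R4}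
    {R : ℝ} (hR : 0 < R) (hs : Metric.closedBall z R ⊆ Ω) {α : R4 → R4}
    (hα : ∀ a, LpL p Ω (fun x => α x a)) (hc : Curl Ω α 0) :
    ∃ f : R4 → ℝ, ContinuousOn f (Metric.closedBall z R) ∧ WG (Metric.ball z R) f α := by
  have h1p : (1 : ℝ≥0∞) ≤ p := le_trans (by norm_num) hp.le
  have hKc : IsCompact (Metric.closedBall z R) := isCompact_closedBall z R
  obtain ⟨C, hC, hM⟩ := morrey hp hpt
  obtain ⟨ε, hεd⟩ : ∃ ε : ℕ → ℝ, ∀ n, ε n = 1 / ((n : ℝ) + 1) := ⟨_, fun _ => rfl⟩
  have hε : ∀ n, 0 < ε n := fun n => by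
    rw [hεd]
    positivity
  have hε0 : Tendsto ε atTop (𝓝 0) := by
    have : ε = fun n : ℕ => 1 / ((n : ℝ) + 1) := funext hεd
    rw [this]
    exact tendsto_one_div_add_atTop_nhds_zero_nat
  have hexβ : ∀ n, ∃ β : Fin 4 → R4 → ℝ, (∀ a, ContDiff ℝ ∞ (β a)) ∧
      (∀ x ∈ Metric.closedBall z R, ∀ a b, pd a (β b) x = pd b (β a) x) ∧
      ∀ a, eLpNorm (fun x => β a x - α x a) p (volume.restrict (Metric.closedBall z R)) ≤
        ENNReal.ofReal (ε n) := fun n => apxCurl hΩ hKc hs h1p hpt hα hc (hε n)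
  choose β hβ1 hβ2 hβ3 using hexβ
  have hexf : ∀ n, ∃ f : R4 → ℝ, ContDiff ℝ ∞ f ∧ f z = 0 ∧
      ∀ x ∈ Metric.ball z R, ∀ a, pd a f x = β n a x := fun n =>
    poincare_smooth (hβ1 n) (hβ2 n)
  choose F hF1 hF2 hF3 using hexf
  have hαm : ∀ a, AEStronglyMeasurable (fun x => α x a)
      (volume.restrict (Metric.closedBall z R)) := fun a => (hα a _ hs hKc).1
  obtain ⟨D, hD⟩ : ∃ D : ℝ, ∀ s : ℝ, 0 ≤ s →
      (C * ENNReal.ofReal (R ^ (1 - 4 / p.toReal)) * (4 * ENNReal.ofReal s)).toReal = D * s := by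
    refine ⟨(C * ENNReal.ofReal (R ^ (1 - 4 / p.toReal)) * 4).toReal, fun s hs => ?_⟩
    rw [← mul_assoc, ENNReal.toReal_mul, ENNReal.toReal_ofReal hs]
  have hbd : ∀ n m, ∀ x ∈ Metric.closedBall z R, |F n x - F m x| ≤ D * (ε n + ε m) := by
    intro n m x hx
    have h1 := PoL_diff h1p hR hM (hε n).le (hε m).le (hF1 n) (hF1 m) (hF2 n) (hF2 m) hαm
      (hβ1 n) (hβ1 m) (hF3 n) (hF3 m) (hβ3 n) (hβ3 m) hx
    rw [← hD _ (add_nonneg (hε n).le (hε m).le)]
    rw [ENNReal.ofReal_le_iff_le_toReal] at h1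
    · exact h1
    · exact ENNReal.mul_ne_top (ENNReal.mul_ne_top hC ENNReal.ofReal_ne_top)
        (ENNReal.mul_ne_top (by norm_num) ENNReal.ofReal_ne_top)
  have hcau : ∀ x ∈ Metric.closedBall z R, ∃ y, Tendsto (fun n => F n x) atTop (𝓝 y) := by
    intro x hx
    refine cauchySeq_tendsto_of_complete ?_
    have h2 : Tendsto (fun q : ℕ × ℕ => D * (ε q.1 + ε q.2)) atTop (𝓝 0) := by
      have h3 : Tendsto (fun q : ℕ × ℕ => D * (ε q.1 + ε q.2)) atTop (𝓝 (D * (0 + 0))) := by
        refine Tendsto.const_mul _ (Tendsto.add ?_ ?_)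
        · exact hε0.comp (tendsto_atTop_atTop.2 fun b => ⟨(b, b), fun a ha => ha.1⟩)
        · exact hε0.comp (tendsto_atTop_atTop.2 fun b => ⟨(b, b), fun a ha => ha.2⟩)
      simpa using h3
    rw [cauchySeq_iff_tendsto_dist_atTop_0]
    refine squeeze_zero (fun _ => dist_nonneg) (fun q => ?_) h2
    rw [Real.dist_eq]
    exact hbd q.1 q.2 x hx
  have hlimex : ∃ f : R4 → ℝ, ∀ x ∈ Metric.closedBall z R,
      Tendsto (fun n => F n x) atTop (𝓝 (f x)) := by
    classical
    refine ⟨fun x => if hx : x ∈ Metric.closedBall z R then (hcau x hx).choose else 0, ?_⟩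
    intro x hx
    change Tendsto (fun n => F n x) atTop
      (𝓝 (if hx : x ∈ Metric.closedBall z R then (hcau x hx).choose else 0))
    rw [dif_pos hx]
    exact (hcau x hx).choose_spec
  obtain ⟨f, hf⟩ := hlimex
  have hfb : ∀ n, ∀ x ∈ Metric.closedBall z R, |F n x - f x| ≤ D * ε n := by
    intro n x hx
    have h1 : Tendsto (fun m => |F n x - F m x|) atTop (𝓝 |F n x - f x|) :=
      ((tendsto_const_nhds.sub (hf x hx))).abs
    have h2 : Tendsto (fun m => D * (ε n + ε m)) atTop (𝓝 (D * (ε n + 0))) :=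
      Tendsto.const_mul _ (tendsto_const_nhds.add hε0)
    rw [add_zero] at h2
    exact le_of_tendsto_of_tendsto' h1 h2 fun m => hbd n m x hx
  have hDε : Tendsto (fun n => D * ε n) atTop (𝓝 0) := by
    have := hε0.const_mul D
    rwa [mul_zero] at this
  have hunif : TendstoUniformlyOn F f atTop (Metric.closedBall z R) := by
    rw [Metric.tendstoUniformlyOn_iff]
    intro η hη
    filter_upwards [hDε.eventually_lt_const hη] with n hn x hx
    rw [dist_comm, Real.dist_eq]
    exact (hfb n x hx).trans_lt hn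
  have hfc : ContinuousOn f (Metric.closedBall z R) :=
    hunif.continuousOn (Eventually.of_forall fun n => (hF1 n).continuous.continuousOn).frequently
  refine ⟨f, hfc, ?_⟩
  intro ψ hψ a
  have hKm : MeasurableSet (Metric.closedBall z R) := hKc.measurableSet
  have hballK : Metric.ball z R ⊆ Metric.closedBall z R := Metric.ball_subset_closedBall
  have hψ0 : ∀ x ∉ Metric.ball z R, ψ x = 0 := fun x hx =>
    image_eq_zero_of_notMem_tsupport fun h => hx (hψ.supp h)
  have hψd0 : ∀ x ∉ Metric.ball z R, pd a ψ x = 0 := fun x hx =>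
    pd_eq_zero a fun h => hx (hψ.supp h)
  have hψdc : Continuous (pd a ψ) := (pd_smooth a hψ.smooth).continuous
  -- the identity for the approximations
  have hn : ∀ n, ∫ x in Metric.closedBall z R, F n x * pd a ψ x
      = -∫ x in Metric.closedBall z R, β n a x * ψ x := by
    intro n
    have h1 := WG.of_smooth (Ω := Metric.ball z R) (hF1 n) ψ hψ a
    rw [setIntegral_eq_integral_of_forall_compl_eq_zero, h1,
      ← setIntegral_eq_integral_of_forall_compl_eq_zero (s := Metric.closedBall z R)]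
    · congr 1
      refine integral_congr_ae (Eventually.of_forall fun x => ?_)
      by_cases hx : x ∈ Metric.ball z R
      · simp only [hF3 n x hx]
      · simp only [hψ0 x hx, mul_zero]
    · intro x hx
      rw [hψ0 x fun h => hx (hballK h), mul_zero]
    · intro x hx
      rw [hψd0 x fun h => hx (hballK h), mul_zero]
  have hfin : IsFiniteMeasure (volume.restrict (Metric.closedBall z R)) :=
    ⟨by simpa using hKc.measure_lt_top⟩
  -- left-hand sides
  have hL : Tendsto (fun n => ∫ x in Metric.closedBall z R, F n x * pd a ψ x) atTop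
      (𝓝 (∫ x in Metric.closedBall z R, f x * pd a ψ x)) := by
    refine tendsto_integral_of_L1 _
      ((hfc.mul hψdc.continuousOn).aestronglyMeasurable hKm) ?_ ?_
    · exact Eventually.of_forall fun n =>
        ((hF1 n).continuous.mul hψdc).continuousOn.integrableOn_compact hKc
    · have h2 : Tendsto (fun n => ENNReal.ofReal (D * ε n) *
          ∫⁻ x in Metric.closedBall z R, ‖pd a ψ x‖ₑ) atTop (𝓝 0) := by
        have h3 : ∫⁻ x in Metric.closedBall z R, ‖pd a ψ x‖ₑ ≠ ⊤ :=
          (hψdc.continuousOn.integrableOn_compact hKc).2.ne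
        have h4 : Tendsto (fun n => ENNReal.ofReal (D * ε n)) atTop (𝓝 (ENNReal.ofReal 0)) :=
          ENNReal.tendsto_ofReal hDε
        rw [ENNReal.ofReal_zero] at h4
        have h5 := ENNReal.Tendsto.mul_const h4 (Or.inr h3)
        rwa [zero_mul] at h5
      refine tendsto_of_tendsto_of_tendsto_of_le_of_le tendsto_const_nhds h2
        (fun _ => bot_le) fun n => ?_
      rw [← lintegral_const_mul' _ _ ENNReal.ofReal_ne_top]
      refine setLIntegral_mono' hKm fun x hx => ?_
      rw [Pi.mul_apply, ← sub_mul, enorm_mul]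
      gcongr
      rw [Real.enorm_eq_ofReal_abs]
      exact ENNReal.ofReal_le_ofReal (hfb n x hx)
  -- right-hand sides
  have hRt : Tendsto (fun n => ∫ x in Metric.closedBall z R, β n a x * ψ x) atTop
      (𝓝 (∫ x in Metric.closedBall z R, α x a * ψ x)) := by
    refine tendsto_integral_of_L1 _
      ((hαm a).mul hψ.smooth.continuous.aestronglyMeasurable) ?_ ?_
    · exact Eventually.of_forall fun n =>
        ((hβ1 n a).continuous.mul hψ.smooth.continuous).continuousOn.integrableOn_compact hKc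
    · obtain ⟨B, hB⟩ := hψ.cpt.exists_bound_of_continuous hψ.smooth.continuous
      have hμ : volume.restrict (Metric.closedBall z R) univ ≠ ⊤ := measure_ne_top _ _
      have h2 : Tendsto (fun n => ENNReal.ofReal B * (ENNReal.ofReal (ε n) *
          volume.restrict (Metric.closedBall z R) univ ^
            (1 / (1 : ℝ≥0∞).toReal - 1 / p.toReal))) atTop (𝓝 0) := by
        have h3 : volume.restrict (Metric.closedBall z R) univ ^
            (1 / (1 : ℝ≥0∞).toReal - 1 / p.toReal) ≠ ⊤ := by
          refine ENNReal.rpow_ne_top_of_nonneg ?_ hμ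
          have hp1 : 1 ≤ p.toReal := by
            have := ENNReal.toReal_mono hpt h1p
            simpa using this
          rw [ENNReal.toReal_one, div_one, sub_nonneg, div_le_one (by linarith)]
          exact hp1
        have h4 : Tendsto (fun n => ENNReal.ofReal (ε n)) atTop (𝓝 (ENNReal.ofReal 0)) :=
          ENNReal.tendsto_ofReal hε0
        rw [ENNReal.ofReal_zero] at h4
        have h5 := ENNReal.Tendsto.const_mul (ENNReal.Tendsto.mul_const h4 (Or.inr h3))
          (Or.inr (ENNReal.ofReal_ne_top (r := B)))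
        rwa [zero_mul, mul_zero] at h5
      refine tendsto_of_tendsto_of_tendsto_of_le_of_le tendsto_const_nhds h2
        (fun _ => bot_le) fun n => ?_
      have h6 : ∫⁻ x in Metric.closedBall z R, ‖β n a x * ψ x - α x a * ψ x‖ₑ
          ≤ ENNReal.ofReal B * ∫⁻ x in Metric.closedBall z R, ‖β n a x - α x a‖ₑ := by
        rw [← lintegral_const_mul' _ _ ENNReal.ofReal_ne_top]
        refine lintegral_mono fun x => ?_
        rw [← sub_mul, enorm_mul, mul_comm]
        gcongr
        rw [Real.enorm_eq_ofReal_abs]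
        exact ENNReal.ofReal_le_ofReal (hB x)
      refine h6.trans ?_
      gcongr
      rw [← eLpNorm_one_eq_lintegral_enorm]
      refine (eLpNorm_le_eLpNorm_mul_rpow_measure_univ h1p
        (((hβ1 n a).continuous.aestronglyMeasurable).sub (hαm a))).trans ?_
      gcongr
      exact hβ3 n a
  have hfinal : ∫ x in Metric.closedBall z R, f x * pd a ψ x
      = -∫ x in Metric.closedBall z R, α x a * ψ x := by
    refine tendsto_nhds_unique hL ?_
    have h7 := hRt.neg
    refine h7.congr fun n => ?_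
    exact (hn n).symm
  rw [setIntegral_eq_integral_of_forall_compl_eq_zero,
    setIntegral_eq_integral_of_forall_compl_eq_zero] at hfinal
  · exact hfinal
  · intro x hx
    rw [hψ0 x fun h => hx (hballK h), mul_zero]
  · intro x hx
    rw [hψd0 x fun h => hx (hballK h), mul_zero]

end Pool.Agent.SYH
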