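import Mathlib

/-!
# SYH/SgT (part II): sign systems on a cover, definitions and local trivialisations; Mayer-Vietoris

`SgSys.self`: `coc i i i`: `s = s * s`, so `s i i m = 1`; `SgSys.comm`: `1 = s i i = s i j * s j i`, so `s i j m = s j i m`.
`Triv.mono`, `triv_empty`: trivial.
`triv_loc`: `V = U k`, `ε i = s i k`: `s i j = s i k * s k j = s i k * s j k`.
`Triv.union`: `V, ε` near `R`, `V', ε'` near `R'`.  For `m ∈ V ∩ V'` and `m ∈ U i`, `m ∈ U j`:
`ε i m * ε' i m = ε j m * ε' j m` (both `ε i ε j` and `ε' i ε' j` are `s i j`; signs are their own inverses), so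
`ρ m := ε i m * ε' i m` for any (chosen) `i` with `m ∈ U i` is well defined, and locally constant on `V ∩ V'`.  As `R ∩ R'` is
preconnected, `ρ = c` on `R ∩ R'` (`c = 1` if empty), hence on the open set `O = {m ∈ V ∩ V' | ∀ᶠ m' in 𝓝 m, ρ m' = c}`,
which contains `R ∩ R'`.  `R \ O`, `R' \ O` are disjoint and compact: disjoint open neighbourhoods `B`, `B'`
(`SeparatedNhds`, `IsCompact..`).  `W = (V ∩ (B ∪ O)) ∪ (V' ∩ (B' ∪ O))`, and `η i m = ε i m` if `m ∈ V ∩ (B ∪ O)`, `= c * ε' i m`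
otherwise; on the intersection of the two open sets (contained in `O`) the two definitions agree for `m ∈ U i`.
-/

open Set Filter Topology

namespace Pool.Agent.SYH

variable {M : Type*} [TopologicalSpace M] {ι : Type*}

/-- a locally constant system of signs on the open cover `U` satisfying the cocycle condition -/
structure SgSys (U : ι → Set M) (s : ι → ι → M → ℤˣ) : Prop where
  op : ∀ i, IsOpen (U i)
  cov : ∀ m, ∃ i, m ∈ U i
  loc : ∀ i j m, m ∈ U i → m ∈ U j → ∀ᶠ m' in 𝓝 m, s i j m' = s i j m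
  coc : ∀ i j k m, m ∈ U i → m ∈ U j → m ∈ U k → s i k m = s i j m * s j k m

/-- `ε` trivialises the system on `V` -/
structure TrivOn (U : ι → Set M) (s : ι → ι → M → ℤˣ) (V : Set M) (ε : ι → M → ℤˣ) : Prop where
  loc : ∀ i, ∀ m ∈ V ∩ U i, ∀ᶠ m' in 𝓝 m, ε i m' = ε i m
  eq : ∀ i j, ∀ m ∈ V ∩ (U i ∩ U j), s i j m = ε i m * ε j m

/-- the system is trivial near `R` -/
def Triv (U : ι → Set M) (s : ι → ι → M → ℤˣ) (R : Set M) : Prop :=
  ∃ V, IsOpen V ∧ R ⊆ V ∧ ∃ ε, TrivOn U s V ε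

variable {U : ι → Set M} {s : ι → ι → M → ℤˣ} {R R' : Set M}

theorem SgSys.self (h : SgSys U s) {i : ι} {m : M} (hm : m ∈ U i) : s i i m = 1 := by
  have h1 := h.coc i i i m hm hm hm
  have h2 : s i i m * 1 = s i i m * s i i m := by rw [mul_one]; exact h1
  exact (mul_left_cancel h2).symm

theorem SgSys.comm (h : SgSys U s) {i j : ι} {m : M} (hm : m ∈ U i) (hm' : m ∈ U j) :
    s i j m = s j i m := by
  have h1 := h.coc i j i m hm hm' hm
  rw [h.self hm] at h1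
  have h2 : s i j m = (s j i m)⁻¹ := eq_inv_of_mul_eq_one_left h1.symm
  rw [h2, Int.units_inv_eq_self]

theorem Triv.mono (h : Triv U s R) (hs : R' ⊆ R) : Triv U s R' := by
  obtain ⟨V, hV, hR, e⟩ := h
  exact ⟨V, hV, hs.trans hR, e⟩

theorem triv_empty : Triv U s (∅ : Set M) := by
  refine ⟨∅, isOpen_empty, Subset.rfl, fun _ _ => 1, ?_, ?_⟩
  · intro i m hm
    exact absurd hm.1 (Set.notMem_empty m)
  · intro i j m hm
    exact absurd hm.1 (Set.notMem_empty m)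

theorem triv_loc (h : SgSys U s) {k : ι} (hR : R ⊆ U k) : Triv U s R := by
  refine ⟨U k, h.op k, hR, fun i m => s i k m, ?_, ?_⟩
  · intro i m hm
    exact h.loc i k m hm.2 hm.1
  · intro i j m hm
    rw [h.coc i k j m hm.2.1 hm.1 hm.2.2, h.comm hm.1 hm.2.2]

theorem Triv.union [T2Space M] (hs : SgSys U s) (hR : IsCompact R) (hR' : IsCompact R')
    (hc : IsPreconnected (R ∩ R')) (h : Triv U s R) (h' : Triv U s R') : Triv U s (R ∪ R') := by
  obtain ⟨V, hV, hRV, ε, hε⟩ := h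
  obtain ⟨V', hV', hRV', ε', hε'⟩ := h'
  have sq : ∀ a : ℤˣ, a * a = 1 := Int.units_mul_self
  have key : ∀ m ∈ V ∩ V', ∀ i j, m ∈ U i → m ∈ U j →
      ε i m * ε' i m = ε j m * ε' j m := by
    intro m hm i j hi hj
    have h1 := hε.eq i j m ⟨hm.1, hi, hj⟩
    have h2 := hε'.eq i j m ⟨hm.2, hi, hj⟩
    have h3 : ε i m * ε j m = ε' i m * ε' j m := h1.symm.trans h2
    calc ε i m * ε' i m = (ε i m * ε j m) * (ε j m * ε' i m) := by
          rw [mul_assoc, ← mul_assoc (ε j m), sq, one_mul]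
      _ = (ε' i m * ε' j m) * (ε j m * ε' i m) := by rw [h3]
      _ = (ε' i m * ε' i m) * (ε j m * ε' j m) := by
          simp only [mul_comm, mul_left_comm]
      _ = ε j m * ε' j m := by rw [sq, one_mul]
  choose I hI using hs.cov
  set ρ : M → ℤˣ := fun m => ε (I m) m * ε' (I m) m with hρ
  have hρi : ∀ m ∈ V ∩ V', ∀ i, m ∈ U i → ρ m = ε i m * ε' i m := fun m hm i hi =>
    key m hm (I m) i (hI m) hi
  have hloc : ∀ m ∈ V ∩ V', ∀ᶠ m' in 𝓝 m, ρ m' = ρ m := by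
    intro m hm
    have e1 : ∀ᶠ m' in 𝓝 m, m' ∈ V ∩ V' := (hV.inter hV').mem_nhds hm
    have e2 : ∀ᶠ m' in 𝓝 m, m' ∈ U (I m) := (hs.op (I m)).mem_nhds (hI m)
    filter_upwards [e1, e2, hε.loc (I m) m ⟨hm.1, hI m⟩, hε'.loc (I m) m ⟨hm.2, hI m⟩]
      with m' h1 h2 h3 h4
    rw [hρi m' h1 (I m) h2, h3, h4]
  obtain ⟨c, hcc⟩ : ∃ c : ℤˣ, ∀ m ∈ R ∩ R', ρ m = c := by
    by_cases hne : (R ∩ R').Nonempty
    · obtain ⟨m₀, hm₀⟩ := hne
      refine ⟨ρ m₀, fun m hm => ?_⟩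
      have hcont : ContinuousOn (fun m => ((ρ m : ℤˣ) : ℤ)) (R ∩ R') := by
        intro x hx
        apply ContinuousAt.continuousWithinAt
        have e1 := hloc x ⟨hRV hx.1, hRV' hx.2⟩
        have e2 : (fun m => ((ρ m : ℤˣ) : ℤ)) =ᶠ[𝓝 x] fun _ => ((ρ x : ℤˣ) : ℤ) := by
          filter_upwards [e1] with m' h1
          rw [h1]
        exact (continuousAt_congr e2).2 continuousAt_const
      exact Units.ext (hc.constant hcont hm hm₀)
    · exact ⟨1, fun m hm => absurd ⟨m, hm⟩ hne⟩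
  set O : Set M := (V ∩ V') ∩ {m | ∀ᶠ m' in 𝓝 m, ρ m' = c} with hO
  have hOo : IsOpen O := (hV.inter hV').inter isOpen_setOfPred_eventually_nhds
  have hRO : R ∩ R' ⊆ O := by
    intro m hm
    have hm' : m ∈ V ∩ V' := ⟨hRV hm.1, hRV' hm.2⟩
    refine ⟨hm', ?_⟩
    show ∀ᶠ m' in 𝓝 m, ρ m' = c
    filter_upwards [hloc m hm'] with m' h1
    rw [h1, hcc m hm]
  have hdis : Disjoint (R \ O) (R' \ O) := by
    rw [Set.disjoint_left]
    intro m h1 h2
    exact h1.2 (hRO ⟨h1.1, h2.1⟩)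
  obtain ⟨B, B', hB, hB', hRB, hRB', hBB⟩ :=
    SeparatedNhds.of_isCompact_isCompact (hR.diff hOo) (hR'.diff hOo) hdis
  set P : Set M := V ∩ (B ∪ O) with hP
  set P' : Set M := V' ∩ (B' ∪ O) with hP'
  have hPo : IsOpen P := hV.inter (hB.union hOo)
  have hPo' : IsOpen P' := hV'.inter (hB'.union hOo)
  have hPP : ∀ m, m ∈ P → m ∈ P' → m ∈ O := by
    intro m h1 h2
    rcases h1.2 with h3 | h3
    · rcases h2.2 with h4 | h4
      · exact absurd h4 (Set.disjoint_left.1 hBB h3)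
      · exact h4
    · exact h3
  have hOc : ∀ m ∈ O, ∀ i, m ∈ U i → ε i m = c * ε' i m := by
    intro m hm i hi
    have h1 : ρ m = c := (show ∀ᶠ m' in 𝓝 m, ρ m' = c from hm.2).self_of_nhds
    rw [hρi m hm.1 i hi] at h1
    rw [← h1, mul_assoc, sq, mul_one]
  classical
  refine ⟨P ∪ P', hPo.union hPo', ?_, fun i m => if m ∈ P then ε i m else c * ε' i m, ?_, ?_⟩
  · rintro m (hm | hm)
    · left
      refine ⟨hRV hm, ?_⟩
      by_cases h1 : m ∈ O
      · exact Or.inr h1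
      · exact Or.inl (hRB ⟨hm, h1⟩)
    · right
      refine ⟨hRV' hm, ?_⟩
      by_cases h1 : m ∈ O
      · exact Or.inr h1
      · exact Or.inl (hRB' ⟨hm, h1⟩)
  · rintro i m ⟨hm, hi⟩
    by_cases h1 : m ∈ P
    · have e1 : ∀ᶠ m' in 𝓝 m, m' ∈ P := hPo.mem_nhds h1
      filter_upwards [e1, hε.loc i m ⟨h1.1, hi⟩] with m' h2 h3
      rw [if_pos h2, if_pos h1, h3]
    · have h2 : m ∈ P' := hm.resolve_left h1
      have e1 : ∀ᶠ m' in 𝓝 m, m' ∈ P' := hPo'.mem_nhds h2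
      have e2 : ∀ᶠ m' in 𝓝 m, m' ∈ U i := (hs.op i).mem_nhds hi
      filter_upwards [e1, e2, hε'.loc i m ⟨h2.1, hi⟩] with m' h3 h4 h5
      rw [if_neg h1]
      by_cases h6 : m' ∈ P
      · rw [if_pos h6, hOc m' (hPP m' h6 h3) i h4, h5]
      · rw [if_neg h6, h5]
  · rintro i j m ⟨hm, hi, hj⟩
    by_cases h1 : m ∈ P
    · simp only [if_pos h1]
      exact hε.eq i j m ⟨h1.1, hi, hj⟩
    · have h2 : m ∈ P' := hm.resolve_left h1
      simp only [if_neg h1]
      rw [hε'.eq i j m ⟨h2.1, hi, hj⟩, mul_mul_mul_comm, sq, one_mul]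

end Pool.Agent.SYH
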