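import Pool.Agent.SYH.MolL
import Pool.Agent.SYH.DivB
import Pool.Agent.SYH.WGu

/-!
# SYH/DvS: Sobolev test functions in `DivEq`

`ψ` continuous with compact support `K = tsupport ψ ⊆ Ω`, weak gradient `h ∈ L²_loc (Ω)`.
Put `H_a = K.indicator (h a)`.  Then `WG univ ψ H`: locality (`WG.loc`): on `Ω`, `h = H` a.e. because on the open set
`Ω \ K` the function `ψ` vanishes so `h = 0` a.e. there (`WG.unique`); on `Kᶜ` both are zero.
`ψ_δ = mol δ ψ` is smooth with support in `cthickening δ K`, a compact subset `L` of `Ω` for `δ ≤ r`; and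
`∂_a ψ_δ = mol δ H_a` (`mol_div` with `S = univ`).  `DivEq` for `ψ_δ`: `∫ (Σ_a w_a mol δ H_a + c mol δ ψ) = 0`; let
`δ → 0`: `w_a, c ∈ L² (L)`, `mol δ H_a → H_a`, `mol δ ψ → ψ` in `L²` (`mol_lim`).
-/

open MeasureTheory Set Filter Topology
open scoped ContDiff Matrix ENNReal

namespace Pool.Agent.SYH

theorem DvS_off {K : Set R4} {F : R4 → ℝ} (hF : ∀ x ∉ K, F x = 0) {δ r : ℝ} (hδ : δ ≤ r)
    {x : R4} (hx : x ∉ Metric.cthickening r K) : mol δ F x = 0 := by
  have h0 : ∀ t, ker δ t * F (x - t) = 0 := by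
    intro t
    by_cases ht : δ ≤ ‖t‖
    · rw [ker_supp ht, zero_mul]
    · rw [hF (x - t), mul_zero]
      intro hm
      apply hx
      refine Metric.mem_cthickening_of_dist_le x (x - t) r K hm ?_
      rw [dist_eq_norm, sub_sub_cancel]
      exact (not_le.1 ht).le.trans hδ
  rw [mol]
  simp [h0]

theorem DvS_mem {δ : ℝ} (h : 0 < δ) {F : R4 → ℝ} (hF : MemLp F 2) : MemLp (mol δ F) 2 :=
  ⟨(mol_smooth δ (hF.locallyIntegrable (by norm_num))).continuous.aestronglyMeasurable,
    (mol_norm_le (by norm_num) (by norm_num) h hF).trans_lt hF.2⟩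

theorem DvS_int {L : Set R4} {u F : R4 → ℝ} (hu : MemLp u 2 (volume.restrict L))
    (hF : MemLp F 2) : Integrable (fun x => u x * F x) (volume.restrict L) :=
  hu.integrable_mul (hF.restrict L)

theorem DvS_lim {L : Set R4} {u F : R4 → ℝ} (hu : MemLp u 2 (volume.restrict L))
    (hF : MemLp F 2) :
    Tendsto (fun δ => ∫ x in L, u x * mol δ F x) (𝓝[>] 0) (𝓝 (∫ x in L, u x * F x)) := by
  rw [tendsto_iff_edist_tendsto_0]
  have h1 : Tendsto (fun δ => eLpNorm u 2 (volume.restrict L) *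
      eLpNorm (fun x => mol δ F x - F x) 2 volume) (𝓝[>] 0) (𝓝 0) := by
    have h := ENNReal.Tendsto.const_mul (mol_lim (by norm_num) (by norm_num) hF)
      (Or.inr hu.2.ne)
    rwa [mul_zero] at h
  refine tendsto_of_tendsto_of_tendsto_of_le_of_le' tendsto_const_nhds h1
    (Eventually.of_forall fun _ => bot_le) ?_
  filter_upwards [self_mem_nhdsWithin] with δ hδ
  have hδ' : 0 < δ := hδ
  rw [edist_eq_enorm_sub, ← integral_sub (DvS_int hu (DvS_mem hδ' hF)) (DvS_int hu hF)]
  refine (enorm_integral_le_lintegral_enorm _).trans ?_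
  have e : (fun x => u x * mol δ F x - u x * F x) = u • (fun x => mol δ F x - F x) := by
    funext x
    simp only [Pi.smul_apply', smul_eq_mul]
    ring
  have h2 : ∫⁻ x in L, ‖u x * mol δ F x - u x * F x‖ₑ
      = eLpNorm (u • (fun x => mol δ F x - F x)) 1 (volume.restrict L) := by
    rw [← e, eLpNorm_one_eq_lintegral_enorm]
  rw [h2]
  have h3 : AEStronglyMeasurable (fun x => mol δ F x - F x) (volume.restrict L) :=
    ((DvS_mem hδ' hF).1.sub hF.1).restrict
  refine (eLpNorm_smul_le_mul_eLpNorm (p := 2) (q := 2) h3 hu.1).trans ?_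
  gcongr
  exact Measure.restrict_le_self

theorem div_sob {Ω : Set R4} (hΩ : IsOpen Ω) {w : R4 → R4} {c : R4 → ℝ}
    (hw : ∀ a, LpL 2 Ω (fun x => w x a)) (hc : LpL 2 Ω c) (hd : DivEq Ω w c) {ψ : R4 → ℝ}
    {h : R4 → R4} (hψ : Continuous ψ) (hK : HasCompactSupport ψ) (hs : tsupport ψ ⊆ Ω)
    (hh : ∀ a, LpL 2 Ω (fun x => h x a)) (hg : WG Ω ψ h) :
    ∫ x in tsupport ψ, ((∑ a, w x a * h x a) + c x * ψ x) = 0 := by
  have hψ0 : ∀ x ∉ tsupport ψ, ψ x = 0 := fun x hx => image_eq_zero_of_notMem_tsupport hx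
  have hKc : IsCompact (tsupport ψ) := hK
  have hKcl : IsClosed (tsupport ψ) := isClosed_tsupport ψ
  obtain ⟨K, hKd⟩ : ∃ K, K = tsupport ψ := ⟨_, rfl⟩
  rw [← hKd] at hψ0 hKc hKcl hs ⊢
  have hKm : MeasurableSet K := hKcl.measurableSet
  obtain ⟨H, hH⟩ : ∃ H : R4 → R4, ∀ x a, H x a = K.indicator (fun y => h y a) x :=
    ⟨fun x a => K.indicator (fun y => h y a) x, fun _ _ => rfl⟩
  have hHf : ∀ a, (fun x => H x a) = K.indicator (fun y => h y a) := fun a => funext fun x => hH x a
  have hHK : ∀ x ∈ K, H x = h x := by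
    intro x hx
    funext a
    rw [hH, indicator_of_mem hx]
  have hHn : ∀ x ∉ K, H x = 0 := by
    intro x hx
    funext a
    rw [hH, indicator_of_notMem hx]
    rfl
  have hHm : ∀ a, MemLp (fun x => H x a) 2 := by
    intro a
    rw [hHf, memLp_indicator_iff_restrict hKm]
    exact hh a K hs hKc
  have hH2 : ∀ a, LpL 2 univ (fun x => H x a) := fun a K' _ _ => (hHm a).restrict K'
  have hH1 : ∀ a, LpL 1 univ (fun x => H x a) := fun a => (hH2 a).exp (by norm_num)
  have hHi : ∀ a, Integrable (fun x => H x a) := by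
    intro a
    rw [hHf, integrable_indicator_iff hKm]
    exact memLp_one_iff_integrable.1 ((hh a).exp (by norm_num) K hs hKc)
  -- the weak gradient on the whole space
  have hae : ∀ᵐ x, x ∈ Ω → H x = h x := by
    have hO : IsOpen (Ω \ K) := hΩ.sdiff hKcl
    have h1 : WG (Ω \ K) ψ (fun _ => 0) :=
      WG.congr (WG.const 0) (fun x hx => hψ0 x hx.2) (Eventually.of_forall fun _ _ => rfl)
    have h2 := WG.unique hO (fun a => ((hh a).exp (by norm_num)).mono sdiff_subset)
      (fun a => LpL.zero) (WG.mono hg sdiff_subset) h1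
    filter_upwards [h2] with x hx hxΩ
    by_cases hxK : x ∈ K
    · exact hHK x hxK
    · rw [hHn x hxK]
      exact hx ⟨hxΩ, hxK⟩
  have hW : WG univ ψ H := by
    refine WG.loc isOpen_univ hψ.continuousOn hH1 ?_
    intro x _
    by_cases hx : x ∈ K
    · refine ⟨Ω, hΩ, hs hx, ?_⟩
      rw [inter_univ]
      exact WG.congr hg (fun _ _ => rfl) hae
    · refine ⟨Kᶜ, hKcl.isOpen_compl, hx, ?_⟩
      rw [inter_univ]
      exact WG.congr (WG.const 0) (fun x hx => hψ0 x hx)
        (Eventually.of_forall fun x hx => hHn x hx)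
  have hψi : Integrable ψ := hψ.integrable_of_hasCompactSupport hK
  have hψm : MemLp ψ 2 := by
    refine ⟨hψ.aestronglyMeasurable, ?_⟩
    exact (hψ.memLp_of_hasCompactSupport hK).2
  have hpd : ∀ δ, 0 < δ → ∀ x a, pd a (mol δ ψ) x = mol δ (fun y => H y a) x := by
    intro δ hδ x a
    have hD := (WG.iff_div isOpen_univ hψ.continuousOn hH1).1 hW a
    have e0 : ∀ b, b ≠ a → (fun y => (ψ y • (Pi.single a 1 : R4)) b) = fun _ => (0 : ℝ) := by
      intro b hb
      funext y
      simp [hb]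
    have e1 : (fun y => (ψ y • (Pi.single a 1 : R4)) a) = ψ := by
      funext y
      simp
    have h1 := mol_div (S := univ) (Ω := univ) (x := x) hδ MeasurableSet.univ
      (w := fun y => ψ y • (Pi.single a 1 : R4)) ?_ (hHi a).integrableOn (subset_univ _)
      (subset_univ _) hD
    · simp only [indicator_univ] at h1
      rw [Finset.sum_eq_single a] at h1
      · rw [e1] at h1
        exact h1
      · intro b _ hb
        rw [e0 b hb]
        have e2 : mol δ (fun _ : R4 => (0 : ℝ)) = fun _ => 0 := by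
          funext z
          simp [mol]
        rw [e2]
        simp [pd]
      · intro hb
        exact absurd (Finset.mem_univ a) hb
    · intro b
      by_cases hb : b = a
      · subst hb
        rw [e1]
        exact hψi.integrableOn
      · rw [e0 b hb]
        exact integrableOn_zero
  -- the compact neighbourhood
  obtain ⟨r, hr, hrΩ⟩ := hKc.exists_cthickening_subset_open hΩ hs
  obtain ⟨L, hLd⟩ : ∃ L, L = Metric.cthickening r K := ⟨_, rfl⟩
  have hLc : IsCompact L := by
    rw [hLd]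
    exact hKc.cthickening
  have hLΩ : L ⊆ Ω := by
    rw [hLd]
    exact hrΩ
  have hKL : K ⊆ L := by
    rw [hLd]
    exact Metric.self_subset_cthickening K
  have hoff : ∀ δ ≤ r, ∀ x ∉ L, mol δ ψ x = 0 := by
    intro δ hδ x hx
    rw [hLd] at hx
    exact DvS_off hψ0 hδ hx
  have hoffH : ∀ δ ≤ r, ∀ x ∉ L, ∀ a, mol δ (fun y => H y a) x = 0 := by
    intro δ hδ x hx a
    rw [hLd] at hx
    exact DvS_off (fun y hy => congrFun (hHn y hy) a) hδ hx
  have hT : ∀ δ, 0 < δ → δ ≤ r → Test Ω (mol δ ψ) := by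
    intro δ hδ hδr
    refine ⟨mol_smooth δ hψ.locallyIntegrable, HasCompactSupport.intro hLc (hoff δ hδr), ?_⟩
    refine (closure_minimal ?_ hLc.isClosed).trans hLΩ
    intro x hx
    by_contra hxL
    exact hx (hoff δ hδr x hxL)
  have hwL : ∀ a, MemLp (fun x => w x a) 2 (volume.restrict L) := fun a => hw a L hLΩ hLc
  have hcL : MemLp c 2 (volume.restrict L) := hc L hLΩ hLc
  have hzero : ∀ δ, 0 < δ → δ ≤ r →
      (∑ a, ∫ x in L, w x a * mol δ (fun y => H y a) x) + ∫ x in L, c x * mol δ ψ x = 0 := by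
    intro δ hδ hδr
    have h1 := hd (mol δ ψ) (hT δ hδ hδr)
    have h2 : ∫ x, ((∑ a, w x a * pd a (mol δ ψ) x) + c x * mol δ ψ x)
        = ∫ x in L, ((∑ a, w x a * mol δ (fun y => H y a) x) + c x * mol δ ψ x) := by
      rw [← setIntegral_eq_integral_of_forall_compl_eq_zero (s := L)]
      · refine integral_congr_ae (Eventually.of_forall fun x => ?_)
        simp only [hpd δ hδ]
      · intro x hx
        rw [hoff δ hδr x hx, mul_zero, add_zero]
        refine Finset.sum_eq_zero fun a _ => ?_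
        rw [hpd δ hδ, hoffH δ hδr x hx, mul_zero]
    rw [h2, integral_add, integral_finsetSum] at h1
    · exact h1
    · exact fun a _ => DvS_int (hwL a) (DvS_mem hδ (hHm a))
    · exact integrable_finsetSum _ fun a _ => DvS_int (hwL a) (DvS_mem hδ (hHm a))
    · exact DvS_int hcL (DvS_mem hδ hψm)
  have hlim : Tendsto (fun δ => (∑ a, ∫ x in L, w x a * mol δ (fun y => H y a) x)
      + ∫ x in L, c x * mol δ ψ x) (𝓝[>] 0)
      (𝓝 ((∑ a, ∫ x in L, w x a * H x a) + ∫ x in L, c x * ψ x)) := by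
    refine Tendsto.add (tendsto_finsetSum _ fun a _ => ?_) (DvS_lim hcL hψm)
    exact DvS_lim (hwL a) (hHm a)
  have hev : (fun _ : ℝ => (0 : ℝ)) =ᶠ[𝓝[>] 0]
      (fun δ => (∑ a, ∫ x in L, w x a * mol δ (fun y => H y a) x)
      + ∫ x in L, c x * mol δ ψ x) := by
    filter_upwards [Ioc_mem_nhdsGT hr] with δ hδ
    exact (hzero δ hδ.1 hδ.2).symm
  have hfin : (∑ a, ∫ x in L, w x a * H x a) + ∫ x in L, c x * ψ x = 0 :=
    tendsto_nhds_unique_of_eventuallyEq hlim tendsto_const_nhds hev.symm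
  rw [← integral_finsetSum, ← integral_add] at hfin
  · rw [setIntegral_eq_integral_of_forall_compl_eq_zero] at hfin
    · rw [← setIntegral_eq_integral_of_forall_compl_eq_zero (s := K)] at hfin
      · rw [← hfin]
        refine setIntegral_congr_fun hKm fun x hx => ?_
        simp only [hHK x hx]
      · intro x hx
        simp [hHn x hx, hψ0 x hx]
    · intro x hx
      have hxK : x ∉ K := fun hxK => hx (hKL hxK)
      simp [hHn x hxK, hψ0 x hxK]
  · exact integrable_finsetSum _ fun a _ => DvS_int (hwL a) (hHm a)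
  · exact DvS_int hcL hψm
  · exact fun a _ => DvS_int (hwL a) (hHm a)

end Pool.Agent.SYH
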