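import Pool.Agent.SYH.AtB
import Pool.Agent.SYH.Prd
import Pool.Agent.SYH.DivB

/-!
# SYH/A0s: calculus of `A0` and `A1`

Everything chart by chart (`A.D_open`, `A.D_mono`, `LpL.*`, `WG.*`).
`A0.mul`: `WG.mul` in each chart (`f ∘ (x i).symm` is continuous on `D i V`).
`A0.a1`: compatibility: on `D i (V ∩ (x j).source)`, `f ∘ (x i).symm = (f ∘ (x j).symm) ∘ tr i j`; `chW` for `e = tr i j`,
`Ω' = D j (V ∩ (x i).source)` (`D_tr`) gives the weak gradient `(G i j)ᵀ α_j (tr i j)`, and `WG.unique` gives `= α_i`.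
`A0.loc`, `A1.loc`: `LpL.loc`, `WG.loc`, `ae_loc` (the sets `D i O` are neighbourhoods).
-/

open MeasureTheory Set Filter Topology
open scoped ContDiff Matrix ENNReal

namespace Pool.Agent.SYH

namespace Atl

variable {p : ℝ≥0∞} {M : Type*} [TopologicalSpace M] {ι : Type*} {A : Atl p M ι}
  {V W : Set M} {f g : M → ℝ} {α β : ι → R4 → R4}

theorem A0.mono (h : A.A0 V f α) (hs : W ⊆ V) : A.A0 W f α where
  cont := h.cont.mono hs
  lp := fun i a => (h.lp i a).mono (A.D_mono i hs)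
  wg := fun i => (h.wg i).mono (A.D_mono i hs)

/-- `f` is continuous in the charts -/
theorem A0s_cont (hf : ContinuousOn f V) (i : ι) :
    ContinuousOn (fun y => f ((A.x i).symm y)) (A.D i V) :=
  hf.comp ((A.x i).continuousOn_symm.mono inter_subset_left) fun _ hy => hy.2

theorem A0s_one (h : ∀ i a, LpL p (A.D i V) (fun y => α i y a)) (i : ι) (a : Fin 4) :
    LpL 1 (A.D i V) (fun y => α i y a) :=
  (h i a).exp A.one_le

/-- the pull back of a form of class `L^2_loc` under a transition map is of class `L^1_loc` -/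
theorem A0s_pull (h : ∀ i a, LpL p (A.D i V) (fun y => α i y a)) (i j : ι) (a : Fin 4) :
    LpL 1 (A.D i (V ∩ (A.x j).source)) (fun y => ((A.G i j y)ᵀ *ᵥ α j (A.tr i j y)) a) := by
  have e1 : (fun y => ((A.G i j y)ᵀ *ᵥ α j (A.tr i j y)) a) =
      fun y => ∑ b, A.G i j y b a * α j (A.tr i j y) b := by
    funext y
    rfl
  rw [e1]
  refine LpL.sum _ fun b _ => LpL.mul ?_ ?_
  · exact ((A.isWD_two i j).lp b a).mono (A.D_mono i inter_subset_right)
  · rw [A.D_tr]
    have h1 : LpL 2 (A.D j (V ∩ (A.x i).source)) (fun y => α j y b) :=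
      ((h j b).mono (A.D_mono j inter_subset_left)).exp A.two_le
    have h2 : A.D j (V ∩ (A.x i).source) ⊆ (A.tr i j).target := by
      rw [A.tr_target]
      exact A.D_mono j inter_subset_right
    exact h1.comp (A.mpre i j) h2

theorem A0.const (A : Atl p M ι) (V : Set M) (t : ℝ) : A.A0 V (fun _ => t) (fun _ _ => 0) where
  cont := continuousOn_const
  lp := fun _ _ => LpL.zero
  wg := fun _ => WG.const t

theorem A0.add (hV : IsOpen V) (h : A.A0 V f α) (h' : A.A0 V g β) :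
    A.A0 V (fun m => f m + g m) (fun i y => α i y + β i y) where
  cont := h.cont.add h'.cont
  lp := fun i a => (h.lp i a).add (h'.lp i a)
  wg := fun i => WG.add (A.D_open i hV) (A0s_cont h.cont i) (A0s_one h.lp i) (A0s_cont h'.cont i)
    (A0s_one h'.lp i) (h.wg i) (h'.wg i)

theorem A0.smul (h : A.A0 V f α) (t : ℝ) : A.A0 V (fun m => t * f m) (fun i y => t • α i y) where
  cont := continuousOn_const.mul h.cont
  lp := fun i a => (h.lp i a).const_mul t
  wg := fun i => (h.wg i).smul t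

theorem A0.mul (hV : IsOpen V) (h : A.A0 V f α) (h' : A.A0 V g β) :
    A.A0 V (fun m => f m * g m)
      (fun i y => f ((A.x i).symm y) • β i y + g ((A.x i).symm y) • α i y) where
  cont := h.cont.mul h'.cont
  lp := fun i a => ((h'.lp i a).cont_mul (A.D_open i hV) (A0s_cont h.cont i)).add
    ((h.lp i a).cont_mul (A.D_open i hV) (A0s_cont h'.cont i))
  wg := fun i => WG.mul (A.D_open i hV) (A0s_cont h.cont i) (A0s_cont h'.cont i) (A0s_one h.lp i)
    (A0s_one h'.lp i) (h.wg i) (h'.wg i)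

theorem A0.congr (h : A.A0 V f α) (hf : ∀ m ∈ V, g m = f m)
    (hα : ∀ i, ∀ᵐ y, y ∈ A.D i V → β i y = α i y) : A.A0 V g β where
  cont := h.cont.congr hf
  lp := fun i a => (h.lp i a).congr (by
    filter_upwards [hα i] with y hy hy'
    rw [hy hy'])
  wg := fun i => (h.wg i).congr (fun _ hy => hf _ hy.2) (hα i)

theorem A0.loc (hV : IsOpen V) (h : ∀ m ∈ V, ∃ O, IsOpen O ∧ m ∈ O ∧ A.A0 (O ∩ V) f α) :
    A.A0 V f α := by
  have hc : ContinuousOn f V := by
    intro m hm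
    obtain ⟨O, h1, h2, h3⟩ := h m hm
    exact (h3.cont m ⟨h2, hm⟩).mono_of_mem_nhdsWithin
      (inter_mem (mem_nhdsWithin_of_mem_nhds (h1.mem_nhds h2)) self_mem_nhdsWithin)
  have hl : ∀ i a, LpL p (A.D i V) (fun y => α i y a) := by
    intro i a
    refine LpL.loc fun y hy => ?_
    obtain ⟨O, h1, h2, h3⟩ := h _ hy.2
    refine ⟨A.D i O, A.D_open i h1, ⟨hy.1, h2⟩, ?_⟩
    rw [← A.D_inter]
    exact h3.lp i a
  refine ⟨hc, hl, fun i => ?_⟩
  refine WG.loc (A.D_open i hV) (A0s_cont hc i) (A0s_one hl i) fun y hy => ?_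
  obtain ⟨O, h1, h2, h3⟩ := h _ hy.2
  refine ⟨A.D i O, A.D_open i h1, ⟨hy.1, h2⟩, ?_⟩
  rw [← A.D_inter]
  exact h3.wg i

/-- the differential of a function is a one-form -/
theorem A0.a1 (hV : IsOpen V) (h : A.A0 V f α) : A.A1 V α := by
  refine ⟨h.lp, fun i j => ?_⟩
  have hs : A.D j (V ∩ (A.x i).source) ⊆ (A.tr i j).target := by
    rw [A.tr_target]
    exact A.D_mono j inter_subset_right
  have hwd : IsWD 2 (A.tr i j).source (A.tr i j) (A.G i j) := by
    rw [A.tr_source]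
    exact A.isWD_two i j
  have hOj : IsOpen (V ∩ (A.x i).source) := hV.inter (A.x i).open_source
  have hOi : IsOpen (V ∩ (A.x j).source) := hV.inter (A.x j).open_source
  have h1 := chW (A.mpre i j) hwd (A.D_open j hOj) hs
    (A0s_cont (h.cont.mono inter_subset_left) j)
    (fun a => ((h.lp j a).mono (A.D_mono j inter_subset_left)).exp A.two_le)
    ((h.wg j).mono (A.D_mono j inter_subset_left))
  rw [← A.D_tr] at h1
  have h2 : WG (A.D i (V ∩ (A.x j).source)) (fun y => f ((A.x i).symm y))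
      (fun y => (A.G i j y)ᵀ *ᵥ α j (A.tr i j y)) := by
    refine h1.congr (fun y hy => ?_) (Eventually.of_forall fun y _ => rfl)
    have h3 : y ∈ A.D i (A.x j).source := A.D_mono i inter_subset_right hy
    show f ((A.x i).symm y) = f ((A.x j).symm (A.tr i j y))
    rw [A.symm_tr h3]
  exact WG.unique (A.D_open i hOi) (A0s_pull h.lp i j)
    (fun a => (A0s_one h.lp i a).mono (A.D_mono i inter_subset_left)) h2
    ((h.wg i).mono (A.D_mono i inter_subset_left))

/-- where `f` is constant, the differential vanishes -/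
theorem A0.zero_of_const (hV : IsOpen V) (h : A.A0 V f α) {t : ℝ} (hW : IsOpen W) (hs : W ⊆ V)
    (hf : ∀ m ∈ W, f m = t) (i : ι) : ∀ᵐ y, y ∈ A.D i W → α i y = 0 := by
  have h1 : WG (A.D i W) (fun y => f ((A.x i).symm y)) (fun _ => 0) :=
    (WG.const (Ω := A.D i W) t).congr (fun y hy => hf _ hy.2) (Eventually.of_forall fun _ _ => rfl)
  exact WG.unique (A.D_open i hW) (fun _ => LpL.zero)
    (fun a => (A0s_one h.lp i a).mono (A.D_mono i hs)) h1 ((h.wg i).mono (A.D_mono i hs))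

theorem A1.mono (h : A.A1 V α) (hs : W ⊆ V) : A.A1 W α := by
  refine ⟨fun i a => (h.lp i a).mono (A.D_mono i hs), fun i j => ?_⟩
  filter_upwards [h.cp i j] with y hy hy'
  exact hy (A.D_mono i (inter_subset_inter_left _ hs) hy')

theorem A1.sub (h : A.A1 V α) (h' : A.A1 V β) : A.A1 V (fun i y => α i y - β i y) := by
  refine ⟨fun i a => (h.lp i a).sub (h'.lp i a), fun i j => ?_⟩
  filter_upwards [h.cp i j, h'.cp i j] with y hy hy' hd
  rw [hy hd, hy' hd, Matrix.mulVec_sub]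

theorem A1.loc (hV : IsOpen V) (h : ∀ m ∈ V, ∃ O, IsOpen O ∧ m ∈ O ∧ A.A1 (O ∩ V) α) :
    A.A1 V α := by
  refine ⟨fun i a => ?_, fun i j => ?_⟩
  · refine LpL.loc fun y hy => ?_
    obtain ⟨O, h1, h2, h3⟩ := h _ hy.2
    refine ⟨A.D i O, A.D_open i h1, ⟨hy.1, h2⟩, ?_⟩
    rw [← A.D_inter]
    exact h3.lp i a
  · refine ae_loc (P := fun y => α i y = (A.G i j y)ᵀ *ᵥ α j (A.tr i j y)) fun y hy => ?_
    obtain ⟨O, h1, h2, h3⟩ := h _ hy.2.1
    refine ⟨A.D i (O ∩ (V ∩ (A.x j).source)),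
      A.D_open i (h1.inter (hV.inter (A.x j).open_source)), ⟨hy.1, h2, hy.2⟩, ?_⟩
    filter_upwards [h3.cp i j] with z hz hz'
    exact hz ⟨hz'.1, ⟨hz'.2.1, hz'.2.2.1⟩, hz'.2.2.2⟩

theorem A1.congr (h : A.A1 V α) (hα : ∀ i, ∀ᵐ y, y ∈ A.D i V → β i y = α i y) : A.A1 V β := by
  refine ⟨fun i a => (h.lp i a).congr (by
    filter_upwards [hα i] with y hy hy'
    rw [hy hy']), fun i j => ?_⟩
  have h1 : ∀ᵐ x, x ∈ (A.tr i j).target → (x ∈ A.D j V → β j x = α j x) := by
    filter_upwards [hα j] with x hx _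
    exact hx
  have h2 := ae_comp (A.mpre i j) h1
  filter_upwards [h.cp i j, hα i, h2] with y h3 h4 h5 hy
  have h6 : y ∈ (A.tr i j).source ∩ A.tr i j ⁻¹' (A.D j (V ∩ (A.x i).source)) := by
    rw [← A.D_tr]
    exact hy
  rw [h4 (A.D_mono i inter_subset_left hy), h3 hy, h5 h6.1 (A.D_mono j inter_subset_left h6.2)]

end Atl

end Pool.Agent.SYH
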