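import Pool.Agent.SYH.ChW
import Pool.Agent.SYH.WGu

/-!
# SYH/AtB: elementary facts on the atlas

`D_eq`: `(x i).symm` maps `D i V` bijectively onto `(x i).source ∩ V`.  `D_open`: `OpenPartialHomeomorph.isOpen_inter_preimage_symm`.
`tr_source : (tr i j).source = D i (x j).source`; `tr i j y = x j ((x i).symm y)`;
`D_tr`: `D i (V ∩ (x j).source) = (tr i j).source ∩ tr i j ⁻¹' (D j V)` (for `y ∈ D i (x j).source` and
`m = (x i).symm y`: `tr i j y = x j m`, `(x j).symm (tr i j y) = m`).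
`cocycle`: apply `chW` to `e = tr i j`, `Ω' = D j ((x i).source ∩ (x k).source)`, `f = (tr j k)_b`, `g = G j k · b`:
`(tr j k)_b ∘ tr i j = (tr i k)_b` on `D i ((x j).source ∩ (x k).source)`; compare with `G i k` (`WG.unique`).
-/

open MeasureTheory Set Filter Topology
open scoped ContDiff Matrix ENNReal

namespace Pool.Agent.SYH

theorem AtB_congr {Ω : Set R4} {u u' : R4 → ℝ} {g : R4 → R4} (h : WG Ω u g)
    (he : ∀ x ∈ Ω, u' x = u x) : WG Ω u' g := by
  intro ψ hψ a
  rw [← h ψ hψ a]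
  refine integral_congr_ae (Eventually.of_forall fun x => ?_)
  by_cases hx : x ∈ tsupport ψ
  · simp only [he x (hψ.supp hx)]
  · simp only [pd_eq_zero a hx, mul_zero]

theorem AtB_mono {Ω Ω' : Set R4} {u : R4 → ℝ} {g : R4 → R4} (h : WG Ω u g) (hs : Ω' ⊆ Ω) :
    WG Ω' u g :=
  fun ψ hψ a => h ψ (hψ.mono hs) a

namespace Atl

variable {p : ℝ≥0∞} {M : Type*} [TopologicalSpace M] {ι : Type*} (A : Atl p M ι)

theorem mem_D {i : ι} {V : Set M} {y : R4} :
    y ∈ A.D i V ↔ y ∈ (A.x i).target ∧ (A.x i).symm y ∈ V :=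
  Iff.rfl

theorem D_open (i : ι) {V : Set M} (hV : IsOpen V) : IsOpen (A.D i V) :=
  (A.x i).symm.isOpen_inter_preimage hV

theorem D_mono (i : ι) {V W : Set M} (h : V ⊆ W) : A.D i V ⊆ A.D i W :=
  fun _ hy => ⟨hy.1, h hy.2⟩

theorem D_inter (i : ι) (V W : Set M) : A.D i (V ∩ W) = A.D i V ∩ A.D i W := by
  ext y
  constructor
  · rintro ⟨h1, h2, h3⟩
    exact ⟨⟨h1, h2⟩, ⟨h1, h3⟩⟩
  · rintro ⟨⟨h1, h2⟩, ⟨-, h3⟩⟩
    exact ⟨h1, h2, h3⟩

theorem x_mem_D {i : ι} {V : Set M} {m : M} (h : m ∈ (A.x i).source) (h' : m ∈ V) :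
    A.x i m ∈ A.D i V := by
  refine ⟨(A.x i).map_source h, ?_⟩
  change (A.x i).symm (A.x i m) ∈ V
  rw [(A.x i).left_inv h]
  exact h'

theorem tr_source (i j : ι) : (A.tr i j).source = A.D i (A.x j).source := by
  rw [tr, OpenPartialHomeomorph.trans_source]
  rfl

theorem tr_target (i j : ι) : (A.tr i j).target = A.D j (A.x i).source := by
  rw [tr, OpenPartialHomeomorph.trans_target]
  rfl

theorem tr_apply (i j : ι) (y : R4) : A.tr i j y = A.x j ((A.x i).symm y) :=
  rfl

theorem symm_tr {i j : ι} {y : R4} (h : y ∈ A.D i (A.x j).source) :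
    (A.x j).symm (A.tr i j y) = (A.x i).symm y := by
  rw [tr_apply]
  exact (A.x j).left_inv h.2

theorem D_tr (i j : ι) (V : Set M) :
    A.D i (V ∩ (A.x j).source) = (A.tr i j).source ∩ A.tr i j ⁻¹' (A.D j (V ∩ (A.x i).source)) := by
  rw [tr_source]
  ext y
  constructor
  · rintro ⟨h1, h2, h3⟩
    have hy : y ∈ A.D i (A.x j).source := ⟨h1, h3⟩
    refine ⟨hy, ?_, ?_⟩
    · exact (A.x j).map_source h3
    · change (A.x j).symm (A.tr i j y) ∈ V ∩ (A.x i).source
      rw [A.symm_tr hy]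
      exact ⟨h2, (A.x i).map_target h1⟩
  · rintro ⟨hy, -, h2⟩
    have h3 : (A.x j).symm (A.tr i j y) ∈ V ∩ (A.x i).source := h2
    rw [A.symm_tr hy] at h3
    exact ⟨hy.1, h3.1, hy.2⟩

theorem tr_tr {i j k : ι} {y : R4} (h : y ∈ A.D i (A.x j).source) :
    A.tr j k (A.tr i j y) = A.tr i k y := by
  rw [A.tr_apply j k, A.symm_tr h]
  rfl

theorem two_le (A : Atl p M ι) : (2 : ℝ≥0∞) ≤ p := by
  refine le_trans ?_ A.hp.le
  norm_num

theorem one_le (A : Atl p M ι) : (1 : ℝ≥0∞) ≤ p :=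
  le_trans (by norm_num) A.two_le

theorem mpre (i j : ι) : MPre (A.tr i j) := A.mp i j

theorem isWD (i j : ι) : IsWD p (A.D i (A.x j).source) (A.tr i j) (A.G i j) := by
  rw [← tr_source]
  exact A.wd i j

theorem isWD_two (i j : ι) : IsWD 2 (A.D i (A.x j).source) (A.tr i j) (A.G i j) :=
  ⟨fun b a => ((A.isWD i j).lp b a).exp A.two_le, (A.isWD i j).wg⟩

theorem symp (i j : ι) : ∀ᵐ y, y ∈ A.D i (A.x j).source → (A.G i j y)ᵀ * J * A.G i j y = J := by
  rw [← tr_source]
  exact A.sy i j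

theorem cocycle (i j k : ι) : ∀ᵐ y, y ∈ A.D i ((A.x j).source ∩ (A.x k).source) →
    A.G i k y = A.G j k (A.tr i j y) * A.G i j y := by
  have hO : IsOpen (A.D i ((A.x j).source ∩ (A.x k).source)) :=
    A.D_open i ((A.x j).open_source.inter (A.x k).open_source)
  have hO' : IsOpen (A.D j ((A.x k).source ∩ (A.x i).source)) :=
    A.D_open j ((A.x k).open_source.inter (A.x i).open_source)
  have hsub : A.D j ((A.x k).source ∩ (A.x i).source) ⊆ (A.tr i j).target := by
    rw [tr_target]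
    exact A.D_mono j inter_subset_right
  have hsub' : A.D j ((A.x k).source ∩ (A.x i).source) ⊆ A.D j (A.x k).source :=
    A.D_mono j inter_subset_left
  have hset : (A.tr i j).source ∩ A.tr i j ⁻¹' (A.D j ((A.x k).source ∩ (A.x i).source))
      = A.D i ((A.x j).source ∩ (A.x k).source) := by
    rw [← A.D_tr, inter_comm]
  have hij : A.D i ((A.x j).source ∩ (A.x k).source) ⊆ A.D i (A.x j).source :=
    A.D_mono i inter_subset_left
  have hik : A.D i ((A.x j).source ∩ (A.x k).source) ⊆ A.D i (A.x k).source :=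
    A.D_mono i inter_subset_right
  have hwd : IsWD 2 (A.tr i j).source (A.tr i j) (A.G i j) := by
    rw [tr_source]
    exact A.isWD_two i j
  have hcont : ContinuousOn (A.tr j k) (A.D j (A.x k).source) := by
    rw [← tr_source]
    exact (A.tr j k).continuousOn
  have key : ∀ b : Fin 4, ∀ᵐ y, y ∈ A.D i ((A.x j).source ∩ (A.x k).source) →
      (fun a => A.G i k y b a) = (A.G i j y)ᵀ *ᵥ (fun a => A.G j k (A.tr i j y) b a) := by
    intro b
    have h1 : WG (A.D j ((A.x k).source ∩ (A.x i).source)) (fun x => A.tr j k x b)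
        (fun x => A.G j k x b) := AtB_mono ((A.isWD j k).wg b) hsub'
    have hc1 : ContinuousOn (fun x => A.tr j k x b) (A.D j ((A.x k).source ∩ (A.x i).source)) :=
      (continuous_apply b).comp_continuousOn (hcont.mono hsub')
    have h2 := chW (A.mpre i j) hwd hO' hsub hc1
      (fun a => ((A.isWD_two j k).lp b a).mono hsub') h1
    rw [hset] at h2
    have h3 : WG (A.D i ((A.x j).source ∩ (A.x k).source)) (fun y => A.tr i k y b)
        (fun y => (A.G i j y)ᵀ *ᵥ A.G j k (A.tr i j y) b) := by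
      refine AtB_congr h2 fun y hy => ?_
      simp only [A.tr_tr (hij hy)]
    have h4 : WG (A.D i ((A.x j).source ∩ (A.x k).source)) (fun y => A.tr i k y b)
        (fun y => A.G i k y b) := AtB_mono ((A.isWD i k).wg b) hik
    refine WG.unique hO ?_ ?_ h3 h4
    · intro a
      have e : (fun y => ((A.G i j y)ᵀ *ᵥ A.G j k (A.tr i j y) b) a)
          = fun y => ∑ c, A.G i j y c a * A.G j k (A.tr i j y) b c := by
        funext y
        rfl
      rw [e]
      refine LpL.sum _ fun c _ => LpL.mul ?_ ?_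
      · exact ((A.isWD_two i j).lp c a).mono hij
      · have h5 := LpL.comp (A.mpre i j) hsub (((A.isWD_two j k).lp b c).mono hsub')
        rw [hset] at h5
        exact h5
    · intro a
      exact (((A.isWD i k).lp b a).exp A.one_le).mono hik
  have key' := eventually_all.2 key
  filter_upwards [key'] with y hy hyO
  ext b a
  have h1 : A.G i k y b a = ∑ c, A.G i j y c a * A.G j k (A.tr i j y) b c :=
    congrFun (hy b hyO) a
  rw [Matrix.mul_apply, h1]
  exact Finset.sum_congr rfl fun c _ => mul_comm _ _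

end Atl

end Pool.Agent.SYH
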