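import Pool.Agent.SYH.Defs

/-!
# SYH/BasL: elementary facts on `LpL`

`LpL.cont_mul`: on a compact `K ⊆ Ω` the continuous factor is bounded
(`MemLp.bdd_mul` or `MemLp.of_le_mul`; measurability: `ContinuousOn.aestronglyMeasurable` on compact `K`).
`LpL.loc`: cover the compact set `K` by finitely many of the sets `O` (choose closed balls: every `x ∈ K` has a closed
ball `B x ⊆ O x`; `K` is covered by finitely many `interior (B x)`, `K ∩ B x` is compact in `O x ∩ Ω`), then
`MemLp` on a finite union (`Measure.restrict_union_le`, `MemLp.mono_measure`).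
`LpL.mul`: `MemLp.mul` (Hoelder).  `ae_loc`: `MeasureTheory.measure_null_of_locally_null` (second countable space).
-/

open MeasureTheory Set Filter Topology
open scoped ContDiff Matrix ENNReal

namespace Pool.Agent.SYH

variable {Ω Ω' : Set R4} {p q : ℝ≥0∞} {g g' u : R4 → ℝ} {ψ χ : R4 → ℝ}

theorem ae_loc {P : R4 → Prop} (h : ∀ x ∈ Ω, ∃ O, IsOpen O ∧ x ∈ O ∧ ∀ᵐ z, z ∈ O → P z) :
    ∀ᵐ z, z ∈ Ω → P z := by
  have h1 : volume {z : R4 | z ∈ Ω ∧ ¬ P z} = 0 := by
    refine measure_null_of_locally_null _ fun x hx => ?_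
    obtain ⟨O, hO, hxO, hP⟩ := h x hx.1
    refine ⟨O ∩ {z : R4 | z ∈ Ω ∧ ¬ P z}, ?_, ?_⟩
    · rw [inter_comm]
      exact inter_mem_nhdsWithin _ (hO.mem_nhds hxO)
    · refine measure_mono_null ?_ hP
      rintro z ⟨hz, -, hz'⟩ hh
      exact hz' (hh hz)
  refine measure_mono_null ?_ h1
  intro z hz
  simp only [mem_compl_iff, Set.mem_ofPred_eq, Classical.not_imp] at hz
  exact hz

theorem BasL_fin {K : Set R4} (hK : IsCompact K) : IsFiniteMeasure (volume.restrict K) :=
  ⟨by simpa using hK.measure_lt_top⟩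

theorem LpL.mono (h : LpL p Ω g) (hs : Ω' ⊆ Ω) : LpL p Ω' g :=
  fun K hK hc => h K (hK.trans hs) hc

theorem LpL.exp (h : LpL p Ω g) (hq : q ≤ p) : LpL q Ω g := by
  intro K hK hc
  have := BasL_fin hc
  exact (h K hK hc).mono_exponent hq

theorem LpL.add (h : LpL p Ω g) (h' : LpL p Ω g') : LpL p Ω (fun x => g x + g' x) :=
  fun K hK hc => (h K hK hc).add (h' K hK hc)

theorem LpL.sub (h : LpL p Ω g) (h' : LpL p Ω g') : LpL p Ω (fun x => g x - g' x) :=
  fun K hK hc => (h K hK hc).sub (h' K hK hc)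

theorem LpL.const_mul (h : LpL p Ω g) (c : ℝ) : LpL p Ω (fun x => c * g x) :=
  fun K hK hc => (h K hK hc).const_mul c

theorem LpL.zero : LpL p Ω (fun _ => 0) :=
  fun _ _ _ => MemLp.zero'

theorem LpL.sum {κ : Type*} (s : Finset κ) {f : κ → R4 → ℝ} (h : ∀ k ∈ s, LpL p Ω (f k)) :
    LpL p Ω (fun x => ∑ k ∈ s, f k x) :=
  fun K hK hc => memLp_finsetSum s fun k hk => h k hk K hK hc

theorem LpL.of_cont (hΩ : IsOpen Ω) (h : ContinuousOn u Ω) : LpL p Ω u := by
  intro K hK hc
  have := BasL_fin hc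
  have hu := h.mono hK
  obtain ⟨C, hC⟩ := hc.exists_bound_of_continuousOn hu
  refine MemLp.of_bound (hu.aestronglyMeasurable hc.measurableSet) C ?_
  exact (ae_restrict_iff' hc.measurableSet).2 (Eventually.of_forall hC)

theorem LpL.cont_mul (hΩ : IsOpen Ω) (hu : ContinuousOn u Ω) (h : LpL p Ω g) :
    LpL p Ω (fun x => u x * g x) := by
  intro K hK hc
  have hu' := hu.mono hK
  obtain ⟨C, hC⟩ := hc.exists_bound_of_continuousOn hu'
  refine MemLp.of_le_mul (h K hK hc)
    ((hu'.aestronglyMeasurable hc.measurableSet).mul (h K hK hc).1) (c := C) ?_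
  refine (ae_restrict_iff' hc.measurableSet).2 (Eventually.of_forall fun x hx => ?_)
  rw [norm_mul]
  exact mul_le_mul_of_nonneg_right (hC x hx) (norm_nonneg _)

/-- product of two `L^2_loc` functions is in `L^1_loc` -/
theorem LpL.mul (h : LpL 2 Ω g) (h' : LpL 2 Ω g') : LpL 1 Ω (fun x => g x * g' x) := by
  intro K hK hc
  exact memLp_one_iff_integrable.2 ((h K hK hc).integrable_mul (h' K hK hc))

theorem LpL.congr (h : LpL p Ω g) (he : ∀ᵐ x, x ∈ Ω → g' x = g x) : LpL p Ω g' := by
  intro K hK hc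
  refine (h K hK hc).ae_eq ?_
  refine (ae_restrict_iff' hc.measurableSet).2 ?_
  filter_upwards [he] with x hx hxK
  exact (hx (hK hxK)).symm

theorem LpL.loc (h : ∀ x ∈ Ω, ∃ O, IsOpen O ∧ x ∈ O ∧ LpL p (O ∩ Ω) g) : LpL p Ω g := by
  intro K hK hc
  have key : ∃ S', MeasurableSet S' ∧ K ⊆ S' ∧ MemLp (S'.indicator g) p volume := by
    refine hc.induction_on (p := fun S => ∃ S', MeasurableSet S' ∧ S ⊆ S' ∧
      MemLp (S'.indicator g) p volume) ?_ ?_ ?_ ?_
    · exact ⟨∅, MeasurableSet.empty, Subset.rfl, by simp⟩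
    · rintro s t hst ⟨S', h1, h2, h3⟩
      exact ⟨S', h1, hst.trans h2, h3⟩
    · rintro s t ⟨S, h1, h2, h3⟩ ⟨T, k1, k2, k3⟩
      refine ⟨S ∪ T, h1.union k1, union_subset_union h2 k2, ?_⟩
      have e : (S ∪ T).indicator g
          = S.indicator g + (T \ S).indicator (T.indicator g) := by
        funext x
        by_cases hx : x ∈ S
        · simp [hx]
        · by_cases hy : x ∈ T
          · simp [hx, hy]
          · simp [hx, hy]
      rw [e]
      exact h3.add (k3.indicator (k1.diff h1))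
    · intro x hx
      obtain ⟨O, hO, hxO, hL⟩ := h x (hK hx)
      obtain ⟨r, hr, hB⟩ := Metric.nhds_basis_closedBall.mem_iff.1 (hO.mem_nhds hxO)
      have hcB : IsCompact (K ∩ Metric.closedBall x r) :=
        hc.inter (isCompact_closedBall x r)
      refine ⟨K ∩ Metric.closedBall x r, ?_, K ∩ Metric.closedBall x r, hcB.measurableSet,
        Subset.rfl, ?_⟩
      · exact inter_mem_nhdsWithin _ (Metric.closedBall_mem_nhds x hr)
      · rw [memLp_indicator_iff_restrict hcB.measurableSet]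
        exact hL _ (fun y hy => ⟨hB hy.2, hK hy.1⟩) hcB
  obtain ⟨S', h1, h2, h3⟩ := key
  rw [memLp_indicator_iff_restrict h1] at h3
  exact h3.mono_measure (Measure.restrict_mono h2 le_rfl)

/-- an `L^1_loc` function times a continuous function with compact support in `Ω` is integrable -/
theorem LpL.int (h : LpL 1 Ω g) (hψ : Continuous ψ) (hc : HasCompactSupport ψ)
    (hs : tsupport ψ ⊆ Ω) : Integrable (fun x => g x * ψ x) := by
  have h1 := memLp_one_iff_integrable.1 (h (tsupport ψ) hs hc)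
  obtain ⟨C, hC⟩ := hc.exists_bound_of_continuous hψ
  have h2 : IntegrableOn (fun x => g x * ψ x) (tsupport ψ) :=
    h1.mul_bdd hψ.aestronglyMeasurable (Eventually.of_forall hC)
  refine (integrableOn_iff_integrable_of_support_subset ?_).1 h2
  intro x hx
  refine subset_tsupport ψ ?_
  intro h0
  apply hx
  simp [h0]

end Pool.Agent.SYH
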