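import Pool.Agent.SYH.Bmp

/-!
# SYH/Cut: cut-off functions of class `A0` on a compact Hausdorff space; a partition

`cutoff`: for `m ∈ K₂` take `bump` with `O = K₁ᶜ`; finitely many of the sets `N` cover `K₂`; put
`ρ = 1 - Π_k (1 - η_k)` (`A0.mul`, `A0.const`, `A0.add`, `A0.smul`): `ρ = 1` on `⋃ N_k ⊇ K₂`, `ρ = 0` on the open set
`(⋃ T_k)ᶜ ⊇ K₁`.
`partition`: `bump` for every `m` (chart containing `m`, `O = univ`); finitely many `N_k`, `k < n`, cover `M`;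
`χ_k = η_k Π_{l<k} (1 - η_l)`; `Σ_k χ_k = 1 - Π (1 - η_l) = 1`.
-/

open MeasureTheory Set Filter Topology
open scoped ContDiff Matrix ENNReal

namespace Pool.Agent.SYH

namespace Atl

variable {p : ℝ≥0∞} {M : Type*} [TopologicalSpace M] [T2Space M] [CompactSpace M] {ι : Type*}
  (A : Atl p M ι)

theorem Cut_compl {f g : M → ℝ} {α β : ι → R4 → R4} (h : A.A0 univ f α) (h' : A.A0 univ g β) :
    ∃ γ, A.A0 univ (fun m => (1 - f m) * g m) γ := by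
  have h1 := A0.add isOpen_univ h' ((A0.mul isOpen_univ h h').smul (-1))
  exact ⟨_, A0.congr h1 (fun m _ => by ring) (fun _ => Eventually.of_forall fun _ _ => rfl)⟩

theorem Cut_or {f g : M → ℝ} {α β : ι → R4 → R4} (h : A.A0 univ f α) (h' : A.A0 univ g β) :
    ∃ γ, A.A0 univ (fun m => f m + (1 - f m) * g m) γ := by
  obtain ⟨γ, hγ⟩ := A.Cut_compl h h'
  exact ⟨_, A0.add isOpen_univ h hγ⟩

theorem cutoff {K₁ K₂ : Set M} (h₁ : IsClosed K₁) (h₂ : IsClosed K₂) (hd : Disjoint K₁ K₂) :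
    ∃ (ρ : M → ℝ) (β : ι → R4 → R4) (O₁ O₂ : Set M), A.A0 univ ρ β ∧ IsOpen O₁ ∧ IsOpen O₂ ∧
      K₁ ⊆ O₁ ∧ K₂ ⊆ O₂ ∧ (∀ m ∈ O₁, ρ m = 0) ∧ (∀ m ∈ O₂, ρ m = 1) := by
  refine h₂.isCompact.induction_on (p := fun S => ∃ (ρ : M → ℝ) (β : ι → R4 → R4)
      (O₁ O₂ : Set M), A.A0 univ ρ β ∧ IsOpen O₁ ∧ IsOpen O₂ ∧
      K₁ ⊆ O₁ ∧ S ⊆ O₂ ∧ (∀ m ∈ O₁, ρ m = 0) ∧ (∀ m ∈ O₂, ρ m = 1)) ?_ ?_ ?_ ?_
  · exact ⟨fun _ => 0, fun _ _ => 0, univ, ∅, A0.const A univ 0, isOpen_univ, isOpen_empty,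
      subset_univ _, Subset.rfl, fun _ _ => rfl, fun m hm => absurd hm (notMem_empty m)⟩
  · rintro s t hst ⟨ρ, β, O₁, O₂, h1, h2, h3, h4, h5, h6, h7⟩
    exact ⟨ρ, β, O₁, O₂, h1, h2, h3, h4, hst.trans h5, h6, h7⟩
  · rintro s t ⟨ρ, β, O₁, O₂, h1, h2, h3, h4, h5, h6, h7⟩
      ⟨ρ', β', O₁', O₂', h1', h2', h3', h4', h5', h6', h7'⟩
    obtain ⟨γ, hγ⟩ := A.Cut_or h1 h1'
    refine ⟨fun m => ρ m + (1 - ρ m) * ρ' m, γ, O₁ ∩ O₁', O₂ ∪ O₂', hγ, h2.inter h2',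
      h3.union h3', subset_inter h4 h4', union_subset_union h5 h5', ?_, ?_⟩
    · rintro m ⟨hm, hm'⟩
      simp only [h6 m hm, h6' m hm']
      ring
    · rintro m (hm | hm)
      · simp only [h7 m hm]
        ring
      · simp only [h7' m hm]
        ring
  · intro m hm
    obtain ⟨i, hi⟩ := A.cov m
    have hmK : m ∈ K₁ᶜ := fun h => (disjoint_left.1 hd) h hm
    obtain ⟨η, β, N, T, h1, h2, h3, h4, h5, h6, h7, h8⟩ := A.bump hi h₁.isOpen_compl hmK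
    refine ⟨N, mem_nhdsWithin_of_mem_nhds (h3.mem_nhds h4), η, β, Tᶜ, N, h1,
      h6.isClosed.isOpen_compl, h3, ?_, Subset.rfl, fun m' hm' => h8 m' hm', h5⟩
    intro m' hm' hT
    exact (h7 hT).1 hm'

theorem partition : ∃ (n : ℕ) (χ : Fin n → M → ℝ) (β : Fin n → ι → R4 → R4) (c : Fin n → ι)
    (T : Fin n → Set M), (∀ k, A.A0 univ (χ k) (β k)) ∧ (∀ k m, 0 ≤ χ k m) ∧
      (∀ m, ∑ k, χ k m = 1) ∧ (∀ k, IsCompact (T k) ∧ T k ⊆ (A.x (c k)).source) ∧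
      ∀ k, ∀ m ∉ T k, χ k m = 0 := by
  have key : ∃ (κ : Type) (_ : Fintype κ) (χ : κ → M → ℝ) (β : κ → ι → R4 → R4) (c : κ → ι)
      (T : κ → Set M), (∀ k, A.A0 univ (χ k) (β k)) ∧ (∃ γ, A.A0 univ (fun m => ∑ k, χ k m) γ) ∧
      (∀ k m, 0 ≤ χ k m) ∧ (∀ m, ∑ k, χ k m ≤ 1) ∧
      (∀ m ∈ (univ : Set M), ∑ k, χ k m = 1) ∧
      (∀ k, IsCompact (T k) ∧ T k ⊆ (A.x (c k)).source) ∧ ∀ k, ∀ m ∉ T k, χ k m = 0 := by
    refine isCompact_univ.induction_on (p := fun S => ∃ (κ : Type) (_ : Fintype κ)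
      (χ : κ → M → ℝ) (β : κ → ι → R4 → R4) (c : κ → ι)
      (T : κ → Set M), (∀ k, A.A0 univ (χ k) (β k)) ∧ (∃ γ, A.A0 univ (fun m => ∑ k, χ k m) γ) ∧
      (∀ k m, 0 ≤ χ k m) ∧ (∀ m, ∑ k, χ k m ≤ 1) ∧
      (∀ m ∈ S, ∑ k, χ k m = 1) ∧
      (∀ k, IsCompact (T k) ∧ T k ⊆ (A.x (c k)).source) ∧ ∀ k, ∀ m ∉ T k, χ k m = 0) ?_ ?_ ?_ ?_
    · refine ⟨Empty, inferInstance, fun k => k.elim, fun k => k.elim, fun k => k.elim,
        fun k => k.elim, fun k => k.elim, ⟨fun _ _ => 0, ?_⟩, fun k => k.elim, ?_, ?_,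
        fun k => k.elim, fun k => k.elim⟩
      · simpa using A0.const A univ 0
      · intro m
        simp
      · intro m hm
        exact absurd hm (notMem_empty m)
    · rintro s t hst ⟨κ, hκ, χ, β, c, T, h1, h2, h3, h4, h5, h6, h7⟩
      exact ⟨κ, hκ, χ, β, c, T, h1, h2, h3, h4, fun m hm => h5 m (hst hm), h6, h7⟩
    · rintro s t ⟨κ, hκ, χ, β, c, T, h1, ⟨γ, hγ⟩, h3, h4, h5, h6, h7⟩
        ⟨κ', hκ', χ', β', c', T', h1', ⟨γ', hγ'⟩, h3', h4', h5', h6', h7'⟩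
      have hex : ∀ k, ∃ δ, A.A0 univ (fun m => (1 - ∑ l, χ l m) * χ' k m) δ := fun k =>
        A.Cut_compl hγ (h1' k)
      choose δ hδ using hex
      have hsum : ∀ m, ∑ k : κ ⊕ κ', (Sum.elim χ (fun k m => (1 - ∑ l, χ l m) * χ' k m) k) m
          = (∑ l, χ l m) + (1 - ∑ l, χ l m) * ∑ l, χ' l m := by
        intro m
        rw [Fintype.sum_sum_type]
        simp only [Sum.elim_inl, Sum.elim_inr]
        rw [Finset.mul_sum]
      have hs0 : ∀ m, 0 ≤ ∑ l, χ l m := fun m => Finset.sum_nonneg fun l _ => h3 l m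
      have hs0' : ∀ m, 0 ≤ ∑ l, χ' l m := fun m => Finset.sum_nonneg fun l _ => h3' l m
      refine ⟨κ ⊕ κ', inferInstance, Sum.elim χ (fun k m => (1 - ∑ l, χ l m) * χ' k m),
        Sum.elim β δ, Sum.elim c c', Sum.elim T T', ?_, ?_, ?_, ?_, ?_, ?_, ?_⟩
      · rintro (k | k)
        · exact h1 k
        · exact hδ k
      · obtain ⟨ε, hε⟩ := A.Cut_or hγ hγ'
        exact ⟨ε, A0.congr hε (fun m _ => hsum m) (fun _ => Eventually.of_forall fun _ _ => rfl)⟩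
      · rintro (k | k) m
        · exact h3 k m
        · exact mul_nonneg (by linarith [h4 m]) (h3' k m)
      · intro m
        rw [hsum]
        nlinarith [hs0 m, h4 m, h4' m, hs0' m]
      · rintro m (hm | hm)
        · rw [hsum, h5 m hm]
          ring
        · rw [hsum, h5' m hm]
          ring
      · rintro (k | k)
        · exact h6 k
        · exact h6' k
      · rintro (k | k) m hm
        · exact h7 k m hm
        · simp only [Sum.elim_inr] at hm ⊢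
          rw [h7' k m hm, mul_zero]
    · intro m _
      obtain ⟨i, hi⟩ := A.cov m
      obtain ⟨η, β, N, T, h1, h2, h3, h4, h5, h6, h7, h8⟩ := A.bump hi isOpen_univ (mem_univ m)
      refine ⟨N, mem_nhdsWithin_of_mem_nhds (h3.mem_nhds h4), Unit, inferInstance, fun _ => η,
        fun _ => β, fun _ => i, fun _ => T, fun _ => h1, ⟨β, ?_⟩, fun _ m' => (h2 m').1, ?_, ?_,
        fun _ => ⟨h6, fun y hy => (h7 hy).2⟩, fun _ => h8⟩
      · simpa using h1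
      · intro m'
        simpa using (h2 m').2
      · intro m' hm'
        simpa using h5 m' hm'
  obtain ⟨κ, hκ, χ, β, c, T, h1, -, h3, -, h5, h6, h7⟩ := key
  let e := (Fintype.equivFin κ).symm
  refine ⟨Fintype.card κ, fun k => χ (e k), fun k => β (e k), fun k => c (e k),
    fun k => T (e k), fun k => h1 _, fun k m => h3 _ m, ?_, fun k => h6 _, fun k => h7 _⟩
  intro m
  rw [← h5 m (mem_univ m)]
  exact Equiv.sum_comp e (fun k => χ k m)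

end Atl

end Pool.Agent.SYH
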