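import Pool.Agent.SYH.Prs
import Pool.Agent.SYH.Dwd

/-!
# SYH/LPr: local primitives

For a chart `i`: `λ_j y = (G j i y)ᵀ lam0 (tr j i y)` on `V = (x i).source`.  `LpL`: `lam0 ∘ tr j i` is continuous on
`D j (x i).source`.  Compatibility: `cocycle` (`G j i = G k i (tr j k) * G j k` a.e. on `D j ((x k).source ∩ (x i).source)`) and
`tr_tr`.  `Curl`: `curl_pull` and `symp`.
-/

open MeasureTheory Set Filter Topology
open scoped ContDiff Matrix ENNReal

namespace Pool.Agent.SYH

namespace Atl

variable {p : ℝ≥0∞} {M : Type*} [TopologicalSpace M] {ι : Type*} (A : Atl p M ι)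

private theorem LPr_cont_lam0 : Continuous lam0 := by
  unfold lam0
  fun_prop

theorem local_prim (i : ι) : ∃ α, A.Pr (A.x i).source α := by
  have hV : IsOpen (A.x i).source := (A.x i).open_source
  have hcont : ∀ j, ContinuousOn (A.tr j i) (A.D j (A.x i).source) := by
    intro j
    have := (A.tr j i).continuousOn
    rwa [A.tr_source] at this
  refine ⟨fun j y => (A.G j i y)ᵀ *ᵥ lam0 (A.tr j i y), ⟨?_, ?_⟩, ?_⟩
  · intro j a
    have e : (fun y => ((A.G j i y)ᵀ *ᵥ lam0 (A.tr j i y)) a) =
        fun y => ∑ b ∈ (Finset.univ : Finset (Fin 4)), lam0 (A.tr j i y) b * A.G j i y b a := by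
      funext y
      simp only [Matrix.mulVec, dotProduct, Matrix.transpose_apply]
      exact Finset.sum_congr rfl fun b _ => mul_comm _ _
    rw [e]
    refine LpL.sum _ fun b _ => ?_
    refine LpL.cont_mul (A.D_open j hV) ?_ ((A.isWD j i).lp b a)
    exact ((continuous_apply b).comp LPr_cont_lam0).comp_continuousOn (hcont j)
  · intro j k
    filter_upwards [A.cocycle j k i] with y hy hm
    have hm' : y ∈ A.D j ((A.x k).source ∩ (A.x i).source) := by
      rwa [inter_comm] at hm
    have hk : y ∈ A.D j (A.x k).source := A.D_mono j inter_subset_left hm'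
    rw [hy hm', A.tr_tr hk, Matrix.transpose_mul, Matrix.mulVec_mulVec]
  · intro j
    refine Curl.congr (curl_pull (A.D_open j hV) (hcont j) (A.isWD_two j i)) ?_ ?_
    · exact Eventually.of_forall fun y _ => rfl
    · filter_upwards [A.symp j i] with y hy hm
      exact (hy hm).symm

end Atl

end Pool.Agent.SYH
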