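import Pool.Agent.SYH.LEx

/-!
# SYH/MV1: Mayer-Vietoris for exactness of a fixed closed form near compact sets

`f` on `V₁ ⊇ R`, `f'` on `V₁' ⊇ R'`.  On `V₁ ∩ V₁'` the function `f - f'` has zero differential (`A0.add`, `A0.smul`, `A0.congr`),
so it is locally constant (`local_const`); as `R ∩ R'` is preconnected it equals a constant `c` on `R ∩ R'` (`c = 0` if
empty) and on the open set `O = {m ∈ V₁ ∩ V₁' | ∀ᶠ m' near m, f m' - f' m' = c} ⊇ R ∩ R'`.  `R \ O` and `R' \ O` are disjoint
compact sets: disjoint open neighbourhoods `B`, `B'`.  `V' = (V₁ ∩ (B ∪ O)) ∪ (V₁' ∩ (B' ∪ O))`, and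
`F = f` on `V₁ ∩ (B ∪ O)`, `F = f' + c` elsewhere; on the intersection of the two sets (contained in `O`) they agree.
`A0.loc`.
-/

open MeasureTheory Set Filter Topology
open scoped ContDiff Matrix ENNReal

namespace Pool.Agent.SYH

namespace Atl

variable {p : ℝ≥0∞} {M : Type*} [TopologicalSpace M] [T2Space M] {ι : Type*} {A : Atl p M ι}
  {V : Set M} {α : ι → R4 → R4} {R R' : Set M}

theorem Loc1.union (hR : IsCompact R) (hR' : IsCompact R') (hc : IsPreconnected (R ∩ R'))
    (h : A.Loc1 V α R) (h' : A.Loc1 V α R') : A.Loc1 V α (R ∪ R') := by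
  classical
  obtain ⟨V1, o1, r1, s1, f, hf⟩ := h
  obtain ⟨V2, o2, r2, s2, f', hf'⟩ := h'
  have hW : IsOpen (V1 ∩ V2) := o1.inter o2
  let d : M → ℝ := fun m => f m + (-1) * f' m
  have hd : A.A0 (V1 ∩ V2) d (fun _ _ => 0) := by
    have h1 := (hf.mono (inter_subset_left (s := V1) (t := V2))).add hW
      ((hf'.mono (inter_subset_right (s := V1) (t := V2))).smul (-1))
    refine h1.congr (fun _ _ => rfl) fun i => Eventually.of_forall fun y _ => ?_
    rw [neg_one_smul, add_neg_cancel]
  have hlc : ∀ m ∈ V1 ∩ V2, ∀ᶠ m' in 𝓝 m, d m' = d m := fun m hm => local_const hW hd hm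
  -- the constant
  have hex : ∃ c : ℝ, ∀ m ∈ R ∩ R', d m = c := by
    rcases (R ∩ R').eq_empty_or_nonempty with he | ⟨m0, hm0⟩
    · exact ⟨0, fun m hm => by rw [he] at hm; exact absurd hm (notMem_empty m)⟩
    · refine ⟨d m0, fun m hm => ?_⟩
      by_contra hne
      let U1 : Set M := interior {m | d m = d m0}
      let U2 : Set M := interior {m | d m ≠ d m0}
      have hcov : R ∩ R' ⊆ U1 ∪ U2 := by
        intro z hz
        have h1 := hlc z ⟨r1 hz.1, r2 hz.2⟩
        by_cases hz0 : d z = d m0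
        · left
          rw [mem_interior_iff_mem_nhds]
          filter_upwards [h1] with w hw
          rw [hw, hz0]
        · right
          rw [mem_interior_iff_mem_nhds]
          filter_upwards [h1] with w hw
          rw [hw]
          exact hz0
      have h1 : (R ∩ R' ∩ U1).Nonempty := by
        refine ⟨m0, hm0, ?_⟩
        rcases hcov hm0 with h | h
        · exact h
        · exact absurd rfl (interior_subset h)
      have h2 : (R ∩ R' ∩ U2).Nonempty := by
        refine ⟨m, hm, ?_⟩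
        rcases hcov hm with h | h
        · exact absurd (interior_subset h) hne
        · exact h
      obtain ⟨z, _, hz1, hz2⟩ := hc U1 U2 isOpen_interior isOpen_interior hcov h1 h2
      have h3 : z ∈ {m | d m = d m0} := interior_subset hz1
      have h4 : z ∈ {m | d m ≠ d m0} := interior_subset hz2
      exact h4 h3
  obtain ⟨c, hcc⟩ := hex
  let O : Set M := (V1 ∩ V2) ∩ interior {m | d m = c}
  have hO : IsOpen O := hW.inter isOpen_interior
  have hRO : R ∩ R' ⊆ O := by
    intro m hm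
    refine ⟨⟨r1 hm.1, r2 hm.2⟩, ?_⟩
    rw [mem_interior_iff_mem_nhds]
    filter_upwards [hlc m ⟨r1 hm.1, r2 hm.2⟩] with w hw
    rw [hw, hcc m hm]
  have hOc : ∀ m ∈ O, f m = f' m + c := by
    intro m hm
    have h0 : m ∈ {m | d m = c} := interior_subset hm.2
    have h1 : d m = c := h0
    have h2 : f m + (-1) * f' m = c := h1
    linarith
  obtain ⟨B, B', oB, oB', hB, hB', hdis⟩ := SeparatedNhds.of_isCompact_isCompact
    (hR.diff hO) (hR'.diff hO) (by
      rw [Set.disjoint_left]
      rintro m ⟨h1, h2⟩ ⟨h3, _⟩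
      exact h2 (hRO ⟨h1, h3⟩))
  let N1 : Set M := V1 ∩ (B ∪ O)
  let N2 : Set M := V2 ∩ (B' ∪ O)
  have oN1 : IsOpen N1 := o1.inter (oB.union hO)
  have oN2 : IsOpen N2 := o2.inter (oB'.union hO)
  have hN : ∀ m ∈ N1, m ∈ N2 → m ∈ O := by
    rintro m ⟨_, h1⟩ ⟨_, h2⟩
    rcases h1 with h1 | h1
    · rcases h2 with h2 | h2
      · exact absurd h2 (Set.disjoint_left.1 hdis h1)
      · exact h2
    · exact h1
  let F : M → ℝ := fun m => if m ∈ N1 then f m else f' m + c
  refine ⟨N1 ∪ N2, oN1.union oN2, ?_, ?_, F, ?_⟩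
  · rintro m (hm | hm)
    · left
      refine ⟨r1 hm, ?_⟩
      by_cases h : m ∈ O
      · exact Or.inr h
      · exact Or.inl (hB ⟨hm, h⟩)
    · right
      refine ⟨r2 hm, ?_⟩
      by_cases h : m ∈ O
      · exact Or.inr h
      · exact Or.inl (hB' ⟨hm, h⟩)
  · rintro m (hm | hm)
    · exact s1 hm.1
    · exact s2 hm.1
  · refine A0.loc (oN1.union oN2) ?_
    rintro m (hm | hm)
    · refine ⟨N1, oN1, hm, ?_⟩
      have h1 : A.A0 (N1 ∩ (N1 ∪ N2)) f α := hf.mono fun z hz => hz.1.1
      refine h1.congr (fun z hz => ?_) (fun i => Eventually.of_forall fun _ _ => rfl)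
      exact if_pos hz.1
    · refine ⟨N2, oN2, hm, ?_⟩
      have h1 : A.A0 (N2 ∩ (N1 ∪ N2)) f' α := hf'.mono fun z hz => hz.1.1
      have h2 := h1.add (oN2.inter (oN1.union oN2)) (A0.const A (N2 ∩ (N1 ∪ N2)) c)
      refine h2.congr (fun z hz => ?_) (fun i => Eventually.of_forall fun _ _ => ?_)
      · by_cases hz1 : z ∈ N1
        · have h3 : F z = f z := if_pos hz1
          rw [h3, hOc z (hN z hz1 hz.1)]
        · exact if_neg hz1
      · rw [add_zero]

theorem Ex1.union (hR : IsCompact R) (hR' : IsCompact R') (hc : IsPreconnected (R ∩ R'))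
    (h : A.Ex1 R) (h' : A.Ex1 R') : A.Ex1 (R ∪ R') := by
  intro V α hV hs hcl
  exact Loc1.union hR hR' hc (h V α hV (subset_union_left.trans hs) hcl)
    (h' V α hV (subset_union_right.trans hs) hcl)

end Atl

end Pool.Agent.SYH
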