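import Pool.Agent.SYH.Prs
import Pool.Agent.SYH.Cut

/-!
# SYH/MV2: Mayer-Vietoris for primitives of the symplectic form

`λ` on `V ⊇ R`, `λ'` on `V' ⊇ R'`; `λ - λ'` is closed on `V ∩ V'` (`Pr.sub_pr`), so by `Ex1 (R ∩ R')` there are an open `O`,
`R ∩ R' ⊆ O ⊆ V ∩ V'`, and `f` with `A0 O f (λ - λ')`.  `cutoff` for `R \ O`, `R' \ O` (disjoint closed sets): `ρ`, `β`,
`O₁ ⊇ R \ O` (`ρ = 0`), `O₂ ⊇ R' \ O` (`ρ = 1`), `O₁ ∩ O₂ = ∅`.  Let `N = (V ∩ (O₁ ∪ O)) ∪ (V' ∩ (O₂ ∪ O))`, open, `⊇ R ∪ R'`, and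
for `y` in the chart `i`, `m = (x i).symm y`: `μ_i y = λ_i y - (ρ m • (λ_i y - λ'_i y) + f m • β_i y)` if `m ∈ O`;
`= λ'_i y` if `m ∈ O₂ \ O`; `= λ_i y` otherwise.  `Pr.loc` for `μ` on `N`:
* near `m ∈ O`: `Pr.sub_exact` with `A0 O (ρ f) (..)` (`A0.mul`);
* near `m ∈ V ∩ O₁`: on `V ∩ O₁`, `ρ = 0`, `β = 0` a.e. (`A0.zero_of_const`), so `μ = λ` a.e. (`Pr.congr`);
* near `m ∈ V' ∩ O₂`: on `V' ∩ O₂`, `ρ = 1`, `β = 0` a.e., so `μ = λ'` a.e.
-/

open MeasureTheory Set Filter Topology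
open scoped ContDiff Matrix ENNReal

namespace Pool.Agent.SYH

namespace Atl

variable {p : ℝ≥0∞} {M : Type*} [TopologicalSpace M] [T2Space M] [CompactSpace M] {ι : Type*}
  {A : Atl p M ι} {R R' : Set M}

theorem Ex2.union (hR : IsCompact R) (hR' : IsCompact R') (h : A.Ex2 R) (h' : A.Ex2 R')
    (h1 : A.Ex1 (R ∩ R')) : A.Ex2 (R ∪ R') := by
  classical
  obtain ⟨V, oV, rV, l, hl⟩ := h
  obtain ⟨V', oV', rV', l', hl'⟩ := h'
  have hcl : A.Cl (V ∩ V') (fun i y => l i y - l' i y) :=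
    (hl.mono inter_subset_left).sub_pr (hl'.mono inter_subset_right)
  obtain ⟨O, oO, rO, sO, f, hf⟩ := h1 (V ∩ V') _ (oV.inter oV') (inter_subset_inter rV rV') hcl
  obtain ⟨ρ, β, O₁, O₂, hρ, o₁, o₂, hK₁, hK₂, hz, hone⟩ := A.cutoff
    (hR.diff oO).isClosed (hR'.diff oO).isClosed (by
      rw [Set.disjoint_left]
      rintro m ⟨h1, h2⟩ ⟨h3, _⟩
      exact h2 (rO ⟨h1, h3⟩))
  have hdis : ∀ m ∈ O₁, m ∉ O₂ := by
    intro m h1 h2
    have := hz m h1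
    rw [hone m h2] at this
    exact one_ne_zero this
  let N : Set M := (V ∩ (O₁ ∪ O)) ∪ (V' ∩ (O₂ ∪ O))
  have oN : IsOpen N := (oV.inter (o₁.union oO)).union (oV'.inter (o₂.union oO))
  let μ : ι → R4 → R4 := fun i y =>
    if (A.x i).symm y ∈ O then
      l i y - (ρ ((A.x i).symm y) • (l i y - l' i y) + f ((A.x i).symm y) • β i y)
    else if (A.x i).symm y ∈ O₂ then l' i y else l i y
  refine ⟨N, oN, ?_, μ, ?_⟩
  · rintro m (hm | hm)
    · left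
      refine ⟨rV hm, ?_⟩
      by_cases h : m ∈ O
      · exact Or.inr h
      · exact Or.inl (hK₁ ⟨hm, h⟩)
    · right
      refine ⟨rV' hm, ?_⟩
      by_cases h : m ∈ O
      · exact Or.inr h
      · exact Or.inl (hK₂ ⟨hm, h⟩)
  refine Pr.loc oN ?_
  have caseO : A.Pr (O ∩ N) μ := by
    have oON : IsOpen (O ∩ N) := oO.inter oN
    have h2 := A0.mul oON (hρ.mono (subset_univ (O ∩ N))) (hf.mono inter_subset_left)
    have h3 := Pr.sub_exact oON (hl.mono fun z hz => (sO hz.1).1) h2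
    refine h3.congr fun i => Eventually.of_forall fun y hy => ?_
    rw [A.mem_D] at hy
    exact if_pos hy.2.1
  have caseV : A.Pr ((V ∩ O₁) ∩ N) μ := by
    refine (hl.mono fun z hz => hz.1.1).congr fun i => ?_
    filter_upwards [hρ.zero_of_const isOpen_univ o₁ (subset_univ _) hz i] with y hy hyD
    rw [A.mem_D] at hyD
    have hb : β i y = 0 := hy (A.mem_D.2 ⟨hyD.1, hyD.2.1.2⟩)
    change (if (A.x i).symm y ∈ O then
      l i y - (ρ ((A.x i).symm y) • (l i y - l' i y) + f ((A.x i).symm y) • β i y)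
      else if (A.x i).symm y ∈ O₂ then l' i y else l i y) = l i y
    rw [hz _ hyD.2.1.2, hb, if_neg (hdis _ hyD.2.1.2)]
    simp
  have caseV' : A.Pr ((V' ∩ O₂) ∩ N) μ := by
    refine (hl'.mono fun z hz => hz.1.1).congr fun i => ?_
    filter_upwards [hρ.zero_of_const isOpen_univ o₂ (subset_univ _) hone i] with y hy hyD
    rw [A.mem_D] at hyD
    have hb : β i y = 0 := hy (A.mem_D.2 ⟨hyD.1, hyD.2.1.2⟩)
    change (if (A.x i).symm y ∈ O then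
      l i y - (ρ ((A.x i).symm y) • (l i y - l' i y) + f ((A.x i).symm y) • β i y)
      else if (A.x i).symm y ∈ O₂ then l' i y else l i y) = l' i y
    rw [hone _ hyD.2.1.2, hb, if_pos hyD.2.1.2]
    simp
  rintro m (hm | hm)
  · rcases hm.2 with h | h
    · exact ⟨V ∩ O₁, oV.inter o₁, ⟨hm.1, h⟩, caseV⟩
    · exact ⟨O, oO, h, caseO⟩
  · rcases hm.2 with h | h
    · exact ⟨V' ∩ O₂, oV'.inter o₂, ⟨hm.1, h⟩, caseV'⟩
    · exact ⟨O, oO, h, caseO⟩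

end Atl

end Pool.Agent.SYH
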