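import Pool.Agent.SYH.Bis
import Pool.Agent.SYH.MV1
import Pool.Agent.SYH.MV2
import Pool.Agent.SYH.LPr

/-!
# SYH/Cvx: topological images of compact convex sets
-/

open MeasureTheory Set Filter Topology
open scoped ContDiff Matrix ENNReal

namespace Pool.Agent.SYH

namespace Atl

variable {p : ℝ≥0∞} {M : Type*} [TopologicalSpace M] [T2Space M] {ι : Type*}
  {A : Atl p M ι} {d : ℕ} {C₀ : Set (Fin d → ℝ)} {γ : (Fin d → ℝ) → M}

theorem cvx_a0_empty (f : M → ℝ) (α : ι → R4 → R4) : A.A0 ∅ f α := by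
  have hD : ∀ i, A.D i ∅ = ∅ := by
    intro i
    simp [D]
  refine ⟨continuousOn_empty f, ?_, ?_⟩
  · intro i a K hK _
    rw [hD i] at hK
    have : K = ∅ := subset_empty_iff.1 hK
    subst this
    rw [Measure.restrict_empty]
    exact memLp_measure_zero
  · intro i ψ hψ a
    have h := hψ.supp
    rw [hD i] at h
    have h0 : tsupport ψ = ∅ := subset_empty_iff.1 h
    have hz : ψ = 0 := by
      rw [tsupport_eq_empty_iff] at h0
      exact h0
    subst hz
    have : ∀ x, pd a (0 : R4 → ℝ) x = 0 := fun x => by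
      simp [pd]
    simp [this]

theorem cvx_a1_empty (α : ι → R4 → R4) : A.A1 ∅ α := by
  have hD : ∀ i, A.D i ∅ = ∅ := by
    intro i
    simp [D]
  refine ⟨(cvx_a0_empty (fun _ => 0) α).lp, ?_⟩
  intro i j
  rw [empty_inter, hD i]
  exact Eventually.of_forall fun y hy => absurd hy (notMem_empty y)

theorem cvx_inter (hi : InjOn γ C₀) {C : Set (Fin d → ℝ)} (hs : C ⊆ C₀) (k : Fin d) (m : ℝ) :
    γ '' (C ∩ {x | x k ≤ m}) ∩ γ '' (C ∩ {x | m ≤ x k}) = γ '' (C ∩ {x | x k = m}) := by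
  rw [← hi.image_inter (inter_subset_left.trans hs) (inter_subset_left.trans hs)]
  congr 1
  ext x
  simp only [mem_inter_iff, mem_setOf_eq]
  constructor
  · rintro ⟨⟨h1, h2⟩, -, h3⟩
    exact ⟨h1, le_antisymm h2 h3⟩
  · rintro ⟨h1, h2⟩
    exact ⟨⟨h1, h2.le⟩, h1, h2.ge⟩

theorem cvx_union {C : Set (Fin d → ℝ)} (k : Fin d) (m : ℝ) :
    γ '' (C ∩ {x | x k ≤ m}) ∪ γ '' (C ∩ {x | m ≤ x k}) = γ '' C := by
  rw [← image_union, ← inter_union_distrib_left]
  congr 1
  refine inter_eq_left.2 fun x _ => ?_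
  exact le_total (x k) m

theorem cvx_le {C : Set (Fin d → ℝ)} (h : IsCompact C) (k : Fin d) (m : ℝ) :
    IsCompact (C ∩ {x | x k ≤ m}) :=
  h.inter_right (isClosed_le (continuous_apply k) continuous_const)

theorem cvx_ge {C : Set (Fin d → ℝ)} (h : IsCompact C) (k : Fin d) (m : ℝ) :
    IsCompact (C ∩ {x | m ≤ x k}) :=
  h.inter_right (isClosed_le continuous_const (continuous_apply k))

theorem cvx_eq {C : Set (Fin d → ℝ)} (h : IsCompact C) (k : Fin d) (m : ℝ) :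
    IsCompact (C ∩ {x | x k = m}) :=
  h.inter_right (isClosed_eq (continuous_apply k) continuous_const)

theorem cvx_conv {C : Set (Fin d → ℝ)} (h : Convex ℝ C) (k : Fin d) (m : ℝ) :
    Convex ℝ (C ∩ {x | x k = m}) := by
  refine h.inter ?_
  intro x hx y hy a b _ _ hab
  simp only [mem_setOf_eq] at hx hy ⊢
  rw [Pi.add_apply, Pi.smul_apply, Pi.smul_apply, hx, hy, smul_eq_mul, smul_eq_mul, ← add_mul, hab,
    one_mul]

theorem ex1_convex (hC : IsCompact C₀) (hc : Convex ℝ C₀) (hγ : ContinuousOn γ C₀)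
    (hi : InjOn γ C₀) : A.Ex1 (γ '' C₀) := by
  intro V α hV hR hα
  refine bisect (fun C => A.Loc1 V α (γ '' C)) hC hc ?_ ?_ ?_
  · refine ⟨∅, isOpen_empty, by simp, empty_subset V, fun _ => 0, cvx_a0_empty _ _⟩
  · intro x hx
    obtain ⟨N, hN, hxN, hNV, f, hf⟩ := local_exact hV hα (hR (mem_image_of_mem γ hx))
    have h1 : γ ⁻¹' N ∈ 𝓝[C₀] x := (hγ x hx) (hN.mem_nhds hxN)
    obtain ⟨ε, hε, hb⟩ := Metric.mem_nhdsWithin_iff.1 h1
    refine ⟨ε, hε, fun C hCs _ _ => ⟨N, hN, ?_, hNV, f, hf⟩⟩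
    rintro _ ⟨y, hy, rfl⟩
    exact hb ⟨(hCs hy).2, (hCs hy).1⟩
  · intro C hCs hCc hCv k m h1 h2
    show A.Loc1 V α (γ '' C)
    rw [← cvx_union k m]
    refine Loc1.union ((cvx_le hCc k m).image_of_continuousOn (hγ.mono (inter_subset_left.trans hCs)))
      ((cvx_ge hCc k m).image_of_continuousOn (hγ.mono (inter_subset_left.trans hCs))) ?_ h1 h2
    rw [cvx_inter hi hCs k m]
    exact (cvx_conv hCv k m).isPreconnected.image γ (hγ.mono (inter_subset_left.trans hCs))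

theorem ex2_convex [CompactSpace M] (hC : IsCompact C₀) (hc : Convex ℝ C₀)
    (hγ : ContinuousOn γ C₀) (hi : InjOn γ C₀) : A.Ex2 (γ '' C₀) := by
  refine bisect (fun C => A.Ex2 (γ '' C)) hC hc ?_ ?_ ?_
  · refine ⟨∅, isOpen_empty, by simp, fun _ _ => 0, cvx_a1_empty _, ?_⟩
    intro i a b ψ hψ
    have h := hψ.supp
    have hD : A.D i ∅ = ∅ := by simp [D]
    rw [hD] at h
    have h0 : tsupport ψ = ∅ := subset_empty_iff.1 h
    have hz : ψ = 0 := by
      rw [tsupport_eq_empty_iff] at h0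
      exact h0
    subst hz
    have : ∀ c x, pd c (0 : R4 → ℝ) x = 0 := fun c x => by
      simp [pd]
    simp [this]
  · intro x hx
    obtain ⟨i, hxi⟩ := A.cov (γ x)
    obtain ⟨α, hα⟩ := A.local_prim i
    have h1 : γ ⁻¹' (A.x i).source ∈ 𝓝[C₀] x := (hγ x hx) ((A.x i).open_source.mem_nhds hxi)
    obtain ⟨ε, hε, hb⟩ := Metric.mem_nhdsWithin_iff.1 h1
    refine ⟨ε, hε, fun C hCs _ _ => ⟨(A.x i).source, (A.x i).open_source, ?_, α, hα⟩⟩
    rintro _ ⟨y, hy, rfl⟩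
    exact hb ⟨(hCs hy).2, (hCs hy).1⟩
  · intro C hCs hCc hCv k m h1 h2
    show A.Ex2 (γ '' C)
    rw [← cvx_union k m]
    refine Ex2.union ((cvx_le hCc k m).image_of_continuousOn (hγ.mono (inter_subset_left.trans hCs)))
      ((cvx_ge hCc k m).image_of_continuousOn (hγ.mono (inter_subset_left.trans hCs))) h1 h2 ?_
    rw [cvx_inter hi hCs k m]
    exact ex1_convex (cvx_eq hCc k m) (cvx_conv hCv k m) (hγ.mono (inter_subset_left.trans hCs))
      (hi.mono (inter_subset_left.trans hCs))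

end Atl

end Pool.Agent.SYH
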