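import Mathlib

/-!
# SYH/Defs: symplectic Sobolev homeomorphisms of `ℝ⁴`

`MP_9a66f1_gt`: the four-sphere has no topological symplectic atlas with Sobolev transition maps (`p > 4`).
Coordinates of `ℝ⁴`: `(x₁, y₁, x₂, y₂)` (indices `0, 1, 2, 3`), `ω₀ (u, v) = uᵀ J v`.
-/

open MeasureTheory Set Filter Topology
open scoped ContDiff Matrix ENNReal

namespace Pool.Agent.SYH

/-- `ℝ⁴` -/
abbrev R4 := Fin 4 → ℝ

/-- the matrix of `ω₀ = dx₁ ∧ dy₁ + dx₂ ∧ dy₂` -/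
def J : Matrix (Fin 4) (Fin 4) ℝ := !![0, 1, 0, 0; -1, 0, 0, 0; 0, 0, 0, 1; 0, 0, -1, 0]

/-- partial derivative -/
noncomputable def pd (a : Fin 4) (ψ : R4 → ℝ) (x : R4) : ℝ := fderiv ℝ ψ x (Pi.single a 1)

/-- `ψ` is a test function on `Ω` -/
structure Test (Ω : Set R4) (ψ : R4 → ℝ) : Prop where
  smooth : ContDiff ℝ ∞ ψ
  cpt : HasCompactSupport ψ
  supp : tsupport ψ ⊆ Ω

/-- `g` is locally of class `L^p` on `Ω` -/
def LpL (p : ℝ≥0∞) (Ω : Set R4) (g : R4 → ℝ) : Prop :=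
  ∀ K ⊆ Ω, IsCompact K → MemLp g p (volume.restrict K)

/-- `g` is the weak gradient of `u` on `Ω` -/
def WG (Ω : Set R4) (u : R4 → ℝ) (g : R4 → R4) : Prop :=
  ∀ ψ, Test Ω ψ → ∀ a, ∫ x, u x * pd a ψ x = -∫ x, g x a * ψ x

/-- `φ` has the weak derivative `G` on `Ω`, of class `L^p_loc`; `G x b a = ∂_a φ_b (x)` -/
structure IsWD (p : ℝ≥0∞) (Ω : Set R4) (φ : R4 → R4) (G : R4 → Matrix (Fin 4) (Fin 4) ℝ) : Prop where
  lp : ∀ b a, LpL p Ω (fun x => G x b a)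
  wg : ∀ b, WG Ω (fun x => φ x b) (fun x => G x b)

/-- a homeomorphism between open subsets of `ℝ⁴`, of class `W^{1,p}_loc`, with `φ^* ω₀ = ω₀` almost
everywhere -/
def SobSymp (p : ℝ≥0∞) (e : OpenPartialHomeomorph R4 R4) : Prop :=
  ∃ G, IsWD p e.source e G ∧ ∀ᵐ x, x ∈ e.source → (G x)ᵀ * J * G x = J

/-- `e` preserves the volume -/
def MPre (e : OpenPartialHomeomorph R4 R4) : Prop :=
  ∀ A ⊆ e.source, MeasurableSet A → volume (e '' A) = volume A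

/-- weak equation `div w = c` on `Ω` -/
def DivEq (Ω : Set R4) (w : R4 → R4) (c : R4 → ℝ) : Prop :=
  ∀ ψ, Test Ω ψ → ∫ x, ((∑ a, w x a * pd a ψ x) + c x * ψ x) = 0

/-- weak equation `dα = c` on `Ω`: `∂_a α_b - ∂_b α_a = c_{ab}` -/
def Curl (Ω : Set R4) (α : R4 → R4) (c : R4 → Matrix (Fin 4) (Fin 4) ℝ) : Prop :=
  ∀ a b, DivEq Ω (fun x => α x b • Pi.single a 1 - α x a • Pi.single b 1) (fun x => c x a b)

/-- the standard primitive of `ω₀`: `(lam0 x)_b = (1/2) Σ_a x_a J_{ab}` -/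
noncomputable def lam0 (x : R4) : R4 := (1 / 2 : ℝ) • (x ᵥ* J)

/-- an atlas with symplectic Sobolev transition maps -/
structure Atl (p : ℝ≥0∞) (M : Type*) [TopologicalSpace M] (ι : Type*) where
  hp : 4 < p
  hpt : p ≠ ⊤
  x : ι → OpenPartialHomeomorph M R4
  G : ι → ι → R4 → Matrix (Fin 4) (Fin 4) ℝ
  cov : ∀ m, ∃ i, m ∈ (x i).source
  wd : ∀ i j, IsWD p ((x i).symm.trans (x j)).source ((x i).symm.trans (x j)) (G i j)
  sy : ∀ i j, ∀ᵐ y, y ∈ ((x i).symm.trans (x j)).source → (G i j y)ᵀ * J * G i j y = J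
  mp : ∀ i j, MPre ((x i).symm.trans (x j))

namespace Atl

variable {p : ℝ≥0∞} {M : Type*} [TopologicalSpace M] {ι : Type*} (A : Atl p M ι)

/-- the transition map from chart `i` to chart `j` -/
noncomputable def tr (i j : ι) : OpenPartialHomeomorph R4 R4 := (A.x i).symm.trans (A.x j)

/-- the set `V` in the chart `i` -/
def D (i : ι) (V : Set M) : Set R4 := (A.x i).target ∩ (A.x i).symm ⁻¹' V

/-- `f` is a continuous function on `V`, with differential `α` of class `L^p_loc` (in every chart) -/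
structure A0 (V : Set M) (f : M → ℝ) (α : ι → R4 → R4) : Prop where
  cont : ContinuousOn f V
  lp : ∀ i a, LpL p (A.D i V) (fun y => α i y a)
  wg : ∀ i, WG (A.D i V) (fun y => f ((A.x i).symm y)) (α i)

/-- `α` is a one-form of class `L^p_loc` on `V` -/
structure A1 (V : Set M) (α : ι → R4 → R4) : Prop where
  lp : ∀ i a, LpL p (A.D i V) (fun y => α i y a)
  cp : ∀ i j, ∀ᵐ y, y ∈ A.D i (V ∩ (A.x j).source) → α i y = (A.G i j y)ᵀ *ᵥ α j (A.tr i j y)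

/-- closed one-forms -/
structure Cl (V : Set M) (α : ι → R4 → R4) : Prop where
  a1 : A.A1 V α
  curl : ∀ i, Curl (A.D i V) (α i) 0

/-- primitives of the symplectic form -/
structure Pr (V : Set M) (α : ι → R4 → R4) : Prop where
  a1 : A.A1 V α
  curl : ∀ i, Curl (A.D i V) (α i) (fun _ => J)

/-- `α` is exact near `R` -/
def Loc1 (V : Set M) (α : ι → R4 → R4) (R : Set M) : Prop :=
  ∃ V', IsOpen V' ∧ R ⊆ V' ∧ V' ⊆ V ∧ ∃ f, A.A0 V' f α

def Ex1 (R : Set M) : Prop :=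
  ∀ V α, IsOpen V → R ⊆ V → A.Cl V α → A.Loc1 V α R

def Ex2 (R : Set M) : Prop := ∃ V, IsOpen V ∧ R ⊆ V ∧ ∃ α, A.Pr V α

end Atl

end Pool.Agent.SYH
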