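import Pool.Agent.SYH.MoW

/-!
# SYH/DfA: a continuous `W^{1,p}` function, `p > 4`, is differentiable almost everywhere

For a.e. `x ∈ Ω` (Lebesgue point in the `L^p` sense): `r^{-4} ∫_{closedBall x r} |g_a - g_a (x)|^p → 0` as `r → 0`, for all
`a` (Lebesgue differentiation theorem for the functions `|g_a - c|^p`, `c` rational, as usual; Mathlib
`VitaliFamily.ae_tendsto_lintegral_div`, `Besicovitch.vitaliFamily` or `IsUnifLocDoublingMeasure`).  At such a point apply
`morreyW` to `w y = u y - Σ_a g_a (x) y_a` on `closedBall x r`, `r = ‖h‖`: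
`|u (x+h) - u x - Σ_a g_a (x) h_a| ≤ C r^{1-4/p} Σ_a ‖g_a - g_a (x)‖_{L^p(closedBall x r)} =
C r Σ_a (r^{-4} ∫ |g_a - g_a(x)|^p)^{1/p} = o (r)`.
-/

open MeasureTheory Set Filter Topology
open scoped ContDiff Matrix ENNReal

namespace Pool.Agent.SYH

namespace DfA

/-- signed power -/
noncomputable def phi (p t : ℝ) : ℝ := (max t 0) ^ p - (max (-t) 0) ^ p

lemma phi_cont {p : ℝ} (hp : 1 ≤ p) : Continuous (phi p) := by
  unfold phi
  refine Continuous.sub ?_ ?_
  · exact (continuous_id.max continuous_const).rpow_const fun x => Or.inr (by linarith)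
  · exact (continuous_neg.max continuous_const).rpow_const fun x => Or.inr (by linarith)

lemma rpow_add_le {p a b : ℝ} (ha : 0 ≤ a) (hb : 0 ≤ b) (hp : 1 ≤ p) :
    (a + b) ^ p ≤ 2 ^ (p - 1) * (a ^ p + b ^ p) := by
  lift a to NNReal using ha
  lift b to NNReal using hb
  exact_mod_cast NNReal.rpow_add_le_mul_rpow_add_rpow a b hp

lemma phi_of_nonneg {p t : ℝ} (hp : 1 ≤ p) (h : 0 ≤ t) : phi p t = t ^ p := by
  unfold phi
  rw [max_eq_left h, max_eq_right (by linarith), Real.zero_rpow (by linarith), sub_zero]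

lemma phi_of_nonpos {p t : ℝ} (hp : 1 ≤ p) (h : t ≤ 0) : phi p t = -(-t) ^ p := by
  unfold phi
  rw [max_eq_right h, max_eq_left (by linarith), Real.zero_rpow (by linarith), zero_sub]

lemma phi_abs {p : ℝ} (hp : 1 ≤ p) (t : ℝ) : |phi p t| ≤ |t| ^ p := by
  rcases le_total 0 t with h | h
  · rw [phi_of_nonneg hp h, abs_of_nonneg h, abs_of_nonneg (by positivity)]
  · rw [phi_of_nonpos hp h, abs_of_nonpos h, abs_neg, abs_of_nonneg]
    exact Real.rpow_nonneg (by linarith) _

lemma phi_ineq' {p : ℝ} (hp : 1 ≤ p) {a b : ℝ} (h : b ≤ a) :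
    (a - b) ^ p ≤ 2 ^ (p - 1) * (phi p a - phi p b) := by
  have h2 : (1 : ℝ) ≤ 2 ^ (p - 1) := Real.one_le_rpow (by norm_num) (by linarith)
  have key : ∀ c d : ℝ, 0 ≤ d → d ≤ c → (c - d) ^ p ≤ c ^ p - d ^ p := by
    intro c d hd hc
    have := Real.add_rpow_le_rpow_add (p := p) (a := c - d) (b := d) (by linarith) hd hp
    rw [sub_add_cancel] at this
    linarith
  rcases le_total 0 b with hb | hb
  · rw [phi_of_nonneg hp hb, phi_of_nonneg hp (hb.trans h)]
    have h3 := key a b hb h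
    have h4 : 0 ≤ a ^ p - b ^ p := (Real.rpow_nonneg (by linarith) _).trans h3
    nlinarith
  · rcases le_total 0 a with ha | ha
    · rw [phi_of_nonneg hp ha, phi_of_nonpos hp hb, sub_neg_eq_add, sub_eq_add_neg a b]
      exact rpow_add_le ha (by linarith) hp
    · rw [phi_of_nonpos hp ha, phi_of_nonpos hp hb]
      have h3 := key (-b) (-a) (by linarith) (by linarith)
      have e : -b - -a = a - b := by ring
      rw [e] at h3
      have h4 : 0 ≤ (-b) ^ p - (-a) ^ p := (Real.rpow_nonneg (by linarith) _).trans h3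
      nlinarith

lemma phi_ineq {p : ℝ} (hp : 1 ≤ p) (a b : ℝ) :
    |a - b| ^ p ≤ 2 ^ (p - 1) * |phi p a - phi p b| := by
  have h2 : (0 : ℝ) ≤ 2 ^ (p - 1) := by positivity
  rcases le_total b a with h | h
  · rw [abs_of_nonneg (by linarith)]
    exact (phi_ineq' hp h).trans (mul_le_mul_of_nonneg_left (le_abs_self _) h2)
  · rw [abs_sub_comm, abs_of_nonneg (by linarith), abs_sub_comm]
    exact (phi_ineq' hp h).trans (mul_le_mul_of_nonneg_left (le_abs_self _) h2)

/-- the function whose Lebesgue points are used -/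
noncomputable def F (p : ℝ) (K : Set R4) (g : R4 → ℝ) (y : R4) : ℝ := phi p (K.indicator g y)

lemma F_int {p : ℝ≥0∞} (hp : 1 ≤ p) (hpt : p ≠ ⊤) {K : Set R4} (hK : MeasurableSet K)
    {g : R4 → ℝ} (hg : MemLp g p (volume.restrict K)) : Integrable (F p.toReal K g) := by
  have hp1 : 1 ≤ p.toReal := by
    have := (ENNReal.toReal_le_toReal (by norm_num) hpt).mpr hp
    simpa using this
  have h1 : MemLp (K.indicator g) p volume := (memLp_indicator_iff_restrict hK).mpr hg
  have h2 := h1.integrable_norm_rpow (by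
    intro h0; rw [h0] at hp; exact absurd hp (by norm_num)) hpt
  refine h2.mono ((phi_cont hp1).comp_aestronglyMeasurable h1.aestronglyMeasurable) ?_
  refine Eventually.of_forall fun y => ?_
  unfold F
  rw [Real.norm_eq_abs, Real.norm_eq_abs, Real.norm_eq_abs,
    abs_of_nonneg (Real.rpow_nonneg (abs_nonneg _) _)]
  exact phi_abs hp1 _

lemma est {p : ℝ≥0∞} (hp : 1 ≤ p) (hpt : p ≠ ⊤) {K : Set R4} (hK : MeasurableSet K)
    {g : R4 → ℝ} (hg : MemLp g p (volume.restrict K)) {x : R4} {r : ℝ} (hr : 0 < r)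
    (hB : Metric.closedBall x r ⊆ K) :
    eLpNorm (fun y => g y - g x) p (volume.restrict (Metric.closedBall x r)) ≤
      ENNReal.ofReal (r ^ (4 / p.toReal) * (2 ^ (p.toReal - 1) * (16 *
        ⨍ y in Metric.closedBall x r, ‖F p.toReal K g y - F p.toReal K g x‖)) ^
          (1 / p.toReal)) := by
  have hp1 : 1 ≤ p.toReal := by
    have := (ENNReal.toReal_le_toReal (by norm_num) hpt).mpr hp
    simpa using this
  have hp0 : p ≠ 0 := by
    intro h0; rw [h0] at hp; exact absurd hp (by norm_num)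
  set P := p.toReal with hP
  set f := F P K g with hf
  set B := Metric.closedBall x r with hBd
  have hBm : MeasurableSet B := Metric.isClosed_closedBall.measurableSet
  have hxB : x ∈ B := Metric.mem_closedBall_self hr.le
  have hV : volume.real B = (2 * r) ^ 4 := by
    rw [measureReal_def, hBd, Real.volume_pi_closedBall x hr.le,
      ENNReal.toReal_ofReal (by positivity)]
    simp
  set A := ⨍ y in B, ‖f y - f x‖ with hA
  have hA0 : 0 ≤ A := by
    rw [hA, setAverage_eq]
    exact smul_nonneg (by positivity) (integral_nonneg fun y => norm_nonneg _)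
  have hint : IntegrableOn (fun y => ‖f y - f x‖) B := by
    have hfi := F_int hp hpt hK hg
    refine Integrable.norm (Integrable.sub hfi.integrableOn ?_)
    exact integrableOn_const (by
      rw [hBd, Real.volume_pi_closedBall x hr.le]; exact ENNReal.ofReal_ne_top)
  have hI : ∫ y in B, ‖f y - f x‖ = (2 * r) ^ 4 * A := by
    rw [hA, setAverage_eq, hV, smul_eq_mul]
    field_simp
  have h1 : ∫⁻ y in B, ‖g y - g x‖ₑ ^ P ≤ ENNReal.ofReal (2 ^ (P - 1) * ((2 * r) ^ 4 * A)) := by
    rw [← hI, ← integral_const_mul, ofReal_integral_eq_lintegral_ofReal (hint.const_mul _)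
      (Eventually.of_forall fun y => by positivity)]
    refine setLIntegral_mono' hBm fun y hy => ?_
    rw [Real.enorm_eq_ofReal_abs, ENNReal.ofReal_rpow_of_nonneg (abs_nonneg _) (by linarith)]
    apply ENNReal.ofReal_le_ofReal
    have h2 := phi_ineq hp1 (g y) (g x)
    have e1 : f y = phi P (g y) := by rw [hf]; unfold F; rw [indicator_of_mem (hB hy)]
    have e2 : f x = phi P (g x) := by rw [hf]; unfold F; rw [indicator_of_mem (hB hxB)]
    rw [e1, e2, Real.norm_eq_abs]
    exact h2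
  rw [eLpNorm_eq_lintegral_rpow_enorm_toReal hp0 hpt]
  calc (∫⁻ y in B, ‖g y - g x‖ₑ ^ P) ^ (1 / P)
      ≤ (ENNReal.ofReal (2 ^ (P - 1) * ((2 * r) ^ 4 * A))) ^ (1 / P) :=
        ENNReal.rpow_le_rpow h1 (by positivity)
    _ = ENNReal.ofReal ((2 ^ (P - 1) * ((2 * r) ^ 4 * A)) ^ (1 / P)) :=
        ENNReal.ofReal_rpow_of_nonneg (by positivity) (by positivity)
    _ = _ := by
        congr 1
        have e : (2 : ℝ) ^ (P - 1) * ((2 * r) ^ 4 * A) = r ^ 4 * (2 ^ (P - 1) * (16 * A)) := by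
          ring
        rw [e, Real.mul_rpow (by positivity) (by positivity), ← Real.rpow_natCast r 4,
          ← Real.rpow_mul hr.le]
        congr 2
        push_cast
        ring

lemma wg_sub {p : ℝ≥0∞} (hp : 1 ≤ p) {Ω : Set R4} (hΩ : IsOpen Ω) {u : R4 → ℝ}
    {g : R4 → R4} (hu : ContinuousOn u Ω) (hg : ∀ a, LpL p Ω (fun x => g x a)) (h : WG Ω u g)
    (L : R4 →L[ℝ] ℝ) (c : R4) (hL : ∀ a, L (Pi.single a 1) = c a) :
    WG Ω (fun y => u y + (-1) * L y) (fun y => g y + (-1 : ℝ) • c) := by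
  have hLs : ContDiff ℝ ∞ (fun y => L y) := L.contDiff
  have h1 : WG Ω (fun y => L y) (fun _ => c) := by
    have h2 := WG.of_smooth (Ω := Ω) hLs
    have e : (fun x a => pd a (fun y => L y) x) = fun _ : R4 => c := by
      funext y a
      unfold pd
      rw [show (fun y => L y) = ⇑L from rfl, ContinuousLinearMap.fderiv]
      exact hL a
    rwa [e] at h2
  have h3 := h1.smul (-1)
  refine WG.add hΩ hu (fun a => (hg a).exp hp) ?_ ?_ h h3
  · fun_prop
  · intro a
    exact LpL.of_cont hΩ continuousOn_const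

end DfA

open DfA in
theorem diff_ae {p : ℝ≥0∞} (hp : 4 < p) (hpt : p ≠ ⊤) {Ω : Set R4} (hΩ : IsOpen Ω) {u : R4 → ℝ}
    {g : R4 → R4} (hu : ContinuousOn u Ω) (hg : ∀ a, LpL p Ω (fun x => g x a)) (h : WG Ω u g) :
    ∀ᵐ x, x ∈ Ω → ∃ L : R4 →L[ℝ] ℝ, HasFDerivAt u L x ∧ ∀ a, L (Pi.single a 1) = g x a := by
  obtain ⟨C, hC, hM⟩ := morreyW hp hpt
  have hp1 : 1 ≤ p := le_trans (by norm_num) hp.le
  have hP1 : 1 ≤ p.toReal := by
    have := (ENNReal.toReal_le_toReal (by norm_num) hpt).mpr hp1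
    simpa using this
  refine ae_loc fun x0 hx0 => ?_
  obtain ⟨R0, hR0, hball⟩ := Metric.nhds_basis_closedBall.mem_iff.mp (hΩ.mem_nhds hx0)
  refine ⟨Metric.ball x0 R0, Metric.isOpen_ball, Metric.mem_ball_self hR0, ?_⟩
  set K := Metric.closedBall x0 R0 with hKd
  have hK : IsCompact K := isCompact_closedBall _ _
  have hKm : MeasurableSet K := Metric.isClosed_closedBall.measurableSet
  have hgK : ∀ a, MemLp (fun x => g x a) p (volume.restrict K) := fun a => hg a K hball hK
  have hleb : ∀ a, ∀ᵐ x, Tendsto (fun r : ℝ => ⨍ y in Metric.closedBall x r,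
      ‖F p.toReal K (fun x => g x a) y - F p.toReal K (fun x => g x a) x‖) (𝓝[>] 0) (𝓝 0) := by
    intro a
    have h1 := IsUnifLocDoublingMeasure.ae_tendsto_average_norm_sub (μ := (volume : Measure R4))
      (F_int hp1 hpt hKm (hgK a)).locallyIntegrable 1
    filter_upwards [h1] with x hx
    refine hx (fun _ => x) (fun r => r) tendsto_id ?_
    filter_upwards [self_mem_nhdsWithin] with r hr
    exact Metric.mem_closedBall_self (by simpa using (le_of_lt hr : (0 : ℝ) ≤ r))
  filter_upwards [ae_all_iff.mpr hleb] with x hx hxb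
  set c : R4 := g x with hc
  set L : R4 →L[ℝ] ℝ := ∑ a, c a • (ContinuousLinearMap.proj a : R4 →L[ℝ] ℝ) with hLd
  have hL : ∀ a, L (Pi.single a 1) = c a := by
    intro a
    rw [hLd]
    simp [Pi.single_apply]
  refine ⟨L, ?_, fun a => hL a⟩
  have hwg := wg_sub hp1 hΩ hu hg h L c hL
  have hwc : ContinuousOn (fun y => u y + (-1) * L y) Ω := by
    refine hu.add ?_
    fun_prop
  have hwl : ∀ a, LpL p Ω (fun y => (g y + (-1 : ℝ) • c) a) := by
    intro a
    have := (hg a).add (LpL.of_cont (p := p) hΩ (continuousOn_const (c := (-1 : ℝ) • c a)))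
    simpa using this
  -- the modulus
  set η : ℝ → ℝ := fun r => C.toReal * ∑ a, (2 ^ (p.toReal - 1) * (16 *
    ⨍ y in Metric.closedBall x r,
      ‖F p.toReal K (fun x => g x a) y - F p.toReal K (fun x => g x a) x‖)) ^ (1 / p.toReal)
    with hη
  have hηlim : Tendsto η (𝓝[>] 0) (𝓝 0) := by
    have h1 : Tendsto η (𝓝[>] 0) (𝓝 (C.toReal * ∑ a : Fin 4,
        ((2 : ℝ) ^ (p.toReal - 1) * (16 * 0)) ^ (1 / p.toReal))) := by
      refine Tendsto.const_mul _ (tendsto_finsetSum _ fun a _ => ?_)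
      exact (((hx a).const_mul 16).const_mul _).rpow_const (Or.inr (by positivity))
    have e : (C.toReal * ∑ a : Fin 4,
        ((2 : ℝ) ^ (p.toReal - 1) * (16 * 0)) ^ (1 / p.toReal)) = 0 := by
      rw [mul_zero, mul_zero, Real.zero_rpow (by positivity)]
      simp
    rwa [e] at h1
  have hsmall : ∀ᶠ r : ℝ in 𝓝[>] 0, Metric.closedBall x r ⊆ K := by
    obtain ⟨r1, hr1, hb1⟩ := Metric.nhds_basis_closedBall.mem_iff.mp
      (Metric.isOpen_ball.mem_nhds hxb)
    have : ∀ᶠ r : ℝ in 𝓝[>] 0, r < r1 := by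
      apply mem_nhdsWithin_of_mem_nhds
      exact Iio_mem_nhds hr1
    filter_upwards [this] with r hr
    exact ((Metric.closedBall_subset_closedBall hr.le).trans hb1).trans Metric.ball_subset_closedBall
  have hmain : ∀ v : R4, v ≠ 0 → Metric.closedBall x ‖v‖ ⊆ K →
      |u (x + v) - u x - L v| ≤ η ‖v‖ * ‖v‖ := by
    intro v hv hvK
    have hr : 0 < ‖v‖ := norm_pos_iff.mpr hv
    have hxv : x + v ∈ Metric.closedBall x ‖v‖ := by
      rw [Metric.mem_closedBall, dist_eq_norm]; simp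
    have h1 := hM Ω _ _ x ‖v‖ hΩ hwc hwl hwg hr (hvK.trans hball) (x + v) hxv x
      (Metric.mem_closedBall_self hr.le)
    have e1 : (u (x + v) + (-1) * L (x + v)) - (u x + (-1) * L x) = u (x + v) - u x - L v := by
      rw [map_add]; ring
    have h1' : ENNReal.ofReal |u (x + v) - u x - L v| ≤
        C * ENNReal.ofReal (‖v‖ ^ (1 - 4 / p.toReal)) *
        ∑ a, eLpNorm (fun y => (g y + (-1 : ℝ) • c) a) p
          (volume.restrict (Metric.closedBall x ‖v‖)) := by
      rw [← e1]; exact h1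
    set T : Fin 4 → ℝ := fun a => (2 ^ (p.toReal - 1) * (16 *
      ⨍ y in Metric.closedBall x ‖v‖,
        ‖F p.toReal K (fun x => g x a) y - F p.toReal K (fun x => g x a) x‖)) ^ (1 / p.toReal)
      with hT
    have hT0 : ∀ a, 0 ≤ T a := by
      intro a
      rw [hT]
      apply Real.rpow_nonneg
      have : 0 ≤ ⨍ y in Metric.closedBall x ‖v‖,
          ‖F p.toReal K (fun x => g x a) y - F p.toReal K (fun x => g x a) x‖ := by
        rw [setAverage_eq]
        exact smul_nonneg (by positivity) (integral_nonneg fun y => norm_nonneg _)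
      positivity
    have h2 : ∑ a, eLpNorm (fun y => (g y + (-1 : ℝ) • c) a) p
        (volume.restrict (Metric.closedBall x ‖v‖)) ≤
        ENNReal.ofReal (‖v‖ ^ (4 / p.toReal) * ∑ a, T a) := by
      rw [Finset.mul_sum, ENNReal.ofReal_sum_of_nonneg (fun a _ =>
        mul_nonneg (by positivity) (hT0 a))]
      refine Finset.sum_le_sum fun a _ => ?_
      have e2 : (fun y => (g y + (-1 : ℝ) • c) a) = fun y => g y a - g x a := by
        funext y; simp [hc]; ring
      rw [e2]
      exact est hp1 hpt hKm (hgK a) hr hvK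
    have h3 : ENNReal.ofReal |u (x + v) - u x - L v| ≤
        ENNReal.ofReal (C.toReal * ‖v‖ ^ (1 - 4 / p.toReal) * (‖v‖ ^ (4 / p.toReal) * ∑ a, T a)) := by
      refine h1'.trans ?_
      rw [ENNReal.ofReal_mul (by positivity), ENNReal.ofReal_mul (by positivity),
        ENNReal.ofReal_toReal hC]
      gcongr
    have hTs : 0 ≤ ∑ a, T a := Finset.sum_nonneg fun a _ => hT0 a
    have h4 := (ENNReal.ofReal_le_ofReal_iff (by positivity)).mp h3
    refine h4.trans (le_of_eq ?_)
    have e3 : ‖v‖ ^ (1 - 4 / p.toReal) * ‖v‖ ^ (4 / p.toReal) = ‖v‖ := by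
      rw [← Real.rpow_add hr]; simp
    calc C.toReal * ‖v‖ ^ (1 - 4 / p.toReal) * (‖v‖ ^ (4 / p.toReal) * ∑ a, T a)
        = C.toReal * (∑ a, T a) * (‖v‖ ^ (1 - 4 / p.toReal) * ‖v‖ ^ (4 / p.toReal)) := by ring
      _ = _ := by rw [e3]
  rw [hasFDerivAt_iff_isLittleO_nhds_zero, Asymptotics.isLittleO_iff]
  intro ε hε
  have h1 : ∀ᶠ r : ℝ in 𝓝[>] 0, η r ≤ ε ∧ Metric.closedBall x r ⊆ K := by
    have := hηlim.eventually (Iic_mem_nhds hε)
    filter_upwards [this, hsmall] with r h1 h2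
    exact ⟨h1, h2⟩
  rw [eventually_nhdsWithin_iff, Metric.eventually_nhds_iff] at h1
  obtain ⟨δ, hδ, hδ2⟩ := h1
  rw [Metric.eventually_nhds_iff]
  refine ⟨δ, hδ, fun v hv => ?_⟩
  rw [dist_zero_right] at hv
  by_cases hv0 : v = 0
  · subst hv0; simp
  · have hr : 0 < ‖v‖ := norm_pos_iff.mpr hv0
    have h2 := hδ2 (y := ‖v‖) (by simpa using hv) hr
    rw [Real.norm_eq_abs]
    exact (hmain v hv0 h2.2).trans (mul_le_mul_of_nonneg_right h2.1 (norm_nonneg _))

end Pool.Agent.SYH
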