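import Pool.Agent.SYH.Mol
import Pool.Agent.SYH.DivB

/-!
# SYH/LC: a continuous function with vanishing weak gradient is locally constant

Let `closedBall x r ⊆ Ω`, `S = closedBall x r`.  For `δ < r / 2` and `z ∈ ball x (r/2)`: `closedBall z δ ⊆ S`, so
`mol_div` gives `pd a (mol δ (S.indicator u)) z = 0` for all `a`; hence `mol δ (S.indicator u)` is constant on the convex
set `ball x (r/2)`.  Let `δ → 0` (`mol_close`): `u` is constant there.
-/

open MeasureTheory Set Filter Topology
open scoped ContDiff Matrix ENNReal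

namespace Pool.Agent.SYH

theorem locConst {Ω : Set R4} (hΩ : IsOpen Ω) {u : R4 → ℝ} (hu : ContinuousOn u Ω)
    (h : WG Ω u (fun _ => 0)) {x : R4} (hx : x ∈ Ω) : ∀ᶠ y in 𝓝 x, u y = u x := by
  obtain ⟨r, hr, hball⟩ := Metric.nhds_basis_closedBall.mem_iff.1 (hΩ.mem_nhds hx)
  set S : Set R4 := Metric.closedBall x r with hS
  have hSm : MeasurableSet S := Metric.isClosed_closedBall.measurableSet
  have hI : IntegrableOn u S := (hu.mono hball).integrableOn_compact (isCompact_closedBall x r)
  have hF : Integrable (S.indicator u) := (integrable_indicator_iff hSm).2 hI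
  have hg : ∀ a : Fin 4, LpL 1 Ω (fun _ => (0 : R4) a) := fun a => LpL.zero
  have hdiv := (WG.iff_div hΩ hu hg).1 h
  -- the partial derivatives vanish
  have hpd : ∀ δ : ℝ, 0 < δ → δ < r / 2 → ∀ z ∈ Metric.ball x (r / 2), ∀ a,
      pd a (mol δ (S.indicator u)) z = 0 := by
    intro δ hδ hδr z hz a
    rw [Metric.mem_ball] at hz
    have hcb : Metric.closedBall z δ ⊆ S := by
      intro t ht
      rw [Metric.mem_closedBall] at ht
      rw [hS, Metric.mem_closedBall]
      linarith [dist_triangle t z x]
    have hw : ∀ b, IntegrableOn (fun y => (u y • (Pi.single a 1 : R4)) b) S := by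
      intro b
      have := hI.mul_const ((Pi.single a 1 : R4) b)
      exact this
    have h1 := mol_div (Ω := Ω) (S := S) (w := fun y => u y • (Pi.single a 1 : R4))
      (c := fun _ => (0 : R4) a) hδ hSm hw (by simp) hcb
      (hcb.trans hball) (hdiv a)
    have h0 : ∀ y : R4, mol δ (fun _ => 0) y = 0 := by
      intro y; simp [mol]
    have h2 : mol δ (S.indicator fun _ => (0 : R4) a) z = 0 := by
      have e : (S.indicator fun _ => (0 : R4) a) = fun _ => (0 : ℝ) := by
        funext y; simp [Set.indicator]
      rw [e, h0]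
    rw [h2] at h1
    have h3 : ∀ b ∈ Finset.univ, b ≠ a →
        pd b (mol δ (S.indicator fun y => (u y • (Pi.single a 1 : R4)) b)) z = 0 := by
      intro b _ hb
      have e : (S.indicator fun y => (u y • (Pi.single a 1 : R4)) b) = fun _ => (0 : ℝ) := by
        funext y
        simp [Set.indicator, hb]
      have e2 : mol δ (fun _ => (0 : ℝ)) = fun _ => (0 : ℝ) := funext h0
      rw [e, e2]
      simp [pd]
    rw [Finset.sum_eq_single a h3 (fun h => absurd (Finset.mem_univ a) h)] at h1
    have e : (S.indicator fun y => (u y • (Pi.single a 1 : R4)) a) = S.indicator u := by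
      congr 1
      funext y
      simp
    rw [e] at h1
    exact h1
  have hconst : ∀ δ : ℝ, 0 < δ → δ < r / 2 → ∀ z ∈ Metric.ball x (r / 2),
      mol δ (S.indicator u) z = mol δ (S.indicator u) x := by
    intro δ hδ hδr z hz
    have hsm := mol_smooth δ hF.locallyIntegrable
    have hd : DifferentiableOn ℝ (mol δ (S.indicator u)) (Metric.ball x (r / 2)) :=
      (hsm.differentiable (by simp)).differentiableOn
    have hz0 : ∀ z ∈ Metric.ball x (r / 2), fderiv ℝ (mol δ (S.indicator u)) z = 0 := by
      intro z hz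
      ext v
      rw [fderiv_eq_sum]
      simp [hpd δ hδ hδr z hz]
    exact Metric.isOpen_ball.is_const_of_fderiv_eq_zero (convex_ball x (r / 2)).isPreconnected hd
      hz0 hz (Metric.mem_ball_self (by positivity))
  have hclose : ∀ z ∈ Metric.ball x (r / 2), ∀ ε > 0, ∃ δ0 > 0, ∀ δ, 0 < δ → δ ≤ δ0 →
      |mol δ (S.indicator u) z - u z| ≤ ε := by
    intro z hz ε hε
    rw [Metric.mem_ball] at hz
    have hzS : z ∈ S := by rw [hS, Metric.mem_closedBall]; linarith
    have hc : ContinuousAt u z := hu.continuousAt (hΩ.mem_nhds (hball hzS))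
    obtain ⟨d, hd, hcd⟩ := Metric.continuousAt_iff.1 hc ε hε
    refine ⟨min d (r / 2), lt_min hd (by positivity), fun δ hδ hδ0 => ?_⟩
    have h1 : S.indicator u z = u z := Set.indicator_of_mem hzS u
    rw [← h1]
    refine mol_close hδ hF.locallyIntegrable fun t ht => ?_
    have ht1 : ‖t‖ < d := lt_of_lt_of_le ht (hδ0.trans (min_le_left _ _))
    have ht2 : ‖t‖ < r / 2 := lt_of_lt_of_le ht (hδ0.trans (min_le_right _ _))
    have h2 : dist (z - t) z < d := by
      rw [dist_eq_norm, sub_sub_cancel_left, norm_neg]; exact ht1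
    have h3 : z - t ∈ S := by
      rw [hS, Metric.mem_closedBall]
      have h4 : dist (z - t) z < r / 2 := by
        rw [dist_eq_norm, sub_sub_cancel_left, norm_neg]; exact ht2
      linarith [dist_triangle (z - t) z x]
    rw [h1, Set.indicator_of_mem h3]
    have := hcd h2
    rw [Real.dist_eq] at this
    exact this.le
  have hmem : Metric.ball x (r / 2) ∈ 𝓝 x := Metric.ball_mem_nhds x (by positivity)
  filter_upwards [hmem] with z hz
  have hxb : x ∈ Metric.ball x (r / 2) := Metric.mem_ball_self (by positivity)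
  by_contra hne
  have hpos : 0 < |u z - u x| := abs_pos.2 (sub_ne_zero.2 hne)
  obtain ⟨d1, hd1, H1⟩ := hclose z hz (|u z - u x| / 4) (by positivity)
  obtain ⟨d2, hd2, H2⟩ := hclose x hxb (|u z - u x| / 4) (by positivity)
  set δ := min (min d1 d2) (r / 4) with hδ
  have hδ0 : 0 < δ := lt_min (lt_min hd1 hd2) (by positivity)
  have e1 := H1 δ hδ0 ((min_le_left _ _).trans (min_le_left _ _))
  have e2 := H2 δ hδ0 ((min_le_left _ _).trans (min_le_right _ _))
  have e3 := hconst δ hδ0 (lt_of_le_of_lt (min_le_right _ _) (by linarith)) z hz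
  rw [e3] at e1
  have e4 : |u z - u x| ≤ |u z - u x| / 2 := by
    have h5 : u z - u x = -(mol δ (S.indicator u) x - u z) + (mol δ (S.indicator u) x - u x) := by
      ring
    calc |u z - u x| = |-(mol δ (S.indicator u) x - u z) + (mol δ (S.indicator u) x - u x)| := by
          rw [← h5]
      _ ≤ |-(mol δ (S.indicator u) x - u z)| + |mol δ (S.indicator u) x - u x| := abs_add_le _ _
      _ ≤ |u z - u x| / 4 + |u z - u x| / 4 := by
          rw [abs_neg]; exact add_le_add e1 e2
      _ = |u z - u x| / 2 := by ring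
  linarith

end Pool.Agent.SYH
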