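import Pool.Agent.SYH.Prs
import Pool.Agent.SYH.PoL
import Pool.Agent.SYH.LC

/-!
# SYH/LEx: closed forms are locally exact; functions with zero differential are locally constant

`local_exact`: `m ∈ V`, chart `i ∋ m`, `closedBall (x i m) R ⊆ D i V`; `poincare_Lp` gives `f_i`; `N = (x i).source ∩
x i ⁻¹' (ball (x i m) R)`, open, `N ⊆ V`; `f = f_i ∘ x i`.  In the chart `i` itself: `D i N = ball ..`.  In the chart `j`:
`f ∘ (x j).symm = f_i ∘ tr j i` on `D j N`, `chW` for `e = tr j i`, `Ω' = ball ∩ D i (x j).source`; gradient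
`(G j i)ᵀ α_i (tr j i) = α_j` a.e. by compatibility (`A1.cp`).
`local_const`: `locConst` in a chart, `x i` is continuous.
-/

open MeasureTheory Set Filter Topology
open scoped ContDiff Matrix ENNReal

namespace Pool.Agent.SYH

namespace Atl

variable {p : ℝ≥0∞} {M : Type*} [TopologicalSpace M] {ι : Type*} {A : Atl p M ι}
  {V : Set M} {f : M → ℝ} {α : ι → R4 → R4}

theorem local_exact (hV : IsOpen V) (h : A.Cl V α) {m : M} (hm : m ∈ V) :
    ∃ N, IsOpen N ∧ m ∈ N ∧ N ⊆ V ∧ ∃ f, A.A0 N f α := by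
  obtain ⟨i, hi⟩ := A.cov m
  have hz : A.x i m ∈ A.D i V := A.x_mem_D hi hm
  have hDo : IsOpen (A.D i V) := A.D_open i hV
  obtain ⟨R, hR, hs⟩ := Metric.nhds_basis_closedBall.mem_iff.1 (hDo.mem_nhds hz)
  obtain ⟨F, hFc, hFw⟩ := poincare_Lp A.hp A.hpt hDo hR hs (h.a1.lp i) (h.curl i)
  have hN : IsOpen ((A.x i).source ∩ A.x i ⁻¹' Metric.ball (A.x i m) R) :=
    (A.x i).isOpen_inter_preimage Metric.isOpen_ball
  have hNV : (A.x i).source ∩ A.x i ⁻¹' Metric.ball (A.x i m) R ⊆ V := by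
    rintro m' ⟨h1, h2⟩
    have h3 := hs (Metric.ball_subset_closedBall h2)
    have h4 := (A.mem_D.1 h3).2
    rwa [(A.x i).left_inv h1] at h4
  refine ⟨_, hN, ⟨hi, Metric.mem_ball_self hR⟩, hNV, fun m' => F (A.x i m'), ?_, ?_, ?_⟩
  · refine hFc.comp ((A.x i).continuousOn.mono inter_subset_left) ?_
    rintro m' ⟨_, h2⟩
    exact Metric.ball_subset_closedBall h2
  · intro j a
    exact (h.a1.lp j a).mono (A.D_mono j hNV)
  · intro j
    have hO : IsOpen (Metric.ball (A.x i m) R ∩ A.D i (A.x j).source) :=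
      Metric.isOpen_ball.inter (A.D_open i (A.x j).open_source)
    have ht : Metric.ball (A.x i m) R ∩ A.D i (A.x j).source ⊆ (A.tr j i).target := by
      rw [A.tr_target]
      exact inter_subset_right
    have hG : IsWD 2 (A.tr j i).source (A.tr j i) (A.G j i) := by
      rw [A.tr_source]
      exact A.isWD_two j i
    have hsub : Metric.ball (A.x i m) R ∩ A.D i (A.x j).source ⊆ A.D i V :=
      fun y hy => hs (Metric.ball_subset_closedBall hy.1)
    have h1 := chW (A.mpre j i) hG hO ht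
      (hFc.mono (fun y hy => Metric.ball_subset_closedBall hy.1))
      (fun a => ((h.a1.lp i a).exp A.two_le).mono hsub)
      (hFw.mono inter_subset_left)
    have hsub2 : A.D j ((A.x i).source ∩ A.x i ⁻¹' Metric.ball (A.x i m) R) ⊆
        (A.tr j i).source ∩ A.tr j i ⁻¹' (Metric.ball (A.x i m) R ∩ A.D i (A.x j).source) := by
      intro y hy
      obtain ⟨h2, h3, h4⟩ := A.mem_D.1 hy
      have h5 : y ∈ (A.tr j i).source := by
        rw [A.tr_source]
        exact A.mem_D.2 ⟨h2, h3⟩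
      refine ⟨h5, ?_, ?_⟩
      · rw [A.tr_apply]
        exact h4
      · rw [← A.tr_target]
        exact (A.tr j i).map_source h5
    refine (h1.mono hsub2).congr (fun y _ => ?_) ?_
    · rw [A.tr_apply]
    · filter_upwards [h.a1.cp j i] with y hy hy'
      have hs3 : (A.x i).source ∩ A.x i ⁻¹' Metric.ball (A.x i m) R ⊆ V ∩ (A.x i).source :=
        fun m' hm' => ⟨hNV hm', hm'.1⟩
      exact hy (A.D_mono j hs3 hy')

theorem local_const (hV : IsOpen V) (h : A.A0 V f (fun _ _ => 0)) {m : M} (hm : m ∈ V) :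
    ∀ᶠ m' in 𝓝 m, f m' = f m := by
  obtain ⟨i, hi⟩ := A.cov m
  have hz : A.x i m ∈ A.D i V := A.x_mem_D hi hm
  have hDo : IsOpen (A.D i V) := A.D_open i hV
  have hu : ContinuousOn (fun y => f ((A.x i).symm y)) (A.D i V) := by
    refine h.cont.comp ((A.x i).continuousOn_symm.mono ?_) ?_
    · intro y hy
      exact (A.mem_D.1 hy).1
    · intro y hy
      exact (A.mem_D.1 hy).2
  have h1 := locConst hDo hu (h.wg i) hz
  have h2 := ((A.x i).continuousAt hi).eventually h1
  have h3 := (A.x i).open_source.mem_nhds hi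
  filter_upwards [h2, h3] with m' hm1 hm2
  rw [(A.x i).left_inv hm2, (A.x i).left_inv hi] at hm1
  exact hm1

end Atl

end Pool.Agent.SYH
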