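import Pool.Agent.SYH.DfA

/-!
# SYH/MPr: symplectic Sobolev homeomorphisms (`p > 4`) preserve the volume

`Gᵀ J G = J` gives `det G ^ 2 = 1` (`det J = 1`), `|det G| = 1`.
(1) `volume A ≤ volume (e '' A)` for measurable `A ⊆ e.source`: let `A' ⊆ A` be (a measurable subset of full measure of) the
set of points where `e` is differentiable with derivative the matrix `G x`, and `Gᵀ J G = J` (`diff_ae` for the four
components, `HasFDerivAt` of a map into `Fin 4 → ℝ` componentwise).  Mathlib: `lintegral_abs_det_fderiv_eq_addHaar_image`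
on `A'` (`e` is injective there): `volume (e '' A') = ∫_{A'} |det| = volume A' = volume A`.
(2) apply (1) to `e.symm` and `e '' A` (measurable: `e.symm` is continuous on the open target):
`volume (e '' A) ≤ volume (e.symm '' (e '' A)) = volume A`.
-/

open MeasureTheory Set Filter Topology
open scoped ContDiff Matrix ENNReal

namespace Pool.Agent.SYH

private theorem det_J : J.det = 1 := by
  simp [J, Matrix.det_succ_row_zero, Fin.sum_univ_succ]
  rfl

theorem det_of_symp {G : Matrix (Fin 4) (Fin 4) ℝ} (h : Gᵀ * J * G = J) : |G.det| = 1 := by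
  have h1 := congrArg Matrix.det h
  rw [Matrix.det_mul, Matrix.det_mul, Matrix.det_transpose, det_J, mul_one] at h1
  have h2 : |G.det| * |G.det| = 1 := by rw [← abs_mul, h1, abs_one]
  nlinarith [abs_nonneg G.det]

private theorem le_image {p : ℝ≥0∞} (hp : 4 < p) (hpt : p ≠ ⊤) {e : OpenPartialHomeomorph R4 R4}
    (h : SobSymp p e) {A : Set R4} (hA : A ⊆ e.source) (hm : MeasurableSet A) :
    volume A ≤ volume (e '' A) := by
  obtain ⟨G, hG, hs⟩ := h
  have hd : ∀ b : Fin 4, ∀ᵐ x, x ∈ e.source → ∃ L : R4 →L[ℝ] ℝ,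
      HasFDerivAt (fun x => e x b) L x ∧ ∀ a, L (Pi.single a 1) = G x b a := fun b =>
    diff_ae hp hpt e.open_source ((continuous_apply b).comp_continuousOn e.continuousOn)
      (hG.lp b) (hG.wg b)
  have hd' := ae_all_iff.2 hd
  have hgood : ∀ᵐ x, x ∈ e.source → ∃ L : R4 →L[ℝ] R4, HasFDerivAt e L x ∧ |L.det| = 1 := by
    filter_upwards [hd', hs] with x h1 h2 hx
    choose L hL using fun b => h1 b hx
    refine ⟨ContinuousLinearMap.pi L, hasFDerivAt_pi.2 fun b => (hL b).1, ?_⟩
    have h3 : (ContinuousLinearMap.pi L).det = (G x).det := by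
      rw [ContinuousLinearMap.det, ← LinearMap.det_toMatrix']
      congr 1
      ext b a
      rw [LinearMap.toMatrix'_apply]
      have h4 := (hL b).2 a
      rw [← h4]
      rfl
    rw [h3]
    exact det_of_symp (h2 hx)
  -- a measurable set of full measure
  let T : Set R4 := toMeasurable volume
    {x | ¬ (x ∈ e.source → ∃ L : R4 →L[ℝ] R4, HasFDerivAt e L x ∧ |L.det| = 1)}
  have hT0 : volume T = 0 := by
    rw [measure_toMeasurable]
    exact hgood
  have hTm : MeasurableSet T := measurableSet_toMeasurable _ _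
  have hsub : ∀ x ∉ T, x ∈ e.source → ∃ L : R4 →L[ℝ] R4, HasFDerivAt e L x ∧ |L.det| = 1 := by
    intro x hx
    by_contra hc
    exact hx (subset_toMeasurable volume _ hc)
  have hA' : MeasurableSet (A \ T) := hm.diff hTm
  have hvol : volume (A \ T) = volume A := measure_sdiff_null hT0
  have h1 := lintegral_abs_det_fderiv_eq_addHaar_image volume hA' (f := e)
    (f' := fun x => fderiv ℝ e x) (fun x hx => by
      obtain ⟨L, hL, _⟩ := hsub x hx.2 (hA hx.1)
      exact hL.differentiableAt.hasFDerivAt.hasFDerivWithinAt)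
    (e.injOn.mono fun x hx => hA hx.1)
  have h2 : ∫⁻ x in A \ T, ENNReal.ofReal |(fderiv ℝ e x).det| = ∫⁻ x in A \ T, 1 := by
    refine setLIntegral_congr_fun hA' fun x hx => ?_
    obtain ⟨L, hL, hL1⟩ := hsub x hx.2 (hA hx.1)
    simp only [hL.fderiv, hL1, ENNReal.ofReal_one]
  rw [h2, setLIntegral_one] at h1
  rw [← hvol, h1]
  exact measure_mono (image_mono sdiff_subset)

theorem mpre {p : ℝ≥0∞} (hp : 4 < p) (hpt : p ≠ ⊤) {e : OpenPartialHomeomorph R4 R4}
    (h : SobSymp p e) (h' : SobSymp p e.symm) : MPre e := by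
  intro A hA hm
  refine le_antisymm ?_ (le_image hp hpt h hA hm)
  have h1 : MeasurableSet (e '' A) :=
    hm.image_of_continuousOn_injOn (e.continuousOn.mono hA) (e.injOn.mono hA)
  have h2 : e '' A ⊆ e.symm.source := by
    rintro _ ⟨x, hx, rfl⟩
    exact e.map_source (hA hx)
  have h3 := le_image hp hpt h' h2 h1
  have h4 : e.symm '' (e '' A) = A := by
    rw [image_image]
    have : ∀ x ∈ A, e.symm (e x) = x := fun x hx => e.left_inv (hA hx)
    rw [image_congr this, image_id']
  rwa [h4] at h3

end Pool.Agent.SYH
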