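import Pool.Agent.SYH.Par

/-!
# SYH/NoG: there is no global primitive on a compact space

`partition`: `χ_k`, `β_k`, charts `c_k`, supports `T_k`, `Σ χ_k = 1`.  `stokes` for each `k` in the chart `c_k`, summed:
`Σ_k ∫_{D c_k} pair (β_k, λ) + 2 Σ_k ∫_{D c_k} χ_k = 0`.
In the chart `c_k`: `pair (β_k, λ) = Σ_l χ_l pair (β_k, λ)`, and (`swap_chart`) since the integrand `χ_l pair (β_k, λ)` vanishes
a.e. off `T_k ∩ T_l`: `∫_{D c_k} χ_l pair (β_k, λ) = ∫_{D c_k (x c_l).source} = ∫_{D c_l (x c_k).source} =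
∫_{D c_l} χ_l pair (β_k, λ)` (`int_comp` for `tr`, `pair_inv`, `symm_tr`, `A0.zero_of_const`).
Sum over `k` first: `Σ_k β_k = 0` a.e. (`A0.zero_of_const` for `Σ χ_k = 1`), so the first sum is `0`.  Hence
`Σ_k ∫ χ_k = 0`; but `χ_k ≥ 0` are continuous and not all zero (`M` nonempty, `Σ χ_k = 1`): contradiction.
-/

open MeasureTheory Set Filter Topology
open scoped ContDiff Matrix ENNReal

namespace Pool.Agent.SYH

namespace Atl

variable {p : ℝ≥0∞} {M : Type*} [TopologicalSpace M] [T2Space M] {ι : Type*} {A : Atl p M ι}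

theorem swap_chart {α β γ : ι → R4 → R4} {χ ρ : M → ℝ} {T S : Set M} {i j : ι}
    (hα : A.A1 univ α) (hχ : A.A0 univ χ β) (hρ : A.A0 univ ρ γ)
    (hT : IsCompact T) (hs : T ⊆ (A.x i).source) (h0 : ∀ m ∉ T, χ m = 0)
    (hS : IsCompact S) (hs' : S ⊆ (A.x j).source) (h0' : ∀ m ∉ S, ρ m = 0) :
    ∫ y in A.D i univ, ρ ((A.x i).symm y) * pair (β i y) (α i y) =
      ∫ y in A.D j univ, ρ ((A.x j).symm y) * pair (β j y) (α j y) := by
  have m1 : MeasurableSet (A.D i univ) := (A.D_open i isOpen_univ).measurableSet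
  have m2 : MeasurableSet (A.D j univ) := (A.D_open j isOpen_univ).measurableSet
  have m3 : MeasurableSet (A.D i (A.x j).source) := (A.D_open i (A.x j).open_source).measurableSet
  have m4 : MeasurableSet (A.D j (A.x i).source) := (A.D_open j (A.x i).open_source).measurableSet
  have e1 : ∫ y in A.D i univ, ρ ((A.x i).symm y) * pair (β i y) (α i y) =
      ∫ y in A.D i (A.x j).source, ρ ((A.x i).symm y) * pair (β i y) (α i y) := by
    apply setIntegral_eq_of_subset_of_forall_sdiff_eq_zero m1 (A.D_mono i (subset_univ _))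
    intro y hy
    have : (A.x i).symm y ∉ S := by
      intro h
      apply hy.2
      rw [A.mem_D]
      exact ⟨(A.mem_D.1 hy.1).1, hs' h⟩
    rw [h0' _ this, zero_mul]
  have e2 : ∫ y in A.D j univ, ρ ((A.x j).symm y) * pair (β j y) (α j y) =
      ∫ y in A.D j (A.x i).source, ρ ((A.x j).symm y) * pair (β j y) (α j y) := by
    apply setIntegral_eq_of_subset_of_ae_sdiff_eq_zero m2.nullMeasurableSet
      (A.D_mono j (subset_univ _))
    have h1 := A0.zero_of_const (A := A) isOpen_univ hχ (t := 0) hT.isClosed.isOpen_compl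
      (subset_univ _) (fun m hm => h0 m hm) j
    filter_upwards [h1] with y hy hy'
    have h2 : y ∈ A.D j Tᶜ := by
      rw [A.mem_D]
      refine ⟨(A.mem_D.1 hy'.1).1, fun h => hy'.2 ?_⟩
      rw [A.mem_D]
      exact ⟨(A.mem_D.1 hy'.1).1, hs h⟩
    rw [hy h2]
    simp [pair]
  rw [e1, e2]
  have h3 := int_comp (A.mpre i j) (B := A.D j (A.x i).source) m4 (by rw [A.tr_target])
    (fun y => ρ ((A.x j).symm y) * pair (β j y) (α j y))
  rw [← h3]
  have h4 : (A.tr i j).source ∩ A.tr i j ⁻¹' (A.D j (A.x i).source) = A.D i (A.x j).source := by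
    rw [← A.tr_target, ← A.tr_source]
    exact inter_eq_left.2 fun y hy => (A.tr i j).map_source hy
  rw [h4]
  refine setIntegral_congr_ae m3 ?_
  filter_upwards [pair_inv hα (hχ.a1 isOpen_univ) i j] with y hy hy'
  have h5 : pair (β i y) (α i y) = pair (β j (A.tr i j y)) (α j (A.tr i j y)) := by
    have h6 := hy hy'
    have h7 : ∀ u v : R4, pair u v = - pair v u := fun u v => by unfold pair; ring
    rw [h7, h6, ← h7]
  rw [h5, A.symm_tr hy']

private theorem A0_sum {n : ℕ} {χ : Fin n → M → ℝ} {β : Fin n → ι → R4 → R4}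
    (h : ∀ k, A.A0 univ (χ k) (β k)) (s : Finset (Fin n)) :
    A.A0 univ (fun m => ∑ k ∈ s, χ k m) (fun i y => ∑ k ∈ s, β k i y) := by
  classical
  induction s using Finset.induction_on with
  | empty => simpa using A0.const A univ 0
  | insert k s hk ih =>
    simp only [Finset.sum_insert hk]
    exact A0.add isOpen_univ (h k) ih

private theorem pair_sum {κ : Type*} (s : Finset κ) (u : κ → R4) (v : R4) :
    pair (∑ k ∈ s, u k) v = ∑ k ∈ s, pair (u k) v := by
  classical
  induction s using Finset.induction_on with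
  | empty => simp [pair]
  | insert k s hk ih =>
    rw [Finset.sum_insert hk, Finset.sum_insert hk, ← ih]
    simp only [pair, Pi.add_apply]
    ring

theorem no_global [CompactSpace M] [Nonempty M] (α : ι → R4 → R4) : ¬ A.Pr univ α := by
  intro hα
  obtain ⟨n, χ, β, c, T, hA, hpos, hsum, hT, h0⟩ := A.partition
  have hle : ∀ k m, χ k m ≤ 1 := by
    intro k m
    rw [← hsum m]
    exact Finset.single_le_sum (f := fun k => χ k m) (fun l _ => hpos l m) (Finset.mem_univ k)
  have hco : ∀ k i, ContinuousOn (fun y => χ k ((A.x i).symm y)) (A.D i univ) := by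
    intro k i
    exact ((hA k).cont.comp ((A.x i).continuousOn_symm.mono fun y hy => (A.mem_D.1 hy).1)
      fun y _ => mem_univ _)
  have mD : ∀ i, MeasurableSet (A.D i univ) := fun i => (A.D_open i isOpen_univ).measurableSet
  have hPI := fun k => pair_integrable hα.a1 (hA k) (hT k).1 (hT k).2 (h0 k)
  have hCI := fun k => chi_integrable (hA k) (hT k).1 (hT k).2 (h0 k)
  have hst : ∀ k, (∫ y in A.D (c k) univ, pair (β k (c k) y) (α (c k) y)) +
      2 * ∫ y in A.D (c k) univ, χ k ((A.x (c k)).symm y) = 0 := by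
    intro k
    have h1 := stokes hα (hA k) (hT k).1 (hT k).2 (h0 k)
    rw [integral_add (hPI k) ((hCI k).const_mul 2), integral_const_mul] at h1
    exact h1
  -- in the chart `c k`
  have h1 : ∀ k, (∫ y in A.D (c k) univ, pair (β k (c k) y) (α (c k) y)) =
      ∑ l, ∫ y in A.D (c k) univ, χ l ((A.x (c k)).symm y) * pair (β k (c k) y) (α (c k) y) := by
    intro k
    rw [← integral_finsetSum]
    · refine integral_congr_ae (Eventually.of_forall fun y => ?_)
      simp only
      rw [← Finset.sum_mul, hsum, one_mul]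
    · intro l _
      refine (hPI k).bdd_mul (c := 1) ((hco l (c k)).aestronglyMeasurable (mD _)) ?_
      refine Eventually.of_forall fun y => ?_
      rw [Real.norm_eq_abs, abs_of_nonneg (hpos _ _)]
      exact hle _ _
  have h2 : ∀ k l, ∫ y in A.D (c k) univ, χ l ((A.x (c k)).symm y) *
      pair (β k (c k) y) (α (c k) y) = ∫ y in A.D (c l) univ, χ l ((A.x (c l)).symm y) *
      pair (β k (c l) y) (α (c l) y) := fun k l =>
    swap_chart hα.a1 (hA k) (hA l) (hT k).1 (hT k).2 (h0 k) (hT l).1 (hT l).2 (h0 l)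
  have h3 : ∀ l, ∑ k, ∫ y in A.D (c l) univ, χ l ((A.x (c l)).symm y) *
      pair (β k (c l) y) (α (c l) y) = 0 := by
    intro l
    rw [← integral_finsetSum]
    · have hz := A0.zero_of_const (A := A) (W := univ) isOpen_univ (A0_sum hA Finset.univ) (t := 1)
        isOpen_univ (subset_univ _) (fun m _ => hsum m) (c l)
      have : (0 : ℝ) = ∫ y in A.D (c l) univ, (0 : ℝ) := by simp
      rw [this]
      refine setIntegral_congr_ae (mD _) ?_
      filter_upwards [hz] with y hy hy'
      rw [← Finset.mul_sum, ← pair_sum, hy hy']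
      simp [pair]
    · intro k _
      exact mul_pair_integrable hα.a1 ((hA k).a1 isOpen_univ) (hA l) (hT l).1 (hT l).2 (h0 l)
  have h4 : ∑ k, ∫ y in A.D (c k) univ, pair (β k (c k) y) (α (c k) y) = 0 := by
    rw [Finset.sum_congr rfl fun k _ => (h1 k).trans (Finset.sum_congr rfl fun l _ => h2 k l)]
    rw [Finset.sum_comm]
    exact Finset.sum_eq_zero fun l _ => h3 l
  have h5 : ∑ k, ∫ y in A.D (c k) univ, χ k ((A.x (c k)).symm y) = 0 := by
    have h6 : ∑ k, ((∫ y in A.D (c k) univ, pair (β k (c k) y) (α (c k) y)) +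
      2 * ∫ y in A.D (c k) univ, χ k ((A.x (c k)).symm y)) = 0 :=
      Finset.sum_eq_zero fun k _ => hst k
    rw [Finset.sum_add_distrib, h4, ← Finset.mul_sum] at h6
    linarith
  have h6 : ∀ k, ∫ y in A.D (c k) univ, χ k ((A.x (c k)).symm y) = 0 := by
    intro k
    exact (Finset.sum_eq_zero_iff_of_nonneg fun k _ => integral_nonneg fun y => hpos _ _).1 h5 k
      (Finset.mem_univ k)
  obtain ⟨m0⟩ := ‹Nonempty M›
  have h7 : ∀ k, χ k m0 = 0 := by
    intro k
    by_contra hne
    have hm : m0 ∈ T k := by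
      by_contra h
      exact hne (h0 k m0 h)
    have hms := (hT k).2 hm
    have h8 := (setIntegral_eq_zero_iff_of_nonneg_ae
      (Eventually.of_forall fun y => hpos k ((A.x (c k)).symm y)) (hCI k)).1 (h6 k)
    have h9 := Measure.eqOn_open_of_ae_eq h8 (A.D_open (c k) isOpen_univ) (hco k (c k))
      continuousOn_const
    have h10 := h9 (A.x_mem_D hms (mem_univ _))
    simp only [Pi.zero_apply] at h10
    rw [(A.x (c k)).left_inv hms] at h10
    exact hne h10
  have h8 := hsum m0
  simp only [h7, Finset.sum_const_zero] at h8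
  exact zero_ne_one h8

end Atl

end Pool.Agent.SYH
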