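import Pool.Agent.SYH.Cvx
import Pool.Agent.SYH.Sph
import Pool.Agent.SYH.NoG
import Pool.Agent.SYH.MPr

/-!
# SYH/Main: no symplectic Sobolev atlas on the four-sphere
-/

open MeasureTheory Set Filter Topology
open scoped ContDiff Matrix ENNReal

namespace Pool.Agent.SYH

theorem SobSymp.exp {p q : ℝ≥0∞} {e : OpenPartialHomeomorph R4 R4} (h : SobSymp p e) (hq : q ≤ p) :
    SobSymp q e := by
  obtain ⟨G, hG, hs⟩ := h
  exact ⟨G, ⟨fun b a => (hG.lp b a).exp hq, hG.wg⟩, hs⟩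

theorem no_atlas_fin {p : ℝ≥0∞} (hp : 4 < p) (hpt : p ≠ ⊤) {ι : Type*}
    (x : ι → OpenPartialHomeomorph S4 R4) (hc : ∀ m, ∃ i, m ∈ (x i).source)
    (ht : ∀ i j, SobSymp p ((x i).symm.trans (x j))) : False := by
  have hm : ∀ i j, MPre ((x i).symm.trans (x j)) := by
    intro i j
    refine mpre hp hpt (ht i j) ?_
    have h := ht j i
    rwa [OpenPartialHomeomorph.trans_symm_eq_symm_trans_symm, OpenPartialHomeomorph.symm_symm]
  choose G hG hs using ht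
  let A : Atl p S4 ι := ⟨hp, hpt, x, G, hc, hG, hs, hm⟩
  have : CompactSpace S4 := inferInstance
  have : Nonempty S4 := ⟨⟨EuclideanSpace.single 0 1, by simp⟩⟩
  obtain ⟨γ₁, γ₂, δ₁, δ₂, c1, i1, c2, i2, c3, i3, c4, i4, h1, h2, h3⟩ := sphere_decomp
  have k1 : IsCompact (γ₁ '' Bd 4) := (Bd_compact 4).image_of_continuousOn c1
  have k2 : IsCompact (γ₂ '' Bd 4) := (Bd_compact 4).image_of_continuousOn c2
  have k3 : IsCompact (δ₁ '' Bd 3) := (Bd_compact 3).image_of_continuousOn c3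
  have k4 : IsCompact (δ₂ '' Bd 3) := (Bd_compact 3).image_of_continuousOn c4
  have e1 : A.Ex1 (δ₁ '' Bd 3 ∪ δ₂ '' Bd 3) :=
    Atl.Ex1.union k3 k4 h3 (Atl.ex1_convex (Bd_compact 3) (Bd_convex 3) c3 i3)
      (Atl.ex1_convex (Bd_compact 3) (Bd_convex 3) c4 i4)
  have e2 : A.Ex2 (γ₁ '' Bd 4 ∪ γ₂ '' Bd 4) :=
    Atl.Ex2.union k1 k2 (Atl.ex2_convex (Bd_compact 4) (Bd_convex 4) c1 i1)
      (Atl.ex2_convex (Bd_compact 4) (Bd_convex 4) c2 i2) (h2 ▸ e1)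
  obtain ⟨V, -, hV, α, hα⟩ := e2
  rw [h1] at hV
  have hV' : V = univ := univ_subset_iff.1 hV
  subst hV'
  exact Atl.no_global α hα

theorem no_atlas {p : ℝ≥0∞} (hp : 4 < p) {ι : Type*} (x : ι → OpenPartialHomeomorph S4 R4)
    (hc : ∀ m, ∃ i, m ∈ (x i).source) (ht : ∀ i j, SobSymp p ((x i).symm.trans (x j))) : False := by
  by_cases hpt : p = ⊤
  · refine no_atlas_fin (p := 5) (by norm_num) (by norm_num) x hc fun i j => (ht i j).exp ?_
    rw [hpt]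
    exact le_top
  · exact no_atlas_fin hp hpt x hc ht

end Pool.Agent.SYH
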