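import Pool.Agent.SYH.Main
import Pool.Agent.SYH.SgM
import Pool.Agent.SYH.SgU
import Pool.Agent.SYH.SgA

/-!
# SYH/Main2: no atlas on the four-sphere with Sobolev transition maps with `φ^* ω₀ = ± ω₀`
-/

open MeasureTheory Set Filter Topology
open scoped ContDiff Matrix ENNReal

namespace Pool.Agent.SYH

theorem SobSympPM.exp {p q : ℝ≥0∞} {e : OpenPartialHomeomorph R4 R4} (h : SobSympPM p e)
    (hq : q ≤ p) : SobSympPM q e := by
  obtain ⟨G, hG, hs⟩ := h
  exact ⟨G, ⟨fun b a => (hG.lp b a).exp hq, hG.wg⟩, hs⟩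

theorem no_atlas_pm_fin {p : ℝ≥0∞} (hp : 4 < p) (hpt : p ≠ ⊤) {ι : Type*}
    (x : ι → OpenPartialHomeomorph S4 R4) (hc : ∀ m, ∃ i, m ∈ (x i).source)
    (ht : ∀ i j, SobSympPM p ((x i).symm.trans (x j))) : False := by
  have hm : ∀ i j, MPre ((x i).symm.trans (x j)) := by
    intro i j
    refine mpre_pm hp hpt (ht i j) ?_
    have h := ht j i
    rwa [OpenPartialHomeomorph.trans_symm_eq_symm_trans_symm, OpenPartialHomeomorph.symm_symm]
  choose G hG hs using ht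
  let A : AtlPM p S4 ι := ⟨hp, hpt, x, G, hc, hG, hs, hm⟩
  obtain ⟨ε, hε⟩ := triv_sphere (AtlPM.sys A)
  obtain ⟨x', hc', ht'⟩ := AtlPM.new_atlas hε
  exact no_atlas_fin hp hpt x' hc' ht'

theorem no_atlas_pm {p : ℝ≥0∞} (hp : 4 < p) {ι : Type*} (x : ι → OpenPartialHomeomorph S4 R4)
    (hc : ∀ m, ∃ i, m ∈ (x i).source) (ht : ∀ i j, SobSympPM p ((x i).symm.trans (x j))) :
    False := by
  by_cases hpt : p = ⊤
  · refine no_atlas_pm_fin (p := 5) (by norm_num) (by norm_num) x hc fun i j => (ht i j).exp ?_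
    rw [hpt]
    exact le_top
  · exact no_atlas_pm_fin hp hpt x hc ht

end Pool.Agent.SYH
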