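import Pool.Agent.SYH.Apx
import Pool.Agent.SYH.Mor

/-!
# SYH/MoW: Morrey's inequality for Sobolev functions

`apx` on `K = closedBall z r` with `q = p`, `morrey` for the approximations, `ε → 0`
(`eLpNorm (pd a v) ≤ eLpNorm (g a) + ε`).
-/

open MeasureTheory Set Filter Topology
open scoped ContDiff Matrix ENNReal

namespace Pool.Agent.SYH

theorem morreyW {p : ℝ≥0∞} (hp : 4 < p) (hpt : p ≠ ⊤) : ∃ C : ℝ≥0∞, C ≠ ⊤ ∧
    ∀ (Ω : Set R4) (u : R4 → ℝ) (g : R4 → R4) (z : R4) (r : ℝ), IsOpen Ω → ContinuousOn u Ω →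
      (∀ a, LpL p Ω (fun x => g x a)) → WG Ω u g → 0 < r → Metric.closedBall z r ⊆ Ω →
      ∀ x ∈ Metric.closedBall z r, ∀ y ∈ Metric.closedBall z r,
      ENNReal.ofReal |u x - u y| ≤ C * ENNReal.ofReal (r ^ (1 - 4 / p.toReal)) *
        ∑ a, eLpNorm (fun x => g x a) p (volume.restrict (Metric.closedBall z r)) := by
  obtain ⟨C, hC, hM⟩ := morrey hp hpt
  refine ⟨C, hC, ?_⟩
  intro Ω u g z r hΩ hu hg hwg hr hB x hx y hy
  have hp1 : 1 ≤ p := le_trans (by norm_num) hp.le
  set B := Metric.closedBall z r with hBd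
  have hK : IsCompact B := isCompact_closedBall z r
  set R := ENNReal.ofReal (r ^ (1 - 4 / p.toReal)) with hR
  set S := ∑ a, eLpNorm (fun x => g x a) p (volume.restrict B) with hS
  have hgm : ∀ a, MemLp (fun x => g x a) p (volume.restrict B) := fun a => hg a B hB hK
  have key : ∀ ε : ℝ, 0 < ε → ENNReal.ofReal |u x - u y| ≤
      C * R * (S + 4 * ENNReal.ofReal ε) + ENNReal.ofReal (2 * ε) := by
    intro ε hε
    obtain ⟨v, hv, hvu, hvg⟩ := apx hΩ hK hB hp1 hpt hu hg hwg hε
    have hv1 : ContDiff ℝ 1 v := hv.of_le (by exact_mod_cast le_top)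
    have h1 := hM v z r hv1 hr x hx y hy
    have h2 : ∀ a, eLpNorm (pd a v) p (volume.restrict B) ≤
        eLpNorm (fun x => g x a) p (volume.restrict B) + ENNReal.ofReal ε := by
      intro a
      have e : pd a v = (fun x => g x a) + (fun x => pd a v x - g x a) := by
        ext w; simp
      have hcm : AEStronglyMeasurable (pd a v) (volume.restrict B) :=
        ((hv1.continuous_fderiv (by norm_num)).clm_apply continuous_const).aestronglyMeasurable
      calc eLpNorm (pd a v) p (volume.restrict B)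
          = eLpNorm ((fun x => g x a) + (fun x => pd a v x - g x a)) p (volume.restrict B) := by
            rw [← e]
        _ ≤ _ := eLpNorm_add_le (hgm a).aestronglyMeasurable
            (hcm.sub (hgm a).aestronglyMeasurable) hp1
        _ ≤ _ := by gcongr; exact hvg a
    have h3 : ∑ a, eLpNorm (pd a v) p (volume.restrict B) ≤ S + 4 * ENNReal.ofReal ε := by
      refine (Finset.sum_le_sum fun a _ => h2 a).trans (le_of_eq ?_)
      rw [Finset.sum_add_distrib]
      simp [hS]
    have h4 : |u x - u y| ≤ |v x - v y| + 2 * ε := by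
      have e1 := abs_le.mp (hvu x hx)
      have e2 := abs_le.mp (hvu y hy)
      rw [abs_le]
      have e3 := neg_abs_le (v x - v y)
      have e4 := le_abs_self (v x - v y)
      constructor <;> linarith [e1.1, e1.2, e2.1, e2.2]
    calc ENNReal.ofReal |u x - u y| ≤ ENNReal.ofReal (|v x - v y| + 2 * ε) :=
          ENNReal.ofReal_le_ofReal h4
      _ = ENNReal.ofReal |v x - v y| + ENNReal.ofReal (2 * ε) :=
          ENNReal.ofReal_add (abs_nonneg _) (by positivity)
      _ ≤ _ := by
          gcongr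
          refine h1.trans ?_
          gcongr
  have hlim : Tendsto (fun ε : ℝ => C * R * (S + 4 * ENNReal.ofReal ε) + ENNReal.ofReal (2 * ε))
      (𝓝[>] 0) (𝓝 (C * R * (S + 4 * ENNReal.ofReal 0) + ENNReal.ofReal (2 * 0))) := by
    have hid : Tendsto (fun ε : ℝ => ε) (𝓝[>] 0) (𝓝 0) := tendsto_nhdsWithin_of_tendsto_nhds tendsto_id
    refine Tendsto.add (ENNReal.Tendsto.const_mul (Tendsto.add tendsto_const_nhds
      (ENNReal.Tendsto.const_mul (ENNReal.tendsto_ofReal hid) (Or.inr (by norm_num)))) (Or.inr ?_))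
      (ENNReal.tendsto_ofReal (hid.const_mul 2))
    exact ENNReal.mul_ne_top hC ENNReal.ofReal_ne_top
  have hfin := ge_of_tendsto hlim (by
    filter_upwards [self_mem_nhdsWithin] with ε hε
    exact key ε hε)
  simpa using hfin

end Pool.Agent.SYH
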