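import Pool.Agent.SYH.Bas

/-!
# SYH/Mol: mollification

`ker δ` is the normed bump function with radii `δ/2 < δ` (Mathlib `ContDiffBump.normed`).
`mol_smooth`: `HasCompactSupport.contDiff_convolution_left/right`.
`mol_close`: `mol δ f x - f x = ∫ ker δ t (f (x-t) - f x) dt`.
`mol_div`: for `closedBall x δ ⊆ S ∩ Ω` the function `ψ y = ker δ (x - y)` is a test function on `Ω` with support in
`closedBall x δ`, `∂_a ψ (y) = -(∂_a ker δ)(x - y)`, and `∂_a (mol δ F) (x) = ∫ (∂_a ker δ)(x - y) F y dy`
(`HasCompactSupport.hasFDerivAt_convolution_left`); so `DivEq` gives the claim.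
-/

open MeasureTheory Set Filter Topology
open scoped ContDiff Matrix ENNReal

namespace Pool.Agent.SYH

/-- the mollifying kernel -/
noncomputable def ker (δ : ℝ) : R4 → ℝ :=
  if h : 0 < δ then
    (⟨δ / 2, δ, by positivity, by linarith⟩ : ContDiffBump (0 : R4)).normed volume
  else 0

/-- mollification -/
noncomputable def mol (δ : ℝ) (f : R4 → ℝ) (x : R4) : ℝ := ∫ t, ker δ t * f (x - t)

theorem ker_smooth (δ : ℝ) : ContDiff ℝ ∞ (ker δ) := by
  unfold ker
  split_ifs with h
  · exact ContDiffBump.contDiff_normed _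
  · exact contDiff_const

theorem ker_nonneg (δ : ℝ) (t : R4) : 0 ≤ ker δ t := by
  unfold ker
  split_ifs with h
  · exact ContDiffBump.nonneg_normed _ _
  · exact le_rfl

theorem ker_int {δ : ℝ} (h : 0 < δ) : ∫ t, ker δ t = 1 := by
  unfold ker
  rw [dif_pos h]
  exact ContDiffBump.integral_normed _

theorem ker_supp {δ : ℝ} {t : R4} (h : δ ≤ ‖t‖) : ker δ t = 0 := by
  unfold ker
  split_ifs with h0
  · rw [← Function.notMem_support, ContDiffBump.support_normed_eq]
    simpa using h
  · rfl

theorem ker_cpt (δ : ℝ) : HasCompactSupport (ker δ) := by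
  unfold ker
  split_ifs with h
  · exact ContDiffBump.hasCompactSupport_normed _
  · exact HasCompactSupport.zero

theorem ker_even (δ : ℝ) (t : R4) : ker δ (-t) = ker δ t := by
  unfold ker
  split_ifs with h
  · exact ContDiffBump.normed_neg _ _
  · rfl

theorem mol_eq (δ : ℝ) (f : R4 → ℝ) (x : R4) : mol δ f x = ∫ y, ker δ (x - y) * f y := by
  unfold mol
  rw [← integral_sub_left_eq_self (fun y => ker δ (x - y) * f y) volume x]
  simp

theorem mol_conv (δ : ℝ) (f : R4 → ℝ) :
    mol δ f = convolution f (ker δ) (ContinuousLinearMap.mul ℝ ℝ) volume := by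
  funext x
  rw [mol_eq, convolution_def]
  refine integral_congr_ae (ae_of_all _ fun y => ?_)
  simp [mul_comm]

theorem mol_smooth (δ : ℝ) {f : R4 → ℝ} (hf : LocallyIntegrable f) : ContDiff ℝ ∞ (mol δ f) := by
  rw [mol_conv]
  exact (ker_cpt δ).contDiff_convolution_right _ hf (ker_smooth δ)

theorem ker_integrable (δ : ℝ) : Integrable (ker δ) :=
  (ker_smooth δ).continuous.integrable_of_hasCompactSupport (ker_cpt δ)

theorem ker_mul_integrable (δ : ℝ) {f : R4 → ℝ} (hf : LocallyIntegrable f) (x : R4) :
    Integrable (fun t => ker δ t * f (x - t)) := by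
  have h := (ker_cpt δ).convolutionExists_right (ContinuousLinearMap.mul ℝ ℝ) hf
    (ker_smooth δ).continuous x
  have h2 := h.integrable.comp_sub_left x
  refine h2.congr (ae_of_all _ fun t => ?_)
  simp [mul_comm]

theorem mol_close {δ : ℝ} (h : 0 < δ) {f : R4 → ℝ} (hf : LocallyIntegrable f) {x : R4} {ε : ℝ}
    (he : ∀ t, ‖t‖ < δ → |f (x - t) - f x| ≤ ε) : |mol δ f x - f x| ≤ ε := by
  have h1 : mol δ f x - f x = ∫ t, ker δ t * (f (x - t) - f x) := by
    simp_rw [mul_sub]
    rw [integral_sub (ker_mul_integrable δ hf x) ((ker_integrable δ).mul_const _),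
      integral_mul_const, ker_int h, one_mul]
    rfl
  rw [h1]
  have h2 : ‖∫ t, ker δ t * (f (x - t) - f x)‖ ≤ ∫ t, ker δ t * ε := by
    refine norm_integral_le_of_norm_le ((ker_integrable δ).mul_const _)
      (ae_of_all _ fun t => ?_)
    rw [Real.norm_eq_abs, abs_mul, abs_of_nonneg (ker_nonneg δ t)]
    rcases lt_or_ge ‖t‖ δ with ht | ht
    · exact mul_le_mul_of_nonneg_left (he t ht) (ker_nonneg δ t)
    · rw [ker_supp ht]; simp
  rw [integral_mul_const, ker_int h, one_mul] at h2
  exact h2

theorem pd_mol (δ : ℝ) {f : R4 → ℝ} (hf : LocallyIntegrable f) (a : Fin 4) (x : R4) :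
    pd a (mol δ f) x = ∫ y, f y * pd a (ker δ) (x - y) := by
  unfold pd
  rw [mol_conv]
  have h1 := (ker_cpt δ).hasFDerivAt_convolution_right (ContinuousLinearMap.mul ℝ ℝ) hf
    ((ker_smooth δ).of_le (by norm_cast)) x
  rw [h1.fderiv, convolution_precompR_apply _ hf ((ker_cpt δ).fderiv ℝ)
    ((ker_smooth δ).continuous_fderiv (by simp))]
  rfl

theorem pd_ker_integrable (δ : ℝ) {f : R4 → ℝ} (hf : LocallyIntegrable f) (a : Fin 4) (x : R4) :
    Integrable (fun y => f y * pd a (ker δ) (x - y)) := by
  have hc : HasCompactSupport (pd a (ker δ)) := by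
    have := (ker_cpt δ).fderiv ℝ
    exact this.comp_left (g := fun L : R4 →L[ℝ] ℝ => L (Pi.single a 1)) (by simp)
  have hcont : Continuous (pd a (ker δ)) := by
    unfold pd
    exact ((ker_smooth δ).continuous_fderiv (by simp)).clm_apply continuous_const
  exact (hc.convolutionExists_right (ContinuousLinearMap.mul ℝ ℝ) hf hcont x).integrable

theorem mol_div {Ω S : Set R4} {w : R4 → R4} {c : R4 → ℝ} {δ : ℝ} {x : R4} (h : 0 < δ)
    (hS : MeasurableSet S) (hw : ∀ a, IntegrableOn (fun y => w y a) S) (hc : IntegrableOn c S)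
    (hb : Metric.closedBall x δ ⊆ S) (hb' : Metric.closedBall x δ ⊆ Ω) (hd : DivEq Ω w c) :
    ∑ a, pd a (mol δ (S.indicator (fun y => w y a))) x = mol δ (S.indicator c) x := by
  have hwi : ∀ a, LocallyIntegrable (S.indicator (fun y => w y a)) := fun a =>
    ((hw a).integrable_indicator hS).locallyIntegrable
  have hz : ∀ y, y ∉ Metric.closedBall x δ → ker δ (x - y) = 0 := by
    intro y hy
    apply ker_supp
    rw [Metric.mem_closedBall, dist_eq_norm, not_le] at hy
    rw [← norm_neg, neg_sub]
    exact hy.le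
  have hts : tsupport (fun y => ker δ (x - y)) ⊆ Metric.closedBall x δ := by
    apply closure_minimal _ Metric.isClosed_closedBall
    intro y hy
    by_contra hcon
    exact hy (hz y hcon)
  have hT : Test Ω (fun y => ker δ (x - y)) := by
    refine ⟨?_, ?_, hts.trans hb'⟩
    · exact (ker_smooth δ).comp (contDiff_const.sub contDiff_id)
    · exact HasCompactSupport.of_support_subset_isCompact (isCompact_closedBall x δ)
        ((subset_tsupport _).trans hts)
  have hpd : ∀ a y, pd a (fun y => ker δ (x - y)) y = - pd a (ker δ) (x - y) := by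
    intro a y
    unfold pd
    have h1 : HasFDerivAt (ker δ) (fderiv ℝ (ker δ) (x - y)) (x - y) :=
      ((ker_smooth δ).differentiable (by simp)).differentiableAt.hasFDerivAt
    have h2 : HasFDerivAt (fun y : R4 => x - y) (-(ContinuousLinearMap.id ℝ R4)) y :=
      (hasFDerivAt_id y).const_sub x
    have h3 := h1.comp y h2
    have h4 : HasFDerivAt (fun y => ker δ (x - y))
      ((fderiv ℝ (ker δ) (x - y)).comp (-(ContinuousLinearMap.id ℝ R4))) y := h3
    rw [h4.fderiv]
    simp
  have hpz : ∀ a y, y ∉ S → pd a (ker δ) (x - y) = 0 := by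
    intro a y hy
    have h1 : y ∉ tsupport (fun y => ker δ (x - y)) := fun hcon => hy (hb (hts hcon))
    have h2 : pd a (fun y => ker δ (x - y)) y = 0 := by
      unfold pd
      rw [fderiv_of_notMem_tsupport ℝ h1]
      rfl
    rw [hpd] at h2
    linarith
  have h1 := hd _ hT
  have h2 : (fun y => (∑ a, w y a * pd a (fun y => ker δ (x - y)) y) + c y * ker δ (x - y)) =
      fun y => ker δ (x - y) * S.indicator c y -
        ∑ a, S.indicator (fun y => w y a) y * pd a (ker δ) (x - y) := by
    funext y
    simp_rw [hpd]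
    by_cases hy : y ∈ S
    · simp only [indicator_of_mem hy, mul_neg, Finset.sum_neg_distrib]
      ring
    · simp only [indicator_of_notMem hy, hpz _ y hy, hz y (fun hcon => hy (hb hcon))]
      simp
  rw [h2, integral_sub, integral_finsetSum] at h1
  · simp_rw [pd_mol δ (hwi _)]
    rw [mol_eq]
    linarith
  · intro a _
    exact pd_ker_integrable δ (hwi a) a x
  · have := (ker_mul_integrable δ ((hc.integrable_indicator hS).locallyIntegrable) x).comp_sub_left x
    refine this.congr (ae_of_all _ fun y => ?_)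
    simp
  · exact integrable_finsetSum _ fun a _ => pd_ker_integrable δ (hwi a) a x

end Pool.Agent.SYH
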