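import Pool.Agent.SYH.A0s

/-!
# SYH/Prs: calculus of closed forms and primitives

`Pr.sub_pr`, `Pr.sub_exact`: `Curl.sub`, `Curl.of_wg`, `A1.sub`, `A0.a1`.  `Pr.loc`: `A1.loc`, `Curl.loc`.
-/

open MeasureTheory Set Filter Topology
open scoped ContDiff Matrix ENNReal

namespace Pool.Agent.SYH

namespace Atl

variable {p : ℝ≥0∞} {M : Type*} [TopologicalSpace M] {ι : Type*} {A : Atl p M ι}
  {V W : Set M} {f g : M → ℝ} {α β : ι → R4 → R4}

private theorem lpconst {Ω : Set R4} (c : ℝ) : LpL 1 Ω (fun _ => c) := by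
  intro K _ hK
  have : IsFiniteMeasure (volume.restrict K) := ⟨by simpa using hK.measure_lt_top⟩
  exact memLp_const _

theorem Cl.mono (h : A.Cl V α) (hs : W ⊆ V) : A.Cl W α :=
  ⟨h.a1.mono hs, fun i => (h.curl i).mono (A.D_mono i hs)⟩

theorem Pr.mono (h : A.Pr V α) (hs : W ⊆ V) : A.Pr W α :=
  ⟨h.a1.mono hs, fun i => (h.curl i).mono (A.D_mono i hs)⟩

theorem Pr.sub_pr (h : A.Pr V α) (h' : A.Pr V β) : A.Cl V (fun i y => α i y - β i y) := by
  refine ⟨h.a1.sub h'.a1, fun i => ?_⟩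
  have h1 := Curl.sub (h.curl i) (h'.curl i) (fun a => (h.a1.lp i a).exp A.one_le)
    (fun a => (h'.a1.lp i a).exp A.one_le) (fun a b => lpconst (J a b)) (fun a b => lpconst (J a b))
  have e : (fun _ : R4 => J - J) = (0 : R4 → Matrix (Fin 4) (Fin 4) ℝ) := by
    funext x
    exact sub_self J
  rw [e] at h1
  exact h1

theorem Pr.sub_exact (hV : IsOpen V) (h : A.Pr V α) (h' : A.A0 V f β) :
    A.Pr V (fun i y => α i y - β i y) := by
  refine ⟨h.a1.sub (h'.a1 hV), fun i => ?_⟩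
  have hβ : ∀ a, LpL 1 (A.D i V) (fun y => β i y a) := fun a => (h'.lp i a).exp A.one_le
  have h1 := Curl.sub (h.curl i) (Curl.of_wg hβ (h'.wg i))
    (fun a => (h.a1.lp i a).exp A.one_le) hβ (fun a b => lpconst (J a b))
    (fun a b => LpL.zero)
  have e : (fun x : R4 => J - (0 : R4 → Matrix (Fin 4) (Fin 4) ℝ) x) = fun _ => J := by
    funext x
    exact sub_zero J
  rw [e] at h1
  exact h1

theorem Pr.loc (hV : IsOpen V) (h : ∀ m ∈ V, ∃ O, IsOpen O ∧ m ∈ O ∧ A.Pr (O ∩ V) α) :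
    A.Pr V α := by
  have ha : A.A1 V α := A1.loc hV fun m hm => by
    obtain ⟨O, hO, hmO, hp⟩ := h m hm
    exact ⟨O, hO, hmO, hp.a1⟩
  refine ⟨ha, fun i => ?_⟩
  refine Curl.loc (fun a => (ha.lp i a).exp A.one_le) (fun a b => lpconst (J a b)) fun y hy => ?_
  rw [A.mem_D] at hy
  obtain ⟨O, hO, hmO, hp⟩ := h _ hy.2
  refine ⟨A.D i O, A.D_open i hO, A.mem_D.2 ⟨hy.1, hmO⟩, ?_⟩
  rw [← A.D_inter]
  exact hp.curl i

theorem Pr.congr (h : A.Pr V α) (hα : ∀ i, ∀ᵐ y, y ∈ A.D i V → β i y = α i y) : A.Pr V β :=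
  ⟨h.a1.congr hα, fun i => (h.curl i).congr (hα i) (Eventually.of_forall fun _ _ => rfl)⟩

end Atl

end Pool.Agent.SYH
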