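import Pool.Agent.SYH.Cut
import Pool.Agent.SYH.DvS
import Pool.Agent.SYH.Prs

/-!
# SYH/Par: the pairing of one-forms, and Stokes in one chart

`pair α β = Σ_{a,b} J_{ab} α_a β_b` (up to sign the Poisson bracket).  `pair_symp`: `Gᵀ J G = J` implies `G J Gᵀ = J`
(`J² = -1`, so `G⁻¹ = -J Gᵀ J`).
`stokes`: `λ` a primitive on `univ`, `χ` of class `A0` with compact support in the chart `i`:
`Curl` for `(a, b) = (0, 1)` and `(2, 3)`, added: `DivEq (D i univ) w 2` with `w = λ_1 e_0 - λ_0 e_1 + λ_3 e_2 - λ_2 e_3`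
(`DivEq.add`); `div_sob` with `ψ = χ ∘ (x i).symm` extended by zero (continuous with compact support: `χ = 0` off the
compact `T ⊆ (x i).source`): `∫ (Σ w_a β_a + 2 χ) = 0`, and `Σ_a w_a β_a = pair β λ` where
`pair β λ = β_0 λ_1 - β_1 λ_0 + β_2 λ_3 - β_3 λ_2`.  The integral over `tsupport ψ` equals the integral over `D i univ`
(`β_i = 0` a.e. on the open set `D i univ \ tsupport ψ`, where `χ ∘ (x i).symm = 0`: `WG.unique`).
`mul_pair_integrable`, `chi_integrable`: the integrand vanishes off the compact set `x i '' T`, and `α, β ∈ L²` on it.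
`pair_inv`: on `D i (x j).source`: `pair (β_i y) (λ_i y) = pair (β_j (tr i j y)) (λ_j (tr i j y))` a.e.
-/

open MeasureTheory Set Filter Topology
open scoped ContDiff Matrix ENNReal

namespace Pool.Agent.SYH

def pair (α β : R4) : ℝ := α 0 * β 1 - α 1 * β 0 + (α 2 * β 3 - α 3 * β 2)

private theorem pair_eq (α β : R4) : pair α β = α ⬝ᵥ (J *ᵥ β) := by
  simp [pair, J, dotProduct, Matrix.mulVec, Fin.sum_univ_four, Matrix.of_apply]
  ring

private theorem J_sq : J * J = -1 := by
  ext a b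
  fin_cases a <;> fin_cases b <;> simp [J, Matrix.mul_apply, Fin.sum_univ_four]

theorem pair_symp {G : Matrix (Fin 4) (Fin 4) ℝ} (h : Gᵀ * J * G = J) (α β : R4) :
    pair (Gᵀ *ᵥ α) (Gᵀ *ᵥ β) = pair α β := by
  have h1 : (-(J * Gᵀ * J)) * G = 1 := by
    calc (-(J * Gᵀ * J)) * G = -(J * (Gᵀ * J * G)) := by noncomm_ring
      _ = 1 := by rw [h, J_sq]; simp
  have h2 : G * (-(J * Gᵀ * J)) = 1 := mul_eq_one_comm.mp h1
  rw [mul_neg] at h2
  have h2' : G * (J * Gᵀ * J) = -1 := by rw [← h2]; simp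
  have h3 : G * J * Gᵀ = J := by
    have h4 : G * J * Gᵀ * (J * J) = -J := by
      calc G * J * Gᵀ * (J * J) = (G * (J * Gᵀ * J)) * J := by noncomm_ring
        _ = -J := by rw [h2']; simp
    rw [J_sq] at h4
    simpa using h4
  rw [pair_eq, pair_eq]
  have e1 : (Gᵀ *ᵥ α) ⬝ᵥ (J *ᵥ (Gᵀ *ᵥ β)) = α ⬝ᵥ ((G * J * Gᵀ) *ᵥ β) := by
    rw [Matrix.mul_assoc, ← Matrix.mulVec_mulVec, ← Matrix.mulVec_mulVec,
      Matrix.dotProduct_mulVec α, Matrix.mulVec_transpose]
  rw [e1, h3]

namespace Atl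

variable {p : ℝ≥0∞} {M : Type*} [TopologicalSpace M] [T2Space M] {ι : Type*}
  {A : Atl p M ι} {α β : ι → R4 → R4} {χ : M → ℝ} {T : Set M} {i j : ι}

theorem pair_inv (hα : A.A1 univ α) (hβ : A.A1 univ β) (i j : ι) :
    ∀ᵐ y, y ∈ A.D i (A.x j).source →
      pair (α i y) (β i y) = pair (α j (A.tr i j y)) (β j (A.tr i j y)) := by
  filter_upwards [hα.cp i j, hβ.cp i j, A.symp i j] with y h1 h2 h3 hy
  rw [univ_inter] at h1 h2
  rw [h1 hy, h2 hy, pair_symp (h3 hy)]

/-- the compact set `x i '' T` -/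
private theorem cpt_image (hT : IsCompact T) (hs : T ⊆ (A.x i).source) :
    IsCompact (A.x i '' T) := hT.image_of_continuousOn ((A.x i).continuousOn.mono hs)

private theorem image_sub (hs : T ⊆ (A.x i).source) : A.x i '' T ⊆ A.D i univ := by
  rintro _ ⟨m, hm, rfl⟩
  exact A.x_mem_D (hs hm) (mem_univ _)

private theorem mem_T (hs : T ⊆ (A.x i).source) {y : R4} (hy : y ∈ A.D i univ)
    (h : (A.x i).symm y ∈ T) : y ∈ A.x i '' T := by
  have h1 := (A.mem_D.1 hy).1
  exact ⟨_, h, (A.x i).right_inv h1⟩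

private theorem zero_off (hχ : A.A0 univ χ β) (hT : IsCompact T)
    (h0 : ∀ m ∉ T, χ m = 0) (hs : T ⊆ (A.x i).source) :
    ∀ᵐ y, y ∈ A.D i univ \ A.x i '' T → β i y = 0 := by
  have h1 := A0.zero_of_const (A := A) isOpen_univ hχ (t := 0) hT.isClosed.isOpen_compl
    (subset_univ _) (fun m hm => h0 m hm) i
  filter_upwards [h1] with y hy hy'
  apply hy
  rw [A.mem_D]
  refine ⟨(A.mem_D.1 hy'.1).1, fun h => hy'.2 (mem_T hs hy'.1 h)⟩

private theorem meas_D (i : ι) : MeasurableSet (A.D i univ) := (A.D_open i isOpen_univ).measurableSet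

theorem pair_integrable (hα : A.A1 univ α) (hχ : A.A0 univ χ β) (hT : IsCompact T)
    (hs : T ⊆ (A.x i).source) (h0 : ∀ m ∉ T, χ m = 0) :
    IntegrableOn (fun y => pair (β i y) (α i y)) (A.D i univ) := by
  have hK := cpt_image (A := A) hT hs
  have hKs := image_sub (A := A) hs
  have hb : ∀ a, LpL 2 (A.D i univ) (fun y => β i y a) := fun a => (hχ.lp i a).exp A.two_le
  have ha : ∀ a, LpL 2 (A.D i univ) (fun y => α i y a) := fun a => (hα.lp i a).exp A.two_le
  have hL : LpL 1 (A.D i univ) (fun y => pair (β i y) (α i y)) := by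
    unfold pair
    exact (((hb 0).mul (ha 1)).sub ((hb 1).mul (ha 0))).add
      (((hb 2).mul (ha 3)).sub ((hb 3).mul (ha 2)))
  have h1 : IntegrableOn (fun y => pair (β i y) (α i y)) (A.x i '' T) := by
    have := hL _ hKs hK
    rwa [memLp_one_iff_integrable] at this
  refine h1.of_ae_sdiff_eq_zero (meas_D i).nullMeasurableSet ?_
  filter_upwards [zero_off hχ hT h0 hs] with y hy hy'
  rw [hy hy']
  simp [pair]

theorem mul_pair_integrable {ρ : M → ℝ} {γ : ι → R4 → R4} (hα : A.A1 univ α) (hβ : A.A1 univ β)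
    (hρ : A.A0 univ ρ γ) (hT : IsCompact T) (hs : T ⊆ (A.x i).source) (h0 : ∀ m ∉ T, ρ m = 0) :
    IntegrableOn (fun y => ρ ((A.x i).symm y) * pair (β i y) (α i y)) (A.D i univ) := by
  have hK := cpt_image (A := A) hT hs
  have hKs := image_sub (A := A) hs
  have hb : ∀ a, LpL 2 (A.D i univ) (fun y => β i y a) := fun a => (hβ.lp i a).exp A.two_le
  have ha : ∀ a, LpL 2 (A.D i univ) (fun y => α i y a) := fun a => (hα.lp i a).exp A.two_le
  have hL : LpL 1 (A.D i univ) (fun y => pair (β i y) (α i y)) := by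
    unfold pair
    exact (((hb 0).mul (ha 1)).sub ((hb 1).mul (ha 0))).add
      (((hb 2).mul (ha 3)).sub ((hb 3).mul (ha 2)))
  have hc : ContinuousOn (fun y => ρ ((A.x i).symm y)) (A.D i univ) := by
    refine (hρ.cont.comp ((A.x i).continuousOn_symm.mono fun y hy => (A.mem_D.1 hy).1)
      fun y _ => mem_univ _)
  have hL2 := LpL.cont_mul (A.D_open i isOpen_univ) hc hL
  have h1 : IntegrableOn (fun y => ρ ((A.x i).symm y) * pair (β i y) (α i y)) (A.x i '' T) := by
    have := hL2 _ hKs hK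
    rwa [memLp_one_iff_integrable] at this
  refine h1.of_ae_sdiff_eq_zero (meas_D i).nullMeasurableSet ?_
  refine Eventually.of_forall fun y hy => ?_
  rw [h0 _ (fun h => hy.2 (mem_T hs hy.1 h)), zero_mul]

theorem chi_integrable (hχ : A.A0 univ χ β) (hT : IsCompact T)
    (hs : T ⊆ (A.x i).source) (h0 : ∀ m ∉ T, χ m = 0) :
    IntegrableOn (fun y => χ ((A.x i).symm y)) (A.D i univ) := by
  have hK := cpt_image (A := A) hT hs
  have hKs := image_sub (A := A) hs
  have hc : ContinuousOn (fun y => χ ((A.x i).symm y)) (A.D i univ) := by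
    refine (hχ.cont.comp ((A.x i).continuousOn_symm.mono fun y hy => (A.mem_D.1 hy).1)
      fun y _ => mem_univ _)
  have h1 : IntegrableOn (fun y => χ ((A.x i).symm y)) (A.x i '' T) :=
    (hc.mono hKs).integrableOn_compact hK
  refine h1.of_ae_sdiff_eq_zero (meas_D i).nullMeasurableSet ?_
  refine Eventually.of_forall fun y hy => ?_
  rw [h0 _ (fun h => hy.2 (mem_T hs hy.1 h))]

theorem stokes (hα : A.Pr univ α) (hχ : A.A0 univ χ β) (hT : IsCompact T)
    (hs : T ⊆ (A.x i).source) (h0 : ∀ m ∉ T, χ m = 0) :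
    ∫ y in A.D i univ, (pair (β i y) (α i y) + 2 * χ ((A.x i).symm y)) = 0 := by
  classical
  have hΩ : IsOpen (A.D i univ) := A.D_open i isOpen_univ
  have hK := cpt_image (A := A) hT hs
  have hKs := image_sub (A := A) hs
  have hc : ContinuousOn (fun y => χ ((A.x i).symm y)) (A.D i univ) := by
    refine (hχ.cont.comp ((A.x i).continuousOn_symm.mono fun y hy => (A.mem_D.1 hy).1)
      fun y _ => mem_univ _)
  set ψ : R4 → ℝ := (A.D i univ).indicator (fun y => χ ((A.x i).symm y)) with hψ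
  have hψ1 : ∀ y ∈ A.D i univ, ψ y = χ ((A.x i).symm y) := fun y hy => indicator_of_mem hy _
  have hψ0 : ∀ y ∉ A.x i '' T, ψ y = 0 := by
    intro y hy
    by_cases h : y ∈ A.D i univ
    · rw [hψ1 y h]
      exact h0 _ fun h' => hy (mem_T hs h h')
    · exact indicator_of_notMem h _
  have hψc : Continuous ψ := by
    rw [continuous_iff_continuousAt]
    intro y
    by_cases h : y ∈ A.D i univ
    · refine (hc.continuousAt (hΩ.mem_nhds h)).congr ?_
      filter_upwards [hΩ.mem_nhds h] with z hz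
      exact (hψ1 z hz).symm
    · have h' : y ∉ A.x i '' T := fun h' => h (hKs h')
      have : (fun _ => (0 : ℝ)) =ᶠ[𝓝 y] ψ := by
        filter_upwards [hK.isClosed.isOpen_compl.mem_nhds h'] with z hz
        exact (hψ0 z hz).symm
      exact continuousAt_const.congr this
  have hsup : Function.support ψ ⊆ A.x i '' T := by
    intro y hy
    by_contra h
    exact hy (hψ0 y h)
  have hts : tsupport ψ ⊆ A.x i '' T := closure_minimal hsup hK.isClosed
  have hψK : HasCompactSupport ψ := HasCompactSupport.of_support_subset_isCompact hK hsup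
  have ha : ∀ a, LpL 2 (A.D i univ) (fun y => α i y a) := fun a => (hα.a1.lp i a).exp A.two_le
  have ha1 : ∀ a, LpL 1 (A.D i univ) (fun y => α i y a) := fun a => (hα.a1.lp i a).exp A.one_le
  have hb : ∀ a, LpL 2 (A.D i univ) (fun y => β i y a) := fun a => (hχ.lp i a).exp A.two_le
  have hcomp : ∀ (q : ℝ≥0∞), (∀ a, LpL q (A.D i univ) (fun y => α i y a)) → ∀ b c a : Fin 4,
      LpL q (A.D i univ) (fun y => (α i y c • (Pi.single b 1 : R4) - α i y b • (Pi.single c 1 : R4) : R4) a) := by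
    intro q hq b c a
    have h1 := ((hq c).const_mul ((Pi.single b 1 : R4) a)).sub
      ((hq b).const_mul ((Pi.single c 1 : R4) a))
    refine h1.congr (Eventually.of_forall fun y _ => ?_)
    simp only [Pi.sub_apply, Pi.smul_apply, smul_eq_mul]
    ring
  have hJ : ∀ (q : ℝ≥0∞) (a b : Fin 4), LpL q (A.D i univ) (fun _ => J a b) := fun q a b =>
    LpL.of_cont hΩ continuousOn_const
  have hd := (hα.curl i 0 1).add (hα.curl i 2 3) (hcomp 1 ha1 0 1) (hcomp 1 ha1 2 3)
    (hJ 1 0 1) (hJ 1 2 3)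
  have hg : WG (A.D i univ) ψ (β i) :=
    (hχ.wg i).congr hψ1 (Eventually.of_forall fun _ _ => rfl)
  have hw2 : ∀ a : Fin 4, LpL 2 (A.D i univ) (fun y =>
      ((α i y 1 • (Pi.single 0 1 : R4) - α i y 0 • (Pi.single 1 1 : R4)) +
        (α i y 3 • (Pi.single 2 1 : R4) - α i y 2 • (Pi.single 3 1 : R4)) : R4) a) := fun a =>
    (hcomp 2 ha 0 1 a).add (hcomp 2 ha 2 3 a)
  have key := div_sob hΩ hw2 ((hJ 2 0 1).add (hJ 2 2 3)) hd hψc hψK (hts.trans hKs) hb hg
  have e1 : ∀ y, (∑ a, ((α i y 1 • (Pi.single 0 1 : R4) - α i y 0 • (Pi.single 1 1 : R4)) +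
        (α i y 3 • (Pi.single 2 1 : R4) - α i y 2 • (Pi.single 3 1 : R4)) : R4) a * β i y a) =
      pair (β i y) (α i y) := by
    intro y
    simp [Fin.sum_univ_four, pair]
    ring
  have e2 : J 0 1 + J 2 3 = 2 := by simp [J]; norm_num
  have h2 : ∫ y in A.D i univ, (pair (β i y) (α i y) + 2 * χ ((A.x i).symm y)) =
      ∫ y in A.x i '' T, (pair (β i y) (α i y) + 2 * ψ y) := by
    rw [setIntegral_eq_of_subset_of_ae_sdiff_eq_zero (meas_D i).nullMeasurableSet hKs]
    · refine setIntegral_congr_fun hK.measurableSet fun y hy => ?_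
      simp only [hψ1 y (hKs hy)]
    · filter_upwards [zero_off hχ hT h0 hs] with y hy hy'
      rw [hy hy', h0 _ (fun h => hy'.2 (mem_T hs hy'.1 h))]
      simp [pair]
  have h3 : ∫ y in A.x i '' T, (pair (β i y) (α i y) + 2 * ψ y) =
      ∫ y in tsupport ψ, (pair (β i y) (α i y) + 2 * ψ y) := by
    apply setIntegral_eq_of_subset_of_ae_diff_eq_zero hK.measurableSet.nullMeasurableSet hts
    set W : Set M := (A.x i).source ∩ A.x i ⁻¹' (tsupport ψ)ᶜ with hW
    have hWo : IsOpen W := (A.x i).isOpen_inter_preimage (isClosed_tsupport ψ).isOpen_compl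
    have hW0 : ∀ m ∈ W, χ m = 0 := by
      intro m hm
      have h1 : A.x i m ∈ A.D i univ := A.x_mem_D hm.1 (mem_univ _)
      have h2 := hψ1 _ h1
      rw [(A.x i).left_inv hm.1] at h2
      rw [← h2]
      exact image_eq_zero_of_notMem_tsupport hm.2
    have h1 := A0.zero_of_const (A := A) isOpen_univ hχ (t := 0) hWo (subset_univ _) hW0 i
    filter_upwards [h1] with y hy hy'
    have h4 : y ∈ A.D i W := by
      have h5 := (A.mem_D.1 (hKs hy'.1)).1
      rw [A.mem_D]
      refine ⟨h5, (A.x i).map_target h5, ?_⟩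
      rw [mem_preimage, (A.x i).right_inv h5]
      exact hy'.2
    rw [hy h4, image_eq_zero_of_notMem_tsupport hy'.2]
    simp [pair]
  rw [h2, h3, ← key]
  refine integral_congr_ae (Eventually.of_forall fun y => ?_)
  simp only [e1, e2]

end Atl

end Pool.Agent.SYH
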